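import Pool.Agent.Work.MP_74021c_co.Bd.B03

/-! Bundle of small proof modules (one section per former module). -/

section

set_option autoImplicit false
set_option maxRecDepth 100000

namespace DLow

theorem run3 : check pts 140 98 = true := by decide +kernel

end DLow

end

section

set_option autoImplicit false
set_option maxRecDepth 100000

namespace DLow

theorem run4 : check pts 238 239 = true := by decide +kernel

end DLow

end

section

set_option autoImplicit false
set_option maxRecDepth 100000

namespace DLow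

theorem runEnd : endT pts 0 462 15934 10000 = true := by decide +kernel

theorem pts_length : pts.length = 477 := by decide +kernel

end DLow

end

section

set_option autoImplicit false

namespace DLow

open Filter Topology

/-- From a finite certificate with strict inequalities to a point set in general position. -/
theorem perturb {n : ℕ} (z : Fin n → ℂ) (f : Fin n → ℝ) (c : ℝ) (hc : 0 < c) (p q : Fin n)
    (h : ∀ i j : Fin n, i < j → (f i - f j) ^ 2 < Complex.normSq (z i - z j) ∨
      ∃ a b : Fin n, 0 < cr (z i) (z a) (z j) ∧ 0 < cr (z i) (z j) (z b) ∧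
        0 < inc (z i) (z a) (z b) (z j))
    (hpq : p ≠ q) (hf : f p < f q)
    (hend : c ^ 2 * Complex.normSq (z p - z q) < (f q - f p) ^ 2) :
    ∃ (S : Finset ℂ) (p q : ℂ), GenPos S ∧ p ∈ S ∧ q ∈ S ∧ p ≠ q ∧ (Del S).Reachable p q ∧
      ∀ w : (Del S).Walk p q, c * dist p q < wlen w := by
  classical
  have hcont := pt_cont z
  -- eventually all the conditions hold
  have hpair : ∀ i j : Fin n, ∀ᶠ t in 𝓝[>] (0 : ℝ), i < j →
      ((f i - f j) ^ 2 < Complex.normSq (pt z t i - pt z t j) ∨
      ∃ a b : Fin n, 0 < cr (pt z t i) (pt z t a) (pt z t j) ∧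
        0 < cr (pt z t i) (pt z t j) (pt z t b) ∧
        0 < inc (pt z t i) (pt z t a) (pt z t b) (pt z t j)) := by
    intro i j
    by_cases hij : i < j
    · rcases h i j hij with h1 | ⟨a, b, h1, h2, h3⟩
      · have hg : Continuous (fun t => Complex.normSq (pt z t i - pt z t j)) :=
          Complex.continuous_normSq.comp ((hcont i).sub (hcont j))
        have h0 : (f i - f j) ^ 2 < (fun t => Complex.normSq (pt z t i - pt z t j)) 0 := by
          simp only [pt_zero]
          exact h1
        have h4 := (hg.tendsto 0).eventually (lt_mem_nhds h0)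
        filter_upwards [nhdsWithin_le_nhds h4] with t ht _
        exact Or.inl ht
      · have hcr : ∀ i j k : Fin n, Continuous (fun t => cr (pt z t i) (pt z t j) (pt z t k)) := by
          intro i j k
          unfold cr
          have e1 := hcont i
          have e2 := hcont j
          have e3 := hcont k
          fun_prop
        have hinc : ∀ i j k l : Fin n,
            Continuous (fun t => inc (pt z t i) (pt z t j) (pt z t k) (pt z t l)) := by
          intro i j k l
          unfold inc
          have e1 := hcont i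
          have e2 := hcont j
          have e3 := hcont k
          have e4 := hcont l
          have n1 : ∀ x y : Fin n, Continuous (fun t => Complex.normSq (pt z t x - pt z t y)) :=
            fun x y => Complex.continuous_normSq.comp ((hcont x).sub (hcont y))
          exact (((n1 l i).mul (hcr i j k)).sub ((hcr i l k).mul (n1 j i))).sub
            ((hcr i j l).mul (n1 k i))
        have g1 := ((hcr i a j).tendsto 0).eventually (lt_mem_nhds (a := (0 : ℝ)) (by
          simp only [pt_zero]; exact h1))
        have g2 := ((hcr i j b).tendsto 0).eventually (lt_mem_nhds (a := (0 : ℝ)) (by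
          simp only [pt_zero]; exact h2))
        have g3 := ((hinc i a b j).tendsto 0).eventually (lt_mem_nhds (a := (0 : ℝ)) (by
          simp only [pt_zero]; exact h3))
        filter_upwards [nhdsWithin_le_nhds g1, nhdsWithin_le_nhds g2, nhdsWithin_le_nhds g3]
          with t t1 t2 t3 _
        exact Or.inr ⟨a, b, t1, t2, t3⟩
    · exact Eventually.of_forall fun t h' => (hij h').elim
  have hendt : ∀ᶠ t in 𝓝[>] (0 : ℝ),
      c ^ 2 * Complex.normSq (pt z t p - pt z t q) < (f q - f p) ^ 2 := by
    have hg : Continuous (fun t => c ^ 2 * Complex.normSq (pt z t p - pt z t q)) :=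
      continuous_const.mul (Complex.continuous_normSq.comp ((hcont p).sub (hcont q)))
    have h0 : (fun t => c ^ 2 * Complex.normSq (pt z t p - pt z t q)) 0 < (f q - f p) ^ 2 := by
      simp only [pt_zero]
      exact hend
    have h4 := (hg.tendsto 0).eventually (gt_mem_nhds h0)
    exact nhdsWithin_le_nhds h4
  have hl : ∀ i j k : Fin n, ∀ᶠ t in 𝓝[>] (0 : ℝ), i ≠ j → i ≠ k → j ≠ k →
      cr (pt z t i) (pt z t j) (pt z t k) ≠ 0 := by
    intro i j k
    by_cases h1 : i ≠ j ∧ i ≠ k ∧ j ≠ k
    · filter_upwards [ev_cr z i j k h1.1 h1.2.1 h1.2.2] with t ht _ _ _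
      exact ht
    · exact Eventually.of_forall fun t a b c => (h1 ⟨a, b, c⟩).elim
  have hi : ∀ i j k l : Fin n, ∀ᶠ t in 𝓝[>] (0 : ℝ), i ≠ j → i ≠ k → i ≠ l → j ≠ k → j ≠ l →
      k ≠ l → inc (pt z t i) (pt z t j) (pt z t k) (pt z t l) ≠ 0 := by
    intro i j k l
    by_cases h1 : i ≠ j ∧ i ≠ k ∧ i ≠ l ∧ j ≠ k ∧ j ≠ l ∧ k ≠ l
    · filter_upwards [ev_inc z i j k l h1.1 h1.2.1 h1.2.2.1 h1.2.2.2.1 h1.2.2.2.2.1 h1.2.2.2.2.2]
        with t ht _ _ _ _ _ _
      exact ht
    · exact Eventually.of_forall fun t a b c d e f => (h1 ⟨a, b, c, d, e, f⟩).elim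
  have hall : ∀ᶠ t in 𝓝[>] (0 : ℝ), (∀ i j : Fin n, i < j →
      ((f i - f j) ^ 2 < Complex.normSq (pt z t i - pt z t j) ∨
      ∃ a b : Fin n, 0 < cr (pt z t i) (pt z t a) (pt z t j) ∧
        0 < cr (pt z t i) (pt z t j) (pt z t b) ∧
        0 < inc (pt z t i) (pt z t a) (pt z t b) (pt z t j))) ∧
      (c ^ 2 * Complex.normSq (pt z t p - pt z t q) < (f q - f p) ^ 2) ∧
      (∀ i j k : Fin n, i ≠ j → i ≠ k → j ≠ k → cr (pt z t i) (pt z t j) (pt z t k) ≠ 0) ∧
      ∀ i j k l : Fin n, i ≠ j → i ≠ k → i ≠ l → j ≠ k → j ≠ l →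
        k ≠ l → inc (pt z t i) (pt z t j) (pt z t k) (pt z t l) ≠ 0 := by
    refine Eventually.and ?_ (Eventually.and hendt (Eventually.and ?_ ?_))
    · exact eventually_all.2 fun i => eventually_all.2 fun j => hpair i j
    · exact eventually_all.2 fun i => eventually_all.2 fun j => eventually_all.2 fun k => hl i j k
    · exact eventually_all.2 fun i => eventually_all.2 fun j => eventually_all.2 fun k =>
        eventually_all.2 fun l => hi i j k l
  obtain ⟨t, h1, h2, h3, h4⟩ := hall.exists
  -- injectivity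
  have hneq : ∀ i j : Fin n, i < j → pt z t i ≠ pt z t j := by
    intro i j hij he
    rcases h1 i j hij with h5 | ⟨a, b, h5, -, -⟩
    · rw [he, sub_self, map_zero] at h5
      exact absurd h5 (not_lt.2 (sq_nonneg _))
    · rw [he] at h5
      unfold cr at h5
      simp at h5
  have hinj : Function.Injective (pt z t) := by
    intro i j he
    rcases lt_trichotomy i j with h5 | h5 | h5
    · exact (hneq i j h5 he).elim
    · exact h5
    · exact (hneq j i h5 he.symm).elim
  set S : Finset ℂ := Finset.univ.image (pt z t) with hS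
  have hmem : ∀ i, pt z t i ∈ S := fun i => by
    rw [hS]
    exact Finset.mem_image_of_mem _ (Finset.mem_univ i)
  have hmem' : ∀ w ∈ S, ∃ i, pt z t i = w := by
    intro w hw
    rw [hS, Finset.mem_image] at hw
    obtain ⟨i, -, hi⟩ := hw
    exact ⟨i, hi⟩
  -- the potential
  set F : ℂ → ℝ := fun w => if h : ∃ i, pt z t i = w then f h.choose else 0 with hF
  have hFi : ∀ i, F (pt z t i) = f i := by
    intro i
    have he : ∃ j, pt z t j = pt z t i := ⟨i, rfl⟩
    rw [hF]
    simp only [he, dif_pos]
    rw [hinj he.choose_spec]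
  have hlip : ∀ i j : Fin n, i < j → (Del S).Adj (pt z t i) (pt z t j) →
      |f i - f j| ≤ dist (pt z t i) (pt z t j) := by
    intro i j hij hadj
    obtain ⟨-, -, -, o, r, ho1, ho2, ho3⟩ := hadj
    rcases h1 i j hij with h5 | ⟨a, b, h5, h6, h7⟩
    · rw [Complex.dist_eq]
      apply abs_le_of_sq_le_sq _ (norm_nonneg _)
      rw [← Complex.normSq_eq_norm_sq]
      exact h5.le
    · exact (no_edge h5 h6 h7 ho1 ho2 (ho3 _ (hmem a)) (ho3 _ (hmem b))).elim
  have hLip : ∀ u v, (Del S).Adj u v → |F u - F v| ≤ dist u v := by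
    intro u v hadj
    obtain ⟨i, rfl⟩ := hmem' u hadj.2.1
    obtain ⟨j, rfl⟩ := hmem' v hadj.2.2.1
    rw [hFi, hFi]
    rcases lt_trichotomy i j with h5 | h5 | h5
    · exact hlip i j h5 hadj
    · exact (hadj.1 (by rw [h5])).elim
    · rw [abs_sub_comm, dist_comm]
      exact hlip j i h5 hadj.symm
  refine ⟨S, pt z t p, pt z t q, ⟨?_, ?_⟩, hmem p, hmem q, fun he => hpq (hinj he),
    reach S (hmem p) (hmem q), ?_⟩
  · intro a ha b hb c' hc' hab hac hbc hcol
    obtain ⟨i, rfl⟩ := hmem' a ha
    obtain ⟨j, rfl⟩ := hmem' b hb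
    obtain ⟨k, rfl⟩ := hmem' c' hc'
    exact h3 i j k (fun e => hab (by rw [e])) (fun e => hac (by rw [e])) (fun e => hbc (by rw [e]))
      (cr_of_collinear hcol)
  · intro a ha b hb c' hc' d hd hab hac had hbc hbd hcd hcirc
    obtain ⟨i, rfl⟩ := hmem' a ha
    obtain ⟨j, rfl⟩ := hmem' b hb
    obtain ⟨k, rfl⟩ := hmem' c' hc'
    obtain ⟨l, rfl⟩ := hmem' d hd
    obtain ⟨o, r, e1, e2, e3, e4⟩ := hcirc
    exact h4 i j k l (fun e => hab (by rw [e])) (fun e => hac (by rw [e]))
      (fun e => had (by rw [e])) (fun e => hbc (by rw [e])) (fun e => hbd (by rw [e]))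
      (fun e => hcd (by rw [e])) (inc_of_circle e1 e2 e3 e4)
  · intro w
    have h5 := walk_ge F hLip w
    rw [hFi, hFi] at h5
    refine lt_of_lt_of_le ?_ h5
    apply lt_of_pow_lt_pow_left₀ 2 (by linarith)
    rw [mul_pow, Complex.dist_eq, ← Complex.normSq_eq_norm_sq]
    exact h2

end DLow

end
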