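import Pool.Agent.Work.MP_74021c_co.Defs
import Pool.Agent.Work.MP_74021c_co.FDefs
import Pool.Agent.Work.MP_74021c_co.TMDefs
import Pool.Agent.Work.MP_74021c_co.G8a
import Pool.Agent.Work.MP_74021c_co.Cand
import Pool.Agent.Work.MP_74021c_co.TMSpec

/-! Bundle of small proof modules (one section per former module). -/

section

/-! Item G1: circle lemmas (helper50). -/

open Real Set

namespace DT

theorem circ_param {cy r : ℝ} (hr : 0 < r) (hc : |cy| < r) :
    |arcsin (cy / r)| < π / 2 ∧ r * sin (arcsin (cy / r)) = cy := by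
  have h := abs_lt.1 hc
  have h1 : -1 < cy / r := by
    rw [lt_div_iff₀ hr]
    linarith [h.1]
  have h2 : cy / r < 1 := by
    rw [div_lt_one hr]
    exact h.2
  constructor
  · rw [abs_lt]
    exact ⟨neg_pi_div_two_lt_arcsin.2 h1, arcsin_lt_pi_div_two.2 h2⟩
  · rw [sin_arcsin h1.le h2.le]
    field_simp

/-- an angle on the part of the circle above the height `-sin w` -/
theorem upper_angle {u v w : ℝ} (hw : |w| < π / 2) (h : u ^ 2 + v ^ 2 = 1) (hv : -sin w ≤ v) :
    ∃ ψ, -w ≤ ψ ∧ ψ ≤ π + w ∧ u = cos ψ ∧ v = sin ψ := by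
  obtain ⟨hw1, hw2⟩ := abs_lt.1 hw
  have hz : (⟨u, v⟩ : ℂ) ≠ 0 := by
    intro h0
    have h1 : u = 0 := congrArg Complex.re h0
    have h2 : v = 0 := congrArg Complex.im h0
    rw [h1, h2] at h
    norm_num at h
  have hn : ‖(⟨u, v⟩ : ℂ)‖ = 1 := by
    rw [Complex.norm_def, Complex.normSq_mk]
    rw [show u * u + v * v = 1 by linarith [h, sq u, sq v]]
    exact Real.sqrt_one
  set ψ := Complex.arg (⟨u, v⟩ : ℂ) with hψ
  have hc : u = cos ψ := by
    rw [hψ, Complex.cos_arg hz, hn, div_one]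
  have hs : v = sin ψ := by
    rw [hψ, Complex.sin_arg, hn, div_one]
  have b1 : -π < ψ := Complex.neg_pi_lt_arg _
  have b2 : ψ ≤ π := Complex.arg_le_pi _
  rw [hs, ← sin_neg] at hv
  rcases le_or_gt (-w) ψ with h1 | h1
  · refine ⟨ψ, h1, ?_, hc, hs⟩
    by_contra h2
    push Not at h2
    have h3 : sin (π - ψ) < sin (-w) :=
      sin_lt_sin_of_lt_of_le_pi_div_two (by linarith) (by linarith) (by linarith)
    rw [sin_pi_sub] at h3
    linarith
  · have h2 : ψ < -(π / 2) := by
      by_contra h2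
      push Not at h2
      have h3 : sin ψ < sin (-w) :=
        sin_lt_sin_of_lt_of_le_pi_div_two h2 (by linarith) h1
      linarith
    have h4 : sin ψ = sin (-π - ψ) := by
      rw [show -π - ψ = -(ψ + π) by ring, sin_neg, sin_add_pi, neg_neg]
    have h3 : -w ≤ -π - ψ := by
      by_contra h3
      push Not at h3
      have h5 : sin (-π - ψ) < sin (-w) :=
        sin_lt_sin_of_lt_of_le_pi_div_two (by linarith) (by linarith) h3
      rw [← h4] at h5
      linarith
    refine ⟨ψ + 2 * π, by linarith, by linarith, ?_, ?_⟩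
    · rw [cos_add_two_pi]; exact hc
    · rw [sin_add_two_pi]; exact hs

theorem upper_param {cx r w : ℝ} (hr : 0 < r) (hw : |w| < π / 2) {a : ℂ}
    (ha : dist (⟨cx, r * sin w⟩ : ℂ) a = r) (hpos : 0 ≤ a.im) :
    ∃ p, 0 ≤ p ∧ p ≤ π / 2 + w ∧ a.re = cx + r * cos (2 * p - w) ∧
      a.im = r * sin w + r * sin (2 * p - w) := by
  have h1 : (cx - a.re) ^ 2 + (r * sin w - a.im) ^ 2 = r ^ 2 := by
    have h2 := congrArg (fun x => x ^ 2) ha
    simp only [Complex.dist_eq_re_im] at h2
    rwa [Real.sq_sqrt (by positivity)] at h2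
  obtain ⟨ψ, k1, k2, k3, k4⟩ := upper_angle (u := (a.re - cx) / r)
    (v := (a.im - r * sin w) / r) hw
    (by
      rw [div_pow, div_pow, ← add_div, div_eq_one_iff_eq (by positivity)]
      linarith [h1])
    (by
      rw [le_div_iff₀ hr]
      linarith)
  rw [div_eq_iff hr.ne'] at k3 k4
  refine ⟨(ψ + w) / 2, by linarith, by linarith, ?_, ?_⟩
  · rw [show 2 * ((ψ + w) / 2) - w = ψ by ring]
    linarith
  · rw [show 2 * ((ψ + w) / 2) - w = ψ by ring]
    linarith

theorem lower_param {cx r w : ℝ} (hr : 0 < r) (hw : |w| < π / 2) {b : ℂ}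
    (hb : dist (⟨cx, r * sin w⟩ : ℂ) b = r) (hneg : b.im ≤ 0) :
    ∃ q, 0 ≤ q ∧ q ≤ π / 2 - w ∧ b.re = cx + r * cos (2 * q + w) ∧
      b.im = r * sin w - r * sin (2 * q + w) := by
  obtain ⟨p, h1, h2, h3, h4⟩ := upper_param (cx := cx) (w := -w) hr (by rwa [abs_neg])
    (a := ⟨b.re, -b.im⟩)
    (by
      refine Eq.trans ?_ hb
      rw [Complex.dist_eq_re_im, Complex.dist_eq_re_im]
      congr 2
      simp only [sin_neg]
      ring)
    (by
      show 0 ≤ -b.im
      linarith)
  simp only [sin_neg, sub_neg_eq_add] at h3 h4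
  exact ⟨p, h1, by linarith, h3, by linarith⟩

theorem chord_aux {r α β : ℝ} : (r * cos α - r * cos β) ^ 2 + (r * sin α - r * sin β) ^ 2 =
    (2 * r * sin ((α - β) / 2)) ^ 2 := by
  have h1 := cos_sub α β
  have h2 := cos_sq' ((α - β) / 2)
  have h3 := cos_sq ((α - β) / 2)
  rw [show 2 * ((α - β) / 2) = α - β by ring] at h3
  have h4 := sin_sq_add_cos_sq α
  have h5 := sin_sq_add_cos_sq β
  have h6 : sin ((α - β) / 2) ^ 2 = 1 / 2 - (cos α * cos β + sin α * sin β) / 2 := by
    linarith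
  rw [mul_pow, h6]
  linear_combination r ^ 2 * h4 + r ^ 2 * h5

theorem chord_le {r x : ℝ} (hr : 0 < r) : (2 * r * sin x) ^ 2 ≤ (2 * r * |x|) ^ 2 := by
  rw [mul_pow, mul_pow (2 * r) |x|, ← sq_abs (sin x)]
  exact mul_le_mul_of_nonneg_left (pow_le_pow_left₀ (abs_nonneg _) abs_sin_le_abs 2)
    (by positivity)

theorem chord_up {cx r w p p' : ℝ} (hr : 0 < r) {a a' : ℂ}
    (h1 : a.re = cx + r * cos (2 * p - w)) (h2 : a.im = r * sin w + r * sin (2 * p - w))
    (h3 : a'.re = cx + r * cos (2 * p' - w)) (h4 : a'.im = r * sin w + r * sin (2 * p' - w)) :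
    dist a a' ≤ 2 * r * |p' - p| := by
  rw [Complex.dist_eq_re_im, h1, h2, h3, h4]
  refine Real.sqrt_le_iff.2 ⟨by positivity, ?_⟩
  have e := chord_aux (r := r) (α := 2 * p - w) (β := 2 * p' - w)
  rw [show (2 * p - w - (2 * p' - w)) / 2 = p - p' by ring] at e
  rw [abs_sub_comm]
  refine le_trans (le_of_eq ?_) (chord_le (x := p - p') hr)
  rw [← e]
  ring

theorem chord_low {cx r w q q' : ℝ} (hr : 0 < r) {b b' : ℂ}
    (h1 : b.re = cx + r * cos (2 * q + w)) (h2 : b.im = r * sin w - r * sin (2 * q + w))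
    (h3 : b'.re = cx + r * cos (2 * q' + w)) (h4 : b'.im = r * sin w - r * sin (2 * q' + w)) :
    dist b b' ≤ 2 * r * |q' - q| := by
  rw [Complex.dist_eq_re_im, h1, h2, h3, h4]
  refine Real.sqrt_le_iff.2 ⟨by positivity, ?_⟩
  have e := chord_aux (r := r) (α := 2 * q + w) (β := 2 * q' + w)
  rw [show (2 * q + w - (2 * q' + w)) / 2 = q - q' by ring] at e
  rw [abs_sub_comm]
  refine le_trans (le_of_eq ?_) (chord_le (x := q - q') hr)
  rw [← e]
  ring

theorem OnC.dist_ab {cx r w p q : ℝ} {a b : ℂ} (h : OnC cx r w p q a b) :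
    dist a b = 2 * r * sin (p + q) := by
  have hr := h.hr
  have h0 := h.hp0
  have h1 := h.hp1
  have h2 := h.hq0
  have h3 := h.hq1
  have hs : 0 ≤ sin (p + q) := sin_nonneg_of_nonneg_of_le_pi (by linarith) (by linarith)
  rw [Complex.dist_eq_re_im, h.are, h.aim, h.bre, h.bim]
  have e := chord_aux (r := r) (α := 2 * p - w) (β := -(2 * q + w))
  rw [show (2 * p - w - -(2 * q + w)) / 2 = p + q by ring, cos_neg, sin_neg] at e
  rw [← Real.sqrt_sq (show 0 ≤ 2 * r * sin (p + q) by positivity), ← e]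
  congr 1
  ring

end DT

end

section

/-!
# G10c: collinear sets
-/

open Set

namespace DT

/-- length of an appended walk -/
theorem walkLength_append {G : SimpleGraph Plane} {u v w : Plane} (W : G.Walk u v)
    (W' : G.Walk v w) : walkLength (W.append W') = walkLength W + walkLength W' := by
  induction W with
  | nil => simp [walkLength]
  | cons h W ih =>
    rw [SimpleGraph.Walk.cons_append]
    simp only [walkLength]
    rw [ih]
    ring

theorem spanner_collinear_aux {t : ℝ} (ht : 1 ≤ t) (S : Finset Plane) (n : ℕ) :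
    ∀ p ∈ S, ∀ q ∈ S, {s : Plane | s ∈ S ∧ Sbtw ℝ p s q}.ncard < n →
      ∃ W : (pathGraph S).Walk p q, walkLength W ≤ t * dist p q := by
  induction n with
  | zero => intro p _ q _ h; exact absurd h (Nat.not_lt_zero _)
  | succ n ih =>
    intro p hp q hq hn
    by_cases hpq : p = q
    · subst hpq
      exact ⟨SimpleGraph.Walk.nil, by simp [walkLength]⟩
    by_cases hs : ∃ s ∈ S, Sbtw ℝ p s q
    · obtain ⟨s, hsS, hsb⟩ := hs
      have hfin : {s : Plane | s ∈ S ∧ Sbtw ℝ p s q}.Finite :=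
        (S.finite_toSet).subset fun x hx => hx.1
      have h1 : {x : Plane | x ∈ S ∧ Sbtw ℝ p x s}.ncard < n := by
        refine lt_of_lt_of_le (Set.ncard_lt_ncard ?_ hfin) (Nat.lt_succ_iff.1 hn)
        refine ⟨fun x hx => ⟨hx.1, hsb.trans_left hx.2⟩, fun h => ?_⟩
        exact (h ⟨hsS, hsb⟩).2.ne_right rfl
      have h2 : {x : Plane | x ∈ S ∧ Sbtw ℝ s x q}.ncard < n := by
        refine lt_of_lt_of_le (Set.ncard_lt_ncard ?_ hfin) (Nat.lt_succ_iff.1 hn)
        refine ⟨fun x hx => ⟨hx.1, hsb.trans_right hx.2⟩, fun h => ?_⟩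
        exact (h ⟨hsS, hsb⟩).2.ne_left rfl
      obtain ⟨W1, hW1⟩ := ih p hp s hsS h1
      obtain ⟨W2, hW2⟩ := ih s hsS q hq h2
      refine ⟨W1.append W2, ?_⟩
      rw [walkLength_append, ← hsb.wbtw.dist_add_dist]
      nlinarith
    · push Not at hs
      have hadj : (pathGraph S).Adj p q := ⟨hpq, hp, hq, hs⟩
      refine ⟨SimpleGraph.Walk.cons hadj SimpleGraph.Walk.nil, ?_⟩
      simp only [walkLength]
      have := dist_nonneg (x := p) (y := q)
      nlinarith

theorem spanner_collinear {t : ℝ} (ht : 1 ≤ t) (S : Finset Plane)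
    (_h : Collinear ℝ (S : Set Plane)) : IsSpanner t S (pathGraph S) :=
  fun p hp q hq => spanner_collinear_aux ht S _ p hp q hq (Nat.lt_succ_self _)

end DT

end

section

/-!
# G2a: the range of the parameter `W` along a pencil of circles
-/

open Real Set

namespace DT

theorem W_range {κ k ω : ℝ} (hκ : |κ| < π / 2) (hk : |k| < cos κ) (hω : ω ∈ Ioo 0 π) :
    |W κ k ω| < π / 2 ∧ sin (W κ k ω) = k * sin ω + sin κ * cos ω ∧
    |W κ k ω - κ| ≤ ω ∧ |W κ k ω + κ| ≤ π - ω := by
  obtain ⟨hω0, hωπ⟩ := hω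
  obtain ⟨hκ1, hκ2⟩ := abs_lt.1 hκ
  obtain ⟨hk1, hk2⟩ := abs_lt.1 hk
  have hs : 0 < sin ω := sin_pos_of_pos_of_lt_pi hω0 hωπ
  have hup : k * sin ω + sin κ * cos ω < sin (κ + ω) := by
    rw [sin_add]; nlinarith
  have hlow : sin (κ - ω) < k * sin ω + sin κ * cos ω := by
    rw [sin_sub]; nlinarith
  have hv1 : k * sin ω + sin κ * cos ω < 1 := lt_of_lt_of_le hup (sin_le_one _)
  have hv0 : -1 < k * sin ω + sin κ * cos ω := lt_of_le_of_lt (neg_one_le_sin _) hlow
  have hW : sin (W κ k ω) = k * sin ω + sin κ * cos ω := sin_arcsin hv0.le hv1.le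
  have hW1 : W κ k ω < π / 2 := by
    unfold W
    exact arcsin_lt_pi_div_two.2 hv1
  have hW0 : -(π / 2) < W κ k ω := by
    unfold W
    exact neg_pi_div_two_lt_arcsin.2 hv0
  refine ⟨abs_lt.2 ⟨hW0, hW1⟩, hW, ?_, ?_⟩
  · refine abs_le.2 ⟨?_, ?_⟩
    · -- κ - ω ≤ W
      by_contra hc
      push Not at hc
      have h1 : W κ k ω < κ - ω := by linarith
      have h2 := sin_lt_sin_of_lt_of_le_pi_div_two hW0.le (by linarith) h1
      rw [hW] at h2
      linarith
    · by_contra hc
      push Not at hc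
      have h1 : κ + ω < W κ k ω := by linarith
      have h2 := sin_lt_sin_of_lt_of_le_pi_div_two (by linarith) hW1.le h1
      rw [hW] at h2
      linarith
  · refine abs_le.2 ⟨?_, ?_⟩
    · -- ω - π ≤ W + κ
      by_contra hc
      push Not at hc
      have h1 : W κ k ω < ω - κ - π := by linarith
      have h2 := sin_lt_sin_of_lt_of_le_pi_div_two hW0.le (by linarith) h1
      have h3 : sin (ω - κ - π) = sin (κ - ω) := by
        rw [sin_sub_pi, ← sin_neg]
        congr 1
        ring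
      rw [hW, h3] at h2
      linarith
    · by_contra hc
      push Not at hc
      have h1 : π - (κ + ω) < W κ k ω := by linarith
      have h2 := sin_lt_sin_of_lt_of_le_pi_div_two (by linarith) hW1.le h1
      rw [hW, sin_pi_sub] at h2
      linarith

end DT

end

section

/-!
# Derivative of the potential along a pencil of circles
-/

open Real Set

namespace DT

namespace G4a

theorem v_lt {κ k ω : ℝ} (_hκ : |κ| < π / 2) (hk : |k| < cos κ) :
    -1 < k * sin ω + sin κ * cos ω ∧ k * sin ω + sin κ * cos ω < 1 := by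
  have h1 : k ^ 2 < cos κ ^ 2 := by
    have h0 : (0 : ℝ) ≤ |k| := abs_nonneg k
    calc k ^ 2 = |k| ^ 2 := (sq_abs k).symm
      _ < cos κ ^ 2 := by
        apply pow_lt_pow_left₀ hk h0 (by norm_num)
  have h2 : sin κ ^ 2 + cos κ ^ 2 = 1 := sin_sq_add_cos_sq κ
  have h3 : sin ω ^ 2 + cos ω ^ 2 = 1 := sin_sq_add_cos_sq ω
  have h4 : (k * sin ω + sin κ * cos ω) ^ 2 < 1 := by
    have h5 : (k * sin ω + sin κ * cos ω) ^ 2 + (k * cos ω - sin κ * sin ω) ^ 2 =
        k ^ 2 + sin κ ^ 2 := by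
      linear_combination (k ^ 2 + sin κ ^ 2) * h3
    nlinarith [sq_nonneg (k * cos ω - sin κ * sin ω)]
  exact abs_lt.1 ((sq_lt_one_iff_abs_lt_one _).1 h4)

theorem W_facts {κ k ω : ℝ} (hκ : |κ| < π / 2) (hk : |k| < cos κ) :
    |W κ k ω| < π / 2 ∧ sin (W κ k ω) = k * sin ω + sin κ * cos ω ∧ 0 < cos (W κ k ω) := by
  obtain ⟨h1, h2⟩ := v_lt (ω := ω) hκ hk
  have h3 : W κ k ω < π / 2 := arcsin_lt_pi_div_two.2 h2
  have h4 : -(π / 2) < W κ k ω := neg_pi_div_two_lt_arcsin.2 h1
  exact ⟨abs_lt.2 ⟨h4, h3⟩, sin_arcsin h1.le h2.le, cos_pos_of_mem_Ioo ⟨h4, h3⟩⟩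

theorem W_der {κ k ω : ℝ} (hκ : |κ| < π / 2) (hk : |k| < cos κ) :
    HasDerivAt (fun ω => W κ k ω) ((k * cos ω - sin κ * sin ω) / cos (W κ k ω)) ω := by
  obtain ⟨h1, h2⟩ := v_lt (ω := ω) hκ hk
  have h3 := hasDerivAt_arcsin (x := k * sin ω + sin κ * cos ω) h1.ne' h2.ne
  have h4 : HasDerivAt (fun ω => k * sin ω + sin κ * cos ω) (k * cos ω + sin κ * (-sin ω)) ω :=
    ((hasDerivAt_sin ω).const_mul k).add ((hasDerivAt_cos ω).const_mul (sin κ))
  have h5 := h3.comp ω h4
  refine h5.congr_deriv ?_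
  have h6 : cos (W κ k ω) = √(1 - (k * sin ω + sin κ * cos ω) ^ 2) := cos_arcsin _
  rw [h6]
  ring

end G4a

open G4a in
/-- `Phi` for the functions of a piece has the derivative `-GG/(cos w sin^2)` -/
theorem hasDerivAt_Phi_piece {t lo hi : ℝ} {lam : ℝ → ℝ} {f : ℝ → ℝ → ℝ → ℝ}
    (P : Piece t lo hi lam f) {d κ k ω : ℝ} (hκ : |κ| < π / 2) (hk : |k| < cos κ)
    (hω : ω ∈ Ioo 0 π) :
    HasDerivAt (Phi t P.l P.g d κ k)
      (-(GG t (W κ k ω) ((ω + W κ k ω - κ) / 2) ((ω - W κ k ω + κ) / 2)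
        (P.g (W κ k ω) ((ω + W κ k ω - κ) / 2) ((ω - W κ k ω + κ) / 2))
        (P.gw (W κ k ω) ((ω + W κ k ω - κ) / 2) ((ω - W κ k ω + κ) / 2))
        (P.gp (W κ k ω) ((ω + W κ k ω - κ) / 2) ((ω - W κ k ω + κ) / 2))
        (P.gq (W κ k ω) ((ω + W κ k ω - κ) / 2) ((ω - W κ k ω + κ) / 2))
        (d * P.l' (W κ k ω))) / (cos (W κ k ω) * sin ω ^ 2)) ω := by
  obtain ⟨hW, hsin, hcos⟩ := W_facts (ω := ω) hκ hk
  have hso : 0 < sin ω := sin_pos_of_mem_Ioo hω
  have hWd := W_der (ω := ω) hκ hk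
  set W' : ℝ := (k * cos ω - sin κ * sin ω) / cos (W κ k ω) with hW'
  have hpd : HasDerivAt (fun ω => (ω + W κ k ω - κ) / 2) ((1 + W') / 2) ω :=
    (((hasDerivAt_id ω).add hWd).sub_const κ).div_const 2
  have hqd : HasDerivAt (fun ω => (ω - W κ k ω + κ) / 2) ((1 - W') / 2) ω :=
    (((hasDerivAt_id ω).sub hWd).add_const κ).div_const 2
  have hg := P.g_der ω (fun ω => W κ k ω) (fun ω => (ω + W κ k ω - κ) / 2)
    (fun ω => (ω - W κ k ω + κ) / 2) W' ((1 + W') / 2) ((1 - W') / 2) hW hWd hpd hqd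
  have hl : HasDerivAt (fun ω => P.l (W κ k ω) * d) (P.l' (W κ k ω) * W' * d) ω :=
    ((P.l_der _ hW).comp ω hWd).mul_const d
  have hc1 : HasDerivAt (fun ω => t * cos ω * cos κ) (t * (-sin ω) * cos κ) ω :=
    ((hasDerivAt_cos ω).const_mul t).mul_const (cos κ)
  have hc2 : HasDerivAt (fun ω => t * cos (W κ k ω)) (t * (-sin (W κ k ω) * W')) ω :=
    (hWd.cos).const_mul t
  have hnum := (hc1.sub hc2).add hg
  have hdiv := hnum.div (hasDerivAt_sin ω) hso.ne'
  have htot := hl.add hdiv
  refine (htot.congr_deriv ?_)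
  simp only [Pi.add_apply, Pi.sub_apply]
  -- the algebra
  set w := W κ k ω with hw
  set p := (ω + w - κ) / 2 with hp
  set q := (ω - w + κ) / 2 with hq
  have e1 : p + q = ω := by rw [hp, hq]; ring
  have e2 : p - q = w - κ := by rw [hp, hq]; ring
  have e3 : w - p + q = κ := by rw [hp, hq]; ring
  have hD : W' * cos w * sin ω = cos ω * sin w - sin κ := by
    have h1 : W' * cos w = k * cos ω - sin κ * sin ω := by
      rw [hW']
      exact div_mul_cancel₀ _ hcos.ne'
    rw [h1, hsin]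
    linear_combination (-sin κ) * (sin_sq_add_cos_sq ω)
  have hcc : cos (w - κ) = cos w * cos κ + sin w * sin κ := cos_sub w κ
  simp only [GG]
  rw [e1, e2, e3, hcc]
  have hs2 := sin_sq_add_cos_sq ω
  have hw2 := sin_sq_add_cos_sq w
  rw [eq_div_iff (mul_ne_zero hcos.ne' (pow_ne_zero 2 hso.ne')), add_mul]
  have hfrac : ∀ a : ℝ, a / sin ω ^ 2 * (cos w * sin ω ^ 2) = a * cos w := by
    intro a
    field_simp
  rw [hfrac]
  generalize P.g w p q = g at *
  generalize P.gw w p q = gw at *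
  generalize P.gp w p q = gp at *
  generalize P.gq w p q = gq at *
  generalize P.l' w = l' at *
  linear_combination (l' * d * sin ω + (t * sin w + gw + (gp - gq) / 2)) * hD
    - t * cos w * cos κ * hs2 + t * cos ω * hw2

end DT

end

section

/-!
# G8Aux: triangles, circumcircles, vertices, orientation (for G8a, G8b)
-/

open Real Set

namespace DT

namespace G8bAux

theorem mem_hull {a b c x : ℂ} (hab : a ≠ b) (hac : a ≠ c) (hbc : b ≠ c)
    (h : x ∈ convexHull ℝ (({a, b, c} : Finset ℂ) : Set ℂ)) :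
    ∃ α β γ : ℝ, 0 ≤ α ∧ 0 ≤ β ∧ 0 ≤ γ ∧ α + β + γ = 1 ∧
      x = (α : ℂ) * a + (β : ℂ) * b + (γ : ℂ) * c := by
  rw [Finset.mem_convexHull'] at h
  obtain ⟨w, h0, h1, h2⟩ := h
  have ha : a ∉ ({b, c} : Finset ℂ) := by simp [hab, hac]
  have hb : b ∉ ({c} : Finset ℂ) := by simp [hbc]
  refine ⟨w a, w b, w c, h0 _ (by simp), h0 _ (by simp), h0 _ (by simp), ?_, ?_⟩
  · rw [Finset.sum_insert ha, Finset.sum_insert hb, Finset.sum_singleton] at h1
    linarith
  · rw [Finset.sum_insert ha, Finset.sum_insert hb, Finset.sum_singleton] at h2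
    simp only [Complex.real_smul] at h2
    rw [← h2]
    ring

theorem dist_sq (x y : ℂ) : dist x y ^ 2 = (x.re - y.re) ^ 2 + (x.im - y.im) ^ 2 := by
  rw [Complex.dist_eq_re_im, Real.sq_sqrt (by positivity)]

theorem dist_eq_of_sq {x y z u : ℂ}
    (h : (x.re - y.re) ^ 2 + (x.im - y.im) ^ 2 = (z.re - u.re) ^ 2 + (z.im - u.im) ^ 2) :
    dist x y = dist z u := by
  rw [Complex.dist_eq_re_im, Complex.dist_eq_re_im, h]

/-- the circumcircle of a nondegenerate triangle -/
theorem circum {a b c : ℂ} (h : cr a b c ≠ 0) :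
    ∃ (o : ℂ) (r : ℝ), dist o a = r ∧ dist o b = r ∧ dist o c = r := by
  have hD : (b.re - a.re) * (c.im - a.im) - (b.im - a.im) * (c.re - a.re) ≠ 0 := by
    simpa [cr] using h
  obtain ⟨D, hDD⟩ : ∃ D, D = (b.re - a.re) * (c.im - a.im) - (b.im - a.im) * (c.re - a.re) :=
    ⟨_, rfl⟩
  rw [← hDD] at hD
  obtain ⟨U, hU⟩ : ∃ U, U = (b.re - a.re) ^ 2 + (b.im - a.im) ^ 2 := ⟨_, rfl⟩
  obtain ⟨V, hV⟩ : ∃ V, V = (c.re - a.re) ^ 2 + (c.im - a.im) ^ 2 := ⟨_, rfl⟩
  obtain ⟨X, hX⟩ : ∃ X, X = (U * (c.im - a.im) - V * (b.im - a.im)) / (2 * D) := ⟨_, rfl⟩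
  obtain ⟨Y, hY⟩ : ∃ Y, Y = (V * (b.re - a.re) - U * (c.re - a.re)) / (2 * D) := ⟨_, rfl⟩
  have hX' : 2 * D * X = U * (c.im - a.im) - V * (b.im - a.im) := by
    rw [hX]; field_simp
  have hY' : 2 * D * Y = V * (b.re - a.re) - U * (c.re - a.re) := by
    rw [hY]; field_simp
  -- the two linear equations
  have e1 : 2 * (X * (b.re - a.re) + Y * (b.im - a.im)) = U := by
    apply mul_left_cancel₀ hD
    linear_combination (b.re - a.re) * hX' + (b.im - a.im) * hY' - U * hDD
  have e2 : 2 * (X * (c.re - a.re) + Y * (c.im - a.im)) = V := by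
    apply mul_left_cancel₀ hD
    linear_combination (c.re - a.re) * hX' + (c.im - a.im) * hY' - V * hDD
  refine ⟨⟨a.re + X, a.im + Y⟩, dist (⟨a.re + X, a.im + Y⟩ : ℂ) a, rfl, ?_, ?_⟩
  · apply dist_eq_of_sq
    show (a.re + X - b.re) ^ 2 + (a.im + Y - b.im) ^ 2 =
      (a.re + X - a.re) ^ 2 + (a.im + Y - a.im) ^ 2
    linear_combination - e1 - hU
  · apply dist_eq_of_sq
    show (a.re + X - c.re) ^ 2 + (a.im + Y - c.im) ^ 2 =
      (a.re + X - a.re) ^ 2 + (a.im + Y - a.im) ^ 2
    linear_combination - e2 - hV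

/-- a point of a triangle which is not strictly inside the circumcircle is a vertex -/
theorem vertex_of {a b c p o : ℂ} {r α β γ : ℝ} (hab : a ≠ b) (hac : a ≠ c) (hbc : b ≠ c)
    (ha : dist o a = r) (hb : dist o b = r) (hc : dist o c = r) (hα : 0 ≤ α) (hβ : 0 ≤ β)
    (hγ : 0 ≤ γ) (hs : α + β + γ = 1) (hp : p = (α : ℂ) * a + (β : ℂ) * b + (γ : ℂ) * c)
    (hr : r ≤ dist o p) : p = a ∨ p = b ∨ p = c := by
  have hr0 : 0 ≤ r := by rw [← ha]; exact dist_nonneg
  have ea := dist_sq o a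
  have eb := dist_sq o b
  have ec := dist_sq o c
  have ep := dist_sq o p
  have dab := dist_sq a b
  have dac := dist_sq a c
  have dbc := dist_sq b c
  have hpre : p.re = α * a.re + β * b.re + γ * c.re := by
    rw [hp]; simp
  have hpim : p.im = α * a.im + β * b.im + γ * c.im := by
    rw [hp]; simp
  have hγ' : γ = 1 - α - β := by linarith
  have key : dist o p ^ 2 = r ^ 2 - (α * β * dist a b ^ 2 + α * γ * dist a c ^ 2 +
      β * γ * dist b c ^ 2) := by
    rw [ep, dab, dac, dbc, hpre, hpim]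
    rw [ha] at ea
    rw [hb] at eb
    rw [hc] at ec
    subst hγ'
    linear_combination - α * ea - β * eb - (1 - α - β) * ec
  have hsq : r ^ 2 ≤ dist o p ^ 2 := by
    exact pow_le_pow_left₀ hr0 hr 2
  have h1 : 0 ≤ α * β * dist a b ^ 2 := by positivity
  have h2 : 0 ≤ α * γ * dist a c ^ 2 := by positivity
  have h3 : 0 ≤ β * γ * dist b c ^ 2 := by positivity
  have z1 : α * β * dist a b ^ 2 = 0 := by linarith
  have z2 : α * γ * dist a c ^ 2 = 0 := by linarith
  have z3 : β * γ * dist b c ^ 2 = 0 := by linarith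
  have pab : dist a b ^ 2 ≠ 0 := pow_ne_zero _ (dist_ne_zero.2 hab)
  have pac : dist a c ^ 2 ≠ 0 := pow_ne_zero _ (dist_ne_zero.2 hac)
  have pbc : dist b c ^ 2 ≠ 0 := pow_ne_zero _ (dist_ne_zero.2 hbc)
  have w1 : α * β = 0 := by
    rcases mul_eq_zero.1 z1 with h | h
    · exact h
    · exact absurd h pab
  have w2 : α * γ = 0 := by
    rcases mul_eq_zero.1 z2 with h | h
    · exact h
    · exact absurd h pac
  have w3 : β * γ = 0 := by
    rcases mul_eq_zero.1 z3 with h | h
    · exact h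
    · exact absurd h pbc
  rcases mul_eq_zero.1 w1 with h | h
  · rcases mul_eq_zero.1 w3 with h' | h'
    · right; right
      have : γ = 1 := by linarith
      rw [hp, h, h', this]; simp
    · right; left
      have : β = 1 := by linarith
      rw [hp, h, h', this]; simp
  · rcases mul_eq_zero.1 w2 with h' | h'
    · right; right
      have : γ = 1 := by linarith
      rw [hp, h, h', this]; simp
    · left
      have : α = 1 := by linarith
      rw [hp, h, h', this]; simp

theorem cone {p a b q : ℂ} {ε β γ : ℝ} (hε : 0 < ε) (hβ : 0 ≤ β) (hγ : 0 ≤ γ)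
    (hre : ε * (q.re - p.re) = β * (a.re - p.re) + γ * (b.re - p.re))
    (him : ε * (q.im - p.im) = β * (a.im - p.im) + γ * (b.im - p.im))
    (hcr : 0 < cr p a b) : 0 ≤ cr p a q ∧ 0 ≤ cr p q b := by
  unfold cr at *
  simp only [Complex.sub_re, Complex.sub_im] at *
  constructor
  · have h : ε * ((a.re - p.re) * (q.im - p.im) - (a.im - p.im) * (q.re - p.re)) =
        γ * ((a.re - p.re) * (b.im - p.im) - (a.im - p.im) * (b.re - p.re)) := by
      linear_combination (a.re - p.re) * him - (a.im - p.im) * hre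
    have h0 : 0 ≤ ε * ((a.re - p.re) * (q.im - p.im) - (a.im - p.im) * (q.re - p.re)) := by
      rw [h]; exact mul_nonneg hγ hcr.le
    exact nonneg_of_mul_nonneg_right h0 hε
  · have h : ε * ((q.re - p.re) * (b.im - p.im) - (q.im - p.im) * (b.re - p.re)) =
        β * ((a.re - p.re) * (b.im - p.im) - (a.im - p.im) * (b.re - p.re)) := by
      linear_combination (b.im - p.im) * hre - (b.re - p.re) * him
    have h0 : 0 ≤ ε * ((q.re - p.re) * (b.im - p.im) - (q.im - p.im) * (b.re - p.re)) := by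
      rw [h]; exact mul_nonneg hβ hcr.le
    exact nonneg_of_mul_nonneg_right h0 hε

theorem cr_ne_zero_of_ne {a b c : ℂ} (h : cr a b c ≠ 0) : a ≠ b ∧ a ≠ c ∧ b ≠ c := by
  refine ⟨?_, ?_, ?_⟩
  · rintro rfl; apply h; simp [cr]
  · rintro rfl; apply h; simp [cr]
  · rintro rfl; apply h; simp [cr]; ring

theorem nondeg_of {a b c : ℂ} (hab : a ≠ b) (hac : a ≠ c) (hbc : b ≠ c)
    (h : AffineIndependent ℝ ((↑) : ({a, b, c} : Finset ℂ) → ℂ)) : cr a b c ≠ 0 := by
  intro h0
  -- the embedding of `Fin 3`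
  have ma : a ∈ ({a, b, c} : Finset ℂ) := by simp
  have mb : b ∈ ({a, b, c} : Finset ℂ) := by simp
  have mc : c ∈ ({a, b, c} : Finset ℂ) := by simp
  let f : Fin 3 → ({a, b, c} : Finset ℂ) := ![⟨a, ma⟩, ⟨b, mb⟩, ⟨c, mc⟩]
  have hf : Function.Injective f := by
    intro i j hij
    have hij' : ((f i : ({a, b, c} : Finset ℂ)) : ℂ) = f j := by rw [hij]
    fin_cases i <;> fin_cases j <;> simp_all [f]
  have h' := h.comp_embedding ⟨f, hf⟩
  have h'' : AffineIndependent ℝ ![a, b, c] := by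
    convert h' using 1
    ext i
    fin_cases i <;> simp [f]
  rw [affineIndependent_iff_not_collinear_set] at h''
  apply h''
  rw [collinear_iff_of_mem (p₀ := a) (by simp)]
  refine ⟨b - a, ?_⟩
  have hne : (b.re - a.re) ^ 2 + (b.im - a.im) ^ 2 ≠ 0 := by
    intro hz
    apply hab
    have h1 : (b.re - a.re) ^ 2 = 0 := by nlinarith [sq_nonneg (b.re - a.re), sq_nonneg (b.im - a.im)]
    have h2 : (b.im - a.im) ^ 2 = 0 := by nlinarith [sq_nonneg (b.re - a.re), sq_nonneg (b.im - a.im)]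
    apply Complex.ext
    · have := pow_eq_zero_iff (two_ne_zero) |>.1 h1
      linarith
    · have := pow_eq_zero_iff (two_ne_zero) |>.1 h2
      linarith
  intro z hz
  simp only [mem_insert_iff, mem_singleton_iff] at hz
  rcases hz with rfl | rfl | rfl
  · exact ⟨0, by simp⟩
  · exact ⟨1, by simp⟩
  · refine ⟨((z.re - a.re) * (b.re - a.re) + (z.im - a.im) * (b.im - a.im)) /
      ((b.re - a.re) ^ 2 + (b.im - a.im) ^ 2), ?_⟩
    unfold cr at h0
    simp only [Complex.sub_re, Complex.sub_im] at h0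
    apply Complex.ext
    · simp only [vadd_eq_add, Complex.add_re, Complex.smul_re, Complex.sub_re, smul_eq_mul]
      rw [div_mul_eq_mul_div, ← sub_eq_iff_eq_add, eq_div_iff hne]
      linear_combination (-(b.im - a.im)) * h0
    · simp only [vadd_eq_add, Complex.add_im, Complex.smul_im, Complex.sub_im, smul_eq_mul]
      rw [div_mul_eq_mul_div, ← sub_eq_iff_eq_add, eq_div_iff hne]
      linear_combination (b.re - a.re) * h0

end G8bAux

end DT

end

section

/-!
# Evaluation of the three inequalities on a cell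

`s = (4 a0 ± 4 ah) / 2^38`, `x = (x0 ± hx) / 2^38`, `y = (y0 ± hy) / 2^38`.
-/

namespace DT.TM

/-- coefficients of `Hc (C a)` -/
def kH0 : K9 := ⟨1152922045312147456, 1152921073106563072, 1152921505414582272, 1152921504606846976, 1152921355205435392, 1152921504606846976, 1152921504094023680, 1152921501626318848, 1152921504606846976, 1152921505239535616, 540705300481, 10376292958506999808⟩
def kH1 : K9 := ⟨1152922066863824896, 1152921566180085760, 1152921536691400704, 1152921494505115648, 1152921279118610432, 1152921580477702144, 1152921484184289280, 1152921561174667264, 1152921480467267584, 1152921492604403712, 562256977921, 10376293475403542528⟩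
def kH2 : K9 := ⟨1152921243215650816, 1152921773451644928, 1152921673638653952, 1152921492858781696, 1152921457760694272, 1152921885541527552, 1152921396569083904, 1152921682959130624, 1152921383112376320, 1152921466701627392, 380934680577, 10376294212593520640⟩
def kH3 : K9 := ⟨1152921644441059328, 1152920108307283968, 1152922348155625472, 1152921236247027712, 1152920464765460480, 1152923136746188800, 1152920969630064640, 1152922384023318528, 1152920986147241984, 1152921318227443712, 1632139341825, 10376292952249655296⟩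
def kH4 : K9 := ⟨1152922278081257472, 1152920905077460992, 1152921687792967680, 1152921534088646656, 1152920900992409600, 1152921860063338496, 1152921386592890880, 1152921615373422592, 1152921390907957248, 1152921481033052160, 773474410497, 10376292761922146304⟩
/-- coefficients of `Hco (C a)` -/
def kO0 : K5 := ⟨1152921355205435392, 1152921504606846976, 1152921504094023680, 1152921498645790720, 1152921504606846976, 1152921506504912896, 149401411585, 5764607518458421248⟩
def kO1 : K5 := ⟨1152921279118610432, 1152921580477702144, 1152921484184289280, 1152921617742487552, 1152921456327688192, 1152921468599517184, 225488236545, 5764607607331684352⟩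
def kO2 : K5 := ⟨1152921457760694272, 1152921885541527552, 1152921396569083904, 1152921861311414272, 1152921261617905664, 1152921390891188224, 380934680577, 5764607795931119616⟩
def kO3 : K5 := ⟨1152920464765460480, 1152923136746188800, 1152920969630064640, 1152923263439790080, 1152920467687636992, 1152920945468637184, 1758832943105, 5764608782972317696⟩
def kO4 : K5 := ⟨1152920900992409600, 1152921860063338496, 1152921386592890880, 1152921726139998208, 1152921277209067520, 1152921433885462528, 603614437377, 5764607683890757632⟩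
/-- coefficients of `Hco (C a) - Hck (C a)` -/
def kM0 : K5 := ⟨1152921786705719296, 1152921502991376384, 1152921504094023680, 1152921498645790720, 1152921505632493568, 1152921506504912896, 282098872321, 5764607517868597248⟩
def kM1 : K5 := ⟨1152921217545371648, 1152921516308594688, 1152921514489483264, 1152921541871632384, 1152921497172803584, 1152921492739096576, 287061475329, 5764607562581610496⟩
def kM2 : K5 := ⟨1152921188915896320, 1152921547477913600, 1152921431813279744, 1152921480376733696, 1152921477693431808, 1152921512385658880, 315690950657, 5764607449747017728⟩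
def kM3 : K5 := ⟨1152921861065023488, 1152921449648631808, 1152921774709522432, 1152921631300448256, 1152921537641201664, 1152921463928242176, 356458176513, 5764607857228046336⟩
def kM4 : K5 := ⟨1152921500521795584, 1152921493691097088, 1152921298147491840, 1152921370683506688, 1152921513236979712, 1152921547584352256, 206459355137, 5764607223343427584⟩
/-- coefficients of `Hco (C a) + Hck (C a)` -/
def kP0 : K5 := ⟨1152920923705151488, 1152921506222317568, 1152921504094023680, 1152921498645790720, 1152921503581200384, 1152921506504912896, 580901695489, 5764607519048245248⟩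
def kP1 : K5 := ⟨1152921340691849216, 1152921644646809600, 1152921453879095296, 1152921693613342720, 1152921415482572800, 1152921444459937792, 189006495745, 5764607652081758208⟩
def kP2 : K5 := ⟨1152921726605492224, 1152922223605141504, 1152921361324888064, 1152922242246094848, 1152921045542379520, 1152921269396717568, 737639247873, 5764608142115221504⟩
def kP3 : K5 := ⟨1152919068465897472, 1152924823843745792, 1152920164550606848, 1152924895579131904, 1152919397734072320, 1152920427009032192, 3390972284929, 5764609708716589056⟩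
def kP4 : K5 := ⟨1152920301463023616, 1152922226435579904, 1152921475038289920, 1152922081596489728, 1152921041181155328, 1152921320186572800, 1203143823361, 5764608144438087680⟩

/-- the inputs -/
noncomputable def inputs (a0 ah x0 hx y0 hy : ℕ) (k : T → T → T → T → T → Bool) : Bool :=
  force a0 fun a0 => force ah fun ah => force x0 fun x0 => force hx fun hx => force y0 fun y0 =>
  force hy fun hy =>
  force (Nat.add (Nat.mul 4 a0) (Nat.mul (Nat.mul 4 ah) R13)) fun ps =>
  force (Nat.add (Nat.mul hx R14) (Nat.mul hy R17)) fun pxy =>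
  force (Nat.add hx hy) fun nn =>
  force (Nat.add (Nat.add x0 y0) nn) fun tot =>
  force (Nat.add HI ps) fun Ns =>
  force (Nat.add HI (Nat.add (Nat.mul 5 a0) (Nat.mul (Nat.mul 5 ah) R13))) fun Nw =>
  force (Nat.sub (Nat.add HI S) ps) fun N1 =>
  force (Nat.add (Nat.add HI (Nat.add x0 y0)) pxy) fun NX =>
  force (Nat.sub (Nat.add (Nat.add HI x0) (Nat.mul hx R14)) (Nat.add y0 (Nat.mul hy R17))) fun NY =>
  force (Nat.sub (Nat.add HI S) (Nat.add (Nat.add x0 y0) pxy)) fun NO =>
  force (Nat.mul 4 ah) fun h4 => force (Nat.mul 5 ah) fun h5 =>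
  cmul 431777206545 ⟨NX, 0, nn, 0, 0, tot⟩ fun pX => cmul 431777206545 ⟨NY, 0, nn, 0, 0, tot⟩ fun pY =>
  mul ⟨Nw, 0, h5, 0, 0, Nat.add (Nat.mul 5 a0) h5⟩ ⟨NY, 0, nn, 0, 0, tot⟩ fun wY =>
  mul ⟨Nw, 0, h5, 0, 0, Nat.add (Nat.mul 5 a0) h5⟩ ⟨NO, 0, nn, 0, 0, Nat.add tot S⟩ fun wO =>
  add pX wY fun om => sub wO pY fun ka =>
  k ⟨Ns, 0, h4, 0, 0, Nat.add (Nat.mul 4 a0) h4⟩ ⟨Nw, 0, h5, 0, 0, Nat.add (Nat.mul 5 a0) h5⟩
    ⟨N1, 0, h4, 0, 0, Nat.add (Nat.mul 4 a0) (Nat.add h4 S)⟩ om ka

/-- `t0 + s (t1 + s (t2 + s (t3 + s t4)))` -/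
noncomputable def horner5 (s t0 t1 t2 t3 t4 : T) (k : T → Bool) : Bool :=
  mul s t4 fun a => add a t3 fun a => mul s a fun a => add a t2 fun a => mul s a fun a =>
  add a t1 fun a => mul s a fun a => add a t0 k

noncomputable def horner4 (s t0 t1 t2 t3 : T) (k : T → Bool) : Bool :=
  mul s t3 fun a => add a t2 fun a => mul s a fun a =>
  add a t1 fun a => mul s a fun a => add a t0 k

/-- constant `(c - 2^60)/2^38` -/
noncomputable def cst (c : ℕ) (k : T → Bool) : Bool := addc c ⟨HI, 0, 0, 0, 0, 0⟩ k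

/-- `H`, `Hs` -/
noncomputable def evalH (s om ka : T) (k : T → T → T → Bool) : Bool :=
  mul ka ka fun k2 => mul k2 ka fun k3 => mul om ka fun ok => mul om k2 fun ok2 => mul om om fun o2 =>
  mul o2 ka fun o2k => mul o2 om fun o3 =>
  mk9 ka k2 k3 om ok ok2 o2 o2k o3 fun m9 =>
  mk5 ka k2 om ok o2 fun m5 =>
  poly9 kH0 m9 fun c0 => poly9 kH1 m9 fun c1 => poly9 kH2 m9 fun c2 => poly9 kH3 m9 fun c3 =>
  poly9 kH4 m9 fun c4 =>
  horner5 s c0 c1 c2 c3 c4 fun H =>
  smul 1 c2 fun c2 => smul 2 c3 fun c3 => smul 3 c4 fun c4 =>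
  horner4 s c1 c2 c3 c4 fun Hs =>
  poly5 kO0 m5 fun c0 => poly5 kO1 m5 fun c1 => poly5 kO2 m5 fun c2 => poly5 kO3 m5 fun c3 =>
  poly5 kO4 m5 fun c4 =>
  horner5 s c0 c1 c2 c3 c4 fun Ho => k H Ho Hs

/-- `lamS'` -/
noncomputable def evalL' (s : T) (k : T → Bool) : Bool :=
  cst 1152922484742414336 fun a => mul s a fun a => addc 1152918776622088192 a fun a => mul s a fun a => addc 1152923908114616320 a fun a =>
  mul s a fun a => addc 1152921082839269376 a fun a => mul s a fun a => addc 1152921262851502080 a k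

/-- `2 s l(s)` -/
noncomputable def evalSL (s : T) (k : T → Bool) : Bool :=
  cst 1152921308579733504 fun a => mul s a fun a => addc 1152921990575923200 a fun a => mul s a fun a => addc 1152921189406666752 a fun a =>
  mul s a fun a => addc 1152921400290455552 a fun a => mul s a fun a => smul 1 a k

noncomputable def evalC (a0 ah x0 hx y0 hy : ℕ) : Bool :=
  inputs a0 ah x0 hx y0 hy fun s w s1 om ka =>
  evalH s om ka fun H Ho Hs =>
  add om ka fun b => cmul 431500283904 b fun b => mul s1 H fun g => add b g fun g => addc 1152920965488225280 g fun g =>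
  mul s1 Ho fun go => addc 1152921936107130880 go fun go =>
  mul s1 Hs fun gw => sub gw H fun gw => cmul 219902325555 gw fun gw =>
  evalL' s fun lp =>
  SC om fun so co => SC ka fun sk ck => SC w fun sw cw =>
  mul co sw fun D => sub D sk fun D =>
  mul g co fun E => mul go so fun E' => sub E E' fun E =>
  mul cw ck fun cd => mul sw sk fun cd' => add cd cd' fun cd =>
  sub cd co fun cd => cmul 439804651110 cd fun cd => mul cw E fun E => add cd E fun G =>
  mul gw D fun gD => sub G gD fun G =>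
  mul so D fun D => mul lp D fun D => cmul 439804651110 D fun D =>
  sub G D fun G1 => bif pos G1 then add G D fun G2 => pos G2 else false

noncomputable def evalA (a0 ah x0 hx y0 hy : ℕ) : Bool :=
  inputs a0 ah x0 hx y0 hy fun s _ _ om ka =>
  mul ka ka fun k2 => mul om ka fun ok => mul om om fun o2 =>
  mk5 ka k2 om ok o2 fun m5 =>
  poly5 kM0 m5 fun c0 => poly5 kM1 m5 fun c1 => poly5 kM2 m5 fun c2 => poly5 kM3 m5 fun c3 =>
  poly5 kM4 m5 fun c4 =>
  horner5 s c0 c1 c2 c3 c4 fun H =>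
  evalSL s fun sl => sub H sl fun H => addc 1152921229728940032 H fun H => pos H

noncomputable def evalB (a0 ah x0 hx y0 hy : ℕ) : Bool :=
  inputs a0 ah x0 hx y0 hy fun s _ s1 om ka =>
  mul ka ka fun k2 => mul om ka fun ok => mul om om fun o2 =>
  mk5 ka k2 om ok o2 fun m5 =>
  poly5 kP0 m5 fun c0 => poly5 kP1 m5 fun c1 => poly5 kP2 m5 fun c2 => poly5 kP3 m5 fun c3 =>
  poly5 kP4 m5 fun c4 =>
  horner5 s c0 c1 c2 c3 c4 fun H =>
  evalSL s fun sl => add H sl fun H => addc 1152921779484753920 H fun H => mul s1 H fun H => addc 1152921817851600896 H fun H => pos H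

/-- subdivision trees -/
inductive Tr where
  | l : Tr
  | a : Tr → Tr → Tr
  | b : Tr → Tr → Tr
  | c : Tr → Tr → Tr

/-- checks all cells of a tree; widths are halved at each splitting -/
noncomputable def run (f : ℕ → ℕ → ℕ → ℕ → ℕ → ℕ → Bool) (t : Tr) : ℕ → ℕ → ℕ → ℕ → ℕ → ℕ → Bool :=
  Tr.rec f
    (fun _ _ r1 r2 a0 ah x0 hx y0 hy => bif Nat.beq (Nat.mod ah 2) 0 then
      bif r1 (Nat.sub a0 (Nat.div ah 2)) (Nat.div ah 2) x0 hx y0 hy then
      r2 (Nat.add a0 (Nat.div ah 2)) (Nat.div ah 2) x0 hx y0 hy else false else false)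
    (fun _ _ r1 r2 a0 ah x0 hx y0 hy => bif Nat.beq (Nat.mod hx 2) 0 then
      bif r1 a0 ah (Nat.sub x0 (Nat.div hx 2)) (Nat.div hx 2) y0 hy then
      r2 a0 ah (Nat.add x0 (Nat.div hx 2)) (Nat.div hx 2) y0 hy else false else false)
    (fun _ _ r1 r2 a0 ah x0 hx y0 hy => bif Nat.beq (Nat.mod hy 2) 0 then
      bif r1 a0 ah x0 hx (Nat.sub y0 (Nat.div hy 2)) (Nat.div hy 2) then
      r2 a0 ah x0 hx (Nat.add y0 (Nat.div hy 2)) (Nat.div hy 2) else false else false) t

end DT.TM

end

section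

/-!
# Transport between `ℂ` and the Euclidean plane
-/

open Set

namespace DT

/-- the isometry from the Euclidean plane to `ℂ` -/
noncomputable def eC : Plane ≃ₗᵢ[ℝ] ℂ := Complex.orthonormalBasisOneI.repr.symm

theorem eC_dist (a b : Plane) : dist (eC a) (eC b) = dist a b := eC.dist_map a b

theorem eC_symm_dist (a b : ℂ) : dist (eC.symm a) (eC.symm b) = dist a b := eC.symm.dist_map a b

/-- paths of `Adj` in `ℂ` give walks in the plane -/
theorem walk_of_reach {G : SimpleGraph Plane} {Adj : ℂ → ℂ → Prop}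
    (hA : ∀ a b, Adj a b → G.Adj (eC.symm a) (eC.symm b)) {p q : ℂ} {D : ℝ}
    (h : Reach Adj p q D) : ∃ W : G.Walk (eC.symm p) (eC.symm q), walkLength W = D := by
  induction h with
  | refl => exact ⟨SimpleGraph.Walk.nil, by simp [walkLength]⟩
  | @step a b D _ hab ih =>
    obtain ⟨W, hW⟩ := ih
    refine ⟨W.append (SimpleGraph.Walk.cons (hA a b hab) SimpleGraph.Walk.nil), ?_⟩
    rw [walkLength_append, hW]
    simp only [walkLength]
    rw [eC_symm_dist, add_zero]

open scoped Classical in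
/-- the image of a finite set in `ℂ` -/
noncomputable def imC (S : Finset Plane) : Finset ℂ := S.image eC

theorem mem_imC {S : Finset Plane} {z : ℂ} : z ∈ imC S ↔ eC.symm z ∈ S := by
  unfold imC
  rw [Finset.mem_image]
  constructor
  · rintro ⟨a, ha, rfl⟩
    rw [LinearIsometryEquiv.symm_apply_apply]
    exact ha
  · intro h
    exact ⟨_, h, eC.apply_symm_apply z⟩

theorem mem_imC' {S : Finset Plane} {a : Plane} (h : a ∈ S) : eC a ∈ imC S := by
  rw [mem_imC, LinearIsometryEquiv.symm_apply_apply]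
  exact h

/-- the reduction of a spanner statement to `ℂ` -/
theorem spanner_of_reach {t : ℝ} {S : Finset Plane} {G : SimpleGraph Plane} {Adj : ℂ → ℂ → Prop}
    (hA : ∀ a b, Adj a b → G.Adj (eC.symm a) (eC.symm b))
    (h : ∀ p ∈ imC S, ∀ q ∈ imC S, ∃ D, Reach Adj p q D ∧ D ≤ t * dist p q) :
    IsSpanner t S G := by
  intro p hp q hq
  obtain ⟨D, hD, hDt⟩ := h (eC p) (mem_imC' hp) (eC q) (mem_imC' hq)
  have h1 : ∃ W : G.Walk (eC.symm (eC p)) (eC.symm (eC q)), walkLength W = D :=
    walk_of_reach (G := G) hA hD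
  rw [eC_dist] at hDt
  rw [LinearIsometryEquiv.symm_apply_apply, LinearIsometryEquiv.symm_apply_apply] at h1
  obtain ⟨W, hW⟩ := h1
  exact ⟨W, hW ▸ hDt⟩

end DT

end

section

/-!
# The pencil step
-/

open Real Set

namespace DT

/-- the potential along a pencil -/
theorem G2b_V {t : ℝ} (P : Pot t) {cx r κ k ω : ℝ} (hr : 0 < r) (hs : 0 < sin ω) (Da Db : ℝ) :
    P.V cx r (W κ k ω) ((ω + W κ k ω - κ) / 2) ((ω - W κ k ω + κ) / 2) Da Db =
      Db - t * (cx + r * cos ω * cos κ) +
        r * sin ω * Phi t P.lam P.f ((Da - Db) / (r * sin ω)) κ k ω := by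
  unfold Pot.V Phi
  have h1 : sin ω ≠ 0 := hs.ne'
  have h2 : r ≠ 0 := hr.ne'
  field_simp
  ring

theorem G2b_dist (z v : ℂ) : dist z v ^ 2 = (z.re - v.re) ^ 2 + (z.im - v.im) ^ 2 := by
  rw [Complex.dist_eq_re_im, sq_sqrt (by positivity)]

theorem pencil_step {t : ℝ} (P : Pot t) {cx r w p q : ℝ} {a b c : ℂ} (h : OnC cx r w p q a b)
    (ha : 0 < a.im) (hb : b.im < 0) {o : ℂ} {r' : ℝ} (h1 : dist o a = r') (h2 : dist o b = r')
    (h3 : dist o c = r') (hside : cr b a c < 0) (hout : r ≤ dist (⟨cx, r * sin w⟩ : ℂ) c)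
    {Da Db : ℝ} (hD : |Da - Db| ≤ dist a b) :
    ∃ w' p' q', OnC o.re r' w' p' q' a b ∧ o.im = r' * sin w' ∧
      P.V o.re r' w' p' q' Da Db ≤ P.V cx r w p q Da Db := by
  obtain ⟨hr, hw, hp0, hp1, hq0, hq1, are, aim, bre, bim⟩ := h
  set κ : ℝ := w - p + q with hκdef
  set ω : ℝ := p + q with hωdef
  have eA : 2 * p - w = ω - κ := by rw [hκdef, hωdef]; ring
  have eB : 2 * q + w = ω + κ := by rw [hκdef, hωdef]; ring
  rw [eA, cos_sub] at are
  rw [eA, sin_sub] at aim
  rw [eB, cos_add] at bre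
  rw [eB, sin_add] at bim
  have hω0 : 0 ≤ ω := by rw [hωdef]; linarith
  have hωπ : ω ≤ π := by rw [hωdef]; linarith
  have hsω : 0 ≤ sin ω := sin_nonneg_of_nonneg_of_le_pi hω0 hωπ
  have hκ1 : -(π / 2) ≤ κ := by rw [hκdef]; linarith
  have hκ2 : κ ≤ π / 2 := by rw [hκdef]; linarith
  have hcκ : 0 ≤ cos κ := cos_nonneg_of_neg_pi_div_two_le_of_le hκ1 hκ2
  have hprod : 0 < 2 * r * (sin ω * cos κ) := by
    have : a.im - b.im = 2 * r * (sin ω * cos κ) := by rw [aim, bim]; ring
    linarith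
  have hsc : sin ω * cos κ ≠ 0 := by
    intro h0
    rw [h0, mul_zero] at hprod
    exact lt_irrefl _ hprod
  have hs : 0 < sin ω := lt_of_le_of_ne hsω fun h0 => hsc (by rw [← h0, zero_mul])
  have hc : 0 < cos κ := lt_of_le_of_ne hcκ fun h0 => hsc (by rw [← h0, mul_zero])
  have hωm : ω ∈ Ioo 0 π := by
    refine ⟨lt_of_le_of_ne hω0 fun h0 => ?_, lt_of_le_of_ne hωπ fun h0 => ?_⟩
    · rw [← h0, sin_zero] at hs; exact lt_irrefl _ hs
    · rw [h0, sin_pi] at hs; exact lt_irrefl _ hs
  have hκ : |κ| < π / 2 := by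
    rw [abs_lt]
    refine ⟨lt_of_le_of_ne hκ1 fun h0 => ?_, lt_of_le_of_ne hκ2 fun h0 => ?_⟩
    · rw [← h0, cos_neg, cos_pi_div_two] at hc; exact lt_irrefl _ hc
    · rw [h0, cos_pi_div_two] at hc; exact lt_irrefl _ hc
  set m : ℝ := r * sin ω with hm
  have hm0 : 0 < m := mul_pos hr hs
  set k : ℝ := (sin w - cos ω * sin κ) / sin ω with hk
  have hks : k * sin ω = sin w - cos ω * sin κ := by
    rw [hk, div_mul_cancel₀ _ hs.ne']
  have hmk : m * k = r * sin w - r * cos ω * sin κ := by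
    rw [hm]
    calc r * sin ω * k = r * (k * sin ω) := by ring
      _ = _ := by rw [hks]; ring
  have haim : a.im = m * (k + cos κ) := by
    rw [mul_add, hmk, aim, hm]; ring
  have hbim : b.im = m * (k - cos κ) := by
    rw [mul_sub, hmk, bim, hm]; ring
  have hkc : |k| < cos κ := by
    rw [abs_lt]
    rw [haim] at ha
    rw [hbim] at hb
    have g1 := (mul_pos_iff_of_pos_left hm0).1 ha
    have g2 : k - cos κ < 0 := by
      by_contra hcon
      have := mul_nonneg hm0.le (not_lt.1 hcon)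
      linarith
    constructor <;> linarith
  have hWw : W κ k ω = w := by
    unfold W
    rw [hks]
    have : sin w - cos ω * sin κ + sin κ * cos ω = sin w := by ring
    rw [this]
    exact arcsin_sin (by linarith [(abs_lt.1 hw).1]) (by linarith [(abs_lt.1 hw).2])
  -- the difference of `a` and `b`, the middle
  have hre : a.re - b.re = 2 * m * sin κ := by rw [are, bre, hm]; ring
  have him : a.im - b.im = 2 * m * cos κ := by rw [haim, hbim]; ring
  have hsc1 : sin κ ^ 2 + cos κ ^ 2 = 1 := sin_sq_add_cos_sq κ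
  have hsc2 : sin ω ^ 2 + cos ω ^ 2 = 1 := sin_sq_add_cos_sq ω
  have hdab : dist a b = 2 * m := by
    have g : dist a b ^ 2 = (2 * m) ^ 2 := by
      rw [G2b_dist, hre, him]
      linear_combination 4 * m ^ 2 * hsc1
    exact (pow_left_inj₀ dist_nonneg (by linarith) two_ne_zero).1 g
  set M1 : ℝ := cx + r * cos ω * cos κ with hM1
  have hare : a.re = M1 + m * sin κ := by rw [are, hM1, hm]; ring
  have hbre : b.re = M1 - m * sin κ := by rw [bre, hM1, hm]; ring
  set s' : ℝ := (o.re - M1) * cos κ - (o.im - m * k) * sin κ with hs'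
  have g1 : dist o a ^ 2 = r' ^ 2 := by rw [h1]
  have g2 : dist o b ^ 2 = r' ^ 2 := by rw [h2]
  have g3 : dist o c ^ 2 = r' ^ 2 := by rw [h3]
  rw [G2b_dist, hare, haim] at g1
  rw [G2b_dist, hbre, hbim] at g2
  rw [G2b_dist] at g3
  have hperp : (o.re - M1) * sin κ + (o.im - m * k) * cos κ = 0 := by
    have : 4 * m * ((o.re - M1) * sin κ + (o.im - m * k) * cos κ) = 0 := by
      linear_combination g2 - g1
    rcases mul_eq_zero.1 this with h0 | h0
    · linarith
    · exact h0
  have hore : o.re = M1 + s' * cos κ := by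
    rw [hs']
    linear_combination sin κ * hperp - (o.re - M1) * hsc1
  have hoim : o.im = m * k - s' * sin κ := by
    rw [hs']
    linear_combination cos κ * hperp - (o.im - m * k) * hsc1
  have hr2 : r' ^ 2 = s' ^ 2 + m ^ 2 := by
    rw [← g1, hore, hoim]
    linear_combination (s' ^ 2 + m ^ 2) * hsc1
  have hr'0 : 0 ≤ r' := by rw [← h1]; exact dist_nonneg
  have hr' : 0 < r' := by
    refine lt_of_le_of_ne hr'0 fun h0 => ?_
    rw [← h0] at hr2
    have e1 : 0 < m ^ 2 := by positivity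
    have e2 : 0 ≤ s' ^ 2 := sq_nonneg s'
    have e3 : (0 : ℝ) ^ 2 = 0 := by norm_num
    linarith
  -- the new centre is further
  set ν : ℝ := (c.re - M1) * cos κ - (c.im - m * k) * sin κ with hν
  have hνpos : 0 < ν := by
    have g4 : cr b a c = -(2 * m) * ν := by
      unfold cr
      simp only [Complex.sub_re, Complex.sub_im]
      rw [hre, him, hbre, hbim, hν]
      ring
    rw [g4] at hside
    by_contra hcon
    have e1 := mul_nonneg hm0.le (neg_nonneg.2 (not_lt.1 hcon))
    have e2 : -(2 * m) * ν = 2 * (m * -ν) := by ring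
    linarith
  have hcd : (c.re - M1) ^ 2 + (c.im - m * k) ^ 2 - 2 * ν * s' = m ^ 2 := by
    rw [hore, hoim] at g3
    rw [hν]
    linear_combination g3 + hr2 - s' ^ 2 * hsc1
  have hold : 0 ≤ 2 * ν * (s' - -(r * cos ω)) := by
    have g5 : r ^ 2 ≤ dist (⟨cx, r * sin w⟩ : ℂ) c ^ 2 := pow_le_pow_left₀ hr.le hout 2
    rw [G2b_dist] at g5
    simp only at g5
    have e1 : cx = M1 - r * cos ω * cos κ := by rw [hM1]; ring
    have e2 : r * sin w = m * k + r * cos ω * sin κ := by rw [hmk]; ring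
    have g6 : (cx - c.re) ^ 2 + (r * sin w - c.im) ^ 2 - r ^ 2 = 2 * ν * (s' - -(r * cos ω)) := by
      rw [e1, e2]
      rw [hν] at hcd ⊢
      linear_combination hcd + r ^ 2 * cos ω ^ 2 * hsc1 + r ^ 2 * hsc2 + (m + r * sin ω) * hm
    linarith
  have hss : -(r * cos ω) ≤ s' := by
    by_contra hcon
    have e1 := mul_pos hνpos (sub_pos.2 (not_le.1 hcon))
    have e2 : 2 * ν * (s' - -(r * cos ω)) = -2 * (ν * (-(r * cos ω) - s')) := by ring
    linarith
  -- the new angle
  set ω' : ℝ := π / 2 + arctan (s' / m) with hω'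
  have hω'm : ω' ∈ Ioo 0 π := by
    have e1 := neg_pi_div_two_lt_arctan (s' / m)
    have e2 := arctan_lt_pi_div_two (s' / m)
    constructor <;> rw [hω'] <;> linarith
  have hsq : sqrt (1 + (s' / m) ^ 2) = r' / m := by
    have e1 : 1 + (s' / m) ^ 2 = (r' / m) ^ 2 := by
      rw [div_pow, div_pow, hr2, add_div, div_self (pow_ne_zero 2 hm0.ne')]
      ring
    rw [e1, sqrt_sq (by positivity)]
  have hsω' : sin ω' = m / r' := by
    rw [hω', sin_add, sin_pi_div_two, cos_pi_div_two, cos_arctan, hsq]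
    field_simp
    ring
  have hcω' : cos ω' = -(s' / r') := by
    rw [hω', cos_add, sin_pi_div_two, cos_pi_div_two, sin_arctan, hsq]
    field_simp
    ring
  have hle : ω ≤ ω' := by
    have e1 : arctan (-(r * cos ω) / m) = ω - π / 2 := by
      have e2 : -(r * cos ω) / m = tan (ω - π / 2) := by
        rw [tan_eq_sin_div_cos, sin_sub, cos_sub, sin_pi_div_two, cos_pi_div_two, hm]
        simp only [mul_zero, mul_one, zero_sub, zero_add]
        rw [div_eq_div_iff (mul_ne_zero hr.ne' hs.ne') hs.ne']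
        ring
      rw [e2]
      exact arctan_tan (by linarith [hωm.1]) (by linarith [hωm.2])
    have e3 : arctan (-(r * cos ω) / m) ≤ arctan (s' / m) :=
      arctan_mono (div_le_div_of_nonneg_right hss hm0.le)
    rw [hω']
    linarith
  obtain ⟨hw1, hw2, hw3, hw4⟩ := W_range hκ hkc hω'm
  have hrs : r' * sin ω' = m := by rw [hsω', mul_div_cancel₀ _ hr'.ne']
  have hrc : r' * cos ω' = -s' := by rw [hcω', mul_neg, mul_div_cancel₀ _ hr'.ne']
  have hrw : r' * sin (W κ k ω') = m * k - s' * sin κ := by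
    rw [hw2]
    linear_combination k * hrs + sin κ * hrc
  rw [abs_le] at hw3 hw4
  refine ⟨W κ k ω', (ω' + W κ k ω' - κ) / 2, (ω' - W κ k ω' + κ) / 2, ?_, ?_, ?_⟩
  · refine ⟨hr', hw1, by linarith, by linarith, by linarith, by linarith, ?_, ?_, ?_, ?_⟩
    · have e : 2 * ((ω' + W κ k ω' - κ) / 2) - W κ k ω' = ω' - κ := by ring
      rw [e, cos_sub, hare, hore]
      linear_combination -cos κ * hrc - sin κ * hrs
    · have e : 2 * ((ω' + W κ k ω' - κ) / 2) - W κ k ω' = ω' - κ := by ring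
      rw [e, sin_sub, haim, hrw]
      linear_combination -cos κ * hrs + sin κ * hrc
    · have e : 2 * ((ω' - W κ k ω' + κ) / 2) + W κ k ω' = ω' + κ := by ring
      rw [e, cos_add, hbre, hore]
      linear_combination -cos κ * hrc + sin κ * hrs
    · have e : 2 * ((ω' - W κ k ω' + κ) / 2) + W κ k ω' = ω' + κ := by ring
      rw [e, sin_add, hbim, hrw]
      linear_combination cos κ * hrs + sin κ * hrc
  · rw [hrw, hoim]
  · have hs'0 : 0 < sin ω' := sin_pos_of_mem_Ioo hω'm
    have eV' := G2b_V P (cx := o.re) (κ := κ) (k := k) hr' hs'0 Da Db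
    have eV := G2b_V P (cx := cx) (κ := κ) (k := k) hr hs Da Db
    rw [hWw] at eV
    have ep : (ω + w - κ) / 2 = p := by rw [hωdef, hκdef]; ring
    have eq' : (ω - w + κ) / 2 = q := by rw [hωdef, hκdef]; ring
    rw [ep, eq'] at eV
    rw [eV', eV, hrs]
    have eM : o.re + r' * cos ω' * cos κ = M1 := by
      rw [hore]
      linear_combination cos κ * hrc
    rw [eM, ← hM1, ← hm]
    have hd : |(Da - Db) / m| ≤ 2 := by
      rw [abs_div, abs_of_pos hm0, div_le_iff₀ hm0, ← hdab]
      exact hD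
    have hanti := P.C _ κ k hd hκ hkc hωm hω'm hle
    have := mul_le_mul_of_nonneg_left hanti hm0.le
    linarith

end DT

end

section

/-!
Moves on the circle (MP_74021c_co, item G3a).
-/

open Real Set

namespace DT

theorem G3a_cross3 (α β γ : ℝ) :
    (cos α - cos β) * (sin γ - sin β) - (sin α - sin β) * (cos γ - cos β) =
      4 * sin ((α - β) / 2) * sin ((γ - β) / 2) * sin ((γ - α) / 2) := by
  have e : (γ - α) / 2 = (γ + β) / 2 - (α + β) / 2 := by ring
  rw [e, sin_sub, Real.cos_sub_cos, Real.cos_sub_cos, Real.sin_sub_sin, Real.sin_sub_sin]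
  ring

theorem G3a_cr_up {cx r w p p' q : ℝ} {a b c : ℂ}
    (h1 : a.re = cx + r * cos (2 * p - w)) (h2 : a.im = r * sin w + r * sin (2 * p - w))
    (h3 : b.re = cx + r * cos (2 * q + w)) (h4 : b.im = r * sin w - r * sin (2 * q + w))
    (h5 : c.re = cx + r * cos (2 * p' - w)) (h6 : c.im = r * sin w + r * sin (2 * p' - w)) :
    cr b a c = 4 * r ^ 2 * (sin (p + q) * sin (p' + q) * sin (p' - p)) := by
  have h := G3a_cross3 (2 * p - w) (-(2 * q + w)) (2 * p' - w)
  rw [cos_neg, sin_neg] at h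
  have e1 : (2 * p - w - -(2 * q + w)) / 2 = p + q := by ring
  have e2 : (2 * p' - w - -(2 * q + w)) / 2 = p' + q := by ring
  have e3 : (2 * p' - w - (2 * p - w)) / 2 = p' - p := by ring
  rw [e1, e2, e3] at h
  unfold cr
  simp only [Complex.sub_re, Complex.sub_im]
  rw [h1, h2, h3, h4, h5, h6]
  linear_combination r ^ 2 * h

theorem G3a_cr_low {cx r w p q q' : ℝ} {a b c : ℂ}
    (h1 : a.re = cx + r * cos (2 * p - w)) (h2 : a.im = r * sin w + r * sin (2 * p - w))
    (h3 : b.re = cx + r * cos (2 * q + w)) (h4 : b.im = r * sin w - r * sin (2 * q + w))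
    (h5 : c.re = cx + r * cos (2 * q' + w)) (h6 : c.im = r * sin w - r * sin (2 * q' + w)) :
    cr b a c = 4 * r ^ 2 * (sin (p + q) * sin (p + q') * sin (q' - q)) := by
  have h := G3a_cross3 (2 * p - w) (-(2 * q + w)) (-(2 * q' + w))
  rw [cos_neg, sin_neg, cos_neg, sin_neg] at h
  have e1 : (2 * p - w - -(2 * q + w)) / 2 = p + q := by ring
  have e2 : (-(2 * q' + w) - -(2 * q + w)) / 2 = -(q' - q) := by ring
  have e3 : (-(2 * q' + w) - (2 * p - w)) / 2 = -(p + q') := by ring
  rw [e1, e2, e3, sin_neg, sin_neg] at h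
  unfold cr
  simp only [Complex.sub_re, Complex.sub_im]
  rw [h1, h2, h3, h4, h5, h6]
  linear_combination r ^ 2 * h

theorem G3a_lt {r x y p p' : ℝ} (h : 4 * r ^ 2 * (x * y * sin (p' - p)) < 0) (hx : 0 ≤ x)
    (hy : 0 ≤ y) (hp : 0 ≤ p) (hp' : p' ≤ π) : p' < p := by
  by_contra hc
  push Not at hc
  have h1 : 0 ≤ sin (p' - p) := sin_nonneg_of_nonneg_of_le_pi (by linarith) (by linarith)
  have h2 : 0 ≤ 4 * r ^ 2 * (x * y * sin (p' - p)) := by positivity
  linarith

theorem move_A {t : ℝ} (P : Pot t) {cx r w p q : ℝ} {a b c : ℂ} (h : OnC cx r w p q a b)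
    (hc : dist (⟨cx, r * sin w⟩ : ℂ) c = r) (hcpos : 0 ≤ c.im) (ha : 0 < a.im) (hb : b.im < 0)
    (hside : cr b a c < 0) {Da Db Dc Db' : ℝ} (hDc : Dc ≤ Da + dist a c) (hDb : Db' ≤ Db) :
    ∃ p', OnC cx r w p' q c b ∧ P.V cx r w p' q Dc Db' ≤ P.V cx r w p q Da Db := by
  obtain ⟨p', hp0, hp1, hre, him⟩ := upper_param h.hr h.hw hc hcpos
  have hw := abs_lt.1 h.hw
  have := h.hp0
  have := h.hp1
  have := h.hq0
  have := h.hq1
  rw [G3a_cr_up h.are h.aim h.bre h.bim hre him] at hside
  have hlt : p' < p := G3a_lt hside (sin_nonneg_of_nonneg_of_le_pi (by linarith) (by linarith))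
    (sin_nonneg_of_nonneg_of_le_pi (by linarith) (by linarith)) h.hp0 (by linarith)
  refine ⟨p', ⟨h.hr, h.hw, hp0, hp1, h.hq0, h.hq1, hre, him, h.bre, h.bim⟩, ?_⟩
  have hch := chord_up h.hr h.are h.aim hre him
  rw [abs_of_neg (by linarith)] at hch
  have hA := P.A w p' p q h.hw hp0 hlt.le h.hp1 h.hq0 h.hq1
  have hl0 := P.lam0 w h.hw
  have hl1 := P.lam1 w h.hw
  have g1 : P.lam w * (Dc - Da) ≤ P.lam w * (2 * r * -(p' - p)) :=
    mul_le_mul_of_nonneg_left (by linarith) hl0
  have g2 : (1 - P.lam w) * (Db' - Db) ≤ 0 :=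
    mul_nonpos_of_nonneg_of_nonpos (by linarith) (by linarith)
  have g3 : r * (2 * P.lam w * (p - p')) ≤ r * (P.f w p q - P.f w p' q) :=
    mul_le_mul_of_nonneg_left hA h.hr.le
  unfold Pot.V
  nlinarith

theorem move_B {t : ℝ} (P : Pot t) {cx r w p q : ℝ} {a b c : ℂ} (h : OnC cx r w p q a b)
    (hc : dist (⟨cx, r * sin w⟩ : ℂ) c = r) (hcneg : c.im ≤ 0) (ha : 0 < a.im) (hb : b.im < 0)
    (hside : cr b a c < 0) {Da Db Dc Da' : ℝ} (hDc : Dc ≤ Db + dist b c) (hDa : Da' ≤ Da) :
    ∃ q', OnC cx r w p q' a c ∧ P.V cx r w p q' Da' Dc ≤ P.V cx r w p q Da Db := by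
  obtain ⟨q', hq0, hq1, hre, him⟩ := lower_param h.hr h.hw hc hcneg
  have hw := abs_lt.1 h.hw
  have := h.hp0
  have := h.hp1
  have := h.hq0
  have := h.hq1
  rw [G3a_cr_low h.are h.aim h.bre h.bim hre him] at hside
  have hlt : q' < q := G3a_lt hside (sin_nonneg_of_nonneg_of_le_pi (by linarith) (by linarith))
    (sin_nonneg_of_nonneg_of_le_pi (by linarith) (by linarith)) h.hq0 (by linarith)
  refine ⟨q', ⟨h.hr, h.hw, h.hp0, h.hp1, hq0, hq1, h.are, h.aim, hre, him⟩, ?_⟩
  have hch := chord_low h.hr h.bre h.bim hre him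
  rw [abs_of_neg (by linarith)] at hch
  have hB := P.B w p q' q h.hw h.hp0 h.hp1 hq0 hlt.le h.hq1
  have hl0 := P.lam0 w h.hw
  have hl1 := P.lam1 w h.hw
  have g1 : (1 - P.lam w) * (Dc - Db) ≤ (1 - P.lam w) * (2 * r * -(q' - q)) :=
    mul_le_mul_of_nonneg_left (by linarith) (by linarith)
  have g2 : P.lam w * (Da' - Da) ≤ 0 :=
    mul_nonpos_of_nonneg_of_nonpos hl0 (by linarith)
  have g3 : r * (2 * (1 - P.lam w) * (q - q')) ≤ r * (P.f w p q - P.f w p q') :=
    mul_le_mul_of_nonneg_left hB h.hr.le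
  unfold Pot.V
  nlinarith

end DT

end

section

/-!
# Monotonicity of the potential along a pencil of circles (piecewise)
-/

open Real Set Filter Topology

namespace DT

namespace G4b

open G4a

lemma Phi_eq {t lo hi : ℝ} {lam : ℝ → ℝ} {f : ℝ → ℝ → ℝ → ℝ}
    (P : Piece t lo hi lam f) {d κ k y : ℝ} (hκ : |κ| < π / 2) (hk : |k| < cos κ)
    (h1 : lo ≤ W κ k y) (h2 : W κ k y ≤ hi) :
    Phi t lam f d κ k y = Phi t P.l P.g d κ k y := by
  have hW := (W_facts (ω := y) hκ hk).1
  unfold Phi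
  rw [P.l_eq _ hW h1 h2, P.g_eq _ _ _ hW h1 h2]

lemma piece_right {t lo hi : ℝ} {lam : ℝ → ℝ} {f : ℝ → ℝ → ℝ → ℝ}
    (P : Piece t lo hi lam f) {d κ k x : ℝ} (hd : |d| ≤ 2) (hκ : |κ| < π / 2) (hk : |k| < cos κ)
    (hx : x ∈ Ioo 0 π) (hev : ∀ᶠ y in 𝓝[≥] x, lo ≤ W κ k y ∧ W κ k y ≤ hi) :
    ∃ D, D ≤ 0 ∧ HasDerivWithinAt (Phi t lam f d κ k) D (Ici x) x := by
  have hself := hev.self_of_nhdsWithin self_mem_Ici
  have hder := (hasDerivAt_Phi_piece P (d := d) hκ hk hx).hasDerivWithinAt (s := Ici x)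
  refine ⟨_, ?_, hder.congr_of_eventuallyEq ?_ (Phi_eq P hκ hk hself.1 hself.2)⟩
  · obtain ⟨hW, -, hr1, hr2⟩ := W_range hκ hk hx
    obtain ⟨a1, a2⟩ := abs_le.1 hr1
    obtain ⟨b1, b2⟩ := abs_le.1 hr2
    have hcos := (W_facts (ω := x) hκ hk).2.2
    have hs : 0 < sin x := sin_pos_of_mem_Ioo hx
    have hG := P.ineq d (W κ k x) ((x + W κ k x - κ) / 2) ((x - W κ k x + κ) / 2) hd hW
      hself.1 hself.2 (by linarith) (by linarith) (by linarith) (by linarith)
    exact div_nonpos_of_nonpos_of_nonneg (neg_nonpos.2 hG)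
      (mul_nonneg hcos.le (pow_nonneg hs.le 2))
  · exact hev.mono fun y hy => Phi_eq P hκ hk hy.1 hy.2

lemma piece_cont {t lo hi : ℝ} {lam : ℝ → ℝ} {f : ℝ → ℝ → ℝ → ℝ}
    (P : Piece t lo hi lam f) {d κ k x : ℝ} (hκ : |κ| < π / 2) (hk : |k| < cos κ)
    (hx : x ∈ Ioo 0 π) {ε : ℝ} (hε : 0 < ε) :
    ∀ᶠ y in 𝓝 x, lo ≤ W κ k y → W κ k y ≤ hi →
      |Phi t lam f d κ k y - Phi t lam f d κ k x| < ε := by
  have hWc : ContinuousAt (fun y => W κ k y) x := (W_der hκ hk).continuousAt
  by_cases h1 : lo ≤ W κ k x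
  · by_cases h2 : W κ k x ≤ hi
    · have hc := (hasDerivAt_Phi_piece P (d := d) hκ hk hx).continuousAt
      have hc' := Metric.continuousAt_iff'.1 hc ε hε
      refine hc'.mono fun y hy h3 h4 => ?_
      rw [Phi_eq P hκ hk h3 h4, Phi_eq P hκ hk h1 h2, ← Real.dist_eq]
      exact hy
    · have h3 : ∀ᶠ y in 𝓝 x, hi < W κ k y := hWc.eventually (lt_mem_nhds (not_le.1 h2))
      exact h3.mono fun y hy _ h5 => absurd h5 (not_le.2 hy)
  · have h3 : ∀ᶠ y in 𝓝 x, W κ k y < lo := hWc.eventually (gt_mem_nhds (not_le.1 h1))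
    exact h3.mono fun y hy h5 => absurd h5 (not_le.2 hy)

/-- to the right of `x` the function `k sin + sin κ cos` does not cross the value `c` -/
lemma one_side (κ k x c : ℝ) :
    (∀ᶠ y in 𝓝[≥] x, c ≤ k * sin y + sin κ * cos y) ∨
      (∀ᶠ y in 𝓝[≥] x, k * sin y + sin κ * cos y ≤ c) := by
  have hcont : Continuous fun y => k * sin y + sin κ * cos y := by fun_prop
  rcases lt_trichotomy (k * sin x + sin κ * cos x) c with h | h | h
  · right
    exact mem_nhdsWithin_of_mem_nhds
      ((hcont.continuousAt.eventually (gt_mem_nhds h)).mono fun y hy => le_of_lt hy)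
  · set v' : ℝ := k * cos x - sin κ * sin x with hv'
    have hid : ∀ y, k * sin y + sin κ * cos y - c =
        2 * sin ((y - x) / 2) * (v' * cos ((y - x) / 2) - c * sin ((y - x) / 2)) := by
      intro y
      have e : y = x + 2 * ((y - x) / 2) := by ring
      have e1 : sin y = sin x * cos (2 * ((y - x) / 2)) + cos x * sin (2 * ((y - x) / 2)) := by
        rw [← sin_add, ← e]
      have e2 : cos y = cos x * cos (2 * ((y - x) / 2)) - sin x * sin (2 * ((y - x) / 2)) := by
        rw [← cos_add, ← e]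
      rw [e1, e2, cos_two_mul, sin_two_mul, hv']
      have hs := sin_sq_add_cos_sq ((y - x) / 2)
      linear_combination (1 - 2 * sin ((y - x) / 2) ^ 2) * h +
        (2 * (k * sin x + sin κ * cos x)) * hs
    have hsin : ∀ᶠ y in 𝓝[≥] x, 0 ≤ sin ((y - x) / 2) := by
      have h1 : ∀ᶠ y in 𝓝[≥] x, y < x + 2 * π :=
        mem_nhdsWithin_of_mem_nhds (gt_mem_nhds (by linarith [pi_pos]))
      have h2 : ∀ᶠ y in 𝓝[≥] x, x ≤ y := self_mem_nhdsWithin
      filter_upwards [h1, h2] with y hy1 hy2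
      exact sin_nonneg_of_nonneg_of_le_pi (by linarith) (by linarith)
    have hbr : Continuous fun y => v' * cos ((y - x) / 2) - c * sin ((y - x) / 2) := by fun_prop
    have hbr0 : v' * cos ((x - x) / 2) - c * sin ((x - x) / 2) = v' := by
      simp
    rcases lt_trichotomy v' 0 with hv | hv | hv
    · right
      have h3 : ∀ᶠ y in 𝓝 x, v' * cos ((y - x) / 2) - c * sin ((y - x) / 2) < 0 :=
        hbr.continuousAt.eventually (gt_mem_nhds (lt_of_eq_of_lt hbr0 hv))
      filter_upwards [hsin, mem_nhdsWithin_of_mem_nhds h3] with y hy1 hy2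
      have := hid y
      have h4 : 2 * sin ((y - x) / 2) * (v' * cos ((y - x) / 2) - c * sin ((y - x) / 2)) ≤ 0 :=
        mul_nonpos_of_nonneg_of_nonpos (by linarith) (le_of_lt hy2)
      linarith
    · have hid2 : ∀ y, k * sin y + sin κ * cos y - c = -(2 * c) * sin ((y - x) / 2) ^ 2 := by
        intro y
        rw [hid y, hv]
        ring
      rcases le_total c 0 with hc | hc
      · left
        refine Eventually.of_forall fun y => ?_
        have := hid2 y
        have h5 : 0 ≤ -(2 * c) * sin ((y - x) / 2) ^ 2 :=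
          mul_nonneg (by linarith) (sq_nonneg _)
        linarith
      · right
        refine Eventually.of_forall fun y => ?_
        have := hid2 y
        have h5 : -(2 * c) * sin ((y - x) / 2) ^ 2 ≤ 0 :=
          mul_nonpos_of_nonpos_of_nonneg (by linarith) (sq_nonneg _)
        linarith
    · left
      have h3 : ∀ᶠ y in 𝓝 x, 0 < v' * cos ((y - x) / 2) - c * sin ((y - x) / 2) :=
        hbr.continuousAt.eventually (lt_mem_nhds (lt_of_lt_of_eq hv hbr0.symm))
      filter_upwards [hsin, mem_nhdsWithin_of_mem_nhds h3] with y hy1 hy2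
      have := hid y
      have h4 : 0 ≤ 2 * sin ((y - x) / 2) * (v' * cos ((y - x) / 2) - c * sin ((y - x) / 2)) :=
        mul_nonneg (by linarith) (le_of_lt hy2)
      linarith
  · left
    exact mem_nhdsWithin_of_mem_nhds
      ((hcont.continuousAt.eventually (lt_mem_nhds h)).mono fun y hy => le_of_lt hy)

/-- to the right of `x` the parameter `W` does not cross the value `c` -/
lemma one_side_W (κ k x : ℝ) {c : ℝ} (hc0 : -(π / 2) ≤ c) (hc1 : c ≤ π / 2) :
    (∀ᶠ y in 𝓝[≥] x, c ≤ W κ k y) ∨ (∀ᶠ y in 𝓝[≥] x, W κ k y ≤ c) := by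
  rcases one_side κ k x (sin c) with h | h
  · left
    filter_upwards [h] with y hy
    have := monotone_arcsin hy
    rwa [arcsin_sin hc0 hc1] at this
  · right
    filter_upwards [h] with y hy
    have := monotone_arcsin hy
    rwa [arcsin_sin hc0 hc1] at this

end G4b

open G4a G4b

theorem Phi_antitone {t w0 : ℝ} {lam : ℝ → ℝ} {f : ℝ → ℝ → ℝ → ℝ} (h0 : 0 < w0) (h1 : w0 < π / 2)
    (P1 : Piece t (-(π / 2)) (-w0) lam f) (P2 : Piece t (-w0) 0 lam f) (P3 : Piece t 0 w0 lam f)
    (P4 : Piece t w0 (π / 2) lam f) {d κ k : ℝ} (hd : |d| ≤ 2) (hκ : |κ| < π / 2)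
    (hk : |k| < cos κ) : AntitoneOn (Phi t lam f d κ k) (Ioo 0 π) := by
  have hWr : ∀ y, -(π / 2) < W κ k y ∧ W κ k y < π / 2 := fun y =>
    abs_lt.1 (W_facts (ω := y) hκ hk).1
  have hcont : ∀ x ∈ Ioo 0 π, ContinuousAt (Phi t lam f d κ k) x := by
    intro x hx
    rw [Metric.continuousAt_iff']
    intro ε hε
    filter_upwards [piece_cont P1 (d := d) hκ hk hx hε, piece_cont P2 (d := d) hκ hk hx hε,
      piece_cont P3 (d := d) hκ hk hx hε, piece_cont P4 (d := d) hκ hk hx hε] with y y1 y2 y3 y4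
    rw [Real.dist_eq]
    rcases le_total (W κ k y) 0 with h2 | h2
    · rcases le_total (W κ k y) (-w0) with h3 | h3
      · exact y1 (hWr y).1.le h3
      · exact y2 h3 h2
    · rcases le_total (W κ k y) w0 with h3 | h3
      · exact y3 h2 h3
      · exact y4 h3 (hWr y).2.le
  have hder : ∀ x ∈ Ioo 0 π, ∃ D, D ≤ 0 ∧
      HasDerivWithinAt (Phi t lam f d κ k) D (Ici x) x := by
    intro x hx
    rcases one_side_W κ k x (c := 0) (by linarith) (by linarith) with h2 | h2
    · rcases one_side_W κ k x (c := w0) (by linarith) h1.le with h3 | h3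
      · exact piece_right P4 hd hκ hk hx (h3.mono fun y hy => ⟨hy, (hWr y).2.le⟩)
      · exact piece_right P3 hd hκ hk hx (h2.and h3)
    · rcases one_side_W κ k x (c := -w0) (by linarith) (by linarith) with h3 | h3
      · exact piece_right P2 hd hκ hk hx (h3.and h2)
      · exact piece_right P1 hd hκ hk hx (h3.mono fun y hy => ⟨(hWr y).1.le, hy⟩)
  choose! D hD0 hD using hder
  intro a ha b hb hab
  have hsub : ∀ x ∈ Icc a b, x ∈ Ioo 0 π := fun x hx =>
    ⟨lt_of_lt_of_le ha.1 hx.1, lt_of_le_of_lt hx.2 hb.2⟩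
  have := image_le_of_deriv_right_le_deriv_boundary (f := Phi t lam f d κ k) (f' := D)
    (a := a) (b := b) (fun x hx => (hcont x (hsub x hx)).continuousWithinAt)
    (fun x hx => hD x (hsub x (Ico_subset_Icc_self hx)))
    (B := fun _ => Phi t lam f d κ k a) (B' := fun _ => 0) le_rfl continuousOn_const
    (fun x _ => hasDerivWithinAt_const _ _ _)
    (fun x hx => hD0 x (hsub x (Ico_subset_Icc_self hx)))
  exact this (right_mem_Icc.2 hab)

end DT

end

section

/-!
# G8b: a Delaunay complex gives a Delaunay system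
-/

open Real Set

namespace DT

open G8bAux Filter in
theorem DSys.of_complex (S : Finset ℂ) (T : Finset (Finset ℂ))
    (h1 : ∀ t ∈ T, t ⊆ S ∧ t.card = 3 ∧ AffineIndependent ℝ ((↑) : t → ℂ))
    (h2 : (⋃ t ∈ T, convexHull ℝ (t : Set ℂ)) = convexHull ℝ (S : Set ℂ))
    (h3 : ∀ t ∈ T, ∀ t' ∈ T, t ≠ t' →
      Disjoint (interior (convexHull ℝ (t : Set ℂ))) (interior (convexHull ℝ (t' : Set ℂ))))
    (h4 : ∀ t ∈ T, ∀ (o : ℂ) (r : ℝ), (∀ v ∈ t, dist o v = r) → ∀ s ∈ S, r ≤ dist o s) :
    DSys S (fun a b c => a ≠ b ∧ a ≠ c ∧ b ≠ c ∧ ({a, b, c} : Finset ℂ) ∈ T)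
      (fun a b => a ≠ b ∧ ∃ t ∈ T, a ∈ t ∧ b ∈ t) where
  mem := by
    rintro a b c ⟨_, _, _, ht⟩
    exact (h1 _ ht).1 (by simp)
  swap := by
    rintro a b c ⟨hab, hac, hbc, ht⟩
    refine ⟨hab.symm, hbc, hac, ?_⟩
    rwa [Finset.insert_comm]
  rot := by
    rintro a b c ⟨hab, hac, hbc, ht⟩
    refine ⟨hbc, hab.symm, hac.symm, ?_⟩
    have : ({b, c, a} : Finset ℂ) = {a, b, c} := by
      ext x; simp only [Finset.mem_insert, Finset.mem_singleton]; tauto
    rwa [this]
  adj := by
    rintro a b c ⟨hab, hac, hbc, ht⟩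
    exact ⟨hab, _, ht, by simp, by simp⟩
  nondeg := by
    rintro a b c ⟨hab, hac, hbc, ht⟩
    exact nondeg_of hab hac hbc (h1 _ ht).2.2
  empty := by
    rintro a b c ⟨hab, hac, hbc, ht⟩ o r ha hb hc s hs
    refine h4 _ ht o r ?_ s hs
    intro v hv
    simp only [Finset.mem_insert, Finset.mem_singleton] at hv
    rcases hv with rfl | rfl | rfl
    · exact ha
    · exact hb
    · exact hc
  flip := by
    rintro a b c ⟨hab, hac, hbc, ht⟩ s hs hcr
    obtain ⟨c', h5, h6⟩ := flip_of_complex S T h1 h2 h3 h4 ht hs hcr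
    have h7 : cr a b c' ≠ 0 := by
      intro h; rw [h] at h6; simp at h6
    obtain ⟨e1, e2, e3⟩ := cr_ne_zero_of_ne h7
    exact ⟨c', ⟨e1, e2, e3, h5⟩, h6⟩
  start := by
    intro p hp q hq hpq
    right
    -- the points `p + (q - p)/(n+1)`
    let x : ℕ → ℂ := fun n => p + (1 / ((n : ℝ) + 1)) • (q - p)
    have hx : ∀ n, x n ∈ ⋃ t ∈ T, convexHull ℝ (t : Set ℂ) := by
      intro n
      rw [h2]
      have hn : (0 : ℝ) < (n : ℝ) + 1 := by positivity
      have hn1 : 1 / ((n : ℝ) + 1) ≤ 1 := by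
        rw [div_le_one hn]
        have : (0 : ℝ) ≤ n := Nat.cast_nonneg n
        linarith
      have hc := convex_convexHull ℝ (S : Set ℂ)
      have := hc (subset_convexHull ℝ _ (Finset.mem_coe.2 hp))
        (subset_convexHull ℝ _ (Finset.mem_coe.2 hq)) (sub_nonneg.2 hn1)
        (by positivity : (0:ℝ) ≤ 1 / ((n : ℝ) + 1)) (by ring)
      convert this using 1
      simp only [x]
      module
    have hlim : Tendsto x atTop (nhds p) := by
      have h5 : Tendsto (fun n : ℕ => 1 / ((n : ℝ) + 1)) atTop (nhds 0) :=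
        tendsto_one_div_add_atTop_nhds_zero_nat
      have h6 := (h5.smul_const (q - p)).const_add p
      rw [zero_smul, add_zero] at h6
      exact h6
    have hfreq : ∃ t ∈ T, ∃ᶠ n in atTop, x n ∈ convexHull ℝ (t : Set ℂ) := by
      by_contra hcon
      push Not at hcon
      have h5 : ∀ t ∈ T, ∀ᶠ n in atTop, x n ∉ convexHull ℝ (t : Set ℂ) := by
        intro t ht
        exact hcon t ht
      have h6 : ∀ᶠ n in atTop, ∀ t ∈ T, x n ∉ convexHull ℝ (t : Set ℂ) :=
        (Filter.eventually_all_finset T).2 h5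
      obtain ⟨n, hn⟩ := h6.exists
      have h7 := hx n
      simp only [mem_iUnion] at h7
      obtain ⟨t, ht, h8⟩ := h7
      exact hn t ht h8
    obtain ⟨t, ht, hft⟩ := hfreq
    have hclosed : IsClosed (convexHull ℝ (t : Set ℂ)) :=
      (t.finite_toSet).isClosed_convexHull ℝ
    have hpt : p ∈ convexHull ℝ (t : Set ℂ) := hclosed.mem_of_frequently_of_tendsto hft hlim
    obtain ⟨hsub, hcard, haff⟩ := h1 t ht
    -- `p` is a vertex of `t`
    have hpmem : p ∈ t := by
      obtain ⟨a, b, c, hab, hac, hbc, rfl⟩ := Finset.card_eq_three.1 hcard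
      have hnd := nondeg_of hab hac hbc haff
      obtain ⟨o, r, ha, hb, hc⟩ := circum hnd
      obtain ⟨α, β, γ, h5, h6, h7, h8, h9⟩ := mem_hull hab hac hbc hpt
      have hr : r ≤ dist o p := by
        refine h4 _ ht o r ?_ p hp
        intro v hv
        simp only [Finset.mem_insert, Finset.mem_singleton] at hv
        rcases hv with rfl | rfl | rfl
        · exact ha
        · exact hb
        · exact hc
      have := vertex_of hab hac hbc ha hb hc h5 h6 h7 h8 h9 hr
      simpa using this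
    have hcard2 : (t.erase p).card = 2 := by
      rw [Finset.card_erase_of_mem hpmem, hcard]
    obtain ⟨a, b, hab, he⟩ := Finset.card_eq_two.1 hcard2
    have ht' : t = {p, a, b} := by
      rw [← Finset.insert_erase hpmem, he]
    have hpa : p ≠ a := by
      intro h
      have : a ∈ t.erase p := by rw [he]; simp
      exact (Finset.mem_erase.1 this).1 h.symm
    have hpb : p ≠ b := by
      intro h
      have : b ∈ t.erase p := by rw [he]; simp
      exact (Finset.mem_erase.1 this).1 h.symm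
    obtain ⟨n, hn⟩ := hft.exists
    subst ht'
    have hnd := nondeg_of hpa hpb hab haff
    obtain ⟨α, β, γ, h5, h6, h7, h8, h9⟩ := mem_hull hpa hpb hab hn
    have hε : (0 : ℝ) < 1 / ((n : ℝ) + 1) := by positivity
    have hre : (1 / ((n : ℝ) + 1)) * (q.re - p.re) = β * (a.re - p.re) + γ * (b.re - p.re) := by
      have h10 := congrArg Complex.re h9
      simp only [x, Complex.add_re, Complex.smul_re, Complex.sub_re, smul_eq_mul,
        Complex.re_ofReal_mul] at h10
      have : α = 1 - β - γ := by linarith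
      rw [this] at h10
      linarith
    have him : (1 / ((n : ℝ) + 1)) * (q.im - p.im) = β * (a.im - p.im) + γ * (b.im - p.im) := by
      have h10 := congrArg Complex.im h9
      simp only [x, Complex.add_im, Complex.smul_im, Complex.sub_im, smul_eq_mul,
        Complex.im_ofReal_mul] at h10
      have : α = 1 - β - γ := by linarith
      rw [this] at h10
      linarith
    rcases lt_or_gt_of_ne hnd with hlt | hgt
    · have hgt' : 0 < cr p b a := by
        have : cr p b a = - cr p a b := by unfold cr; ring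
        rw [this]; linarith
      obtain ⟨c1, c2⟩ := cone (q := q) hε h7 h6 (by linarith) (by linarith) hgt'
      refine ⟨b, a, ⟨hpb, hpa, hab.symm, ?_⟩, hgt', c1, c2⟩
      have : ({p, b, a} : Finset ℂ) = {p, a, b} := by
        ext y; simp only [Finset.mem_insert, Finset.mem_singleton]; tauto
      rwa [this]
    · obtain ⟨c1, c2⟩ := cone (q := q) hε h6 h7 hre him hgt
      exact ⟨a, b, ⟨hpa, hpb, hab, ht⟩, hgt, c1, c2⟩

end DT

end

section

/-!
# Joining the runs on the two halves of a cell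
-/

namespace DT.TM

theorem run_a {f : ℕ → ℕ → ℕ → ℕ → ℕ → ℕ → Bool} {l r : Tr} {a0 ah x0 hx y0 hy a1 a2 h : ℕ}
    (h1 : run f l a1 h x0 hx y0 hy = true) (h2 : run f r a2 h x0 hx y0 hy = true)
    (e : ah = 2 * h ∧ a0 = a1 + h ∧ a2 = a0 + h) :
    run f (Tr.a l r) a0 ah x0 hx y0 hy = true := by
  obtain ⟨e0, e1, e2⟩ := e
  show (bif Nat.beq (Nat.mod ah 2) 0 then
      bif run f l (Nat.sub a0 (Nat.div ah 2)) (Nat.div ah 2) x0 hx y0 hy then
      run f r (Nat.add a0 (Nat.div ah 2)) (Nat.div ah 2) x0 hx y0 hy else false else false) = true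
  have d0 : Nat.mod ah 2 = 0 := by show ah % 2 = 0; omega
  have d1 : Nat.div ah 2 = h := by show ah / 2 = h; omega
  have d2 : Nat.sub a0 h = a1 := by show a0 - h = a1; omega
  have d3 : Nat.add a0 h = a2 := by show a0 + h = a2; omega
  rw [d0, d1, d2, d3, h1, h2]; rfl

theorem run_b {f : ℕ → ℕ → ℕ → ℕ → ℕ → ℕ → Bool} {l r : Tr} {a0 ah x0 hx y0 hy a1 a2 h : ℕ}
    (h1 : run f l a0 ah a1 h y0 hy = true) (h2 : run f r a0 ah a2 h y0 hy = true)
    (e : hx = 2 * h ∧ x0 = a1 + h ∧ a2 = x0 + h) :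
    run f (Tr.b l r) a0 ah x0 hx y0 hy = true := by
  obtain ⟨e0, e1, e2⟩ := e
  show (bif Nat.beq (Nat.mod hx 2) 0 then
      bif run f l a0 ah (Nat.sub x0 (Nat.div hx 2)) (Nat.div hx 2) y0 hy then
      run f r a0 ah (Nat.add x0 (Nat.div hx 2)) (Nat.div hx 2) y0 hy else false else false) = true
  have d0 : Nat.mod hx 2 = 0 := by show hx % 2 = 0; omega
  have d1 : Nat.div hx 2 = h := by show hx / 2 = h; omega
  have d2 : Nat.sub x0 h = a1 := by show x0 - h = a1; omega
  have d3 : Nat.add x0 h = a2 := by show x0 + h = a2; omega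
  rw [d0, d1, d2, d3, h1, h2]; rfl

theorem run_c {f : ℕ → ℕ → ℕ → ℕ → ℕ → ℕ → Bool} {l r : Tr} {a0 ah x0 hx y0 hy a1 a2 h : ℕ}
    (h1 : run f l a0 ah x0 hx a1 h = true) (h2 : run f r a0 ah x0 hx a2 h = true)
    (e : hy = 2 * h ∧ y0 = a1 + h ∧ a2 = y0 + h) :
    run f (Tr.c l r) a0 ah x0 hx y0 hy = true := by
  obtain ⟨e0, e1, e2⟩ := e
  show (bif Nat.beq (Nat.mod hy 2) 0 then
      bif run f l a0 ah x0 hx (Nat.sub y0 (Nat.div hy 2)) (Nat.div hy 2) then
      run f r a0 ah x0 hx (Nat.add y0 (Nat.div hy 2)) (Nat.div hy 2) else false else false) = true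
  have d0 : Nat.mod hy 2 = 0 := by show hy % 2 = 0; omega
  have d1 : Nat.div hy 2 = h := by show hy / 2 = h; omega
  have d2 : Nat.sub y0 h = a1 := by show y0 - h = a1; omega
  have d3 : Nat.add y0 h = a2 := by show y0 + h = a2; omega
  rw [d0, d1, d2, d3, h1, h2]; rfl

end DT.TM

end

section

/-!
# The expressions of the three certified inequalities as functions on the unit cube
-/

open Real

namespace DT.TM

/-- the expression of the certified inequality (C) -/
noncomputable def FC (ε s x y : ℝ) : ℝ :=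
  8 / 5 * (cos (5 / 4 * s - (5 / 4 * s * (1 - (x + y)) - π / 2 * (x - y))) -
      cos (π / 2 * (x + y) + 5 / 4 * s * (x - y))) +
    cos (5 / 4 * s) *
      (Cand.g s (π / 2 * (x + y) + 5 / 4 * s * (x - y)) (5 / 4 * s * (1 - (x + y)) - π / 2 * (x - y)) *
        cos (π / 2 * (x + y) + 5 / 4 * s * (x - y)) -
       Cand.go s (π / 2 * (x + y) + 5 / 4 * s * (x - y)) (5 / 4 * s * (1 - (x + y)) - π / 2 * (x - y)) *
        sin (π / 2 * (x + y) + 5 / 4 * s * (x - y))) -
    (Cand.gw s (π / 2 * (x + y) + 5 / 4 * s * (x - y)) (5 / 4 * s * (1 - (x + y)) - π / 2 * (x - y)) +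
      ε * (4 / 5 * Cand.lamS' s) * sin (π / 2 * (x + y) + 5 / 4 * s * (x - y))) *
      (cos (π / 2 * (x + y) + 5 / 4 * s * (x - y)) * sin (5 / 4 * s) -
        sin (5 / 4 * s * (1 - (x + y)) - π / 2 * (x - y)))

/-- the expression of (A) -/
noncomputable def FA (s x y : ℝ) : ℝ :=
  Cand.Ho s (π / 2 * (x + y) + 5 / 4 * s * (x - y)) (5 / 4 * s * (1 - (x + y)) - π / 2 * (x - y)) -
  Cand.Hk s (π / 2 * (x + y) + 5 / 4 * s * (x - y)) (5 / 4 * s * (1 - (x + y)) - π / 2 * (x - y)) -
  1 - 2 * (s * Cand.l s)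

/-- the expression of (B) -/
noncomputable def FB (s x y : ℝ) : ℝ :=
  2 * Cand.Bh - 2 + (1 - s) *
   (Cand.Ho s (π / 2 * (x + y) + 5 / 4 * s * (x - y)) (5 / 4 * s * (1 - (x + y)) - π / 2 * (x - y)) +
    Cand.Hk s (π / 2 * (x + y) + 5 / 4 * s * (x - y)) (5 / 4 * s * (1 - (x + y)) - π / 2 * (x - y)) +
    1 + 2 * (s * Cand.l s))

end DT.TM

end

section

/-!
# G10b: triangulations, the transport of the hypotheses
-/

open Set

namespace DT

theorem coe_imC (S : Finset Plane) : (imC S : Set ℂ) = eC '' (S : Set Plane) := by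
  unfold imC
  rw [Finset.coe_image]

theorem imC_injective : Function.Injective imC := by
  intro S S' h
  ext x
  have h1 := mem_imC (S := S) (z := eC x)
  have h2 := mem_imC (S := S') (z := eC x)
  rw [LinearIsometryEquiv.symm_apply_apply] at h1 h2
  rw [← h1, ← h2, h]

theorem card_imC (S : Finset Plane) : (imC S).card = S.card := by
  unfold imC
  exact Finset.card_image_of_injective _ eC.injective

theorem convexHull_imC (S : Finset Plane) :
    convexHull ℝ (imC S : Set ℂ) = eC '' convexHull ℝ (S : Set Plane) := by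
  rw [coe_imC]
  have h := LinearMap.image_convexHull (eC.toLinearEquiv : Plane →ₗ[ℝ] ℂ) (S : Set Plane)
  exact h.symm

theorem interior_imC (S : Finset Plane) :
    interior (convexHull ℝ (imC S : Set ℂ)) = eC '' interior (convexHull ℝ (S : Set Plane)) := by
  rw [convexHull_imC]
  exact (eC.toHomeomorph.image_interior _).symm

theorem affineIndependent_imC {S : Finset Plane}
    (h : AffineIndependent ℝ ((↑) : S → Plane)) :
    AffineIndependent ℝ ((↑) : imC S → ℂ) := by
  have h1 : AffineIndependent ℝ ((eC.toLinearEquiv : Plane →ₗ[ℝ] ℂ).toAffineMap ∘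
      ((↑) : S → Plane)) := h.map' _ eC.injective
  have h2 := h1.range
  refine h2.mono ?_
  intro z hz
  have hz' : eC.symm z ∈ S := mem_imC.1 hz
  exact ⟨⟨eC.symm z, hz'⟩, eC.apply_symm_apply z⟩

open scoped Classical in
/-- the image of a finite set of finite sets -/
noncomputable def imT (T : Finset (Finset Plane)) : Finset (Finset ℂ) := T.image imC

theorem mem_imT {T : Finset (Finset Plane)} {t' : Finset ℂ} :
    t' ∈ imT T ↔ ∃ t ∈ T, imC t = t' := by
  unfold imT
  rw [Finset.mem_image]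

theorem G10b_h1 {S : Finset Plane} {T : Finset (Finset Plane)} (h : IsDelaunayTriangulation S T) :
    ∀ t ∈ imT T, t ⊆ imC S ∧ t.card = 3 ∧ AffineIndependent ℝ ((↑) : t → ℂ) := by
  intro t' ht'
  obtain ⟨t, ht, rfl⟩ := mem_imT.1 ht'
  obtain ⟨h1, h2, h3⟩ := h.triangle t ht
  refine ⟨fun z hz => ?_, by rw [card_imC]; exact h2, affineIndependent_imC h3⟩
  rw [mem_imC] at hz ⊢
  exact h1 hz

theorem G10b_h2 {S : Finset Plane} {T : Finset (Finset Plane)} (h : IsDelaunayTriangulation S T) :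
    (⋃ t ∈ imT T, convexHull ℝ (t : Set ℂ)) = convexHull ℝ (imC S : Set ℂ) := by
  rw [convexHull_imC, ← h.cover, Set.image_iUnion₂]
  ext z
  simp only [Set.mem_iUnion, exists_prop]
  constructor
  · rintro ⟨t', ht', hz⟩
    obtain ⟨t, ht, rfl⟩ := mem_imT.1 ht'
    rw [convexHull_imC] at hz
    exact ⟨t, ht, hz⟩
  · rintro ⟨t, ht, hz⟩
    refine ⟨imC t, mem_imT.2 ⟨t, ht, rfl⟩, ?_⟩
    rw [convexHull_imC]
    exact hz

theorem G10b_h3 {S : Finset Plane} {T : Finset (Finset Plane)} (h : IsDelaunayTriangulation S T) :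
    ∀ t ∈ imT T, ∀ t' ∈ imT T, t ≠ t' →
      Disjoint (interior (convexHull ℝ (t : Set ℂ))) (interior (convexHull ℝ (t' : Set ℂ))) := by
  intro a ha b hb hab
  obtain ⟨t, ht, rfl⟩ := mem_imT.1 ha
  obtain ⟨t', ht', rfl⟩ := mem_imT.1 hb
  rw [interior_imC, interior_imC, Set.disjoint_image_iff eC.injective]
  exact h.disjoint t ht t' ht' (fun h1 => hab (by rw [h1]))

theorem G10b_h4 {S : Finset Plane} {T : Finset (Finset Plane)} (h : IsDelaunayTriangulation S T) :
    ∀ t ∈ imT T, ∀ (o : ℂ) (r : ℝ), (∀ v ∈ t, dist o v = r) → ∀ s ∈ imC S, r ≤ dist o s := by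
  intro t' ht' o r hv s hs
  obtain ⟨t, ht, rfl⟩ := mem_imT.1 ht'
  have h1 := h.empty t ht (eC.symm o) r (fun v hvt => by
    rw [← eC_dist v, eC.apply_symm_apply, dist_comm]
    exact hv _ (mem_imC' hvt)) (eC.symm s) (mem_imC.1 hs)
  rw [eC_symm_dist, dist_comm] at h1
  exact h1

theorem spanner_triangulation_of {t : ℝ} (S : Finset Plane) (T : Finset (Finset Plane))
    (hw : ∀ p ∈ imC S, ∀ q ∈ imC S, ∃ D,
      Reach (fun a b => a ≠ b ∧ ∃ t ∈ imT T, a ∈ t ∧ b ∈ t) p q D ∧ D ≤ t * dist p q) :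
    IsSpanner t S (triangleGraph T) := by
  refine spanner_of_reach (Adj := fun a b => a ≠ b ∧ ∃ t ∈ imT T, a ∈ t ∧ b ∈ t) ?_ hw
  rintro a b ⟨hab, t', ht', ha, hb⟩
  obtain ⟨t, ht, rfl⟩ := mem_imT.1 ht'
  exact ⟨fun h4 => hab (eC.symm.injective h4), t, ht, mem_imC.1 ha, mem_imC.1 hb⟩

end DT

end

section

/-! Kernel certificate, part A01 (355 cells). -/

set_option maxRecDepth 100000

namespace DT.TM
open Tr

def tA01_1 : Tr :=
  (b (c (a l (b l l)) (a l (c l l))) (b (a l (a l l)) (a l (a l (b l l)))))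

theorem rA01_1 : run evalA tA01_1 2147483648 2147483648 137438953472 137438953472 68719476736 68719476736 = true := by
  decide +kernel

def tA01_2 : Tr :=
  (b (c (a (b l (c l l)) (b (c l l) (c (a l l) (b l (a l l))))) (c (b l (b (a l l) (a l (c l l))))
  (b (b l l) (c (b l (a l l)) (b l l))))) (b (c (a (a (b l l) (b (c l l) (c l l))) (c (a (b l (b l
  l)) (b l l)) (b (a l l) l))) (a (a l l) (b (c l l) (b l l)))) (c (a (b (a l (b l l)) (b l l)) (b
  (a l l) (b (a l l) (a l l)))) (c (b (a l l) l) (b l l)))))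

theorem rA01_2 : run evalA tA01_2 6442450944 2147483648 137438953472 137438953472 68719476736 68719476736 = true := by
  decide +kernel

def tA01_3 : Tr := Tr.a tA01_1 tA01_2

theorem rA01_3 : run evalA tA01_3 4294967296 4294967296 137438953472 137438953472 68719476736 68719476736 = true :=
  run_a rA01_1 rA01_2 (by norm_num)

def tA01_4 : Tr :=
  (b (b (a l (a l (b l l))) (a l (a l l))) (c (a l (c l l)) (a l (b l l))))

theorem rA01_4 : run evalA tA01_4 2147483648 2147483648 137438953472 137438953472 206158430208 68719476736 = true := by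
  decide +kernel

def tA01_5 : Tr :=
  (b (b (c (c (b l l) (b l (a l l))) (a (b (b l l) (a l (b l l))) (b (b (a l l) (a l l)) (a l
  l)))) (c (b (a l (b l l)) (a l (c l l))) (a (a (b l l) (b (c l l) (c l l))) (c (b l (c l l)) (a
  (b (b l l) l) (b l l)))))) (c (c (b (c (b l l) (b (a l l) l)) (b l l)) (b (b (a l (c l l)) (a l
  l)) l)) (a (b (c l l) l) (b (c (b (a l l) l) (a l l)) (c l l)))))

theorem rA01_5 : run evalA tA01_5 6442450944 2147483648 137438953472 137438953472 206158430208 68719476736 = true := by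
  decide +kernel

def tA01_6 : Tr := Tr.a tA01_4 tA01_5

theorem rA01_6 : run evalA tA01_6 4294967296 4294967296 137438953472 137438953472 206158430208 68719476736 = true :=
  run_a rA01_4 rA01_5 (by norm_num)

def tA01_7 : Tr := Tr.c tA01_3 tA01_6

theorem rA01_7 : run evalA tA01_7 4294967296 4294967296 137438953472 137438953472 137438953472 137438953472 = true :=
  run_c rA01_3 rA01_6 (by norm_num)

def tA01_8 : Tr :=
  (a (a (b (c (b l (b l l)) (b l l)) (c (a (b l (b l l)) (b l l)) (b l l))) (a (c (b l (b l l)) l)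
  (c (a l l) l))) (c (a (b (c (c (a l l) l) l) (b (c (b l l) l) l)) (c (b (c (c (a l l) l) l) (b
  (b l l) l)) (b l l))) (a l l)))

theorem rA01_8 : run evalA tA01_8 10737418240 2147483648 137438953472 137438953472 68719476736 68719476736 = true := by
  decide +kernel

def tA01_9 : Tr :=
  (a (a (b (c (b l l) (a (b l l) (b l l))) (c (b l l) (b (b l l) l))) (a (c l (b (b l l) l)) (c l
  (a l l)))) (c (a l l) (a (b (b l (c l (b l l))) (c l (c l (a l l)))) (c (b l l) (b (b l l) (c l
  (c l (a l l))))))))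

theorem rA01_9 : run evalA tA01_9 10737418240 2147483648 137438953472 137438953472 206158430208 68719476736 = true := by
  decide +kernel

def tA01_10 : Tr := Tr.c tA01_8 tA01_9

theorem rA01_10 : run evalA tA01_10 10737418240 2147483648 137438953472 137438953472 137438953472 137438953472 = true :=
  run_c rA01_8 rA01_9 (by norm_num)

def tA01_11 : Tr :=
  (c (b (c (c (a (c (b (c (b l l) l) (a (c (a l l) l) (c (b l l) l))) l) (c (a (c (b l (b l l)) l)
  (c (b l l) l)) l)) (a l l)) (a l l)) (a (b (c (b l l) l) l) (b l l))) (b (a (b l (c l (b l l)))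
  (b l l)) (c (a l l) (c (a l l) (a (c l (b (a (c l (a l l)) (c l (b l l))) (c l (b l l)))) (c l
  (a (c l (b (b l l) l)) (c l (b l l)))))))))

theorem rA01_11 : run evalA tA01_11 15032385536 2147483648 137438953472 137438953472 137438953472 137438953472 = true := by
  decide +kernel

def tA01_12 : Tr := Tr.a tA01_10 tA01_11

theorem rA01_12 : run evalA tA01_12 12884901888 4294967296 137438953472 137438953472 137438953472 137438953472 = true :=
  run_a rA01_10 rA01_11 (by norm_num)

def tA01_13 : Tr := Tr.a tA01_7 tA01_12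

theorem rA01_13 : run evalA tA01_13 8589934592 8589934592 137438953472 137438953472 137438953472 137438953472 = true :=
  run_a rA01_7 rA01_12 (by norm_num)

def tA01_14 : Tr :=
  (b (c (c (a (c (c (a (c (a (c (a l l) l) (c l l)) l) (c (a l l) l)) (a l l)) l) (c (c (a (c (b l
  l) l) l) l) l)) (a l l)) (a (b (a l l) l) (b l l))) (c (a (b l (a l l)) (b l l)) (c (a l l) (a
  (c l (c (a l l) (a (c l (a (c l (a l l)) (c l (a l l)))) (c l (a l l))))) (c l (c l (a (c l (b l
  l)) (c l l))))))))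

theorem rA01_14 : run evalA tA01_14 21474836480 4294967296 137438953472 137438953472 137438953472 137438953472 = true := by
  decide +kernel

def tA01_15 : Tr :=
  (b (c (c (c (b (c (a l (c l l)) l) (b l l)) (b l l)) (a l l)) (b (a l l) (b l l))) (c (b (b l l)
  (a l l)) (c (a l l) (c (b l (a l l)) (b (b l l) (c l (a l (c l l))))))))

theorem rA01_15 : run evalA tA01_15 30064771072 4294967296 137438953472 137438953472 137438953472 137438953472 = true := by
  decide +kernel

def tA01_16 : Tr := Tr.a tA01_14 tA01_15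

theorem rA01_16 : run evalA tA01_16 25769803776 8589934592 137438953472 137438953472 137438953472 137438953472 = true :=
  run_a rA01_14 rA01_15 (by norm_num)

def tA01_17 : Tr := Tr.a tA01_13 tA01_16

theorem rA01_17 : run evalA tA01_17 17179869184 17179869184 137438953472 137438953472 137438953472 137438953472 = true :=
  run_a rA01_13 rA01_16 (by norm_num)

theorem runA01 : run evalA tA01_17 17179869184 17179869184 137438953472 137438953472 137438953472 137438953472 = true := rA01_17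

end DT.TM

end

section

/-! Kernel certificate, part A02 (184 cells). -/

set_option maxRecDepth 100000

namespace DT.TM
open Tr

def tA02_1 : Tr :=
  (c (a (c (b (c (c (b (b l (c l l)) (c (a l (c (a l l) l)) l)) (b l l)) (b l l)) (c (b (c (a l l)
  l) l) l)) (b (b l l) l)) (c (c (b (b (b l (c l l)) (c (c (b (b l (c (a l l) l)) (c (a (c (a l l)
  l) (a (c l l) l)) l)) (b l l)) l)) (b (c (c (b (a (c (b l l) l) l) l) l) l) l)) (b (b l l) l))
  (b (b l l) l))) (b (a (c l l) l) (a (b l l) (b l l))))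

theorem rA02_1 : run evalA tA02_1 42949672960 8589934592 68719476736 68719476736 137438953472 137438953472 = true := by
  decide +kernel

def tA02_2 : Tr :=
  (c (b (a (b l l) (b l l)) (a (c l l) l)) (a (c (b l (b l l)) (b (c l (b l (c l (a l (c l l)))))
  (c (b l l) (c (b l l) (b (c l (a l (c l (a l l)))) (b (c l l) l)))))) (c (b l (b l l)) (c (b l
  (b l l)) (b (b l (c l (c l (a (b l (c l (b l l))) l)))) (b (c l (c (b l l) (b (c l (a (c l (b l
  l)) (a l l))) (b (c l (a l l)) l)))) (b (c l l) l)))))))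

theorem rA02_2 : run evalA tA02_2 42949672960 8589934592 206158430208 68719476736 137438953472 137438953472 = true := by
  decide +kernel

def tA02_3 : Tr := Tr.b tA02_1 tA02_2

theorem rA02_3 : run evalA tA02_3 42949672960 8589934592 137438953472 137438953472 137438953472 137438953472 = true :=
  run_b rA02_1 rA02_2 (by norm_num)

def tA02_4 : Tr :=
  (b (c (c (b (b (c l l) (c (a (c l l) l) l)) (a (c l l) l)) (b (b l l) l)) (b (b l l) (b l l)))
  (c (b (b l l) (b l l)) (c (b l (b l l)) (b (a (c l l) l) (b (c l (a (c l l) l)) (c l l))))))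

theorem rA02_4 : run evalA tA02_4 55834574848 4294967296 137438953472 137438953472 137438953472 137438953472 = true := by
  decide +kernel

def tA02_5 : Tr :=
  (b (a (b (c (c l l) l) (c l l)) (b (a l (b (a l (b (a l (b (a l (b (a l (b (a l l) l)) l)) l))
  l)) l)) l)) (a (b (c l l) (c l (c l l))) (b l (a l (b l (a l (b l (a l (b l (a l (b l (a l (b l
  (a l l))))))))))))))

theorem rA02_5 : run evalA tA02_5 64424509440 4294967296 137438953472 137438953472 137438953472 137438953472 = true := by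
  decide +kernel

def tA02_6 : Tr := Tr.a tA02_4 tA02_5

theorem rA02_6 : run evalA tA02_6 60129542144 8589934592 137438953472 137438953472 137438953472 137438953472 = true :=
  run_a rA02_4 rA02_5 (by norm_num)

def tA02_7 : Tr := Tr.a tA02_3 tA02_6

theorem rA02_7 : run evalA tA02_7 51539607552 17179869184 137438953472 137438953472 137438953472 137438953472 = true :=
  run_a rA02_3 rA02_6 (by norm_num)

theorem runA02 : run evalA tA02_7 51539607552 17179869184 137438953472 137438953472 137438953472 137438953472 = true := rA02_7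

end DT.TM

end
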