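import Pool.Agent.Work.MP_74021c_co.Bd.B01

/-! Bundle of small proof modules (one section per former module). -/

section

/-! Kernel certificate, part C12 (203 cells). -/

set_option maxRecDepth 100000

namespace DT.TM
open Tr

def tC12_1 : Tr :=
  (a (b (c l l) (c (a l l) (a l l))) (c (b l l) (b (c l l) (c l (b l l)))))

theorem rC12_1 : run evalC tC12_1 2147483648 2147483648 154618822656 17179869184 8589934592 8589934592 = true := by
  decide +kernel

def tC12_2 : Tr :=
  (a (c (b l (a l l)) (b l l)) (b (c (a l l) l) (c (a l (b l l)) (c (a l l) l))))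

theorem rC12_2 : run evalC tC12_2 2147483648 2147483648 146028888064 8589934592 25769803776 8589934592 = true := by
  decide +kernel

def tC12_3 : Tr :=
  (a (c (a (b l l) (b l l)) (b (c l l) (a (c l l) (c l l)))) (c (b (a l l) (c (b l l) (a l l))) (b
  (c (a l (b l l)) (b l l)) (b (c l (c l l)) (c l (c l l))))))

theorem rC12_3 : run evalC tC12_3 2147483648 2147483648 163208757248 8589934592 25769803776 8589934592 = true := by
  decide +kernel

def tC12_4 : Tr := Tr.b tC12_2 tC12_3

theorem rC12_4 : run evalC tC12_4 2147483648 2147483648 154618822656 17179869184 25769803776 8589934592 = true :=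
  run_b rC12_2 rC12_3 (by norm_num)

def tC12_5 : Tr := Tr.c tC12_1 tC12_4

theorem rC12_5 : run evalC tC12_5 2147483648 2147483648 154618822656 17179869184 17179869184 17179869184 = true :=
  run_c rC12_1 rC12_4 (by norm_num)

def tC12_6 : Tr :=
  (b (c l (b (c l (a l l)) (c l (b l l)))) (c l (b (a (c l l) l) (a l l))))

theorem rC12_6 : run evalC tC12_6 6442450944 2147483648 154618822656 17179869184 8589934592 8589934592 = true := by
  decide +kernel

def tC12_7 : Tr :=
  (b (b (c (a (b (a l l) (a l l)) (b l l)) (c (b l l) l)) (c (a (b (c l l) l) (b l (a l l))) (c (a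
  (b l l) l) (b l l)))) (b (a (c (b (c l l) (c l l)) (c l l)) (b (a l l) (a l l))) (a (b (c (c l
  (a l l)) l) (a (c l l) (b l l))) (b l l))))

theorem rC12_7 : run evalC tC12_7 6442450944 2147483648 154618822656 17179869184 25769803776 8589934592 = true := by
  decide +kernel

def tC12_8 : Tr := Tr.c tC12_6 tC12_7

theorem rC12_8 : run evalC tC12_8 6442450944 2147483648 154618822656 17179869184 17179869184 17179869184 = true :=
  run_c rC12_6 rC12_7 (by norm_num)

def tC12_9 : Tr := Tr.a tC12_5 tC12_8

theorem rC12_9 : run evalC tC12_9 4294967296 4294967296 154618822656 17179869184 17179869184 17179869184 = true :=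
  run_a rC12_5 rC12_8 (by norm_num)

def tC12_10 : Tr :=
  (a (a (c (b l l) (b (c l l) (a l l))) (b (c l (c l l)) l)) (b (c l (b l l)) l))

theorem rC12_10 : run evalC tC12_10 2147483648 2147483648 188978561024 17179869184 8589934592 8589934592 = true := by
  decide +kernel

def tC12_11 : Tr :=
  (a (c (a (b l (c l l)) (c (b l l) (b l l))) (b (a (c l l) (b (a l l) l)) (a (b (a l l) l) (c l
  l)))) (b (c (c (a l l) (b l l)) (a (c l l) (b l (a l l)))) (c (a (c l l) l) (a (b (c l l) (c l
  l)) (b (c l l) l)))))

theorem rC12_11 : run evalC tC12_11 2147483648 2147483648 180388626432 8589934592 25769803776 8589934592 = true := by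
  decide +kernel

def tC12_12 : Tr :=
  (a (a (c (a (b (c l l) l) (b l l)) (b (c l l) (a (c l l) (c l l)))) (c (b (c l l) l) (b (c (b l
  l) (b l l)) (c l (a l l))))) (b (c l (a (b (c l l) l) l)) (c l (a l l))))

theorem rC12_12 : run evalC tC12_12 2147483648 2147483648 197568495616 8589934592 25769803776 8589934592 = true := by
  decide +kernel

def tC12_13 : Tr := Tr.b tC12_11 tC12_12

theorem rC12_13 : run evalC tC12_13 2147483648 2147483648 188978561024 17179869184 25769803776 8589934592 = true :=
  run_b rC12_11 rC12_12 (by norm_num)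

def tC12_14 : Tr := Tr.c tC12_10 tC12_13

theorem rC12_14 : run evalC tC12_14 2147483648 2147483648 188978561024 17179869184 17179869184 17179869184 = true :=
  run_c rC12_10 rC12_13 (by norm_num)

def tC12_15 : Tr :=
  (b (c (a l l) (a (b (c (a l l) (a (b l l) l)) (c l (a l l))) (b (a l l) l))) (c l (a (b l l)
  l)))

theorem rC12_15 : run evalC tC12_15 6442450944 2147483648 188978561024 17179869184 17179869184 17179869184 = true := by
  decide +kernel

def tC12_16 : Tr := Tr.a tC12_14 tC12_15

theorem rC12_16 : run evalC tC12_16 4294967296 4294967296 188978561024 17179869184 17179869184 17179869184 = true :=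
  run_a rC12_14 rC12_15 (by norm_num)

def tC12_17 : Tr := Tr.b tC12_9 tC12_16

theorem rC12_17 : run evalC tC12_17 4294967296 4294967296 171798691840 34359738368 17179869184 17179869184 = true :=
  run_b rC12_9 rC12_16 (by norm_num)

theorem runC12 : run evalC tC12_17 4294967296 4294967296 171798691840 34359738368 17179869184 17179869184 = true := rC12_17

end DT.TM

end

section

/-! Kernel certificate, part C13 (135 cells). -/

set_option maxRecDepth 100000

namespace DT.TM
open Tr

def tC13_1 : Tr :=
  (c (b (c (b (a l l) (a l l)) (b l l)) (a (c (b (a l (c l l)) (a (c l l) (c (b l l) l))) (b l (c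
  l l))) (c (b (c l l) (a (c l l) l)) (b l l)))) (b (c l l) (c (b l l) l)))

theorem rC13_1 : run evalC tC13_1 4294967296 4294967296 154618822656 17179869184 51539607552 17179869184 = true := by
  decide +kernel

def tC13_2 : Tr :=
  (c (c (b (c (a (a l (b l l)) (b l l)) (b (a l l) (a l l))) (a (a (c (b l l) l) (c (b l l) (b l
  l))) (b l (a l l)))) (b (c (b l l) l) (c (b (c l l) (a l l)) (b l l)))) (c (b l (c l l)) (b l
  l)))

theorem rC13_2 : run evalC tC13_2 2147483648 2147483648 180388626432 8589934592 51539607552 17179869184 = true := by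
  decide +kernel

def tC13_3 : Tr :=
  (c (b (a (c (b l l) (b l (a l l))) (b l l)) (a (c (a l l) l) (b (a l l) (a l l)))) (b (c (b (a l
  l) (a l l)) (b l (a l l))) (a (c (b (a l l) l) (b l l)) (b l l))))

theorem rC13_3 : run evalC tC13_3 1073741824 1073741824 197568495616 8589934592 42949672960 8589934592 = true := by
  decide +kernel

def tC13_4 : Tr :=
  (b (c (a (b l (a l l)) (b l l)) (b l l)) (a (b (a (c l l) l) (c l l)) (b l l)))

theorem rC13_4 : run evalC tC13_4 3221225472 1073741824 197568495616 8589934592 42949672960 8589934592 = true := by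
  decide +kernel

def tC13_5 : Tr := Tr.a tC13_3 tC13_4

theorem rC13_5 : run evalC tC13_5 2147483648 2147483648 197568495616 8589934592 42949672960 8589934592 = true :=
  run_a rC13_3 rC13_4 (by norm_num)

def tC13_6 : Tr :=
  (b (c (b (c l l) (c l l)) (b l l)) (c (a (b (c l l) (c (b l l) l)) l) (b l (c l l))))

theorem rC13_6 : run evalC tC13_6 2147483648 2147483648 197568495616 8589934592 60129542144 8589934592 = true := by
  decide +kernel

def tC13_7 : Tr := Tr.c tC13_5 tC13_6

theorem rC13_7 : run evalC tC13_7 2147483648 2147483648 197568495616 8589934592 51539607552 17179869184 = true :=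
  run_c rC13_5 rC13_6 (by norm_num)

def tC13_8 : Tr := Tr.b tC13_2 tC13_7

theorem rC13_8 : run evalC tC13_8 2147483648 2147483648 188978561024 17179869184 51539607552 17179869184 = true :=
  run_b rC13_2 rC13_7 (by norm_num)

def tC13_9 : Tr :=
  (b (c (a (b (c l l) (a l l)) (b l l)) (c l l)) (a (c (b (a l l) (a l l)) (b l l)) (b l l)))

theorem rC13_9 : run evalC tC13_9 6442450944 2147483648 188978561024 17179869184 51539607552 17179869184 = true := by
  decide +kernel

def tC13_10 : Tr := Tr.a tC13_8 tC13_9

theorem rC13_10 : run evalC tC13_10 4294967296 4294967296 188978561024 17179869184 51539607552 17179869184 = true :=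
  run_a rC13_8 rC13_9 (by norm_num)

def tC13_11 : Tr := Tr.b tC13_1 tC13_10

theorem rC13_11 : run evalC tC13_11 4294967296 4294967296 171798691840 34359738368 51539607552 17179869184 = true :=
  run_b rC13_1 rC13_10 (by norm_num)

theorem runC13 : run evalC tC13_11 4294967296 4294967296 171798691840 34359738368 51539607552 17179869184 = true := rC13_11

end DT.TM

end

section

/-! Kernel certificate, part C14 (46 cells). -/

set_option maxRecDepth 100000

namespace DT.TM
open Tr

def tC14_1 : Tr :=
  (c (a (b (c (b (c l (a (b l l) l)) (c l (a l l))) (a (b (c (b l l) l) (b l l)) (b l l))) (c (b l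
  l) (a (b l l) l))) (b (c (b l l) (a l l)) (b l l))) (c (a (b (c l l) (a l l)) (b l l)) (b l l)))

theorem rC14_1 : run evalC tC14_1 12884901888 4294967296 154618822656 17179869184 34359738368 34359738368 = true := by
  decide +kernel

def tC14_2 : Tr :=
  (c (a (b (c l (a l l)) l) (b l l)) (a (b (a (c l l) l) (a l l)) (b l l)))

theorem rC14_2 : run evalC tC14_2 12884901888 4294967296 188978561024 17179869184 34359738368 34359738368 = true := by
  decide +kernel

def tC14_3 : Tr := Tr.b tC14_1 tC14_2

theorem rC14_3 : run evalC tC14_3 12884901888 4294967296 171798691840 34359738368 34359738368 34359738368 = true :=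
  run_b rC14_1 rC14_2 (by norm_num)

theorem runC14 : run evalC tC14_3 12884901888 4294967296 171798691840 34359738368 34359738368 34359738368 = true := rC14_3

end DT.TM

end

section

/-! Kernel certificate, part C15 (165 cells). -/

set_option maxRecDepth 100000

namespace DT.TM
open Tr

def tC15_1 : Tr :=
  (a (a (c (a (b (a l l) l) (b l l)) (b (a (c (a l l) (b (a (c l l) l) (a l l))) (b (c l l) l)) (a
  (a l l) l))) (b (c l (a l l)) l)) (b (a l l) l))

theorem rC15_1 : run evalC tC15_1 4294967296 4294967296 223338299392 17179869184 17179869184 17179869184 = true := by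
  decide +kernel

def tC15_2 : Tr :=
  (a (b (a (c (a (c (b l l) l) (b (c l l) l)) (b l (a l l))) (c (a (b l l) l) (b (a l l) (a l
  l)))) (a (c (a (b l l) l) (a (b l (c l l)) (b (c l l) l))) (c l (b (a l l) l)))) (b (a (c l (b l
  l)) l) (a (c l l) l)))

theorem rC15_2 : run evalC tC15_2 2147483648 2147483648 214748364800 8589934592 42949672960 8589934592 = true := by
  decide +kernel

def tC15_3 : Tr :=
  (a (b (c (a (b (c l l) (c l l)) (b l l)) (b (c l l) (c l l))) (c (a (b l (a l l)) (a (b l l) (b
  l l))) (a (b (c l l) l) (b l l)))) (b (a (c l l) l) (a (b (a l l) (c l l)) l)))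

theorem rC15_3 : run evalC tC15_3 2147483648 2147483648 214748364800 8589934592 60129542144 8589934592 = true := by
  decide +kernel

def tC15_4 : Tr := Tr.c tC15_2 tC15_3

theorem rC15_4 : run evalC tC15_4 2147483648 2147483648 214748364800 8589934592 51539607552 17179869184 = true :=
  run_c rC15_2 rC15_3 (by norm_num)

def tC15_5 : Tr :=
  (a (c (a (b (c l (a (b l l) l)) (a l l)) (b (c l l) l)) (b (a (c (b (a l l) (a l l)) (b l (a l
  l))) (c (b l l) (b (a l l) (a l l)))) (a (c (a l l) (b (a l l) l)) (c l l)))) (c (b l l) (b (a
  (c l l) l) (a l l))))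

theorem rC15_5 : run evalC tC15_5 2147483648 2147483648 231928233984 8589934592 51539607552 17179869184 = true := by
  decide +kernel

def tC15_6 : Tr := Tr.b tC15_4 tC15_5

theorem rC15_6 : run evalC tC15_6 2147483648 2147483648 223338299392 17179869184 51539607552 17179869184 = true :=
  run_b rC15_4 rC15_5 (by norm_num)

def tC15_7 : Tr :=
  (b (a (c (b l l) (b l l)) (c l l)) (a (c l l) l))

theorem rC15_7 : run evalC tC15_7 6442450944 2147483648 223338299392 17179869184 51539607552 17179869184 = true := by
  decide +kernel

def tC15_8 : Tr := Tr.a tC15_6 tC15_7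

theorem rC15_8 : run evalC tC15_8 4294967296 4294967296 223338299392 17179869184 51539607552 17179869184 = true :=
  run_a rC15_6 rC15_7 (by norm_num)

def tC15_9 : Tr := Tr.c tC15_1 tC15_8

theorem rC15_9 : run evalC tC15_9 4294967296 4294967296 223338299392 17179869184 34359738368 34359738368 = true :=
  run_c rC15_1 rC15_8 (by norm_num)

def tC15_10 : Tr :=
  (a (c (a (b (a (c l l) l) (a (c (a l l) l) l)) l) (a (b (c (a l l) (a (b (c l l) l) l)) (a l l))
  (b (c l l) l))) (c l (b l l)))

theorem rC15_10 : run evalC tC15_10 4294967296 4294967296 257698037760 17179869184 34359738368 34359738368 = true := by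
  decide +kernel

def tC15_11 : Tr := Tr.b tC15_9 tC15_10

theorem rC15_11 : run evalC tC15_11 4294967296 4294967296 240518168576 34359738368 34359738368 34359738368 = true :=
  run_b rC15_9 rC15_10 (by norm_num)

def tC15_12 : Tr :=
  (b (c (a l l) (a (b l l) l)) (c l l))

theorem rC15_12 : run evalC tC15_12 12884901888 4294967296 240518168576 34359738368 34359738368 34359738368 = true := by
  decide +kernel

def tC15_13 : Tr := Tr.a tC15_11 tC15_12

theorem rC15_13 : run evalC tC15_13 8589934592 8589934592 240518168576 34359738368 34359738368 34359738368 = true :=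
  run_a rC15_11 rC15_12 (by norm_num)

theorem runC15 : run evalC tC15_13 8589934592 8589934592 240518168576 34359738368 34359738368 34359738368 = true := rC15_13

end DT.TM

end

section

/-! Kernel certificate, part C16 (28 cells). -/

set_option maxRecDepth 100000

namespace DT.TM
open Tr

def tC16_1 : Tr :=
  (b (c (a (c (b l l) l) (c (b l l) l)) (b l l)) (c (a (b (c (b l l) l) (c (a (b l (c (b l l) l))
  (c l l)) (b l l))) (c (a l l) (b l l))) (a (b l (c l l)) (b l l))))

theorem rC16_1 : run evalC tC16_1 8589934592 8589934592 171798691840 34359738368 103079215104 34359738368 = true := by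
  decide +kernel

theorem runC16 : run evalC tC16_1 8589934592 8589934592 171798691840 34359738368 103079215104 34359738368 = true := rC16_1

end DT.TM

end

section

/-! Kernel certificate, part C17 (102 cells). -/

set_option maxRecDepth 100000

namespace DT.TM
open Tr

def tC17_1 : Tr :=
  (c (b (c (b l (a l l)) (b l l)) (a (c (b (c l l) (c l l)) (b l (c l l))) (a (c l l) l))) (b (c l
  l) (c (b l l) l)))

theorem rC17_1 : run evalC tC17_1 2147483648 2147483648 214748364800 8589934592 85899345920 17179869184 = true := by
  decide +kernel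

def tC17_2 : Tr :=
  (a (b (c (a (b (c l l) l) (a l l)) (b (c l l) (a (c l l) l))) (c (a (b (c l l) (a l l)) (b (a l
  l) l)) (a (b l (c l l)) (a (b l l) (b l l))))) (a (b (a l l) (c l (a l l))) (b l l)))

theorem rC17_2 : run evalC tC17_2 2147483648 2147483648 231928233984 8589934592 77309411328 8589934592 = true := by
  decide +kernel

def tC17_3 : Tr :=
  (b (c (a (b l (c l l)) l) (b l (a l l))) (a (c (a (b (c l l) l) (a l l)) (b (c l l) (a (c l l)
  l))) (a (a l l) l)))

theorem rC17_3 : run evalC tC17_3 2147483648 2147483648 231928233984 8589934592 94489280512 8589934592 = true := by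
  decide +kernel

def tC17_4 : Tr := Tr.c tC17_2 tC17_3

theorem rC17_4 : run evalC tC17_4 2147483648 2147483648 231928233984 8589934592 85899345920 17179869184 = true :=
  run_c rC17_2 rC17_3 (by norm_num)

def tC17_5 : Tr := Tr.b tC17_1 tC17_4

theorem rC17_5 : run evalC tC17_5 2147483648 2147483648 223338299392 17179869184 85899345920 17179869184 = true :=
  run_b rC17_1 rC17_4 (by norm_num)

def tC17_6 : Tr :=
  (b (c (a l l) (a l l)) (a (c (b l l) l) (c l l)))

theorem rC17_6 : run evalC tC17_6 6442450944 2147483648 223338299392 17179869184 85899345920 17179869184 = true := by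
  decide +kernel

def tC17_7 : Tr := Tr.a tC17_5 tC17_6

theorem rC17_7 : run evalC tC17_7 4294967296 4294967296 223338299392 17179869184 85899345920 17179869184 = true :=
  run_a rC17_5 rC17_6 (by norm_num)

def tC17_8 : Tr :=
  (b (c (b l (a l l)) l) (c (a (b (c (b l l) l) (c (a (b l (c l l)) l) (b l (a l l)))) (a l l)) (b
  (c l l) (a (c (b l l) l) l))))

theorem rC17_8 : run evalC tC17_8 4294967296 4294967296 223338299392 17179869184 120259084288 17179869184 = true := by
  decide +kernel

def tC17_9 : Tr := Tr.c tC17_7 tC17_8

theorem rC17_9 : run evalC tC17_9 4294967296 4294967296 223338299392 17179869184 103079215104 34359738368 = true :=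
  run_c rC17_7 rC17_8 (by norm_num)

theorem runC17 : run evalC tC17_9 4294967296 4294967296 223338299392 17179869184 103079215104 34359738368 = true := rC17_9

end DT.TM

end

section

/-! Kernel certificate, part C18 (171 cells). -/

set_option maxRecDepth 100000

namespace DT.TM
open Tr

def tC18_1 : Tr :=
  (a (b (a (c (b l l) (b (c l l) l)) (c l (b l l))) (a (c l l) l)) (b (a l l) l))

theorem rC18_1 : run evalC tC18_1 2147483648 2147483648 249108103168 8589934592 77309411328 8589934592 = true := by
  decide +kernel

def tC18_2 : Tr :=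
  (a (b (c (a (b (c l l) (c l l)) (b (a l l) l)) (a (b l (c l l)) (a (c (b l l) l) (b l l)))) (a
  (c (b l l) (b (b l l) l)) (c l (b l l)))) (b (a (c l (a l l)) l) (a l l)))

theorem rC18_2 : run evalC tC18_2 2147483648 2147483648 249108103168 8589934592 94489280512 8589934592 = true := by
  decide +kernel

def tC18_3 : Tr := Tr.c tC18_1 tC18_2

theorem rC18_3 : run evalC tC18_3 2147483648 2147483648 249108103168 8589934592 85899345920 17179869184 = true :=
  run_c rC18_1 rC18_2 (by norm_num)

def tC18_4 : Tr :=
  (a (c (b l l) (b (a l l) l)) (c l l))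

theorem rC18_4 : run evalC tC18_4 2147483648 2147483648 266287972352 8589934592 85899345920 17179869184 = true := by
  decide +kernel

def tC18_5 : Tr := Tr.b tC18_3 tC18_4

theorem rC18_5 : run evalC tC18_5 2147483648 2147483648 257698037760 17179869184 85899345920 17179869184 = true :=
  run_b rC18_3 rC18_4 (by norm_num)

def tC18_6 : Tr :=
  (b (a (c l (b l l)) l) (a l l))

theorem rC18_6 : run evalC tC18_6 6442450944 2147483648 257698037760 17179869184 85899345920 17179869184 = true := by
  decide +kernel

def tC18_7 : Tr := Tr.a tC18_5 tC18_6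

theorem rC18_7 : run evalC tC18_7 4294967296 4294967296 257698037760 17179869184 85899345920 17179869184 = true :=
  run_a rC18_5 rC18_6 (by norm_num)

def tC18_8 : Tr :=
  (b (c (a (b (c l (b l l)) l) (b l (a l l))) (b (b l (c l l)) (a (c l (b l l)) l))) (c (b (c (b
  (a l l) l) (b (a l l) l)) (a l l)) (b (a l (a (c l l) (c l l))) (b (c l l) (c l l)))))

theorem rC18_8 : run evalC tC18_8 1073741824 1073741824 249108103168 8589934592 111669149696 8589934592 = true := by
  decide +kernel

def tC18_9 : Tr :=
  (a (c (b (a l l) l) (b l (b l l))) (c (b l l) (a l l)))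

theorem rC18_9 : run evalC tC18_9 3221225472 1073741824 249108103168 8589934592 111669149696 8589934592 = true := by
  decide +kernel

def tC18_10 : Tr := Tr.a tC18_8 tC18_9

theorem rC18_10 : run evalC tC18_10 2147483648 2147483648 249108103168 8589934592 111669149696 8589934592 = true :=
  run_a rC18_8 rC18_9 (by norm_num)

def tC18_11 : Tr :=
  (b (c (a (b (b l l) (b (c l l) (c l l))) (a l l)) (b l (a (b l l) l))) (a (c (a (b (a l l) l) (b
  l (c (b l l) (b l l)))) (b (c (b l l) (b l l)) (a (a l l) (c l l)))) (a (c (a (c l l) l) (a l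
  l)) (c l l))))

theorem rC18_11 : run evalC tC18_11 2147483648 2147483648 249108103168 8589934592 128849018880 8589934592 = true := by
  decide +kernel

def tC18_12 : Tr := Tr.c tC18_10 tC18_11

theorem rC18_12 : run evalC tC18_12 2147483648 2147483648 249108103168 8589934592 120259084288 17179869184 = true :=
  run_c rC18_10 rC18_11 (by norm_num)

def tC18_13 : Tr :=
  (c (a (b (b (c l (b l l)) (c l l)) l) (b (a l l) l)) (b (a (b (c (b l l) (b (a l l) l)) (c l l))
  (c (a l l) (a (b (a l l) l) l))) (a (b l l) l)))

theorem rC18_13 : run evalC tC18_13 2147483648 2147483648 266287972352 8589934592 120259084288 17179869184 = true := by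
  decide +kernel

def tC18_14 : Tr := Tr.b tC18_12 tC18_13

theorem rC18_14 : run evalC tC18_14 2147483648 2147483648 257698037760 17179869184 120259084288 17179869184 = true :=
  run_b rC18_12 rC18_13 (by norm_num)

def tC18_15 : Tr :=
  (c (b (a (a (c l l) l) l) (a l l)) (a (c (a (b l l) l) (a (b l l) l)) (c l l)))

theorem rC18_15 : run evalC tC18_15 6442450944 2147483648 257698037760 17179869184 120259084288 17179869184 = true := by
  decide +kernel

def tC18_16 : Tr := Tr.a tC18_14 tC18_15

theorem rC18_16 : run evalC tC18_16 4294967296 4294967296 257698037760 17179869184 120259084288 17179869184 = true :=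
  run_a rC18_14 rC18_15 (by norm_num)

def tC18_17 : Tr := Tr.c tC18_7 tC18_16

theorem rC18_17 : run evalC tC18_17 4294967296 4294967296 257698037760 17179869184 103079215104 34359738368 = true :=
  run_c rC18_7 rC18_16 (by norm_num)

theorem runC18 : run evalC tC18_17 4294967296 4294967296 257698037760 17179869184 103079215104 34359738368 = true := rC18_17

end DT.TM

end

section

/-! Kernel certificate, part C19 (16 cells). -/

set_option maxRecDepth 100000

namespace DT.TM
open Tr

def tC19_1 : Tr :=
  (b (c (a (b l (a l l)) l) (a (b l l) l)) (c (a (b l l) l) (a (c (b l l) (a l l)) (c l l))))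

theorem rC19_1 : run evalC tC19_1 12884901888 4294967296 240518168576 34359738368 103079215104 34359738368 = true := by
  decide +kernel

theorem runC19 : run evalC tC19_1 12884901888 4294967296 240518168576 34359738368 103079215104 34359738368 = true := rC19_1

end DT.TM

end

section

/-! Kernel certificate, part C20 (155 cells). -/

set_option maxRecDepth 100000

namespace DT.TM
open Tr

def tC20_1 : Tr :=
  (c (b l (b l l)) (b (c l (a l l)) (a l l)))

theorem rC20_1 : run evalC tC20_1 8589934592 8589934592 171798691840 34359738368 171798691840 34359738368 = true := by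
  decide +kernel

def tC20_2 : Tr :=
  (b (c (b l l) (b (c l (a l l)) (c l l))) (c l (c l l)))

theorem rC20_2 : run evalC tC20_2 4294967296 4294967296 171798691840 34359738368 223338299392 17179869184 = true := by
  decide +kernel

def tC20_3 : Tr :=
  (a (c (b (c (c l l) (a l (b l l))) (c l l)) (b (a l l) (a l l))) (c (b (c (b (c l l) l) (b (a (b
  (a l l) l) (b (c l l) (c l l))) (a l (c l (b l l))))) (c l (b (c l l) l))) (b (c (a (b l l) (b l
  l)) (c l l)) (a l (b l l)))))

theorem rC20_3 : run evalC tC20_3 4294967296 4294967296 154618822656 17179869184 257698037760 17179869184 = true := by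
  decide +kernel

def tC20_4 : Tr :=
  (a (c (c l l) (b (a l l) (a l l))) (b (c (c l l) (a l l)) (c l l)))

theorem rC20_4 : run evalC tC20_4 4294967296 4294967296 188978561024 17179869184 257698037760 17179869184 = true := by
  decide +kernel

def tC20_5 : Tr := Tr.b tC20_3 tC20_4

theorem rC20_5 : run evalC tC20_5 4294967296 4294967296 171798691840 34359738368 257698037760 17179869184 = true :=
  run_b rC20_3 rC20_4 (by norm_num)

def tC20_6 : Tr := Tr.c tC20_2 tC20_5

theorem rC20_6 : run evalC tC20_6 4294967296 4294967296 171798691840 34359738368 240518168576 34359738368 = true :=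
  run_c rC20_2 rC20_5 (by norm_num)

def tC20_7 : Tr :=
  (c (b l l) (b (c l l) (c l l)))

theorem rC20_7 : run evalC tC20_7 12884901888 4294967296 154618822656 17179869184 223338299392 17179869184 = true := by
  decide +kernel

def tC20_8 : Tr :=
  (b (a (c (c l l) (b (a (c l l) l) (c l (b l l)))) (c l (a l l))) (c (b l l) (a (b (c l l) (c l
  l)) (c l l))))

theorem rC20_8 : run evalC tC20_8 12884901888 4294967296 154618822656 17179869184 249108103168 8589934592 = true := by
  decide +kernel

def tC20_9 : Tr :=
  (a (b (c (b (b (a l l) (a l l)) (a l (b l l))) (c (b l l) l)) (c (b (b l l) (a l (b l l))) (a l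
  (c l l)))) (b (b (a l l) (a (b l (c l l)) l)) (c (b (a l l) (a l l)) (b (c (b l l) l) (c l
  l)))))

theorem rC20_9 : run evalC tC20_9 12884901888 4294967296 154618822656 17179869184 266287972352 8589934592 = true := by
  decide +kernel

def tC20_10 : Tr := Tr.c tC20_8 tC20_9

theorem rC20_10 : run evalC tC20_10 12884901888 4294967296 154618822656 17179869184 257698037760 17179869184 = true :=
  run_c rC20_8 rC20_9 (by norm_num)

def tC20_11 : Tr := Tr.c tC20_7 tC20_10

theorem rC20_11 : run evalC tC20_11 12884901888 4294967296 154618822656 17179869184 240518168576 34359738368 = true :=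
  run_c rC20_7 rC20_10 (by norm_num)

def tC20_12 : Tr :=
  (c (c l (b l l)) (c (b (c (c l l) (a (b l l) (c l l))) (c l (a l l))) (b (a (b (a l (c l l)) l)
  (b (c (b l l) (a l l)) (c (c l l) (a l l)))) (a (b l l) (b (a l l) l)))))

theorem rC20_12 : run evalC tC20_12 12884901888 4294967296 188978561024 17179869184 240518168576 34359738368 = true := by
  decide +kernel

def tC20_13 : Tr := Tr.b tC20_11 tC20_12

theorem rC20_13 : run evalC tC20_13 12884901888 4294967296 171798691840 34359738368 240518168576 34359738368 = true :=
  run_b rC20_11 rC20_12 (by norm_num)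

def tC20_14 : Tr := Tr.a tC20_6 tC20_13

theorem rC20_14 : run evalC tC20_14 8589934592 8589934592 171798691840 34359738368 240518168576 34359738368 = true :=
  run_a rC20_6 rC20_13 (by norm_num)

def tC20_15 : Tr := Tr.c tC20_1 tC20_14

theorem rC20_15 : run evalC tC20_15 8589934592 8589934592 171798691840 34359738368 206158430208 68719476736 = true :=
  run_c rC20_1 rC20_14 (by norm_num)

theorem runC20 : run evalC tC20_15 8589934592 8589934592 171798691840 34359738368 206158430208 68719476736 = true := rC20_15

end DT.TM

end

section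

/-! Kernel certificate, part C21 (228 cells). -/

set_option maxRecDepth 100000

namespace DT.TM
open Tr

def tC21_1 : Tr :=
  (b l (c (b l (c l l)) l))

theorem rC21_1 : run evalC tC21_1 4294967296 4294967296 223338299392 17179869184 154618822656 17179869184 = true := by
  decide +kernel

def tC21_2 : Tr :=
  (c (b (b l (c (b l l) l)) (c (a (b (b l (c l l)) (c (a l l) (b l l))) (a (b l l) l)) (b (b l (c
  l l)) (a (a l (b l l)) l)))) (b (b l l) (c (b l (c (b l (a l l)) (b l l))) (b l (b l l)))))

theorem rC21_2 : run evalC tC21_2 2147483648 2147483648 249108103168 8589934592 154618822656 17179869184 = true := by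
  decide +kernel

def tC21_3 : Tr :=
  (b (a (c (b (a l (c l l)) l) (a l (b l l))) (c (a (b (c l l) l) (b l l)) (a (c (b l l) (a l l))
  (c l l)))) (b (c (a l l) (b (a l l) l)) (c l l)))

theorem rC21_3 : run evalC tC21_3 2147483648 2147483648 266287972352 8589934592 146028888064 8589934592 = true := by
  decide +kernel

def tC21_4 : Tr :=
  (a (b (c (a l (b (c l l) l)) (a l (c l l))) (b l l)) (c (b (c (a (b l l) l) (b l (b l l))) (b (b
  l l) l)) (b (b (b l l) (c l l)) (b (b l l) l))))

theorem rC21_4 : run evalC tC21_4 2147483648 2147483648 266287972352 8589934592 163208757248 8589934592 = true := by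
  decide +kernel

def tC21_5 : Tr := Tr.c tC21_3 tC21_4

theorem rC21_5 : run evalC tC21_5 2147483648 2147483648 266287972352 8589934592 154618822656 17179869184 = true :=
  run_c rC21_3 rC21_4 (by norm_num)

def tC21_6 : Tr := Tr.b tC21_2 tC21_5

theorem rC21_6 : run evalC tC21_6 2147483648 2147483648 257698037760 17179869184 154618822656 17179869184 = true :=
  run_b rC21_2 rC21_5 (by norm_num)

def tC21_7 : Tr :=
  (c (a (b (b l (a l l)) (b (c l (a l l)) l)) (c l (b l l))) (b (b l (a (b l l) l)) (a (c (a (c (b
  l l) (a l l)) (b l l)) (a (c (a l l) (a l l)) (c l l))) (c l (a l l)))))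

theorem rC21_7 : run evalC tC21_7 6442450944 2147483648 257698037760 17179869184 154618822656 17179869184 = true := by
  decide +kernel

def tC21_8 : Tr := Tr.a tC21_6 tC21_7

theorem rC21_8 : run evalC tC21_8 4294967296 4294967296 257698037760 17179869184 154618822656 17179869184 = true :=
  run_a rC21_6 rC21_7 (by norm_num)

def tC21_9 : Tr := Tr.b tC21_1 tC21_8

theorem rC21_9 : run evalC tC21_9 4294967296 4294967296 240518168576 34359738368 154618822656 17179869184 = true :=
  run_b rC21_1 rC21_8 (by norm_num)

def tC21_10 : Tr :=
  (b l (b l l))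

theorem rC21_10 : run evalC tC21_10 4294967296 4294967296 223338299392 17179869184 188978561024 17179869184 = true := by
  decide +kernel

def tC21_11 : Tr :=
  (b l (a (b l (c l l)) (b l l)))

theorem rC21_11 : run evalC tC21_11 4294967296 4294967296 249108103168 8589934592 180388626432 8589934592 = true := by
  decide +kernel

def tC21_12 : Tr :=
  (a (b (c (a (a l (c l l)) (c (b l l) (b l l))) (b (b l l) (a l (c l l)))) (a (a l l) (c (b (b l
  l) l) (b l l)))) (c (a (c (a (b l l) l) (a (b l (b l l)) l)) (a l l)) (a (b (b l l) (b (c (a l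
  l) (a l l)) (b l l))) (c l l))))

theorem rC21_12 : run evalC tC21_12 4294967296 4294967296 266287972352 8589934592 180388626432 8589934592 = true := by
  decide +kernel

def tC21_13 : Tr := Tr.b tC21_11 tC21_12

theorem rC21_13 : run evalC tC21_13 4294967296 4294967296 257698037760 17179869184 180388626432 8589934592 = true :=
  run_b rC21_11 rC21_12 (by norm_num)

def tC21_14 : Tr :=
  (b (b l (b l l)) (a (c (a (a l l) (b (b l (b l l)) (a l l))) (a l (c (a l (b l l)) (a l (c l
  l))))) (c (b (b l (a (b l l) l)) (a (c (b l l) (c l l)) (c l (a l l)))) (b (b l (b l l)) (c (a l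
  (a l l)) (a l (a l l)))))))

theorem rC21_14 : run evalC tC21_14 4294967296 4294967296 257698037760 17179869184 197568495616 8589934592 = true := by
  decide +kernel

def tC21_15 : Tr := Tr.c tC21_13 tC21_14

theorem rC21_15 : run evalC tC21_15 4294967296 4294967296 257698037760 17179869184 188978561024 17179869184 = true :=
  run_c rC21_13 rC21_14 (by norm_num)

def tC21_16 : Tr := Tr.b tC21_10 tC21_15

theorem rC21_16 : run evalC tC21_16 4294967296 4294967296 240518168576 34359738368 188978561024 17179869184 = true :=
  run_b rC21_10 rC21_15 (by norm_num)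

def tC21_17 : Tr := Tr.c tC21_9 tC21_16

theorem rC21_17 : run evalC tC21_17 4294967296 4294967296 240518168576 34359738368 171798691840 34359738368 = true :=
  run_c rC21_9 rC21_16 (by norm_num)

def tC21_18 : Tr :=
  (b (c (b l (a l l)) (b l l)) (c (a (c (a (c l l) l) (b l (a l l))) (c l l)) (b (b l (a (b l l)
  l)) (a (c (c l (a l l)) (c (a l l) (a (c l l) l))) (c l (c l l))))))

theorem rC21_18 : run evalC tC21_18 12884901888 4294967296 240518168576 34359738368 171798691840 34359738368 = true := by
  decide +kernel

def tC21_19 : Tr := Tr.a tC21_17 tC21_18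

theorem rC21_19 : run evalC tC21_19 8589934592 8589934592 240518168576 34359738368 171798691840 34359738368 = true :=
  run_a rC21_17 rC21_18 (by norm_num)

theorem runC21 : run evalC tC21_19 8589934592 8589934592 240518168576 34359738368 171798691840 34359738368 = true := rC21_19

end DT.TM

end

section

/-! Kernel certificate, part C22 (93 cells). -/

set_option maxRecDepth 100000

namespace DT.TM
open Tr

def tC22_1 : Tr :=
  (c (a (b l l) (c l l)) (a (c (c l l) (a (c l (a (a (c l (b l l)) l) l)) (b l l))) (c (c l (b l
  l)) (a (b l l) (b (b l l) l)))))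

theorem rC22_1 : run evalC tC22_1 8589934592 8589934592 223338299392 17179869184 240518168576 34359738368 = true := by
  decide +kernel

def tC22_2 : Tr :=
  (b (b l (c l l)) (c (c (a (a l (c (a l l) l)) (c (b l (a l l)) (b l (a l l)))) (a (a l (c l l))
  (c (b l (c l l)) (b l l)))) (a (a l (c l l)) (c (b l (c l l)) (b l l)))))

theorem rC22_2 : run evalC tC22_2 4294967296 4294967296 257698037760 17179869184 223338299392 17179869184 = true := by
  decide +kernel

def tC22_3 : Tr :=
  (b (b l (c l l)) (c (a (c (a (b l (c l l)) l) (b l (a l l))) (c l l)) (b (b l l) (a (c (c l l)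
  l) (c l l)))))

theorem rC22_3 : run evalC tC22_3 12884901888 4294967296 257698037760 17179869184 223338299392 17179869184 = true := by
  decide +kernel

def tC22_4 : Tr := Tr.a tC22_2 tC22_3

theorem rC22_4 : run evalC tC22_4 8589934592 8589934592 257698037760 17179869184 223338299392 17179869184 = true :=
  run_a rC22_2 rC22_3 (by norm_num)

def tC22_5 : Tr :=
  (a (b (c l (a (c l (a l l)) l)) (c (a l (b l l)) (a (a l l) l))) (b (c l (a l l)) (c (b l (c (a
  l l) (a l l))) (b (a l l) (a l l)))))

theorem rC22_5 : run evalC tC22_5 8589934592 8589934592 257698037760 17179869184 257698037760 17179869184 = true := by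
  decide +kernel

def tC22_6 : Tr := Tr.c tC22_4 tC22_5

theorem rC22_6 : run evalC tC22_6 8589934592 8589934592 257698037760 17179869184 240518168576 34359738368 = true :=
  run_c rC22_4 rC22_5 (by norm_num)

def tC22_7 : Tr := Tr.b tC22_1 tC22_6

theorem rC22_7 : run evalC tC22_7 8589934592 8589934592 240518168576 34359738368 240518168576 34359738368 = true :=
  run_b rC22_1 rC22_6 (by norm_num)

theorem runC22 : run evalC tC22_7 8589934592 8589934592 240518168576 34359738368 240518168576 34359738368 = true := rC22_7

end DT.TM

end

section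

/-! Kernel certificate, part C23 (199 cells). -/

set_option maxRecDepth 100000

namespace DT.TM
open Tr

def tC23_1 : Tr :=
  (a (c (b (c (b (a l l) (a l l)) (b (a l l) l)) (c (a l (c l l)) (c l l))) (b (c (a (b l l) l) (a
  l l)) (c l l))) (c (b (a (c (b l l) (b l l)) (c (b l l) (b l l))) (c (a (c l l) (c l l)) (c l
  l))) (b (c (b l l) l) (a l l))))

theorem rC23_1 : run evalC tC23_1 25769803776 8589934592 17179869184 17179869184 34359738368 34359738368 = true := by
  decide +kernel

def tC23_2 : Tr :=
  (c (c (b (a (c l l) (c l l)) (a (b l (a l l)) (c (b l (a l l)) (c l l)))) (b (c l l) (c (a l l)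
  l))) (c (c l l) l))

theorem rC23_2 : run evalC tC23_2 21474836480 4294967296 51539607552 17179869184 34359738368 34359738368 = true := by
  decide +kernel

def tC23_3 : Tr :=
  (c (a (c (b (c (b l l) (c l l)) (c (b (a l l) l) (c l l))) (c (b l l) l)) (b (c (c (b l l) (c l
  l)) (c l l)) (c (c (b l l) (c l l)) (c l l)))) (c (a l l) (a l l)))

theorem rC23_3 : run evalC tC23_3 30064771072 4294967296 51539607552 17179869184 34359738368 34359738368 = true := by
  decide +kernel

def tC23_4 : Tr := Tr.a tC23_2 tC23_3

theorem rC23_4 : run evalC tC23_4 25769803776 8589934592 51539607552 17179869184 34359738368 34359738368 = true :=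
  run_a rC23_2 rC23_3 (by norm_num)

def tC23_5 : Tr := Tr.b tC23_1 tC23_4

theorem rC23_5 : run evalC tC23_5 25769803776 8589934592 34359738368 34359738368 34359738368 34359738368 = true :=
  run_b rC23_1 rC23_4 (by norm_num)

def tC23_6 : Tr :=
  (a (b (c (c (b l l) (a l l)) (c l l)) (c (b l l) (b l l))) (c (b (b l l) (b l l)) (b l l)))

theorem rC23_6 : run evalC tC23_6 25769803776 8589934592 34359738368 34359738368 103079215104 34359738368 = true := by
  decide +kernel

def tC23_7 : Tr := Tr.c tC23_5 tC23_6

theorem rC23_7 : run evalC tC23_7 25769803776 8589934592 34359738368 34359738368 68719476736 68719476736 = true :=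
  run_c rC23_5 rC23_6 (by norm_num)

def tC23_8 : Tr :=
  (c (c (b (a (b (c (a l l) l) (c (a l l) (c l l))) (c (b (a l l) (a l l)) (c l l))) (a (b (c (a l
  l) (c l l)) (a (c l l) (c l l))) (a (b (c l l) l) (b l l)))) (b (c (a l l) l) (c (a l l) l))) (c
  (c (b l l) l) l))

theorem rC23_8 : run evalC tC23_8 21474836480 4294967296 85899345920 17179869184 34359738368 34359738368 = true := by
  decide +kernel

def tC23_9 : Tr :=
  (c (a (b (c (a (c (b l l) l) (b l l)) (c l l)) (c (b (a l l) l) l)) (b (c (b (a l l) l) (c l l))
  (c l l))) (c (a l l) (a l l)))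

theorem rC23_9 : run evalC tC23_9 30064771072 4294967296 85899345920 17179869184 34359738368 34359738368 = true := by
  decide +kernel

def tC23_10 : Tr := Tr.a tC23_8 tC23_9

theorem rC23_10 : run evalC tC23_10 25769803776 8589934592 85899345920 17179869184 34359738368 34359738368 = true :=
  run_a rC23_8 rC23_9 (by norm_num)

def tC23_11 : Tr :=
  (a (c (a (b (c (b (a (b l l) l) (a l l)) (c l l)) (c (b l l) l)) (b (c (b l l) l) (b l l))) (c
  (b l l) l)) (c (b (a (c l l) l) (a l l)) (c (b l l) l)))

theorem rC23_11 : run evalC tC23_11 25769803776 8589934592 120259084288 17179869184 34359738368 34359738368 = true := by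
  decide +kernel

def tC23_12 : Tr := Tr.b tC23_10 tC23_11

theorem rC23_12 : run evalC tC23_12 25769803776 8589934592 103079215104 34359738368 34359738368 34359738368 = true :=
  run_b rC23_10 rC23_11 (by norm_num)

def tC23_13 : Tr :=
  (b (c (a (c l l) (c l l)) (a l (b l l))) (c (a (c l l) (c l l)) (a l l)))

theorem rC23_13 : run evalC tC23_13 25769803776 8589934592 103079215104 34359738368 103079215104 34359738368 = true := by
  decide +kernel

def tC23_14 : Tr := Tr.c tC23_12 tC23_13

theorem rC23_14 : run evalC tC23_14 25769803776 8589934592 103079215104 34359738368 68719476736 68719476736 = true :=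
  run_c rC23_12 rC23_13 (by norm_num)

def tC23_15 : Tr := Tr.b tC23_7 tC23_14

theorem rC23_15 : run evalC tC23_15 25769803776 8589934592 68719476736 68719476736 68719476736 68719476736 = true :=
  run_b rC23_7 rC23_14 (by norm_num)

theorem runC23 : run evalC tC23_15 25769803776 8589934592 68719476736 68719476736 68719476736 68719476736 = true := rC23_15

end DT.TM

end

section

/-! Kernel certificate, part C24 (40 cells). -/

set_option maxRecDepth 100000

namespace DT.TM
open Tr

def tC24_1 : Tr :=
  (b (c (a (b (c l l) (c l l)) (b (c l l) (c l l))) (a (b l (c l l)) (b l (c l l)))) (c (a (b (c l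
  l) (c l (c l l))) (b (c l l) (c l l))) (a (b (c (b l l) (b l l)) (c (a (c l l) l) (a (b l l) (b
  l l)))) (b (c l l) (c (b l l) (b l l))))))

theorem rC24_1 : run evalC tC24_1 25769803776 8589934592 68719476736 68719476736 206158430208 68719476736 = true := by
  decide +kernel

theorem runC24 : run evalC tC24_1 25769803776 8589934592 68719476736 68719476736 206158430208 68719476736 = true := rC24_1

end DT.TM

end

section

/-! Kernel certificate, part C25 (41 cells). -/

set_option maxRecDepth 100000

namespace DT.TM
open Tr

def tC25_1 : Tr :=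
  (c (a (b (c (a (b l l) (b l l)) (a (c l l) l)) (c (b l l) (b l l))) (b (c (b l l) (b l l)) (c l
  l))) (a (b (c (c l l) l) (c l l)) (b (c l l) (c l l))))

theorem rC25_1 : run evalC tC25_1 25769803776 8589934592 171798691840 34359738368 68719476736 68719476736 = true := by
  decide +kernel

def tC25_2 : Tr :=
  (c (a (b (c l l) l) (b (c l l) l)) (a (b (c l l) (c l (b l l))) (b (c l l) (c l l))))

theorem rC25_2 : run evalC tC25_2 25769803776 8589934592 240518168576 34359738368 68719476736 68719476736 = true := by
  decide +kernel

def tC25_3 : Tr := Tr.b tC25_1 tC25_2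

theorem rC25_3 : run evalC tC25_3 25769803776 8589934592 206158430208 68719476736 68719476736 68719476736 = true :=
  run_b rC25_1 rC25_2 (by norm_num)

theorem runC25 : run evalC tC25_3 25769803776 8589934592 206158430208 68719476736 68719476736 68719476736 = true := rC25_3

end DT.TM

end

section

/-! Kernel certificate, part C26 (203 cells). -/

set_option maxRecDepth 100000

namespace DT.TM
open Tr

def tC26_1 : Tr :=
  (b (c (a l l) (a (c l l) (c l l))) (c (a l (b l l)) (a (c l l) (c l l))))

theorem rC26_1 : run evalC tC26_1 25769803776 8589934592 171798691840 34359738368 171798691840 34359738368 = true := by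
  decide +kernel

def tC26_2 : Tr :=
  (a (c (c (c l l) (b l l)) (a (b (c l (b l l)) (c (c l l) (b (a l l) (a (b l l) l)))) (b (b l l)
  (c l (b l l))))) (c (c l (b l l)) (b (a l l) (a (c l l) l))))

theorem rC26_2 : run evalC tC26_2 25769803776 8589934592 154618822656 17179869184 240518168576 34359738368 = true := by
  decide +kernel

def tC26_3 : Tr :=
  (c (c l (c l (b l l))) (c (b (c l (a l l)) (c l (a l l))) (b (a (b (a (c l l) (c l l)) (c (c l
  l) (a l l))) (a (b l (c l l)) (b l l))) (a (b (c (c l l) (a l l)) (c l (a l l))) (c (c l l) (b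
  (a l l) (a l l)))))))

theorem rC26_3 : run evalC tC26_3 21474836480 4294967296 188978561024 17179869184 240518168576 34359738368 = true := by
  decide +kernel

def tC26_4 : Tr :=
  (c (c (a l l) (a l l)) (a (b (c l (b l (a l l))) (c (c l l) (a (c l (b l l)) (b l l)))) (b (c l
  l) (c (c l l) (b l (a l l))))))

theorem rC26_4 : run evalC tC26_4 30064771072 4294967296 188978561024 17179869184 240518168576 34359738368 = true := by
  decide +kernel

def tC26_5 : Tr := Tr.a tC26_3 tC26_4

theorem rC26_5 : run evalC tC26_5 25769803776 8589934592 188978561024 17179869184 240518168576 34359738368 = true :=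
  run_a rC26_3 rC26_4 (by norm_num)

def tC26_6 : Tr := Tr.b tC26_2 tC26_5

theorem rC26_6 : run evalC tC26_6 25769803776 8589934592 171798691840 34359738368 240518168576 34359738368 = true :=
  run_b rC26_2 rC26_5 (by norm_num)

def tC26_7 : Tr := Tr.c tC26_1 tC26_6

theorem rC26_7 : run evalC tC26_7 25769803776 8589934592 171798691840 34359738368 206158430208 68719476736 = true :=
  run_c rC26_1 rC26_6 (by norm_num)

def tC26_8 : Tr :=
  (a (b (c (b l l) (b l l)) (c (c l l) (b l (c l l)))) (b (c l (b l l)) (c (c l l) (b l l))))

theorem rC26_8 : run evalC tC26_8 25769803776 8589934592 240518168576 34359738368 171798691840 34359738368 = true := by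
  decide +kernel

def tC26_9 : Tr :=
  (c (c l (c l l)) (c (b (c l (a l l)) (c l l)) (b (a (b (a l l) l) (c (c l (b l l)) (b (a l l)
  l))) (a (c l l) (c l l)))))

theorem rC26_9 : run evalC tC26_9 21474836480 4294967296 223338299392 17179869184 240518168576 34359738368 = true := by
  decide +kernel

def tC26_10 : Tr :=
  (c (c (a l l) (a l (c l l))) (a (c (c l (b l l)) (b (c (c l (b l l)) (b l (a l l))) (c (c l l)
  (b l l)))) (b (c (c l l) (a (c l l) (c l l))) (c (c l l) (c (c l l) (b l l))))))

theorem rC26_10 : run evalC tC26_10 30064771072 4294967296 223338299392 17179869184 240518168576 34359738368 = true := by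
  decide +kernel

def tC26_11 : Tr := Tr.a tC26_9 tC26_10

theorem rC26_11 : run evalC tC26_11 25769803776 8589934592 223338299392 17179869184 240518168576 34359738368 = true :=
  run_a rC26_9 rC26_10 (by norm_num)

def tC26_12 : Tr :=
  (a (c (b (c l l) (c (a l l) (a (b l l) l))) (b (c (c l l) (a l (c l l))) (c (b l (a l l)) (b (a
  l l) (a l l))))) (c (b (a l l) (c l (a l l))) (b (c (c l l) (a (c l l) (c l l))) (a (c (b l l)
  (b l l)) (c (b l l) (b l l))))))

theorem rC26_12 : run evalC tC26_12 25769803776 8589934592 257698037760 17179869184 240518168576 34359738368 = true := by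
  decide +kernel

def tC26_13 : Tr := Tr.b tC26_11 tC26_12

theorem rC26_13 : run evalC tC26_13 25769803776 8589934592 240518168576 34359738368 240518168576 34359738368 = true :=
  run_b rC26_11 rC26_12 (by norm_num)

def tC26_14 : Tr := Tr.c tC26_8 tC26_13

theorem rC26_14 : run evalC tC26_14 25769803776 8589934592 240518168576 34359738368 206158430208 68719476736 = true :=
  run_c rC26_8 rC26_13 (by norm_num)

def tC26_15 : Tr := Tr.b tC26_7 tC26_14

theorem rC26_15 : run evalC tC26_15 25769803776 8589934592 206158430208 68719476736 206158430208 68719476736 = true :=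
  run_b rC26_7 rC26_14 (by norm_num)

theorem runC26 : run evalC tC26_15 25769803776 8589934592 206158430208 68719476736 206158430208 68719476736 = true := rC26_15

end DT.TM

end

section

/-! Kernel certificate, part C27 (151 cells). -/

set_option maxRecDepth 100000

namespace DT.TM
open Tr

def tC27_1 : Tr :=
  (c (b (a (c (b l l) (b l l)) (c (b l l) (b l l))) (a (c (b l (c l l)) (c l l)) (c (b l (a l l))
  (c l l)))) (a (b (c l l) l) (b (c l l) (c l l))))

theorem rC27_1 : run evalC tC27_1 38654705664 4294967296 17179869184 17179869184 34359738368 34359738368 = true := by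
  decide +kernel

def tC27_2 : Tr :=
  (c (a (b (c (a (b l (c l l)) (b l l)) (c l l)) (c (a (c l l) (b l l)) (c l l))) (b (c (a (b l l)
  (b l l)) (c (c l l) l)) (c (a (b l l) (b l l)) (c (a l l) l)))) (a (c (c l l) l) (c (b l l) l)))

theorem rC27_2 : run evalC tC27_2 38654705664 4294967296 51539607552 17179869184 34359738368 34359738368 = true := by
  decide +kernel

def tC27_3 : Tr := Tr.b tC27_1 tC27_2

theorem rC27_3 : run evalC tC27_3 38654705664 4294967296 34359738368 34359738368 34359738368 34359738368 = true :=
  run_b rC27_1 rC27_2 (by norm_num)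

def tC27_4 : Tr :=
  (b (c (b (c l l) l) (a l l)) (c (a l l) l))

theorem rC27_4 : run evalC tC27_4 38654705664 4294967296 34359738368 34359738368 103079215104 34359738368 = true := by
  decide +kernel

def tC27_5 : Tr := Tr.c tC27_3 tC27_4

theorem rC27_5 : run evalC tC27_5 38654705664 4294967296 34359738368 34359738368 68719476736 68719476736 = true :=
  run_c rC27_3 rC27_4 (by norm_num)

def tC27_6 : Tr :=
  (a (c (b (c (b l l) (b l l)) (c (b l (a l l)) (c l l))) (b (c l l) (c l l))) (b (c (a (c (b l l)
  l) (c (b l l) l)) (c l l)) (c (c (b l l) (c (b l l) l)) (c l l))))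

theorem rC27_6 : run evalC tC27_6 47244640256 4294967296 17179869184 17179869184 34359738368 34359738368 = true := by
  decide +kernel

def tC27_7 : Tr :=
  (c (a (c (b (a l l) (a l l)) (c (b l l) l)) (c (b (a l l) (a l l)) (c (b l (c l l)) (a l l))))
  (c (a l (c l l)) (a l l)))

theorem rC27_7 : run evalC tC27_7 47244640256 4294967296 42949672960 8589934592 34359738368 34359738368 = true := by
  decide +kernel

def tC27_8 : Tr :=
  (c (a (c (b (a l l) (a l l)) (c (a l (c l l)) l)) (c (b (a l l) (a (c l l) (c l l))) (a (c (b l
  l) l) (c (b l l) l)))) (c (a l (c l l)) (a l l)))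

theorem rC27_8 : run evalC tC27_8 47244640256 4294967296 60129542144 8589934592 34359738368 34359738368 = true := by
  decide +kernel

def tC27_9 : Tr := Tr.b tC27_7 tC27_8

theorem rC27_9 : run evalC tC27_9 47244640256 4294967296 51539607552 17179869184 34359738368 34359738368 = true :=
  run_b rC27_7 rC27_8 (by norm_num)

def tC27_10 : Tr := Tr.b tC27_6 tC27_9

theorem rC27_10 : run evalC tC27_10 47244640256 4294967296 34359738368 34359738368 34359738368 34359738368 = true :=
  run_b rC27_6 rC27_9 (by norm_num)

def tC27_11 : Tr :=
  (b (c (a (b l l) (b l l)) (a l l)) (c (a l (a l l)) (a l l)))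

theorem rC27_11 : run evalC tC27_11 47244640256 4294967296 34359738368 34359738368 103079215104 34359738368 = true := by
  decide +kernel

def tC27_12 : Tr := Tr.c tC27_10 tC27_11

theorem rC27_12 : run evalC tC27_12 47244640256 4294967296 34359738368 34359738368 68719476736 68719476736 = true :=
  run_c rC27_10 rC27_11 (by norm_num)

def tC27_13 : Tr := Tr.a tC27_5 tC27_12

theorem rC27_13 : run evalC tC27_13 42949672960 8589934592 34359738368 34359738368 68719476736 68719476736 = true :=
  run_a rC27_5 rC27_12 (by norm_num)

theorem runC27 : run evalC tC27_13 42949672960 8589934592 34359738368 34359738368 68719476736 68719476736 = true := rC27_13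

end DT.TM

end
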