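import Pool.Agent.Work.MP_74021c_co.Defs
import Pool.Agent.Work.MP_74021c_co.Cand
import Pool.Agent.Work.MP_74021c_co.TMSpec
import Pool.Agent.Work.MP_74021c_co.Bd.B01

/-! Bundle of small proof modules (one section per former module). -/

section

/-!
# G13: the one variable inequality `0 ≤ lamS ≤ 1`
-/

open Real Set

namespace DT

theorem Cand.certL_aux1 (s : ℝ) (h0 : 0 ≤ s) (h1 : s ≤ 1) : 0 ≤ 1 / 2 + s * Cand.l s := by
  have hs : 0 ≤ 1 - s := by linarith
  have e : 1 / 2 + s * Cand.l s =
      (33554432 * (1 - s) ^ 4 + 108749859 * s * (1 - s) ^ 3 + 47969816 * s ^ 2 * (1 - s) ^ 2 +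
        22552577 * s ^ 3 * (1 - s) + 1920006 * s ^ 4) / 67108864 := by
    simp only [Cand.l, Cand.L, Matrix.cons_val_zero, Matrix.cons_val_one, Matrix.cons_val]
    push_cast
    ring
  rw [e]
  positivity

theorem Cand.certL : Cand.CertL := by
  rintro s ⟨h0, h1⟩
  have hs : 0 ≤ 1 - s := by linarith
  refine ⟨mul_nonneg hs (Cand.certL_aux1 s h0 h1), ?_⟩
  rw [← sub_nonneg]
  have e : 1 - Cand.lamS s =
      (33554432 * (1 - s) ^ 5 + 226794461 * s * (1 - s) ^ 4 + 623118824 * s ^ 2 * (1 - s) ^ 3 +
        648536063 * s ^ 3 * (1 - s) ^ 2 + 333624314 * s ^ 4 * (1 - s) + 67108864 * s ^ 5) /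
        67108864 := by
    simp only [Cand.lamS, Cand.l, Cand.L, Matrix.cons_val_zero, Matrix.cons_val_one,
      Matrix.cons_val]
    push_cast
    ring
  rw [e]
  positivity

end DT

end

section

/-!
# Digits of packed numbers (item T1a)
-/

namespace DT.TM

theorem I_eq : I = ∑ m ∈ E, 2 ^ (96 * ps m) := by decide +kernel

theorem HI_eq : HI = 2 ^ 57 * I := by decide +kernel

theorem OFF_eq : OFF = 2 ^ 95 * I := by decide +kernel

theorem MASK_eq : MASK = (2 ^ 58 - 1) * I := by decide +kernel

theorem C1_eq : C1 = HI ^ 2 + OFF + 2 ^ (96 * 104) := by decide +kernel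

theorem T1a_succ {α : Type} [DecidableEq α] (E : Finset α) (q : α → ℕ) (f : α → ℕ) (p : ℕ) :
    ∑ m ∈ E.filter (fun m => q m < p + 1), f m =
      ∑ m ∈ E.filter (fun m => q m < p), f m + ∑ m ∈ E.filter (fun m => q m = p), f m := by
  rw [← Finset.sum_union]
  · congr 1
    ext m
    simp only [Finset.mem_filter, Finset.mem_union]
    constructor
    · rintro ⟨h1, h2⟩
      rcases Nat.lt_or_eq_of_le (Nat.lt_succ_iff.1 h2) with h | h
      · exact Or.inl ⟨h1, h⟩
      · exact Or.inr ⟨h1, h⟩
    · rintro (⟨h1, h2⟩ | ⟨h1, h2⟩)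
      · exact ⟨h1, by omega⟩
      · exact ⟨h1, by omega⟩
  · rw [Finset.disjoint_left]
    intro m h1 h2
    simp only [Finset.mem_filter] at h1 h2
    omega

theorem T1a_lt {α : Type} [DecidableEq α] (E : Finset α) (q : α → ℕ) (hq : Set.InjOn q E)
    (B : ℕ) (D : α → ℕ) (hD : ∀ m ∈ E, D m < B) (hB : 0 < B) (p : ℕ) :
    ∑ m ∈ E.filter (fun m => q m < p), D m * B ^ (q m) < B ^ p := by
  induction p with
  | zero => simp
  | succ p ih =>
    rw [T1a_succ]
    have h1 : ∑ m ∈ E.filter (fun m => q m = p), D m * B ^ (q m) ≤ (B - 1) * B ^ p := by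
      by_cases hne : (E.filter (fun m => q m = p)).Nonempty
      · obtain ⟨m0, hm0⟩ := hne
        have hm1 := Finset.mem_filter.1 hm0
        have h2 : E.filter (fun m => q m = p) = {m0} := by
          ext m
          rw [Finset.mem_singleton]
          constructor
          · intro hm
            have hm2 := Finset.mem_filter.1 hm
            exact hq hm2.1 hm1.1 (by rw [hm2.2, hm1.2])
          · rintro rfl
            exact hm0
        rw [h2, Finset.sum_singleton, hm1.2]
        exact Nat.mul_le_mul_right _ (Nat.le_sub_one_of_lt (hD m0 hm1.1))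
      · rw [Finset.not_nonempty_iff_eq_empty.1 hne]
        simp
    have h3 : B ^ (p + 1) = B ^ p + (B - 1) * B ^ p := by
      obtain ⟨c, rfl⟩ : ∃ c, B = c + 1 := ⟨B - 1, by omega⟩
      rw [Nat.add_sub_cancel, pow_succ]
      ring
    rw [h3]
    exact Nat.add_lt_add_of_lt_of_le ih h1

theorem T1a_mod {α : Type} [DecidableEq α] (E : Finset α) (q : α → ℕ) (hq : Set.InjOn q E)
    (B : ℕ) (D : α → ℕ) (hD : ∀ m ∈ E, D m < B) (hB : 0 < B) (p : ℕ) :
    (∑ m ∈ E, D m * B ^ (q m)) % B ^ p = ∑ m ∈ E.filter (fun m => q m < p), D m * B ^ (q m) := by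
  rw [← Finset.sum_filter_add_sum_filter_not E (fun m => q m < p)]
  have h1 : B ^ p ∣ ∑ m ∈ E.filter (fun m => ¬ q m < p), D m * B ^ (q m) := by
    refine Finset.dvd_sum fun m hm => ?_
    have h2 := (Finset.mem_filter.1 hm).2
    exact Dvd.dvd.mul_left (pow_dvd_pow _ (by omega)) _
  obtain ⟨c, hc⟩ := h1
  rw [hc, Nat.add_mul_mod_self_left, Nat.mod_eq_of_lt (T1a_lt E q hq B D hD hB p)]

theorem ps_injOn : Set.InjOn ps (E : Set (ℕ × ℕ × ℕ)) := by
  have h : ∀ m ∈ E, ∀ m' ∈ E, ps m = ps m' → m = m' := by decide +kernel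
  exact fun m hm m' hm' hmm => h m hm m' hm' hmm

theorem T1a_pow (D : ℕ × ℕ × ℕ → ℕ) :
    ∑ m ∈ E, D m * 2 ^ (96 * ps m) = ∑ m ∈ E, D m * (2 ^ 96) ^ (ps m) :=
  Finset.sum_congr rfl fun m _ => by rw [pow_mul]

theorem digit_get (D : ℕ × ℕ × ℕ → ℕ) (hD : ∀ m ∈ E, D m < 2 ^ 96) (m : ℕ × ℕ × ℕ) (hm : m ∈ E) :
    ((∑ m ∈ E, D m * 2 ^ (96 * ps m)) >>> (96 * ps m)) % 2 ^ 96 = D m := by
  have hB : 0 < 2 ^ 96 := by positivity
  rw [T1a_pow, Nat.shiftRight_eq_div_pow, pow_mul, ← Nat.mod_mul_right_div_self, ← pow_succ,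
    T1a_mod E ps ps_injOn _ D hD hB, T1a_succ]
  have h1 : E.filter (fun m' => ps m' = ps m) = {m} := by
    ext m'
    rw [Finset.mem_singleton]
    constructor
    · intro hm'
      have hm2 := Finset.mem_filter.1 hm'
      exact ps_injOn hm2.1 hm hm2.2
    · rintro rfl
      exact Finset.mem_filter.2 ⟨hm, rfl⟩
  rw [h1, Finset.sum_singleton, Nat.add_mul_div_right _ _ (by positivity),
    Nat.div_eq_of_lt (T1a_lt E ps ps_injOn _ D hD hB _), zero_add]

theorem T1a_RM (s : Finset (ℕ × ℕ × ℕ)) (hs : s ⊆ E) (D : ℕ × ℕ × ℕ → ℕ)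
    (hD : ∀ m ∈ E, D m < 2 ^ 58) : (∑ m ∈ s, D m * (2 ^ 96) ^ (ps m)) % RM = ∑ m ∈ s, D m := by
  have hRM : RM = 2 ^ 96 - 1 := by decide +kernel
  have h1 : (∑ m ∈ s, D m * (2 ^ 96) ^ (ps m)) ≡ ∑ m ∈ s, D m [MOD RM] := by
    have h0 : (2 ^ 96 : ℕ) ≡ 1 [MOD RM] := by
      have : (2 ^ 96 : ℕ) = 1 + RM := by decide +kernel
      rw [this]
      exact Nat.add_modEq_right
    refine Nat.ModEq.sum fun m _ => ?_
    have h2 := (h0.pow (ps m)).mul_left (D m)
    rwa [one_pow, mul_one] at h2
  have h3 : ∑ m ∈ s, D m < RM := by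
    have h4 : ∑ m ∈ s, D m ≤ ∑ m ∈ s, 2 ^ 58 :=
      Finset.sum_le_sum fun m hm => (hD m (hs hm)).le
    have h5 : s.card ≤ 20 := by
      have h6 := Finset.card_le_card hs
      have h7 : E.card = 20 := by decide +kernel
      omega
    rw [Finset.sum_const, smul_eq_mul] at h4
    have h8 : s.card * 2 ^ 58 ≤ 20 * 2 ^ 58 := Nat.mul_le_mul_right _ h5
    have h9 : 20 * 2 ^ 58 < RM := by decide +kernel
    omega
  exact Nat.mod_eq_of_modEq h1 h3

theorem digit_sums (D : ℕ × ℕ × ℕ → ℕ) (hD : ∀ m ∈ E, D m < 2 ^ 58) :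
    let ab := ∑ m ∈ E, D m * 2 ^ (96 * ps m)
    ab % R = D (0, 0, 0) ∧
    (ab % R18) % RM = ∑ m ∈ E.filter (fun m => dg m ≤ 1), D m ∧
    (ab % R35) % RM = ∑ m ∈ E.filter (fun m => dg m ≤ 2), D m ∧
    ab % RM = ∑ m ∈ E, D m := by
  intro ab
  have hD' : ∀ m ∈ E, D m < 2 ^ 96 := fun m hm =>
    (hD m hm).trans_le (Nat.pow_le_pow_right (by norm_num) (by norm_num))
  have hB : 0 < 2 ^ 96 := by positivity
  have hab : ab = ∑ m ∈ E, D m * (2 ^ 96) ^ (ps m) := T1a_pow D
  have hR : R = (2 ^ 96) ^ 1 := by decide +kernel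
  have hR18 : R18 = (2 ^ 96) ^ 18 := by decide +kernel
  have hR35 : R35 = (2 ^ 96) ^ 35 := by decide +kernel
  have f1 : E.filter (fun m => ps m < 1) = {(0, 0, 0)} := by decide +kernel
  have f18 : E.filter (fun m => ps m < 18) = E.filter (fun m => dg m ≤ 1) := by decide +kernel
  have f35 : E.filter (fun m => ps m < 35) = E.filter (fun m => dg m ≤ 2) := by decide +kernel
  refine ⟨?_, ?_, ?_, ?_⟩
  · rw [hab, hR, T1a_mod E ps ps_injOn _ D hD' hB, f1, Finset.sum_singleton]
    have : ps (0, 0, 0) = 0 := rfl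
    rw [this, pow_zero, mul_one]
  · rw [hab, hR18, T1a_mod E ps ps_injOn _ D hD' hB, f18,
      T1a_RM _ (Finset.filter_subset _ _) D hD]
  · rw [hab, hR35, T1a_mod E ps ps_injOn _ D hD' hB, f35,
      T1a_RM _ (Finset.filter_subset _ _) D hD]
  · rw [hab, T1a_RM _ (Finset.Subset.refl _) D hD]

end DT.TM

end

section

/-!
# T1c: signs and absolute values of the digits
-/

set_option autoImplicit false

namespace DT.TM

open Finset

theorem T1c_ps_inj : ∀ m ∈ E, ∀ m' ∈ E, ps m = ps m' → m = m' := by decide +kernel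

theorem T1c_ps_lt : ∀ m ∈ E, ps m < 52 := by decide +kernel

theorem T1c_I_eq : I = ∑ m ∈ E, 1 * 2 ^ (96 * ps m) := by decide +kernel

theorem T1c_M57 : M57 = 2 ^ 57 - 1 := by decide +kernel

theorem T1c_H : H = 2 ^ 57 := by decide +kernel

theorem T1c_lt (d : ℕ → ℕ) (hd : ∀ p, d p < 2 ^ 96) (n : ℕ) :
    ∑ p ∈ range n, d p * 2 ^ (96 * p) < 2 ^ (96 * n) := by
  induction n with
  | zero => simp
  | succ n ih =>
    rw [sum_range_succ]
    have h1 : d n * 2 ^ (96 * n) ≤ (2 ^ 96 - 1) * 2 ^ (96 * n) :=
      Nat.mul_le_mul_right _ (Nat.le_sub_one_of_lt (hd n))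
    have h2 : 2 ^ (96 * (n + 1)) = 2 ^ 96 * 2 ^ (96 * n) := by rw [← pow_add]; ring_nf
    have h3 : 1 ≤ 2 ^ 96 := Nat.one_le_two_pow
    have h4 : (2 ^ 96 - 1) * 2 ^ (96 * n) + 2 ^ (96 * n) = 2 ^ 96 * 2 ^ (96 * n) := by
      rw [Nat.sub_mul, one_mul, Nat.sub_add_cancel]
      exact Nat.le_mul_of_pos_left _ (by positivity)
    rw [h2]
    omega

theorem T1c_tb (d : ℕ → ℕ) (hd : ∀ p, d p < 2 ^ 96) (n i : ℕ) :
    (∑ p ∈ range n, d p * 2 ^ (96 * p)).testBit i =
      (decide (i / 96 < n) && (d (i / 96)).testBit (i % 96)) := by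
  induction n with
  | zero => simp
  | succ n ih =>
    rw [sum_range_succ, add_comm, mul_comm (d n), Nat.testBit_two_pow_mul_add _ (T1c_lt d hd n), ih]
    by_cases h : i < 96 * n
    · have h1 : i / 96 < n := by omega
      rw [if_pos h, decide_eq_true h1, decide_eq_true (by omega : i / 96 < n + 1)]
    · rw [if_neg h]
      by_cases h2 : i < 96 * (n + 1)
      · have h3 : i / 96 = n := by omega
        have h4 : i - 96 * n = i % 96 := by omega
        rw [h3, h4, decide_eq_true (by omega : n < n + 1), Bool.true_and]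
      · rw [decide_eq_false (by omega : ¬ i / 96 < n + 1), Bool.false_and]
        refine Nat.testBit_lt_two_pow (lt_of_lt_of_le (hd n) ?_)
        exact Nat.pow_le_pow_right (by norm_num) (by omega)

theorem T1c_sumE (D : ℕ × ℕ × ℕ → ℕ) :
    ∑ m ∈ E, D m * 2 ^ (96 * ps m) =
      ∑ p ∈ range 52, (∑ m ∈ E.filter (fun m => ps m = p), D m) * 2 ^ (96 * p) := by
  rw [← sum_fiberwise_of_maps_to (s := E) (t := range 52) (g := ps)
    (fun m hm => mem_range.2 (T1c_ps_lt m hm))]
  refine sum_congr rfl fun p _ => ?_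
  rw [sum_mul]
  refine sum_congr rfl fun m hm => ?_
  rw [(mem_filter.1 hm).2]

theorem T1c_fib (m : ℕ × ℕ × ℕ) (hm : m ∈ E) : E.filter (fun m' => ps m' = ps m) = {m} := by
  ext m'
  rw [mem_filter, mem_singleton]
  constructor
  · rintro ⟨h1, h2⟩
    exact T1c_ps_inj m' h1 m hm h2
  · rintro rfl
    exact ⟨hm, rfl⟩

theorem T1c_tbE (D : ℕ × ℕ × ℕ → ℕ) (hD : ∀ m ∈ E, D m < 2 ^ 96) (i : ℕ) :
    (∑ m ∈ E, D m * 2 ^ (96 * ps m)).testBit i = true ↔
      ∃ m ∈ E, ps m = i / 96 ∧ (D m).testBit (i % 96) = true := by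
  have hd : ∀ p, ∑ m ∈ E.filter (fun m => ps m = p), D m < 2 ^ 96 := by
    intro p
    by_cases h : ∃ m ∈ E, ps m = p
    · obtain ⟨m, hm, rfl⟩ := h
      rw [T1c_fib m hm, sum_singleton]
      exact hD m hm
    · have h1 : E.filter (fun m => ps m = p) = ∅ := by
        rw [filter_eq_empty_iff]
        exact fun m hm h2 => h ⟨m, hm, h2⟩
      rw [h1, sum_empty]
      positivity
  rw [T1c_sumE, T1c_tb _ hd, Bool.and_eq_true, decide_eq_true_eq]
  constructor
  · rintro ⟨h1, h2⟩
    by_cases h : ∃ m ∈ E, ps m = i / 96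
    · obtain ⟨m, hm, h3⟩ := h
      rw [← h3, T1c_fib m hm, sum_singleton] at h2
      exact ⟨m, hm, h3, h2⟩
    · have h3 : E.filter (fun m => ps m = i / 96) = ∅ := by
        rw [filter_eq_empty_iff]
        exact fun m hm h2 => h ⟨m, hm, h2⟩
      rw [h3, sum_empty] at h2
      simp at h2
  · rintro ⟨m, hm, h3, h4⟩
    refine ⟨?_, ?_⟩
    · rw [← h3]
      exact T1c_ps_lt m hm
    · rw [← h3, T1c_fib m hm, sum_singleton]
      exact h4

theorem T1c_xor (D D' : ℕ × ℕ × ℕ → ℕ) (hD : ∀ m ∈ E, D m < 2 ^ 96)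
    (hD' : ∀ m ∈ E, D' m < 2 ^ 96) :
    (∑ m ∈ E, D m * 2 ^ (96 * ps m)) ^^^ (∑ m ∈ E, D' m * 2 ^ (96 * ps m)) =
      ∑ m ∈ E, (D m ^^^ D' m) * 2 ^ (96 * ps m) := by
  refine Nat.eq_of_testBit_eq fun i => ?_
  rw [Nat.testBit_xor, Bool.eq_iff_iff, T1c_tbE _ (fun m hm => Nat.xor_lt_two_pow (hD m hm) (hD' m hm))]
  by_cases h : ∃ m ∈ E, ps m = i / 96
  · obtain ⟨m, hm, h3⟩ := h
    have key : ∀ F : ℕ × ℕ × ℕ → ℕ, (∀ m ∈ E, F m < 2 ^ 96) →
        (∑ m ∈ E, F m * 2 ^ (96 * ps m)).testBit i = (F m).testBit (i % 96) := by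
      intro F hF
      rw [Bool.eq_iff_iff, T1c_tbE F hF]
      constructor
      · rintro ⟨m', hm', h4, h5⟩
        rw [T1c_ps_inj m' hm' m hm (h4.trans h3.symm)] at h5
        exact h5
      · intro h4
        exact ⟨m, hm, h3, h4⟩
    rw [key D hD, key D' hD']
    constructor
    · intro h4
      exact ⟨m, hm, h3, by rw [Nat.testBit_xor]; exact h4⟩
    · rintro ⟨m', hm', h4, h5⟩
      rw [T1c_ps_inj m' hm' m hm (h4.trans h3.symm), Nat.testBit_xor] at h5
      exact h5
  · have key : ∀ F : ℕ × ℕ × ℕ → ℕ, (∀ m ∈ E, F m < 2 ^ 96) →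
        (∑ m ∈ E, F m * 2 ^ (96 * ps m)).testBit i = false := by
      intro F hF
      rw [Bool.eq_false_iff, ne_eq, T1c_tbE F hF]
      rintro ⟨m', hm', h4, -⟩
      exact h ⟨m', hm', h4⟩
    rw [key D hD, key D' hD']
    constructor
    · intro h4
      simp at h4
    · rintro ⟨m', hm', h4, -⟩
      exact absurd ⟨m', hm', h4⟩ h

/-- the digits of a packed number -/
theorem T1c_N (z : ℕ × ℕ × ℕ → ℤ) (hz : ∀ m ∈ E, -2 ^ 57 ≤ z m ∧ z m < 2 ^ 57) (N : ℕ)
    (hN : (N : ℤ) = pk z) : N = ∑ m ∈ E, (z m + 2 ^ 57).toNat * 2 ^ (96 * ps m) := by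
  have h : (N : ℤ) = ((∑ m ∈ E, (z m + 2 ^ 57).toNat * 2 ^ (96 * ps m) : ℕ) : ℤ) := by
    rw [hN, pk]
    push_cast
    refine sum_congr rfl fun m hm => ?_
    rw [Int.toNat_of_nonneg (by have := (hz m hm).1; omega)]
  exact_mod_cast h

theorem T1c_D (z : ℕ × ℕ × ℕ → ℤ) (hz : ∀ m ∈ E, -2 ^ 57 ≤ z m ∧ z m < 2 ^ 57) (m : ℕ × ℕ × ℕ)
    (hm : m ∈ E) : (0 ≤ z m → (z m + 2 ^ 57).toNat = 2 ^ 57 + (z m).toNat ∧ (z m).toNat < 2 ^ 57) ∧
      (¬ 0 ≤ z m → (z m + 2 ^ 57).toNat < 2 ^ 57 ∧
        (-z m - 1).toNat = 2 ^ 57 - ((z m + 2 ^ 57).toNat + 1)) := by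
  have h := hz m hm
  constructor
  · intro h0
    omega
  · intro h0
    omega

theorem sign_digits (z : ℕ × ℕ × ℕ → ℤ) (hz : ∀ m ∈ E, -2 ^ 57 ≤ z m ∧ z m < 2 ^ 57) (N : ℕ)
    (hN : (N : ℤ) = pk z) :
    Nat.land (Nat.shiftRight N 57) I = ∑ m ∈ E, (if 0 ≤ z m then 1 else 0) * 2 ^ (96 * ps m) := by
  have hD := T1c_D z hz
  have hDlt : ∀ m ∈ E, (z m + 2 ^ 57).toNat < 2 ^ 96 := fun m hm => by
    have := hz m hm
    omega
  have hlt : ∀ m ∈ E, (if 0 ≤ z m then 1 else 0 : ℕ) < 2 ^ 96 := fun m hm => by
    split_ifs <;> norm_num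
  refine Nat.eq_of_testBit_eq fun i => ?_
  change ((N >>> 57) &&& I).testBit i = _
  rw [Nat.testBit_and, Nat.testBit_shiftRight, Bool.eq_iff_iff, T1c_tbE _ hlt, Bool.and_eq_true,
    T1c_N z hz N hN, T1c_tbE _ hDlt, T1c_I_eq, T1c_tbE _ (fun m hm => by norm_num)]
  have hbit : ∀ m ∈ E, (z m + 2 ^ 57).toNat.testBit 57 = true ↔ 0 ≤ z m := by
    intro m hm
    constructor
    · intro h
      by_contra h0
      rw [Nat.testBit_lt_two_pow ((hD m hm).2 h0).1] at h
      simp at h
    · intro h0
      rw [((hD m hm).1 h0).1, Nat.testBit_two_pow_add_eq,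
        Nat.testBit_lt_two_pow ((hD m hm).1 h0).2]
      rfl
  have hone : ∀ j : ℕ, (1 : ℕ).testBit j = true ↔ j = 0 := by
    intro j
    rw [Nat.testBit_one_eq_true_iff_self_eq_zero]
  constructor
  · rintro ⟨⟨m, hm, h1, h2⟩, ⟨m', hm', h3, h4⟩⟩
    rw [hone] at h4
    have h5 : (57 + i) / 96 = i / 96 := by omega
    have h6 : (57 + i) % 96 = 57 := by omega
    rw [h6] at h2
    refine ⟨m, hm, h1.trans h5, ?_⟩
    rw [if_pos ((hbit m hm).1 h2), hone]
    exact h4
  · rintro ⟨m, hm, h1, h2⟩
    by_cases h0 : 0 ≤ z m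
    · rw [if_pos h0, hone] at h2
      have h5 : (57 + i) / 96 = i / 96 := by omega
      have h6 : (57 + i) % 96 = 57 := by omega
      refine ⟨⟨m, hm, h1.trans h5.symm, ?_⟩, m, hm, h1, ?_⟩
      · rw [h6]
        exact (hbit m hm).2 h0
      · rw [hone]
        exact h2
    · rw [if_neg h0] at h2
      simp at h2

theorem abs_digits (z : ℕ × ℕ × ℕ → ℤ) (hz : ∀ m ∈ E, -2 ^ 57 ≤ z m ∧ z m < 2 ^ 57) (N : ℕ)
    (hN : (N : ℤ) = pk z) :
    Nat.sub (Nat.xor N (Nat.mul (Nat.sub I (Nat.land (Nat.shiftRight N 57) I)) M57))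
      (Nat.mul (Nat.land (Nat.shiftRight N 57) I) H) =
      ∑ m ∈ E, (if 0 ≤ z m then (z m).toNat else (-z m - 1).toNat) * 2 ^ (96 * ps m) := by
  have hD := T1c_D z hz
  have hDlt : ∀ m ∈ E, (z m + 2 ^ 57).toNat < 2 ^ 96 := fun m hm => by
    have := hz m hm
    omega
  rw [sign_digits z hz N hN]
  have h1 : Nat.sub I (∑ m ∈ E, (if 0 ≤ z m then 1 else 0) * 2 ^ (96 * ps m)) =
      ∑ m ∈ E, (if 0 ≤ z m then 0 else 1) * 2 ^ (96 * ps m) := by
    refine Nat.sub_eq_of_eq_add ?_
    rw [T1c_I_eq, ← sum_add_distrib]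
    refine sum_congr rfl fun m _ => ?_
    split_ifs <;> simp
  rw [h1]
  have h2 : Nat.mul (∑ m ∈ E, (if 0 ≤ z m then 0 else 1) * 2 ^ (96 * ps m)) M57 =
      ∑ m ∈ E, (if 0 ≤ z m then 0 else 2 ^ 57 - 1) * 2 ^ (96 * ps m) := by
    rw [Nat.mul_eq, T1c_M57, sum_mul]
    refine sum_congr rfl fun m _ => ?_
    split_ifs <;> ring
  have h3 : Nat.xor N (∑ m ∈ E, (if 0 ≤ z m then 0 else 2 ^ 57 - 1) * 2 ^ (96 * ps m)) =
      ∑ m ∈ E, ((z m + 2 ^ 57).toNat ^^^ (if 0 ≤ z m then 0 else 2 ^ 57 - 1)) *
        2 ^ (96 * ps m) := by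
    have h4 := T1c_xor (fun m => (z m + 2 ^ 57).toNat) (fun m => if 0 ≤ z m then 0 else 2 ^ 57 - 1)
      hDlt (fun m hm => by split_ifs <;> norm_num)
    rw [← T1c_N z hz N hN] at h4
    exact h4
  rw [h2, h3]
  refine Nat.sub_eq_of_eq_add ?_
  rw [Nat.mul_eq, T1c_H, sum_mul, ← sum_add_distrib]
  refine sum_congr rfl fun m hm => ?_
  by_cases h0 : 0 ≤ z m
  · rw [if_pos h0, if_pos h0, if_pos h0, Nat.xor_zero, ((hD m hm).1 h0).1]
    ring
  · rw [if_neg h0, if_neg h0, if_neg h0, ((hD m hm).2 h0).2]
    have h5 : (z m + 2 ^ 57).toNat ^^^ (2 ^ 57 - 1) = 2 ^ 57 - ((z m + 2 ^ 57).toNat + 1) := by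
      refine Nat.eq_of_testBit_eq fun i => ?_
      rw [Nat.testBit_two_pow_sub_succ ((hD m hm).2 h0).1, Nat.testBit_xor,
        Nat.testBit_two_pow_sub_one]
      by_cases hi : i < 57
      · rw [decide_eq_true hi]
        simp
      · rw [decide_eq_false hi, Nat.testBit_lt_two_pow (lt_of_lt_of_le ((hD m hm).2 h0).1
          (Nat.pow_le_pow_right (by norm_num) (not_lt.1 hi)))]
        rfl
    rw [h5]
    ring

end DT.TM

end

section

/-! Kernel certificate, part B01 (139 cells). -/

set_option maxRecDepth 100000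

namespace DT.TM
open Tr

def tB01_1 : Tr :=
  (a (c (c (a (c (b l (c (a l (c (b l l) l)) l)) (a l l)) (c (c (a (b l (c (c (b l l) l) l)) (c (b
  l (c l l)) l)) (a l l)) l)) (a (a l l) l)) (a (a l l) l)) (c (c (c (a (c (a (c (c (a l l) l) l)
  (c (b (c (b (c (b l l) l) l) l) l) l)) l) (c (b (c (b (c (a (b (c (b (c l l) l) l) l) l) l) (a l
  l)) l) l) l)) (a l l)) (a l l)) l))

theorem rB01_1 : run evalB tB01_1 8589934592 8589934592 137438953472 137438953472 68719476736 68719476736 = true := by
  decide +kernel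

def tB01_2 : Tr :=
  (a (c (a (a l l) l) (c (a (a l l) l) (a (c (a l l) (b (c l (a l (c l (b l l)))) l)) (c l (c (a l
  l) (a (b (c l (c l (b l l))) l) (c l (b (c l (c l l)) l)))))))) (c l (c (a l l) (c (a l l) (a (c
  l (a (c l (c l (a l l))) (c l (b l (c l (b l (c l (b l l)))))))) (c l (b l (c l (b (a l l) (c l
  (a (b l (c l (b l (c l l)))) l)))))))))))

theorem rB01_2 : run evalB tB01_2 8589934592 8589934592 137438953472 137438953472 206158430208 68719476736 = true := by
  decide +kernel

def tB01_3 : Tr := Tr.c tB01_1 tB01_2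

theorem rB01_3 : run evalB tB01_3 8589934592 8589934592 137438953472 137438953472 137438953472 137438953472 = true :=
  run_c rB01_1 rB01_2 (by norm_num)

def tB01_4 : Tr :=
  (c (a (c (c (c (a (c (b (c (a l l) l) l) l) l) l) l) l) (c (c l l) l)) (a (c l (c l (c l (a (c l
  (b l (c l (a l l)))) l)))) (c l (c l l))))

theorem rB01_4 : run evalB tB01_4 25769803776 8589934592 137438953472 137438953472 137438953472 137438953472 = true := by
  decide +kernel

def tB01_5 : Tr := Tr.a tB01_3 tB01_4

theorem rB01_5 : run evalB tB01_5 17179869184 17179869184 137438953472 137438953472 137438953472 137438953472 = true :=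
  run_a rB01_3 rB01_4 (by norm_num)

def tB01_6 : Tr :=
  (a (a l l) (a l l))

theorem rB01_6 : run evalB tB01_6 51539607552 17179869184 137438953472 137438953472 137438953472 137438953472 = true := by
  decide +kernel

def tB01_7 : Tr := Tr.a tB01_5 tB01_6

theorem rB01_7 : run evalB tB01_7 34359738368 34359738368 137438953472 137438953472 137438953472 137438953472 = true :=
  run_a rB01_5 rB01_6 (by norm_num)

theorem runB01 : run evalB tB01_7 34359738368 34359738368 137438953472 137438953472 137438953472 137438953472 = true := rB01_7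

end DT.TM

end

section

/-! Kernel certificate, part C01 (89 cells). -/

set_option maxRecDepth 100000

namespace DT.TM
open Tr

def tC01_1 : Tr :=
  (a (b (c (a (a l l) l) (a l (b l l))) (c (a (c (a l l) l) l) l)) (b (c (b (a l l) l) (b (c (a l
  l) (a l l)) l)) (c (a l l) l)))

theorem rC01_1 : run evalC tC01_1 8589934592 8589934592 17179869184 17179869184 17179869184 17179869184 = true := by
  decide +kernel

def tC01_2 : Tr :=
  (c (b (a (a l (c l l)) (c (b l l) (b (c l l) l))) l) (b (c (a (a l l) (c (b l l) (b (c l l) l)))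
  (a (a l (c l l)) (c (b (a l l) l) (b (a l l) l)))) (b l l)))

theorem rC01_2 : run evalC tC01_2 4294967296 4294967296 17179869184 17179869184 51539607552 17179869184 = true := by
  decide +kernel

def tC01_3 : Tr :=
  (b (c (b (a (c l (c l l)) (c l l)) (b l l)) (a (c (b (a l l) l) (a (b (c l l) l) l)) (c l l)))
  (b (c l l) l))

theorem rC01_3 : run evalC tC01_3 12884901888 4294967296 17179869184 17179869184 51539607552 17179869184 = true := by
  decide +kernel

def tC01_4 : Tr := Tr.a tC01_2 tC01_3

theorem rC01_4 : run evalC tC01_4 8589934592 8589934592 17179869184 17179869184 51539607552 17179869184 = true :=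
  run_a rC01_2 rC01_3 (by norm_num)

def tC01_5 : Tr := Tr.c tC01_1 tC01_4

theorem rC01_5 : run evalC tC01_5 8589934592 8589934592 17179869184 17179869184 34359738368 34359738368 = true :=
  run_c rC01_1 rC01_4 (by norm_num)

def tC01_6 : Tr :=
  (c (a (c (a (c (a (a (c (b l l) l) l) l) l) l) (c l l)) (c (a (b l l) (b l (b l l))) (c (b l l)
  l))) (a (b l l) (c l l)))

theorem rC01_6 : run evalC tC01_6 8589934592 8589934592 51539607552 17179869184 34359738368 34359738368 = true := by
  decide +kernel

def tC01_7 : Tr := Tr.b tC01_5 tC01_6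

theorem rC01_7 : run evalC tC01_7 8589934592 8589934592 34359738368 34359738368 34359738368 34359738368 = true :=
  run_b rC01_5 rC01_6 (by norm_num)

theorem runC01 : run evalC tC01_7 8589934592 8589934592 34359738368 34359738368 34359738368 34359738368 = true := rC01_7

end DT.TM

end

section

/-! Kernel certificate, part C02 (148 cells). -/

set_option maxRecDepth 100000

namespace DT.TM
open Tr

def tC02_1 : Tr :=
  (a (c (b (a l l) (a l l)) (c l l)) (b (c l l) (c (a l l) (c l l))))

theorem rC02_1 : run evalC tC02_1 4294967296 4294967296 85899345920 17179869184 17179869184 17179869184 = true := by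
  decide +kernel

def tC02_2 : Tr :=
  (a (c (b (a l l) (a l l)) (b (c l l) (c (a l (b l l)) (c l l)))) (c (b (a l (b l l)) (c (c l l)
  (a (b l l) (b l l)))) (b (c (b l (c l l)) l) (c (b (a l (c (b l l) l)) (a (b l (a l l)) (b (c l
  l) (c l l)))) (b l (c l l))))))

theorem rC02_2 : run evalC tC02_2 4294967296 4294967296 120259084288 17179869184 17179869184 17179869184 = true := by
  decide +kernel

def tC02_3 : Tr := Tr.b tC02_1 tC02_2

theorem rC02_3 : run evalC tC02_3 4294967296 4294967296 103079215104 34359738368 17179869184 17179869184 = true :=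
  run_b rC02_1 rC02_2 (by norm_num)

def tC02_4 : Tr :=
  (b (c (c l l) l) (c (b (c l l) (c (a l l) l)) (b l l)))

theorem rC02_4 : run evalC tC02_4 4294967296 4294967296 103079215104 34359738368 51539607552 17179869184 = true := by
  decide +kernel

def tC02_5 : Tr := Tr.c tC02_3 tC02_4

theorem rC02_5 : run evalC tC02_5 4294967296 4294967296 103079215104 34359738368 34359738368 34359738368 = true :=
  run_c rC02_3 rC02_4 (by norm_num)

def tC02_6 : Tr :=
  (c (c (b (a (b l l) (b l (a l l))) (a (b l (a l (c l l))) (b (c (a l l) (c l l)) (c (a l l) (b l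
  l))))) (b (c (a l l) l) (c (a (b l l) (c l l)) (c l l)))) (c (c (b l l) l) l))

theorem rC02_6 : run evalC tC02_6 12884901888 4294967296 85899345920 17179869184 34359738368 34359738368 = true := by
  decide +kernel

def tC02_7 : Tr :=
  (a (b (c (a l (c l l)) (b (a l (b l l)) (b l l))) (c (c l (b l l)) (b (a l (b l l)) (b (a l l)
  (a l l))))) (b (c (b (c l l) (c l (b l l))) (b (b l l) (a l l))) (b (a (b (c l l) l) l) (a l
  l))))

theorem rC02_7 : run evalC tC02_7 12884901888 4294967296 120259084288 17179869184 8589934592 8589934592 = true := by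
  decide +kernel

def tC02_8 : Tr :=
  (b (c (a (b (c l l) (c l l)) (c l l)) (b l l)) (a (c (b (c (b l l) l) (a (c l l) l)) (c l l)) (c
  (a l l) l)))

theorem rC02_8 : run evalC tC02_8 12884901888 4294967296 120259084288 17179869184 25769803776 8589934592 = true := by
  decide +kernel

def tC02_9 : Tr := Tr.c tC02_7 tC02_8

theorem rC02_9 : run evalC tC02_9 12884901888 4294967296 120259084288 17179869184 17179869184 17179869184 = true :=
  run_c rC02_7 rC02_8 (by norm_num)

def tC02_10 : Tr :=
  (c (b (c l l) (c l l)) (b l l))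

theorem rC02_10 : run evalC tC02_10 12884901888 4294967296 120259084288 17179869184 51539607552 17179869184 = true := by
  decide +kernel

def tC02_11 : Tr := Tr.c tC02_9 tC02_10

theorem rC02_11 : run evalC tC02_11 12884901888 4294967296 120259084288 17179869184 34359738368 34359738368 = true :=
  run_c rC02_9 rC02_10 (by norm_num)

def tC02_12 : Tr := Tr.b tC02_6 tC02_11

theorem rC02_12 : run evalC tC02_12 12884901888 4294967296 103079215104 34359738368 34359738368 34359738368 = true :=
  run_b rC02_6 rC02_11 (by norm_num)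

def tC02_13 : Tr := Tr.a tC02_5 tC02_12

theorem rC02_13 : run evalC tC02_13 8589934592 8589934592 103079215104 34359738368 34359738368 34359738368 = true :=
  run_a rC02_5 rC02_12 (by norm_num)

theorem runC02 : run evalC tC02_13 8589934592 8589934592 103079215104 34359738368 34359738368 34359738368 = true := rC02_13

end DT.TM

end

section

/-! Kernel certificate, part C03 (228 cells). -/

set_option maxRecDepth 100000

namespace DT.TM
open Tr

def tC03_1 : Tr :=
  (b (a (c (a l (c (a l l) (a l (b l l)))) (a (a l l) (b (a l l) (b (b l l) l)))) (c (b (c (a l (a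
  l l)) (a l (a l l))) (b (b l l) l)) (b (a (c (c l l) (b l l)) (c (a l l) l)) (b (a l l) l)))) (b
  (b l l) l))

theorem rC03_1 : run evalC tC03_1 4294967296 4294967296 17179869184 17179869184 77309411328 8589934592 = true := by
  decide +kernel

def tC03_2 : Tr :=
  (a (b (a (a l l) (c (b l l) (b l (b l l)))) (c (b (a l (c l l)) (b l l)) (a (a l (c l l)) (c (b
  l l) (b l l))))) (c (a (b (b (b l l) (c l (a l l))) (b l l)) (c l l)) (a (c (a (b (b l l) l) l)
  (a (b l l) l)) (a l l))))

theorem rC03_2 : run evalC tC03_2 4294967296 4294967296 8589934592 8589934592 94489280512 8589934592 = true := by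
  decide +kernel

def tC03_3 : Tr :=
  (b (a (b (c l l) l) (b l l)) l)

theorem rC03_3 : run evalC tC03_3 4294967296 4294967296 25769803776 8589934592 94489280512 8589934592 = true := by
  decide +kernel

def tC03_4 : Tr := Tr.b tC03_2 tC03_3

theorem rC03_4 : run evalC tC03_4 4294967296 4294967296 17179869184 17179869184 94489280512 8589934592 = true :=
  run_b rC03_2 rC03_3 (by norm_num)

def tC03_5 : Tr := Tr.c tC03_1 tC03_4

theorem rC03_5 : run evalC tC03_5 4294967296 4294967296 17179869184 17179869184 85899345920 17179869184 = true :=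
  run_c rC03_1 rC03_4 (by norm_num)

def tC03_6 : Tr :=
  (c (b (a (c (a (c l l) l) (a l l)) (c l l)) (b l l)) (a (b (c (a l l) l) l) (b l l)))

theorem rC03_6 : run evalC tC03_6 12884901888 4294967296 17179869184 17179869184 85899345920 17179869184 = true := by
  decide +kernel

def tC03_7 : Tr := Tr.a tC03_5 tC03_6

theorem rC03_7 : run evalC tC03_7 8589934592 8589934592 17179869184 17179869184 85899345920 17179869184 = true :=
  run_a rC03_5 rC03_6 (by norm_num)

def tC03_8 : Tr :=
  (b (a (b l l) l) l)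

theorem rC03_8 : run evalC tC03_8 8589934592 8589934592 51539607552 17179869184 85899345920 17179869184 = true := by
  decide +kernel

def tC03_9 : Tr := Tr.b tC03_7 tC03_8

theorem rC03_9 : run evalC tC03_9 8589934592 8589934592 34359738368 34359738368 85899345920 17179869184 = true :=
  run_b rC03_7 rC03_8 (by norm_num)

def tC03_10 : Tr :=
  (a (b (b l l) (c (a l (c l l)) (a l (b l (c l l))))) (c (b (b l (b l l)) (b (c l l) (b l l))) (b
  (b l (b l l)) (c (b (a l l) l) (a l l)))))

theorem rC03_10 : run evalC tC03_10 2147483648 2147483648 8589934592 8589934592 111669149696 8589934592 = true := by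
  decide +kernel

def tC03_11 : Tr :=
  (b (b (c l l) (c (b l (a l l)) (a l l))) (a (c (b l (a l l)) (b l (a l (c l l)))) (c (a (c (a l
  l) (b l l)) (c l l)) (a (b l (c l l)) (b l l)))))

theorem rC03_11 : run evalC tC03_11 2147483648 2147483648 8589934592 8589934592 128849018880 8589934592 = true := by
  decide +kernel

def tC03_12 : Tr := Tr.c tC03_10 tC03_11

theorem rC03_12 : run evalC tC03_12 2147483648 2147483648 8589934592 8589934592 120259084288 17179869184 = true :=
  run_c rC03_10 rC03_11 (by norm_num)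

def tC03_13 : Tr :=
  (c (b (c (b (b l l) l) (b (c (b l l) (b (a l l) l)) l)) l) (b (c (b (a (a l (b l l)) l) (b (c l
  l) l)) (a (b (c (b l l) (a l l)) (b (c l l) l)) (a (b l l) l))) (b (c l (b l l)) l)))

theorem rC03_13 : run evalC tC03_13 2147483648 2147483648 25769803776 8589934592 120259084288 17179869184 = true := by
  decide +kernel

def tC03_14 : Tr := Tr.b tC03_12 tC03_13

theorem rC03_14 : run evalC tC03_14 2147483648 2147483648 17179869184 17179869184 120259084288 17179869184 = true :=
  run_b rC03_12 rC03_13 (by norm_num)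

def tC03_15 : Tr :=
  (c (b (a (c (a (c (a l l) (a l l)) (c l l)) (a (c (a l l) l) (b l l))) (c (a l l) l)) (b (a (b l
  l) l) l)) (a (b (b l (c (a l l) l)) (b (a l l) l)) (c (b l l) l)))

theorem rC03_15 : run evalC tC03_15 6442450944 2147483648 17179869184 17179869184 120259084288 17179869184 = true := by
  decide +kernel

def tC03_16 : Tr := Tr.a tC03_14 tC03_15

theorem rC03_16 : run evalC tC03_16 4294967296 4294967296 17179869184 17179869184 120259084288 17179869184 = true :=
  run_a rC03_14 rC03_15 (by norm_num)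

def tC03_17 : Tr :=
  (b (c l (b (c l l) l)) l)

theorem rC03_17 : run evalC tC03_17 4294967296 4294967296 51539607552 17179869184 120259084288 17179869184 = true := by
  decide +kernel

def tC03_18 : Tr := Tr.b tC03_16 tC03_17

theorem rC03_18 : run evalC tC03_18 4294967296 4294967296 34359738368 34359738368 120259084288 17179869184 = true :=
  run_b rC03_16 rC03_17 (by norm_num)

def tC03_19 : Tr :=
  (b (a (c (b (a l l) l) (a l l)) (c l l)) (b (a l l) l))

theorem rC03_19 : run evalC tC03_19 12884901888 4294967296 34359738368 34359738368 120259084288 17179869184 = true := by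
  decide +kernel

def tC03_20 : Tr := Tr.a tC03_18 tC03_19

theorem rC03_20 : run evalC tC03_20 8589934592 8589934592 34359738368 34359738368 120259084288 17179869184 = true :=
  run_a rC03_18 rC03_19 (by norm_num)

def tC03_21 : Tr := Tr.c tC03_9 tC03_20

theorem rC03_21 : run evalC tC03_21 8589934592 8589934592 34359738368 34359738368 103079215104 34359738368 = true :=
  run_c rC03_9 rC03_20 (by norm_num)

def tC03_22 : Tr :=
  (c (b (a l l) (c (a l l) l)) (b (b l l) l))

theorem rC03_22 : run evalC tC03_22 8589934592 8589934592 103079215104 34359738368 103079215104 34359738368 = true := by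
  decide +kernel

def tC03_23 : Tr := Tr.b tC03_21 tC03_22

theorem rC03_23 : run evalC tC03_23 8589934592 8589934592 68719476736 68719476736 103079215104 34359738368 = true :=
  run_b rC03_21 rC03_22 (by norm_num)

theorem runC03 : run evalC tC03_23 8589934592 8589934592 68719476736 68719476736 103079215104 34359738368 = true := rC03_23

end DT.TM

end

section

/-! Kernel certificate, part C04 (169 cells). -/

set_option maxRecDepth 100000

namespace DT.TM
open Tr

def tC04_1 : Tr :=
  (c (b (a (b l l) l) (a (b (c l l) (c (b l (a l l)) (b l l))) (c (a (b l (a l l)) l) (a l l))))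
  (a (b l (b (c l l) (c (a l l) l))) (b l (a l l))))

theorem rC04_1 : run evalC tC04_1 2147483648 2147483648 8589934592 8589934592 154618822656 17179869184 = true := by
  decide +kernel

def tC04_2 : Tr :=
  (b (a (c (b (a (a l l) l) (c (b l l) (b l l))) (a (b l (c (a l l) l)) (b (c (b l l) (b l l))
  l))) (a (c (a l l) (a (c l l) l)) (c l l))) (c (b (a (b l l) l) l) (a (b (b (c l l) l) (b l l))
  (a l l))))

theorem rC04_2 : run evalC tC04_2 2147483648 2147483648 25769803776 8589934592 146028888064 8589934592 = true := by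
  decide +kernel

def tC04_3 : Tr :=
  (a (b (c (b (b (c l l) (c l l)) (a l (a (c l l) l))) (b (a l l) (c (b l (a l l)) (b l (a l
  l))))) (c (b (a (c (b l l) l) l) (b (c l l) l)) (a (b l (c (b l l) l)) (b (a l l) l)))) (a (c (b
  (b l l) l) (b l (a l l))) (c (a l l) (b l l))))

theorem rC04_3 : run evalC tC04_3 2147483648 2147483648 25769803776 8589934592 163208757248 8589934592 = true := by
  decide +kernel

def tC04_4 : Tr := Tr.c tC04_2 tC04_3

theorem rC04_4 : run evalC tC04_4 2147483648 2147483648 25769803776 8589934592 154618822656 17179869184 = true :=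
  run_c rC04_2 rC04_3 (by norm_num)

def tC04_5 : Tr := Tr.b tC04_1 tC04_4

theorem rC04_5 : run evalC tC04_5 2147483648 2147483648 17179869184 17179869184 154618822656 17179869184 = true :=
  run_b rC04_1 rC04_4 (by norm_num)

def tC04_6 : Tr :=
  (c (a (c (a (b l l) l) (a (b l l) l)) (c l l)) (b (a l l) (a (a (c l l) l) l)))

theorem rC04_6 : run evalC tC04_6 6442450944 2147483648 17179869184 17179869184 154618822656 17179869184 = true := by
  decide +kernel

def tC04_7 : Tr := Tr.a tC04_5 tC04_6

theorem rC04_7 : run evalC tC04_7 4294967296 4294967296 17179869184 17179869184 154618822656 17179869184 = true :=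
  run_a rC04_5 rC04_6 (by norm_num)

def tC04_8 : Tr :=
  (a (c (b l (a l l)) (b l l)) (c l l))

theorem rC04_8 : run evalC tC04_8 2147483648 2147483648 8589934592 8589934592 188978561024 17179869184 = true := by
  decide +kernel

def tC04_9 : Tr :=
  (a (b (a (c (b l (b l l)) (b l l)) (c (b l l) l)) (c (a (b (c l l) l) (a (c l (b l l)) (b l l)))
  (a (b (c l l) (c l l)) (b l (a l l))))) (b (a l l) (a (c (a l l) l) l)))

theorem rC04_9 : run evalC tC04_9 2147483648 2147483648 25769803776 8589934592 180388626432 8589934592 = true := by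
  decide +kernel

def tC04_10 : Tr :=
  (a (b (a (c l l) l) (a (c (b l (c l l)) (b l l)) (c (b l l) l))) (b l (a l l)))

theorem rC04_10 : run evalC tC04_10 2147483648 2147483648 25769803776 8589934592 197568495616 8589934592 = true := by
  decide +kernel

def tC04_11 : Tr := Tr.c tC04_9 tC04_10

theorem rC04_11 : run evalC tC04_11 2147483648 2147483648 25769803776 8589934592 188978561024 17179869184 = true :=
  run_c rC04_9 rC04_10 (by norm_num)

def tC04_12 : Tr := Tr.b tC04_8 tC04_11

theorem rC04_12 : run evalC tC04_12 2147483648 2147483648 17179869184 17179869184 188978561024 17179869184 = true :=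
  run_b rC04_8 rC04_11 (by norm_num)

def tC04_13 : Tr :=
  (b (a l l) (a (c (b l l) l) l))

theorem rC04_13 : run evalC tC04_13 6442450944 2147483648 17179869184 17179869184 188978561024 17179869184 = true := by
  decide +kernel

def tC04_14 : Tr := Tr.a tC04_12 tC04_13

theorem rC04_14 : run evalC tC04_14 4294967296 4294967296 17179869184 17179869184 188978561024 17179869184 = true :=
  run_a rC04_12 rC04_13 (by norm_num)

def tC04_15 : Tr := Tr.c tC04_7 tC04_14

theorem rC04_15 : run evalC tC04_15 4294967296 4294967296 17179869184 17179869184 171798691840 34359738368 = true :=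
  run_c rC04_7 rC04_14 (by norm_num)

theorem runC04 : run evalC tC04_15 4294967296 4294967296 17179869184 17179869184 171798691840 34359738368 = true := rC04_15

end DT.TM

end

section

/-! Kernel certificate, part C05 (103 cells). -/

set_option maxRecDepth 100000

namespace DT.TM
open Tr

def tC05_1 : Tr :=
  (b (c (b (a (c l (b l l)) l) (c l l)) (a (b (c (b (a l l) l) (a (b (c l l) l) l)) (c l (b l l)))
  (a l l))) (c l (b (c l l) l)))

theorem rC05_1 : run evalC tC05_1 4294967296 4294967296 51539607552 17179869184 154618822656 17179869184 = true := by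
  decide +kernel

def tC05_2 : Tr :=
  (b (a (c (b (a (c l l) l) (c l l)) (a (b l (c l l)) (a l l))) (a (a l l) l)) (c (b (a l l) l) (a
  (b (c l l) l) l)))

theorem rC05_2 : run evalC tC05_2 2147483648 2147483648 42949672960 8589934592 180388626432 8589934592 = true := by
  decide +kernel

def tC05_3 : Tr :=
  (a (b (c (a (b (c l l) l) (a (b l l) (b l l))) (a (b (a l l) (c l (a l l))) (b l (a l l)))) (c
  (b (a (c l l) l) (c l l)) (a (b l (c l l)) (a l l)))) (a (b (c (a l l) l) (a l l)) (b l l)))

theorem rC05_3 : run evalC tC05_3 2147483648 2147483648 42949672960 8589934592 197568495616 8589934592 = true := by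
  decide +kernel

def tC05_4 : Tr := Tr.c tC05_2 tC05_3

theorem rC05_4 : run evalC tC05_4 2147483648 2147483648 42949672960 8589934592 188978561024 17179869184 = true :=
  run_c rC05_2 rC05_3 (by norm_num)

def tC05_5 : Tr :=
  (c (b (c l (b l l)) (c l l)) (b (a (c (b (c l l) l) (b (c l l) (c l l))) (a (c l l) l)) (c (b l
  l) (b (c l l) l))))

theorem rC05_5 : run evalC tC05_5 2147483648 2147483648 60129542144 8589934592 188978561024 17179869184 = true := by
  decide +kernel

def tC05_6 : Tr := Tr.b tC05_4 tC05_5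

theorem rC05_6 : run evalC tC05_6 2147483648 2147483648 51539607552 17179869184 188978561024 17179869184 = true :=
  run_b rC05_4 rC05_5 (by norm_num)

def tC05_7 : Tr :=
  (b (a (c l (b l l)) (c l l)) (c (a l l) (a l l)))

theorem rC05_7 : run evalC tC05_7 6442450944 2147483648 51539607552 17179869184 188978561024 17179869184 = true := by
  decide +kernel

def tC05_8 : Tr := Tr.a tC05_6 tC05_7

theorem rC05_8 : run evalC tC05_8 4294967296 4294967296 51539607552 17179869184 188978561024 17179869184 = true :=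
  run_a rC05_6 rC05_7 (by norm_num)

def tC05_9 : Tr := Tr.c tC05_1 tC05_8

theorem rC05_9 : run evalC tC05_9 4294967296 4294967296 51539607552 17179869184 171798691840 34359738368 = true :=
  run_c rC05_1 rC05_8 (by norm_num)

theorem runC05 : run evalC tC05_9 4294967296 4294967296 51539607552 17179869184 171798691840 34359738368 = true := rC05_9

end DT.TM

end

section

/-! Kernel certificate, part C06 (16 cells). -/

set_option maxRecDepth 100000

namespace DT.TM
open Tr

def tC06_1 : Tr :=
  (c (b (a (c (a l l) (b l l)) (c l l)) (a (b l l) l)) (b (a (b l l) l) (a (b (a l l) l) l)))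

theorem rC06_1 : run evalC tC06_1 12884901888 4294967296 34359738368 34359738368 171798691840 34359738368 = true := by
  decide +kernel

theorem runC06 : run evalC tC06_1 12884901888 4294967296 34359738368 34359738368 171798691840 34359738368 = true := rC06_1

end DT.TM

end

section

/-! Kernel certificate, part C07 (28 cells). -/

set_option maxRecDepth 100000

namespace DT.TM
open Tr

def tC07_1 : Tr :=
  (b (c (a (b (c l l) l) (b l l)) (a (b (c (b l l) (a (b (c l (b l l)) l) (c l l))) (c l (b l l)))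
  (c (b l l) (a l l)))) (c (b l l) (a (c l (b l l)) (c l (b l l)))))

theorem rC07_1 : run evalC tC07_1 8589934592 8589934592 103079215104 34359738368 171798691840 34359738368 = true := by
  decide +kernel

theorem runC07 : run evalC tC07_1 8589934592 8589934592 103079215104 34359738368 171798691840 34359738368 = true := rC07_1

end DT.TM

end

section

/-! Kernel certificate, part C08 (166 cells). -/

set_option maxRecDepth 100000

namespace DT.TM
open Tr

def tC08_1 : Tr :=
  (a (c (a (b (a l l) (c (a (b l (c l l)) l) (a l l))) (b l (c l l))) (a (b (a (c l (a l l)) l) (a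
  (c l l) l)) l)) (c (b l l) l))

theorem rC08_1 : run evalC tC08_1 4294967296 4294967296 17179869184 17179869184 240518168576 34359738368 = true := by
  decide +kernel

def tC08_2 : Tr :=
  (a (c (b (a (c (b l (a l l)) (a l l)) (c l l)) (a (c (b (a l l) l) (b (a l l) (a (c l l) l))) (c
  (b (a l l) (a l l)) (b l l)))) (a (b (a l l) (c (a (b l l) l) l)) (b l (c l l)))) (c (b (a l l)
  (a (c l l) l)) (b l l)))

theorem rC08_2 : run evalC tC08_2 2147483648 2147483648 42949672960 8589934592 223338299392 17179869184 = true := by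
  decide +kernel

def tC08_3 : Tr :=
  (a (b (c (a (b l (c l l)) (b l l)) (a (b (a l l) l) (a (b l l) (b l l)))) (c (b (c l l) (c l l))
  (a (b (c l l) (c l l)) (b l l)))) (b (a (b (c l l) (a l l)) l) (a (c l l) l)))

theorem rC08_3 : run evalC tC08_3 2147483648 2147483648 60129542144 8589934592 214748364800 8589934592 = true := by
  decide +kernel

def tC08_4 : Tr :=
  (a (b (a (c (a (b (c l l) l) (b l (c l l))) (a (b l l) l)) (c (b l (a l l)) l)) (a (c (b (a l l)
  l) (a (c l (b l l)) (b l (c l l)))) (c (b (a l l) (a l l)) (a (b l l) l)))) (b (a (c l l) l) (a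
  (c (b l l) l) l)))

theorem rC08_4 : run evalC tC08_4 2147483648 2147483648 60129542144 8589934592 231928233984 8589934592 = true := by
  decide +kernel

def tC08_5 : Tr := Tr.c tC08_3 tC08_4

theorem rC08_5 : run evalC tC08_5 2147483648 2147483648 60129542144 8589934592 223338299392 17179869184 = true :=
  run_c rC08_3 rC08_4 (by norm_num)

def tC08_6 : Tr := Tr.b tC08_2 tC08_5

theorem rC08_6 : run evalC tC08_6 2147483648 2147483648 51539607552 17179869184 223338299392 17179869184 = true :=
  run_b rC08_2 rC08_5 (by norm_num)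

def tC08_7 : Tr :=
  (b (a (c l l) l) (a (c (b l l) (b l l)) (c l l)))

theorem rC08_7 : run evalC tC08_7 6442450944 2147483648 51539607552 17179869184 223338299392 17179869184 = true := by
  decide +kernel

def tC08_8 : Tr := Tr.a tC08_6 tC08_7

theorem rC08_8 : run evalC tC08_8 4294967296 4294967296 51539607552 17179869184 223338299392 17179869184 = true :=
  run_a rC08_6 rC08_7 (by norm_num)

def tC08_9 : Tr :=
  (a (a (c (b (a (a l l) l) (a (c (b (a l l) (a (c l l) l)) (a l l)) (b l (c l l)))) (a (b l (a l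
  l)) (b l l))) (b l (c (a l l) l))) (b l (a l l)))

theorem rC08_9 : run evalC tC08_9 4294967296 4294967296 51539607552 17179869184 257698037760 17179869184 = true := by
  decide +kernel

def tC08_10 : Tr := Tr.c tC08_8 tC08_9

theorem rC08_10 : run evalC tC08_10 4294967296 4294967296 51539607552 17179869184 240518168576 34359738368 = true :=
  run_c rC08_8 rC08_9 (by norm_num)

def tC08_11 : Tr := Tr.b tC08_1 tC08_10

theorem rC08_11 : run evalC tC08_11 4294967296 4294967296 34359738368 34359738368 240518168576 34359738368 = true :=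
  run_b rC08_1 rC08_10 (by norm_num)

def tC08_12 : Tr :=
  (b (c l l) (c (a (b l l) l) (a l l)))

theorem rC08_12 : run evalC tC08_12 12884901888 4294967296 34359738368 34359738368 240518168576 34359738368 = true := by
  decide +kernel

def tC08_13 : Tr := Tr.a tC08_11 tC08_12

theorem rC08_13 : run evalC tC08_13 8589934592 8589934592 34359738368 34359738368 240518168576 34359738368 = true :=
  run_a rC08_11 rC08_12 (by norm_num)

theorem runC08 : run evalC tC08_13 8589934592 8589934592 34359738368 34359738368 240518168576 34359738368 = true := rC08_13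

end DT.TM

end

section

/-! Kernel certificate, part C09 (136 cells). -/

set_option maxRecDepth 100000

namespace DT.TM
open Tr

def tC09_1 : Tr :=
  (b (c (b (c l l) l) (a (b (c l (b l l)) (c l l)) l)) (c (b l l) (b (c l l) (c l l))))

theorem rC09_1 : run evalC tC09_1 2147483648 2147483648 77309411328 8589934592 214748364800 8589934592 = true := by
  decide +kernel

def tC09_2 : Tr :=
  (c (b (a (b (c l l) (c l (a l l))) (b l l)) (c (b (a l l) l) (b (a l l) (a l l)))) (b (a (c l (a
  l l)) (b (a l l) (a l l))) (a (b (c (a l l) l) (c l l)) (b l l))))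

theorem rC09_2 : run evalC tC09_2 1073741824 1073741824 77309411328 8589934592 231928233984 8589934592 = true := by
  decide +kernel

def tC09_3 : Tr :=
  (b (a (b (c l l) (a (c l l) l)) (b l l)) (c (b l l) (a (b (a l l) l) (b l l))))

theorem rC09_3 : run evalC tC09_3 3221225472 1073741824 77309411328 8589934592 231928233984 8589934592 = true := by
  decide +kernel

def tC09_4 : Tr := Tr.a tC09_2 tC09_3

theorem rC09_4 : run evalC tC09_4 2147483648 2147483648 77309411328 8589934592 231928233984 8589934592 = true :=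
  run_a rC09_2 rC09_3 (by norm_num)

def tC09_5 : Tr := Tr.c tC09_1 tC09_4

theorem rC09_5 : run evalC tC09_5 2147483648 2147483648 77309411328 8589934592 223338299392 17179869184 = true :=
  run_c rC09_1 rC09_4 (by norm_num)

def tC09_6 : Tr :=
  (c (c (b l l) (b (c l l) l)) (c (b (c (b l l) (b (a l l) (c l l))) (c l (b l l))) (b (a (a (c l
  (b l l)) (c (b l l) (b l l))) (b (a l l) (a l l))) (c (b (a l l) (a l l)) (a (a l (b l l)) (b l
  l))))))

theorem rC09_6 : run evalC tC09_6 2147483648 2147483648 94489280512 8589934592 223338299392 17179869184 = true := by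
  decide +kernel

def tC09_7 : Tr := Tr.b tC09_5 tC09_6

theorem rC09_7 : run evalC tC09_7 2147483648 2147483648 85899345920 17179869184 223338299392 17179869184 = true :=
  run_b rC09_5 rC09_6 (by norm_num)

def tC09_8 : Tr :=
  (b (a (c (b l l) (b (a l l) (a l l))) (b l l)) (c (c l l) (a (b (a l l) (c l l)) (b l l))))

theorem rC09_8 : run evalC tC09_8 6442450944 2147483648 85899345920 17179869184 223338299392 17179869184 = true := by
  decide +kernel

def tC09_9 : Tr := Tr.a tC09_7 tC09_8

theorem rC09_9 : run evalC tC09_9 4294967296 4294967296 85899345920 17179869184 223338299392 17179869184 = true :=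
  run_a rC09_7 rC09_8 (by norm_num)

def tC09_10 : Tr :=
  (c (b (c l (b l l)) (c l l)) (b (a (c (b (c l l) l) (b (a (c l l) (c l (b l l))) (a l (c l l))))
  (c (b l l) (b (a (c l l) l) (c l l)))) (c (b l l) (b (a l l) (a l l)))))

theorem rC09_10 : run evalC tC09_10 4294967296 4294967296 120259084288 17179869184 223338299392 17179869184 = true := by
  decide +kernel

def tC09_11 : Tr := Tr.b tC09_9 tC09_10

theorem rC09_11 : run evalC tC09_11 4294967296 4294967296 103079215104 34359738368 223338299392 17179869184 = true :=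
  run_b rC09_9 rC09_10 (by norm_num)

theorem runC09 : run evalC tC09_11 4294967296 4294967296 103079215104 34359738368 223338299392 17179869184 = true := rC09_11

end DT.TM

end

section

/-! Kernel certificate, part C10 (202 cells). -/

set_option maxRecDepth 100000

namespace DT.TM
open Tr

def tC10_1 : Tr :=
  (a (c (a (b (a (c l l) (c l l)) (c l l)) (b (c (a l l) l) (c (b l l) (b l l)))) (a (a (c (b l l)
  l) (b l l)) (b l (c l l)))) (b (c (a l l) l) (c (a (b l (c l l)) l) l)))

theorem rC10_1 : run evalC tC10_1 2147483648 2147483648 77309411328 8589934592 249108103168 8589934592 = true := by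
  decide +kernel

def tC10_2 : Tr :=
  (a (c (b (a (b l (a l l)) (c l l)) (a (c l l) (b l (a l l)))) (a (b (c l l) l) (c (b l l) (b l
  l)))) (b (c (a (b (c l l) (c l l)) (b l (c l l))) (a (c l l) l)) (c (a (c l l) (b (a l l) l)) (c
  (b l l) (a l l)))))

theorem rC10_2 : run evalC tC10_2 2147483648 2147483648 94489280512 8589934592 249108103168 8589934592 = true := by
  decide +kernel

def tC10_3 : Tr := Tr.b tC10_1 tC10_2

theorem rC10_3 : run evalC tC10_3 2147483648 2147483648 85899345920 17179869184 249108103168 8589934592 = true :=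
  run_b rC10_1 rC10_2 (by norm_num)

def tC10_4 : Tr :=
  (a (a (c (b (a l l) (c l l)) (b l l)) (b l (c (c l l) l))) (b l (c (b l l) l)))

theorem rC10_4 : run evalC tC10_4 2147483648 2147483648 85899345920 17179869184 266287972352 8589934592 = true := by
  decide +kernel

def tC10_5 : Tr := Tr.c tC10_3 tC10_4

theorem rC10_5 : run evalC tC10_5 2147483648 2147483648 85899345920 17179869184 257698037760 17179869184 = true :=
  run_c rC10_3 rC10_4 (by norm_num)

def tC10_6 : Tr :=
  (b (c (a (b l l) l) l) (c (a (b (c (a l l) l) (c (a (b l l) l) (a l l))) (b l (a l l))) (a l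
  l)))

theorem rC10_6 : run evalC tC10_6 6442450944 2147483648 85899345920 17179869184 257698037760 17179869184 = true := by
  decide +kernel

def tC10_7 : Tr := Tr.a tC10_5 tC10_6

theorem rC10_7 : run evalC tC10_7 4294967296 4294967296 85899345920 17179869184 257698037760 17179869184 = true :=
  run_a rC10_5 rC10_6 (by norm_num)

def tC10_8 : Tr :=
  (a (b (a (c (c l l) l) (c (c l l) l)) (c (c l l) (a l l))) (c (b (b (c (c l l) l) (c (c l l) l))
  (c (b l l) (a l (b l l)))) (b (c (a l l) (b l l)) (a l l))))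

theorem rC10_8 : run evalC tC10_8 2147483648 2147483648 111669149696 8589934592 249108103168 8589934592 = true := by
  decide +kernel

def tC10_9 : Tr :=
  (c (a (b l l) (b (c l (a l l)) l)) (a (b (a l l) l) (b (a l (b l l)) (a l l))))

theorem rC10_9 : run evalC tC10_9 2147483648 2147483648 128849018880 8589934592 249108103168 8589934592 = true := by
  decide +kernel

def tC10_10 : Tr := Tr.b tC10_8 tC10_9

theorem rC10_10 : run evalC tC10_10 2147483648 2147483648 120259084288 17179869184 249108103168 8589934592 = true :=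
  run_b rC10_8 rC10_9 (by norm_num)

def tC10_11 : Tr :=
  (a (b (c (a l l) (a l l)) (c l l)) (c (b (c (b l l) l) (c l l)) (b l l)))

theorem rC10_11 : run evalC tC10_11 2147483648 2147483648 120259084288 17179869184 266287972352 8589934592 = true := by
  decide +kernel

def tC10_12 : Tr := Tr.c tC10_10 tC10_11

theorem rC10_12 : run evalC tC10_12 2147483648 2147483648 120259084288 17179869184 257698037760 17179869184 = true :=
  run_c rC10_10 rC10_11 (by norm_num)

def tC10_13 : Tr :=
  (b (b (a (b (a (c l l) (b l l)) (c l (c (a l l) l))) (b l l)) (a (c (c l l) (b (c l l) (c l l)))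
  (b (a l l) (a l l)))) (b (c (c l (a (b l l) l)) (a (b l (c l l)) (b (a l l) l))) (c (c l (b l
  l)) (a (b (a l l) (a l l)) (b l l)))))

theorem rC10_13 : run evalC tC10_13 6442450944 2147483648 120259084288 17179869184 249108103168 8589934592 = true := by
  decide +kernel

def tC10_14 : Tr :=
  (b (c (b (a l l) (a (c l l) l)) l) (c (b (c (b l l) l) (c (a l l) l)) l))

theorem rC10_14 : run evalC tC10_14 6442450944 2147483648 120259084288 17179869184 266287972352 8589934592 = true := by
  decide +kernel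

def tC10_15 : Tr := Tr.c tC10_13 tC10_14

theorem rC10_15 : run evalC tC10_15 6442450944 2147483648 120259084288 17179869184 257698037760 17179869184 = true :=
  run_c rC10_13 rC10_14 (by norm_num)

def tC10_16 : Tr := Tr.a tC10_12 tC10_15

theorem rC10_16 : run evalC tC10_16 4294967296 4294967296 120259084288 17179869184 257698037760 17179869184 = true :=
  run_a rC10_12 rC10_15 (by norm_num)

def tC10_17 : Tr := Tr.b tC10_7 tC10_16

theorem rC10_17 : run evalC tC10_17 4294967296 4294967296 103079215104 34359738368 257698037760 17179869184 = true :=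
  run_b rC10_7 rC10_16 (by norm_num)

theorem runC10 : run evalC tC10_17 4294967296 4294967296 103079215104 34359738368 257698037760 17179869184 = true := rC10_17

end DT.TM

end

section

/-! Kernel certificate, part C11 (46 cells). -/

set_option maxRecDepth 100000

namespace DT.TM
open Tr

def tC11_1 : Tr :=
  (c (a (b (a l l) (a (c l l) l)) (b l l)) (a (b l (c (a l l) l)) (b l l)))

theorem rC11_1 : run evalC tC11_1 12884901888 4294967296 85899345920 17179869184 240518168576 34359738368 = true := by
  decide +kernel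

def tC11_2 : Tr :=
  (c (c (b l l) (a (b (a l l) (c l l)) (b l l))) (a (b (c (a (b l l) l) (b l l)) (c (a (b (b l l)
  (c l (b l l))) (b l l)) (b (c (a l l) l) (c (a (b l l) l) l)))) (b (b l l) (c (a l l) (b l
  l)))))

theorem rC11_2 : run evalC tC11_2 12884901888 4294967296 120259084288 17179869184 240518168576 34359738368 = true := by
  decide +kernel

def tC11_3 : Tr := Tr.b tC11_1 tC11_2

theorem rC11_3 : run evalC tC11_3 12884901888 4294967296 103079215104 34359738368 240518168576 34359738368 = true :=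
  run_b rC11_1 rC11_2 (by norm_num)

theorem runC11 : run evalC tC11_3 12884901888 4294967296 103079215104 34359738368 240518168576 34359738368 = true := rC11_3

end DT.TM

end
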