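import Pool.Agent.Work.MP_74021c_co.Bd.B01
import Pool.Agent.Work.MP_74021c_co.TMSpec
import Pool.Agent.Work.MP_74021c_co.Bd.B09

/-! Bundle of small proof modules (one section per former module). -/

section

/-! Kernel certificate, part C28 (87 cells). -/

set_option maxRecDepth 100000

namespace DT.TM
open Tr

def tC28_1 : Tr :=
  (b (c (a (b (c (b l l) (c l l)) (c l l)) (b (c (b (a l l) l) (c (a l l) l)) (c l l))) (a (c (c l
  l) l) (c (b l l) l))) (c (b (a l l) (a l l)) (a (c l l) (b l l))))

theorem rC28_1 : run evalC tC28_1 38654705664 4294967296 103079215104 34359738368 34359738368 34359738368 = true := by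
  decide +kernel

def tC28_2 : Tr :=
  (a (c (b (c (b (a l l) l) (a (c l l) (c l l))) (b (a l l) l)) (c (b l l) l)) (c (b (a (b (c l l)
  (c l l)) (b (c l l) (c l l))) (b (a l l) (a l l))) (b (c (c l l) l) (c l l))))

theorem rC28_2 : run evalC tC28_2 47244640256 4294967296 85899345920 17179869184 34359738368 34359738368 = true := by
  decide +kernel

def tC28_3 : Tr :=
  (a (c (b (b l l) l) (b l l)) (b (c (b l l) (c l l)) (c l l)))

theorem rC28_3 : run evalC tC28_3 47244640256 4294967296 120259084288 17179869184 34359738368 34359738368 = true := by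
  decide +kernel

def tC28_4 : Tr := Tr.b tC28_2 tC28_3

theorem rC28_4 : run evalC tC28_4 47244640256 4294967296 103079215104 34359738368 34359738368 34359738368 = true :=
  run_b rC28_2 rC28_3 (by norm_num)

def tC28_5 : Tr := Tr.a tC28_1 tC28_4

theorem rC28_5 : run evalC tC28_5 42949672960 8589934592 103079215104 34359738368 34359738368 34359738368 = true :=
  run_a rC28_1 rC28_4 (by norm_num)

def tC28_6 : Tr :=
  (b (a (c (c l l) (b l l)) (c (a (c l l) (c l l)) (a l l))) (a (c (c l l) (c l l)) (c (a l l) (a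
  l l))))

theorem rC28_6 : run evalC tC28_6 42949672960 8589934592 103079215104 34359738368 103079215104 34359738368 = true := by
  decide +kernel

def tC28_7 : Tr := Tr.c tC28_5 tC28_6

theorem rC28_7 : run evalC tC28_7 42949672960 8589934592 103079215104 34359738368 68719476736 68719476736 = true :=
  run_c rC28_5 rC28_6 (by norm_num)

theorem runC28 : run evalC tC28_7 42949672960 8589934592 103079215104 34359738368 68719476736 68719476736 = true := rC28_7

end DT.TM

end

section

/-! Kernel certificate, part C29 (52 cells). -/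

set_option maxRecDepth 100000

namespace DT.TM
open Tr

def tC29_1 : Tr :=
  (a (c (b (c (a l l) l) (c l l)) (b (c l l) (c l l))) (c (b (a (c l l) (c l l)) (a (c l l) (c l
  l))) (b (a l l) (a l (c l l)))))

theorem rC29_1 : run evalC tC29_1 42949672960 8589934592 34359738368 34359738368 206158430208 68719476736 = true := by
  decide +kernel

def tC29_2 : Tr :=
  (a (c (b (c l l) (c (c l l) (a l l))) (b (c (b l l) l) (c (b l l) (b l l)))) (c (b (a l (c l l))
  (c (a l l) (a l l))) (b (a (c l l) (b l l)) (a (b l (c l l)) (b l (c l l))))))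

theorem rC29_2 : run evalC tC29_2 42949672960 8589934592 103079215104 34359738368 206158430208 68719476736 = true := by
  decide +kernel

def tC29_3 : Tr := Tr.b tC29_1 tC29_2

theorem rC29_3 : run evalC tC29_3 42949672960 8589934592 68719476736 68719476736 206158430208 68719476736 = true :=
  run_b rC29_1 rC29_2 (by norm_num)

theorem runC29 : run evalC tC29_3 42949672960 8589934592 68719476736 68719476736 206158430208 68719476736 = true := rC29_3

end DT.TM

end

section

/-! Kernel certificate, part C30 (52 cells). -/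

set_option maxRecDepth 100000

namespace DT.TM
open Tr

def tC30_1 : Tr :=
  (a (c (b (c (b l l) (b l l)) (c l (b l l))) (b (c (a l l) (c l l)) (c l l))) (c (b (a (b (c l l)
  l) (b (c l l) l)) (a (c l l) (b l l))) (b (c (a l l) (a l l)) (a l (c l l)))))

theorem rC30_1 : run evalC tC30_1 42949672960 8589934592 171798691840 34359738368 68719476736 68719476736 = true := by
  decide +kernel

def tC30_2 : Tr :=
  (a (c (b (c l l) (a l l)) (b (c l l) (c l (a l l)))) (c (b (a l (c l l)) (a l l)) (b (a (c l l)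
  (c l l)) (a (c l l) (c l l)))))

theorem rC30_2 : run evalC tC30_2 42949672960 8589934592 240518168576 34359738368 68719476736 68719476736 = true := by
  decide +kernel

def tC30_3 : Tr := Tr.b tC30_1 tC30_2

theorem rC30_3 : run evalC tC30_3 42949672960 8589934592 206158430208 68719476736 68719476736 68719476736 = true :=
  run_b rC30_1 rC30_2 (by norm_num)

theorem runC30 : run evalC tC30_3 42949672960 8589934592 206158430208 68719476736 68719476736 68719476736 = true := rC30_3

end DT.TM

end

section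

/-! Kernel certificate, part C31 (91 cells). -/

set_option maxRecDepth 100000

namespace DT.TM
open Tr

def tC31_1 : Tr :=
  (c (b (c (c l l) (c l l)) (c (b l l) (c l (a l l)))) (b (c (a (c l l) (b l l)) (b (a l l) (a l
  l))) (c (a (c l (c l l)) (c l (b l l))) (a (b (c l l) (c (c l l) (b l (a l l)))) (b (c l l) (c
  (c l (a l l)) (b l (a l l))))))))

theorem rC31_1 : run evalC tC31_1 38654705664 4294967296 171798691840 34359738368 206158430208 68719476736 = true := by
  decide +kernel

def tC31_2 : Tr :=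
  (b (c (a l l) (a l l)) (c (a l l) (a (c l l) (c l l))))

theorem rC31_2 : run evalC tC31_2 47244640256 4294967296 171798691840 34359738368 171798691840 34359738368 = true := by
  decide +kernel

def tC31_3 : Tr :=
  (a (c (b l l) (b l (b l l))) (b (c l l) (c (c l l) (b l l))))

theorem rC31_3 : run evalC tC31_3 47244640256 4294967296 154618822656 17179869184 240518168576 34359738368 = true := by
  decide +kernel

def tC31_4 : Tr :=
  (a (c (c l (b l l)) (b (a (b l l) (b l l)) (c (a (c l l) (c l l)) (b (a l l) (a l l))))) (c (b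
  (c l l) (c l (c l l))) (b (a (b l l) (b l l)) (a (b (c l l) (c l l)) (b (c l l) (c l l))))))

theorem rC31_4 : run evalC tC31_4 47244640256 4294967296 188978561024 17179869184 240518168576 34359738368 = true := by
  decide +kernel

def tC31_5 : Tr := Tr.b tC31_3 tC31_4

theorem rC31_5 : run evalC tC31_5 47244640256 4294967296 171798691840 34359738368 240518168576 34359738368 = true :=
  run_b rC31_3 rC31_4 (by norm_num)

def tC31_6 : Tr := Tr.c tC31_2 tC31_5

theorem rC31_6 : run evalC tC31_6 47244640256 4294967296 171798691840 34359738368 206158430208 68719476736 = true :=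
  run_c rC31_2 rC31_5 (by norm_num)

def tC31_7 : Tr := Tr.a tC31_1 tC31_6

theorem rC31_7 : run evalC tC31_7 42949672960 8589934592 171798691840 34359738368 206158430208 68719476736 = true :=
  run_a rC31_1 rC31_6 (by norm_num)

theorem runC31 : run evalC tC31_7 42949672960 8589934592 171798691840 34359738368 206158430208 68719476736 = true := rC31_7

end DT.TM

end

section

/-! Kernel certificate, part C32 (161 cells). -/

set_option maxRecDepth 100000

namespace DT.TM
open Tr

def tC32_1 : Tr :=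
  (b (c l (a l l)) (c (a l l) (b l (c l l))))

theorem rC32_1 : run evalC tC32_1 38654705664 4294967296 240518168576 34359738368 171798691840 34359738368 = true := by
  decide +kernel

def tC32_2 : Tr :=
  (c (a (c l (c l l)) (c l (b l l))) (a (b (c (c l l) (a (c l l) (b l l))) (c (c l l) (a (b (c l
  l) l) (b l l)))) (b (c (c l (a l l)) (a (b l l) (b l l))) (c (c l (a l l)) (a (b l l) (b l
  l))))))

theorem rC32_2 : run evalC tC32_2 38654705664 4294967296 223338299392 17179869184 240518168576 34359738368 = true := by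
  decide +kernel

def tC32_3 : Tr :=
  (c (a (b l (c l l)) (b (c l l) (c l l))) (b (a (c (c l l) (a (b l l) (b l l))) (c (c l l) (b (a
  l l) l))) (a (c (b l l) (b l l)) (c (b l l) (b l l)))))

theorem rC32_3 : run evalC tC32_3 38654705664 4294967296 257698037760 17179869184 240518168576 34359738368 = true := by
  decide +kernel

def tC32_4 : Tr := Tr.b tC32_2 tC32_3

theorem rC32_4 : run evalC tC32_4 38654705664 4294967296 240518168576 34359738368 240518168576 34359738368 = true :=
  run_b rC32_2 rC32_3 (by norm_num)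

def tC32_5 : Tr := Tr.c tC32_1 tC32_4

theorem rC32_5 : run evalC tC32_5 38654705664 4294967296 240518168576 34359738368 206158430208 68719476736 = true :=
  run_c rC32_1 rC32_4 (by norm_num)

def tC32_6 : Tr :=
  (b (c (a l l) (a l (a l l))) (c (a l l) (a (b l l) (b l l))))

theorem rC32_6 : run evalC tC32_6 47244640256 4294967296 240518168576 34359738368 171798691840 34359738368 = true := by
  decide +kernel

def tC32_7 : Tr :=
  (c (c l (b (c l l) l)) (b (c (c (a l l) (a l (c l l))) (a (b l l) (b (c l l) l))) (c (c l (b (c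
  l l) l)) (b (a l l) (a l l)))))

theorem rC32_7 : run evalC tC32_7 45097156608 2147483648 223338299392 17179869184 240518168576 34359738368 = true := by
  decide +kernel

def tC32_8 : Tr :=
  (c (c (b l l) (b (c l l) (c l l))) (b (c (a (c l (b l l)) (c l (b l l))) (b (a (c l l) (c l l))
  (a l (c l l)))) (c (a (c l (b l l)) (c l (b l l))) (b (a l l) (a l l)))))

theorem rC32_8 : run evalC tC32_8 49392123904 2147483648 223338299392 17179869184 240518168576 34359738368 = true := by
  decide +kernel

def tC32_9 : Tr := Tr.a tC32_7 tC32_8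

theorem rC32_9 : run evalC tC32_9 47244640256 4294967296 223338299392 17179869184 240518168576 34359738368 = true :=
  run_a rC32_7 rC32_8 (by norm_num)

def tC32_10 : Tr :=
  (a (c (b (c l l) (c l l)) (b (c (c l (b l l)) (b (a l l) l)) (a (c l (b l l)) (c l (b l l)))))
  (b (c (c l l) (c (c l (b l l)) (b (a l l) l))) (c (c l l) (a (c l (b l l)) (c l (b l l))))))

theorem rC32_10 : run evalC tC32_10 47244640256 4294967296 257698037760 17179869184 240518168576 34359738368 = true := by
  decide +kernel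

def tC32_11 : Tr := Tr.b tC32_9 tC32_10

theorem rC32_11 : run evalC tC32_11 47244640256 4294967296 240518168576 34359738368 240518168576 34359738368 = true :=
  run_b rC32_9 rC32_10 (by norm_num)

def tC32_12 : Tr := Tr.c tC32_6 tC32_11

theorem rC32_12 : run evalC tC32_12 47244640256 4294967296 240518168576 34359738368 206158430208 68719476736 = true :=
  run_c rC32_6 rC32_11 (by norm_num)

def tC32_13 : Tr := Tr.a tC32_5 tC32_12

theorem rC32_13 : run evalC tC32_13 42949672960 8589934592 240518168576 34359738368 206158430208 68719476736 = true :=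
  run_a rC32_5 rC32_12 (by norm_num)

theorem runC32 : run evalC tC32_13 42949672960 8589934592 240518168576 34359738368 206158430208 68719476736 = true := rC32_13

end DT.TM

end

section

/-! Kernel certificate, part C33 (99 cells). -/

set_option maxRecDepth 100000

namespace DT.TM
open Tr

def tC33_1 : Tr :=
  (a (b (c (a (c (b l l) l) (b l l)) (c l l)) (c (a (c l (c l l)) (b (c l l) (c l l))) (c (c l l)
  l))) (b (c (b (c l l) (c l (a l l))) (c (a l l) l)) (c (a (b (c l l) (c l l)) (c (b l l) (b l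
  l))) (c (a l l) l))))

theorem rC33_1 : run evalC tC33_1 55834574848 4294967296 17179869184 17179869184 34359738368 34359738368 = true := by
  decide +kernel

def tC33_2 : Tr :=
  (a (c (b l l) (b l l)) (c (b (c l l) (c l l)) (b l l)))

theorem rC33_2 : run evalC tC33_2 55834574848 4294967296 17179869184 17179869184 103079215104 34359738368 = true := by
  decide +kernel

def tC33_3 : Tr := Tr.c tC33_1 tC33_2

theorem rC33_3 : run evalC tC33_3 55834574848 4294967296 17179869184 17179869184 68719476736 68719476736 = true :=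
  run_c rC33_1 rC33_2 (by norm_num)

def tC33_4 : Tr :=
  (b (c (c (b (a l l) (a l l)) (b (c l l) (c l l))) (c (c l l) l)) (c (a (c (b l (c l l)) (c (b l
  l) l)) (c (b l l) (b l l))) (c (c l l) l)))

theorem rC33_4 : run evalC tC33_4 53687091200 2147483648 51539607552 17179869184 34359738368 34359738368 = true := by
  decide +kernel

def tC33_5 : Tr :=
  (b (c (a (c (b l l) (b l l)) (b (c l l) (c l l))) (c (a l l) l)) (c (a (c (b l l) (b l l)) (b (c
  l l) (c l l))) (c (a l l) l)))

theorem rC33_5 : run evalC tC33_5 57982058496 2147483648 51539607552 17179869184 34359738368 34359738368 = true := by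
  decide +kernel

def tC33_6 : Tr := Tr.a tC33_4 tC33_5

theorem rC33_6 : run evalC tC33_6 55834574848 4294967296 51539607552 17179869184 34359738368 34359738368 = true :=
  run_a rC33_4 rC33_5 (by norm_num)

def tC33_7 : Tr :=
  (c (a (c l l) (b l l)) (a l (b l l)))

theorem rC33_7 : run evalC tC33_7 55834574848 4294967296 51539607552 17179869184 103079215104 34359738368 = true := by
  decide +kernel

def tC33_8 : Tr := Tr.c tC33_6 tC33_7

theorem rC33_8 : run evalC tC33_8 55834574848 4294967296 51539607552 17179869184 68719476736 68719476736 = true :=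
  run_c rC33_6 rC33_7 (by norm_num)

def tC33_9 : Tr := Tr.b tC33_3 tC33_8

theorem rC33_9 : run evalC tC33_9 55834574848 4294967296 34359738368 34359738368 68719476736 68719476736 = true :=
  run_b rC33_3 rC33_8 (by norm_num)

theorem runC33 : run evalC tC33_9 55834574848 4294967296 34359738368 34359738368 68719476736 68719476736 = true := rC33_9

end DT.TM

end

section

/-! Kernel certificate, part C34 (147 cells). -/

set_option maxRecDepth 100000

namespace DT.TM
open Tr

def tC34_1 : Tr :=
  (b (c (b (a (c l l) (c l l)) (a (c l l) (c l l))) (c (a l l) (a l l))) (c (a (b (c l l) l) (b (c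
  l l) (c l l))) (c (a l l) (a l l))))

theorem rC34_1 : run evalC tC34_1 62277025792 2147483648 17179869184 17179869184 34359738368 34359738368 = true := by
  decide +kernel

def tC34_2 : Tr :=
  (b (c (b (a (c l l) (c (b l l) (a l l))) (a (c l l) (c (b l l) l))) (a (c (b l l) l) (c (b l (a
  l l)) (b l l)))) (a (c (b (c l l) (c l l)) (c (a l l) l)) (c (b (c l (a l l)) (c l (a l l))) (c
  (b (a l l) (a l l)) (a l (b l l))))))

theorem rC34_2 : run evalC tC34_2 66571993088 2147483648 17179869184 17179869184 34359738368 34359738368 = true := by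
  decide +kernel

def tC34_3 : Tr := Tr.a tC34_1 tC34_2

theorem rC34_3 : run evalC tC34_3 64424509440 4294967296 17179869184 17179869184 34359738368 34359738368 = true :=
  run_a rC34_1 rC34_2 (by norm_num)

def tC34_4 : Tr :=
  (a (c (b (a l l) (c l l)) (b l l)) (b (c (a l (c l l)) (a l l)) (c (a l (c l l)) (a l l))))

theorem rC34_4 : run evalC tC34_4 64424509440 4294967296 17179869184 17179869184 103079215104 34359738368 = true := by
  decide +kernel

def tC34_5 : Tr := Tr.c tC34_3 tC34_4

theorem rC34_5 : run evalC tC34_5 64424509440 4294967296 17179869184 17179869184 68719476736 68719476736 = true :=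
  run_c rC34_3 rC34_4 (by norm_num)

def tC34_6 : Tr :=
  (b (c (a (b l (c l l)) (b (c l l) l)) (a (c l l) (c l l))) (c (a (b l l) (b l l)) (a (c l l) (c
  l l))))

theorem rC34_6 : run evalC tC34_6 62277025792 2147483648 51539607552 17179869184 34359738368 34359738368 = true := by
  decide +kernel

def tC34_7 : Tr :=
  (b (c (a (b (c l l) (c l l)) (b (c l (a l l)) (c l (a l l)))) (a (c (a l l) l) (a (c (b l l) l)
  (b (c l l) (a l l))))) (c (a (b l l) (b (c l l) (c l l))) (a (c (b l l) l) (a (b l l) (b (a l l)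
  l)))))

theorem rC34_7 : run evalC tC34_7 66571993088 2147483648 51539607552 17179869184 34359738368 34359738368 = true := by
  decide +kernel

def tC34_8 : Tr := Tr.a tC34_6 tC34_7

theorem rC34_8 : run evalC tC34_8 64424509440 4294967296 51539607552 17179869184 34359738368 34359738368 = true :=
  run_a rC34_6 rC34_7 (by norm_num)

def tC34_9 : Tr :=
  (a (c (b (c l l) (c l l)) (b l l)) (b (c (a l (c l l)) (a l l)) (c (a l (c (a l l) l)) (a l
  l))))

theorem rC34_9 : run evalC tC34_9 64424509440 4294967296 51539607552 17179869184 103079215104 34359738368 = true := by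
  decide +kernel

def tC34_10 : Tr := Tr.c tC34_8 tC34_9

theorem rC34_10 : run evalC tC34_10 64424509440 4294967296 51539607552 17179869184 68719476736 68719476736 = true :=
  run_c rC34_8 rC34_9 (by norm_num)

def tC34_11 : Tr := Tr.b tC34_5 tC34_10

theorem rC34_11 : run evalC tC34_11 64424509440 4294967296 34359738368 34359738368 68719476736 68719476736 = true :=
  run_b rC34_5 rC34_10 (by norm_num)

theorem runC34 : run evalC tC34_11 64424509440 4294967296 34359738368 34359738368 68719476736 68719476736 = true := rC34_11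

end DT.TM

end

section

/-! Kernel certificate, part C35 (47 cells). -/

set_option maxRecDepth 100000

namespace DT.TM
open Tr

def tC35_1 : Tr :=
  (b (c (a (c l l) (c (b l l) l)) (a (c l l) (b l l))) (c (a (c l l) (c l l)) (a (c l l) (b l
  l))))

theorem rC35_1 : run evalC tC35_1 55834574848 4294967296 34359738368 34359738368 206158430208 68719476736 = true := by
  decide +kernel

def tC35_2 : Tr :=
  (b (a (c (b (c l l) (c l l)) (b (c l l) l)) (c (b (c (a l l) l) (c l l)) (b (a l l) (c l l))))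
  (c (a (c (b l l) (b l l)) (b (c l l) (c l l))) (a (b l l) (b (c l l) (c l l)))))

theorem rC35_2 : run evalC tC35_2 64424509440 4294967296 34359738368 34359738368 206158430208 68719476736 = true := by
  decide +kernel

def tC35_3 : Tr := Tr.a tC35_1 tC35_2

theorem rC35_3 : run evalC tC35_3 60129542144 8589934592 34359738368 34359738368 206158430208 68719476736 = true :=
  run_a rC35_1 rC35_2 (by norm_num)

theorem runC35 : run evalC tC35_3 60129542144 8589934592 34359738368 34359738368 206158430208 68719476736 = true := rC35_3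

end DT.TM

end

section

/-! Kernel certificate, part C36 (184 cells). -/

set_option maxRecDepth 100000

namespace DT.TM
open Tr

def tC36_1 : Tr :=
  (a (c (b (a (b (c l l) (c l l)) (b (c l l) (c l l))) (b (c l l) (c l l))) (b (c (c l l) l) (c (c
  l l) l))) (b (c (a (b (c l l) (c l l)) (b (c l l) l)) (c (a l l) l)) (c (a (b l l) (b l l)) (c
  (b l l) l))))

theorem rC36_1 : run evalC tC36_1 55834574848 4294967296 85899345920 17179869184 34359738368 34359738368 = true := by
  decide +kernel

def tC36_2 : Tr :=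
  (c (a (c l l) (c (b l l) l)) (a l l))

theorem rC36_2 : run evalC tC36_2 55834574848 4294967296 85899345920 17179869184 103079215104 34359738368 = true := by
  decide +kernel

def tC36_3 : Tr := Tr.c tC36_1 tC36_2

theorem rC36_3 : run evalC tC36_3 55834574848 4294967296 85899345920 17179869184 68719476736 68719476736 = true :=
  run_c rC36_1 rC36_2 (by norm_num)

def tC36_4 : Tr :=
  (c (a (b (c (b l l) (c l l)) (c (b l l) l)) (b (c (b l l) (c l l)) (c (b l l) l))) (c (a (c l l)
  (b l l)) (a l l)))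

theorem rC36_4 : run evalC tC36_4 55834574848 4294967296 120259084288 17179869184 68719476736 68719476736 = true := by
  decide +kernel

def tC36_5 : Tr := Tr.b tC36_3 tC36_4

theorem rC36_5 : run evalC tC36_5 55834574848 4294967296 103079215104 34359738368 68719476736 68719476736 = true :=
  run_b rC36_3 rC36_4 (by norm_num)

def tC36_6 : Tr :=
  (a (b (c (a (b l l) (b l l)) (a (c l l) (c l l))) (c (a (b l l) (b l l)) (a l l))) (b (c (a (b l
  l) (b l l)) (a (b l l) (b (a l l) l))) (c (a (b l l) (c l l)) (a l (b l l)))))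

theorem rC36_6 : run evalC tC36_6 64424509440 4294967296 85899345920 17179869184 34359738368 34359738368 = true := by
  decide +kernel

def tC36_7 : Tr :=
  (a (c (b (c l l) (c l l)) (a l l)) (b (c (a l (c l l)) (a l l)) (c (a l (a l l)) (a l l))))

theorem rC36_7 : run evalC tC36_7 64424509440 4294967296 85899345920 17179869184 103079215104 34359738368 = true := by
  decide +kernel

def tC36_8 : Tr := Tr.c tC36_6 tC36_7

theorem rC36_8 : run evalC tC36_8 64424509440 4294967296 85899345920 17179869184 68719476736 68719476736 = true :=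
  run_c rC36_6 rC36_7 (by norm_num)

def tC36_9 : Tr :=
  (c (a (b (c (a l l) (a l l)) (c (b l l) l)) (b (c (a l l) (a l l)) (c l l))) (a (c (b l l) (a l
  l)) (b (c (a l l) l) (a l (c l l)))))

theorem rC36_9 : run evalC tC36_9 64424509440 4294967296 120259084288 17179869184 68719476736 68719476736 = true := by
  decide +kernel

def tC36_10 : Tr := Tr.b tC36_8 tC36_9

theorem rC36_10 : run evalC tC36_10 64424509440 4294967296 103079215104 34359738368 68719476736 68719476736 = true :=
  run_b rC36_8 rC36_9 (by norm_num)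

def tC36_11 : Tr := Tr.a tC36_5 tC36_10

theorem rC36_11 : run evalC tC36_11 60129542144 8589934592 103079215104 34359738368 68719476736 68719476736 = true :=
  run_a rC36_5 rC36_10 (by norm_num)

def tC36_12 : Tr :=
  (c (b (a (b l l) (b l l)) (c (a l l) (a l (b l l)))) (b (a (b l l) (b (c l l) (c l l))) (a (b (c
  l l) (c l l)) (b (c l l) (c l l)))))

theorem rC36_12 : run evalC tC36_12 55834574848 4294967296 103079215104 34359738368 206158430208 68719476736 = true := by
  decide +kernel

def tC36_13 : Tr :=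
  (b (c (a (b l l) (b (a l l) (a l l))) (a (b (c l l) (c l l)) (b (c l l) (c l l)))) (c (a (c (b l
  l) (b l l)) (b (a l l) (a l l))) (a (b (c l l) (c l l)) (b (c l l) (c l l)))))

theorem rC36_13 : run evalC tC36_13 64424509440 4294967296 103079215104 34359738368 206158430208 68719476736 = true := by
  decide +kernel

def tC36_14 : Tr := Tr.a tC36_12 tC36_13

theorem rC36_14 : run evalC tC36_14 60129542144 8589934592 103079215104 34359738368 206158430208 68719476736 = true :=
  run_a rC36_12 rC36_13 (by norm_num)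

def tC36_15 : Tr := Tr.c tC36_11 tC36_14

theorem rC36_15 : run evalC tC36_15 60129542144 8589934592 103079215104 34359738368 137438953472 137438953472 = true :=
  run_c rC36_11 rC36_14 (by norm_num)

theorem runC36 : run evalC tC36_15 60129542144 8589934592 103079215104 34359738368 137438953472 137438953472 = true := rC36_15

end DT.TM

end

section

/-! Kernel certificate, part C37 (187 cells). -/

set_option maxRecDepth 100000

namespace DT.TM
open Tr

def tC37_1 : Tr :=
  (c (b (a (b (c l l) (c l l)) (b (c l l) (c l l))) (a (b (c l l) l) (b (c l l) (c l l)))) (b (c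
  (a l (b l l)) (a l l)) (a (b l l) (b l l))))

theorem rC37_1 : run evalC tC37_1 55834574848 4294967296 171798691840 34359738368 68719476736 68719476736 = true := by
  decide +kernel

def tC37_2 : Tr :=
  (b (c (a (b (c l l) (c l l)) (b (c l l) (c l l))) (a (c (b l l) (b l l)) (b (a l l) (a l l))))
  (c (a (b (c l l) (c l l)) (b (c l l) (c l l))) (a (b l l) (b (a l l) (a l l)))))

theorem rC37_2 : run evalC tC37_2 64424509440 4294967296 171798691840 34359738368 68719476736 68719476736 = true := by
  decide +kernel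

def tC37_3 : Tr := Tr.a tC37_1 tC37_2

theorem rC37_3 : run evalC tC37_3 60129542144 8589934592 171798691840 34359738368 68719476736 68719476736 = true :=
  run_a rC37_1 rC37_2 (by norm_num)

def tC37_4 : Tr :=
  (c (c (a l l) (a (c l l) (b l l))) (a (b (c l (b l l)) (c (c l l) (b l (a l l)))) (b (c l (b l
  l)) (c (c l l) (b l l)))))

theorem rC37_4 : run evalC tC37_4 55834574848 4294967296 154618822656 17179869184 206158430208 68719476736 = true := by
  decide +kernel

def tC37_5 : Tr :=
  (c (a l l) (a (c l l) (c l (b l l))))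

theorem rC37_5 : run evalC tC37_5 55834574848 4294967296 188978561024 17179869184 171798691840 34359738368 = true := by
  decide +kernel

def tC37_6 : Tr :=
  (a (c (b (c l (c l l)) (c l (c l l))) (b (a (b l l) (b l l)) (a (b (c l l) (c l l)) (b (c l l)
  (c l l))))) (b (c (c l (b l l)) (a (b l l) (b l l))) (c (c l (a l l)) (a (b (c l l) (c l l)) (b
  l (c l l))))))

theorem rC37_6 : run evalC tC37_6 55834574848 4294967296 188978561024 17179869184 240518168576 34359738368 = true := by
  decide +kernel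

def tC37_7 : Tr := Tr.c tC37_5 tC37_6

theorem rC37_7 : run evalC tC37_7 55834574848 4294967296 188978561024 17179869184 206158430208 68719476736 = true :=
  run_c rC37_5 rC37_6 (by norm_num)

def tC37_8 : Tr := Tr.b tC37_4 tC37_7

theorem rC37_8 : run evalC tC37_8 55834574848 4294967296 171798691840 34359738368 206158430208 68719476736 = true :=
  run_b rC37_4 rC37_7 (by norm_num)

def tC37_9 : Tr :=
  (c (a (c (a l l) (b l l)) (b (a l (c l l)) (c l (a l l)))) (a (b (c l (b l l)) (c (a l l) (a l
  l))) (b (c l (c l l)) (c (a l l) (a l l)))))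

theorem rC37_9 : run evalC tC37_9 64424509440 4294967296 154618822656 17179869184 206158430208 68719476736 = true := by
  decide +kernel

def tC37_10 : Tr :=
  (a (c (a l l) (b (c l l) (c l l))) (b (c (a l l) (a l (a l l))) (c (a l l) (a l (c l l)))))

theorem rC37_10 : run evalC tC37_10 64424509440 4294967296 188978561024 17179869184 171798691840 34359738368 = true := by
  decide +kernel

def tC37_11 : Tr :=
  (a (b (c (a l l) (a (b l l) (b l l))) (c (a (c l l) (c l l)) (a (b l l) (b l l)))) (b (c (a l (b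
  l l)) (a (b l l) (c l l))) (c (a (b l l) (b l (a l l))) (a (b l l) (b l l)))))

theorem rC37_11 : run evalC tC37_11 64424509440 4294967296 188978561024 17179869184 240518168576 34359738368 = true := by
  decide +kernel

def tC37_12 : Tr := Tr.c tC37_10 tC37_11

theorem rC37_12 : run evalC tC37_12 64424509440 4294967296 188978561024 17179869184 206158430208 68719476736 = true :=
  run_c rC37_10 rC37_11 (by norm_num)

def tC37_13 : Tr := Tr.b tC37_9 tC37_12

theorem rC37_13 : run evalC tC37_13 64424509440 4294967296 171798691840 34359738368 206158430208 68719476736 = true :=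
  run_b rC37_9 rC37_12 (by norm_num)

def tC37_14 : Tr := Tr.a tC37_8 tC37_13

theorem rC37_14 : run evalC tC37_14 60129542144 8589934592 171798691840 34359738368 206158430208 68719476736 = true :=
  run_a rC37_8 rC37_13 (by norm_num)

def tC37_15 : Tr := Tr.c tC37_3 tC37_14

theorem rC37_15 : run evalC tC37_15 60129542144 8589934592 171798691840 34359738368 137438953472 137438953472 = true :=
  run_c rC37_3 rC37_14 (by norm_num)

theorem runC37 : run evalC tC37_15 60129542144 8589934592 171798691840 34359738368 137438953472 137438953472 = true := rC37_15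

end DT.TM

end

section

/-! Kernel certificate, part C38 (49 cells). -/

set_option maxRecDepth 100000

namespace DT.TM
open Tr

def tC38_1 : Tr :=
  (b (c (a (c l l) (b l l)) (a (c l l) (c l l))) (c (a (c l l) (b l l)) (a (c l l) (c (b l l) (b l
  l)))))

theorem rC38_1 : run evalC tC38_1 55834574848 4294967296 240518168576 34359738368 68719476736 68719476736 = true := by
  decide +kernel

def tC38_2 : Tr :=
  (b (c (a (b (c l l) l) (b (c l l) (c l l))) (a (c (b l l) (b l l)) (a (b l l) (b l l)))) (a (c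
  (b l (c l l)) (b (c l l) (c l l))) (c (b (c l l) (a l l)) (b (c l l) (c l (a l l))))))

theorem rC38_2 : run evalC tC38_2 64424509440 4294967296 240518168576 34359738368 68719476736 68719476736 = true := by
  decide +kernel

def tC38_3 : Tr := Tr.a tC38_1 tC38_2

theorem rC38_3 : run evalC tC38_3 60129542144 8589934592 240518168576 34359738368 68719476736 68719476736 = true :=
  run_a rC38_1 rC38_2 (by norm_num)

theorem runC38 : run evalC tC38_3 60129542144 8589934592 240518168576 34359738368 68719476736 68719476736 = true := rC38_3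

end DT.TM

end

section

/-! Kernel certificate, part C39 (105 cells). -/

set_option maxRecDepth 100000

namespace DT.TM
open Tr

def tC39_1 : Tr :=
  (c (a l (b l l)) (a (c l l) (b l l)))

theorem rC39_1 : run evalC tC39_1 55834574848 4294967296 223338299392 17179869184 171798691840 34359738368 = true := by
  decide +kernel

def tC39_2 : Tr :=
  (b (c (c l (c l l)) (a (c (c l (b l l)) (b (c l l) l)) (c (b l l) (b l l)))) (c (c l (c l l)) (a
  (c (b l l) (b l l)) (c (b l l) (b l l)))))

theorem rC39_2 : run evalC tC39_2 53687091200 2147483648 223338299392 17179869184 240518168576 34359738368 = true := by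
  decide +kernel

def tC39_3 : Tr :=
  (b (c (c l (a l l)) (a (c (b l l) (b l l)) (b (c l l) (c l l)))) (c (c l (a l l)) (a (c (b l l)
  (b l l)) (c (b l l) (b l l)))))

theorem rC39_3 : run evalC tC39_3 57982058496 2147483648 223338299392 17179869184 240518168576 34359738368 = true := by
  decide +kernel

def tC39_4 : Tr := Tr.a tC39_2 tC39_3

theorem rC39_4 : run evalC tC39_4 55834574848 4294967296 223338299392 17179869184 240518168576 34359738368 = true :=
  run_a rC39_2 rC39_3 (by norm_num)

def tC39_5 : Tr := Tr.c tC39_1 tC39_4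

theorem rC39_5 : run evalC tC39_5 55834574848 4294967296 223338299392 17179869184 206158430208 68719476736 = true :=
  run_c rC39_1 rC39_4 (by norm_num)

def tC39_6 : Tr :=
  (a (c (b l l) (b l l)) (c (b l l) (b (c l l) (c l l))))

theorem rC39_6 : run evalC tC39_6 55834574848 4294967296 257698037760 17179869184 171798691840 34359738368 = true := by
  decide +kernel

def tC39_7 : Tr :=
  (b (c (c l (c l l)) (a (c (c l l) (b l l)) (c (c l l) (b l l)))) (c (c l l) (a (c l (b l l)) (b
  (c l l) (c l l)))))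

theorem rC39_7 : run evalC tC39_7 53687091200 2147483648 257698037760 17179869184 240518168576 34359738368 = true := by
  decide +kernel

def tC39_8 : Tr :=
  (b (c (c l (a l l)) (a (c (b l l) (b l l)) (c (b l l) (b l l)))) (c (c l (a l l)) (a (b (c l l)
  (c l l)) (b (c l l) (c l l)))))

theorem rC39_8 : run evalC tC39_8 57982058496 2147483648 257698037760 17179869184 240518168576 34359738368 = true := by
  decide +kernel

def tC39_9 : Tr := Tr.a tC39_7 tC39_8

theorem rC39_9 : run evalC tC39_9 55834574848 4294967296 257698037760 17179869184 240518168576 34359738368 = true :=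
  run_a rC39_7 rC39_8 (by norm_num)

def tC39_10 : Tr := Tr.c tC39_6 tC39_9

theorem rC39_10 : run evalC tC39_10 55834574848 4294967296 257698037760 17179869184 206158430208 68719476736 = true :=
  run_c rC39_6 rC39_9 (by norm_num)

def tC39_11 : Tr := Tr.b tC39_5 tC39_10

theorem rC39_11 : run evalC tC39_11 55834574848 4294967296 240518168576 34359738368 206158430208 68719476736 = true :=
  run_b rC39_5 rC39_10 (by norm_num)

theorem runC39 : run evalC tC39_11 55834574848 4294967296 240518168576 34359738368 206158430208 68719476736 = true := rC39_11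

end DT.TM

end

section

/-! Kernel certificate, part C40 (157 cells). -/

set_option maxRecDepth 100000

namespace DT.TM
open Tr

def tC40_1 : Tr :=
  (a (c (b l l) (b (c l l) (c l l))) (b (c (a l l) (a l (c l (a l l)))) (c (a l l) (a l (c l (a l
  l))))))

theorem rC40_1 : run evalC tC40_1 64424509440 4294967296 223338299392 17179869184 171798691840 34359738368 = true := by
  decide +kernel

def tC40_2 : Tr :=
  (b (c (a (c l l) (c l l)) (a (b l (c l l)) (b l l))) (c (a (c l l) (c l (a l l))) (a (b (c l l)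
  (c l l)) (b (c l l) (c l l)))))

theorem rC40_2 : run evalC tC40_2 62277025792 2147483648 223338299392 17179869184 240518168576 34359738368 = true := by
  decide +kernel

def tC40_3 : Tr :=
  (b (c (a (c l (b l l)) (a (b l l) (b l (a l l)))) (a (b l (c l l)) (b (c l l) (c l l)))) (c (a
  (c l (a l l)) (a (c l (b l l)) (b (a l l) (c l l)))) (a (b (c l l) (c l l)) (b (c (a l l) l) (c
  (a l l) l)))))

theorem rC40_3 : run evalC tC40_3 66571993088 2147483648 223338299392 17179869184 240518168576 34359738368 = true := by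
  decide +kernel

def tC40_4 : Tr := Tr.a tC40_2 tC40_3

theorem rC40_4 : run evalC tC40_4 64424509440 4294967296 223338299392 17179869184 240518168576 34359738368 = true :=
  run_a rC40_2 rC40_3 (by norm_num)

def tC40_5 : Tr := Tr.c tC40_1 tC40_4

theorem rC40_5 : run evalC tC40_5 64424509440 4294967296 223338299392 17179869184 206158430208 68719476736 = true :=
  run_c rC40_1 rC40_4 (by norm_num)

def tC40_6 : Tr :=
  (a (c (b l (a l l)) (b (c l l) (a l l))) (b (c (a l l) (a l (c l l))) (c (a l l) (a l (c l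
  l)))))

theorem rC40_6 : run evalC tC40_6 64424509440 4294967296 257698037760 17179869184 171798691840 34359738368 = true := by
  decide +kernel

def tC40_7 : Tr :=
  (b (c (a (c l l) (c l l)) (a (b (c l l) (c l l)) (b (c l l) (c l l)))) (c (a (c l l) (c l l)) (a
  (b (c l l) (c l l)) (b (c l l) (c l l)))))

theorem rC40_7 : run evalC tC40_7 62277025792 2147483648 257698037760 17179869184 240518168576 34359738368 = true := by
  decide +kernel

def tC40_8 : Tr :=
  (a (c (c l (a l l)) (b (c l l) (c l l))) (c (a (c l (b l l)) (c (b l l) (b l l))) (b (c (a l l)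
  l) (c (a l l) (c l l)))))

theorem rC40_8 : run evalC tC40_8 66571993088 2147483648 249108103168 8589934592 240518168576 34359738368 = true := by
  decide +kernel

def tC40_9 : Tr :=
  (c (a (c l (b l l)) (c (a l l) (b (a l l) l))) (a (b (c l l) (c l l)) (b (c (a l l) (b l l)) (c
  (a l l) (b l l)))))

theorem rC40_9 : run evalC tC40_9 66571993088 2147483648 266287972352 8589934592 240518168576 34359738368 = true := by
  decide +kernel

def tC40_10 : Tr := Tr.b tC40_8 tC40_9

theorem rC40_10 : run evalC tC40_10 66571993088 2147483648 257698037760 17179869184 240518168576 34359738368 = true :=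
  run_b rC40_8 rC40_9 (by norm_num)

def tC40_11 : Tr := Tr.a tC40_7 tC40_10

theorem rC40_11 : run evalC tC40_11 64424509440 4294967296 257698037760 17179869184 240518168576 34359738368 = true :=
  run_a rC40_7 rC40_10 (by norm_num)

def tC40_12 : Tr := Tr.c tC40_6 tC40_11

theorem rC40_12 : run evalC tC40_12 64424509440 4294967296 257698037760 17179869184 206158430208 68719476736 = true :=
  run_c rC40_6 rC40_11 (by norm_num)

def tC40_13 : Tr := Tr.b tC40_5 tC40_12

theorem rC40_13 : run evalC tC40_13 64424509440 4294967296 240518168576 34359738368 206158430208 68719476736 = true :=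
  run_b rC40_5 rC40_12 (by norm_num)

theorem runC40 : run evalC tC40_13 64424509440 4294967296 240518168576 34359738368 206158430208 68719476736 = true := rC40_13

end DT.TM

end

section

/-!
# T10: soundness of the subdivision trees
-/

namespace DT.TM

theorem T10_cs {a0 m : ℕ} (h : m ≤ a0) (u : ℝ) :
    cs (a0 - m) m (2 * u + 1) = cs a0 (2 * m) u ∧ cs (a0 + m) m (2 * u - 1) = cs a0 (2 * m) u := by
  unfold cs
  rw [Nat.cast_sub h]
  push_cast
  constructor <;> ring

theorem T10_cx {a0 m : ℕ} (h : m ≤ a0) (u : ℝ) :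
    cx (a0 - m) m (2 * u + 1) = cx a0 (2 * m) u ∧ cx (a0 + m) m (2 * u - 1) = cx a0 (2 * m) u := by
  unfold cx
  rw [Nat.cast_sub h]
  push_cast
  constructor <;> ring

theorem T10_bif {b c : ℕ} {x y : Bool}
    (h : (bif Nat.beq (Nat.mod b 2) c then bif x then y else false else false) = true) :
    b % 2 = c ∧ x = true ∧ y = true := by
  cases h1 : Nat.beq (Nat.mod b 2) c
  · rw [h1] at h
    exact absurd h (by simp)
  · rw [h1] at h
    cases x
    · exact absurd h (by simp)
    · exact ⟨Nat.eq_of_beq_eq_true h1, rfl, h⟩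

theorem T10_abs {u : ℝ} (h : |u| ≤ 1) :
    (u ≤ 0 ∧ |2 * u + 1| ≤ 1) ∨ (0 ≤ u ∧ |2 * u - 1| ≤ 1) := by
  rw [abs_le] at h
  rcases le_total u 0 with h1 | h1
  · left
    refine ⟨h1, abs_le.2 ⟨by linarith, by linarith⟩⟩
  · right
    refine ⟨h1, abs_le.2 ⟨by linarith, by linarith⟩⟩

theorem run_sound {f : ℕ → ℕ → ℕ → ℕ → ℕ → ℕ → Bool} {F : ℝ → ℝ → ℝ → Prop}
    (hf : ∀ a0 ah x0 hx y0 hy, Cell a0 ah x0 hx y0 hy → f a0 ah x0 hx y0 hy = true →
      CellOK F a0 ah x0 hx y0 hy) (t : Tr) {a0 ah x0 hx y0 hy : ℕ}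
    (hc : Cell a0 ah x0 hx y0 hy) (h : run f t a0 ah x0 hx y0 hy = true) :
    CellOK F a0 ah x0 hx y0 hy := by
  induction t generalizing a0 ah x0 hx y0 hy with
  | l => exact hf a0 ah x0 hx y0 hy hc h
  | a t1 t2 ih1 ih2 =>
    obtain ⟨h0, h1, h2⟩ := T10_bif (b := ah) (c := 0)
      (x := run f t1 (Nat.sub a0 (Nat.div ah 2)) (Nat.div ah 2) x0 hx y0 hy)
      (y := run f t2 (Nat.add a0 (Nat.div ah 2)) (Nat.div ah 2) x0 hx y0 hy) h
    obtain ⟨m, rfl⟩ : ∃ m, ah = 2 * m := ⟨ah / 2, by omega⟩
    have hm : Nat.div (2 * m) 2 = m := by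
      show (2 * m) / 2 = m
      omega
    rw [hm] at h1 h2
    obtain ⟨c1, c2, c3, c4, c5, c6⟩ := hc
    have g1 := ih1 (a0 := a0 - m) (ah := m) ⟨by omega, by omega, c3, c4, c5, c6⟩ h1
    have g2 := ih2 (a0 := a0 + m) (ah := m) ⟨by omega, by omega, c3, c4, c5, c6⟩ h2
    rintro ⟨u, v, w⟩ ⟨hu, hv, hw⟩
    rcases T10_abs hu with ⟨-, hu'⟩ | ⟨-, hu'⟩
    · have := g1 (2 * u + 1, v, w) ⟨hu', hv, hw⟩
      rwa [(T10_cs (by omega) u).1] at this
    · have := g2 (2 * u - 1, v, w) ⟨hu', hv, hw⟩
      rwa [(T10_cs (a0 := a0) (m := m) (by omega) u).2] at this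
  | b t1 t2 ih1 ih2 =>
    obtain ⟨h0, h1, h2⟩ := T10_bif (b := hx) (c := 0)
      (x := run f t1 a0 ah (Nat.sub x0 (Nat.div hx 2)) (Nat.div hx 2) y0 hy)
      (y := run f t2 a0 ah (Nat.add x0 (Nat.div hx 2)) (Nat.div hx 2) y0 hy) h
    obtain ⟨m, rfl⟩ : ∃ m, hx = 2 * m := ⟨hx / 2, by omega⟩
    have hm : Nat.div (2 * m) 2 = m := by
      show (2 * m) / 2 = m
      omega
    rw [hm] at h1 h2
    obtain ⟨c1, c2, c3, c4, c5, c6⟩ := hc
    have g1 := ih1 (x0 := x0 - m) (hx := m) ⟨c1, c2, by omega, by omega, c5, c6⟩ h1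
    have g2 := ih2 (x0 := x0 + m) (hx := m) ⟨c1, c2, by omega, by omega, c5, c6⟩ h2
    rintro ⟨u, v, w⟩ ⟨hu, hv, hw⟩
    rcases T10_abs hv with ⟨-, hu'⟩ | ⟨-, hu'⟩
    · have := g1 (u, 2 * v + 1, w) ⟨hu, hu', hw⟩
      rwa [(T10_cx (by omega) v).1] at this
    · have := g2 (u, 2 * v - 1, w) ⟨hu, hu', hw⟩
      rwa [(T10_cx (a0 := x0) (m := m) (by omega) v).2] at this
  | c t1 t2 ih1 ih2 =>
    obtain ⟨h0, h1, h2⟩ := T10_bif (b := hy) (c := 0)
      (x := run f t1 a0 ah x0 hx (Nat.sub y0 (Nat.div hy 2)) (Nat.div hy 2))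
      (y := run f t2 a0 ah x0 hx (Nat.add y0 (Nat.div hy 2)) (Nat.div hy 2)) h
    obtain ⟨m, rfl⟩ : ∃ m, hy = 2 * m := ⟨hy / 2, by omega⟩
    have hm : Nat.div (2 * m) 2 = m := by
      show (2 * m) / 2 = m
      omega
    rw [hm] at h1 h2
    obtain ⟨c1, c2, c3, c4, c5, c6⟩ := hc
    have g1 := ih1 (y0 := y0 - m) (hy := m) ⟨c1, c2, c3, c4, by omega, by omega⟩ h1
    have g2 := ih2 (y0 := y0 + m) (hy := m) ⟨c1, c2, c3, c4, by omega, by omega⟩ h2
    rintro ⟨u, v, w⟩ ⟨hu, hv, hw⟩
    rcases T10_abs hw with ⟨-, hu'⟩ | ⟨-, hu'⟩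
    · have := g1 (u, v, 2 * w + 1) ⟨hu, hv, hu'⟩
      rwa [(T10_cx (by omega) w).1] at this
    · have := g2 (u, v, 2 * w - 1) ⟨hu, hv, hu'⟩
      rwa [(T10_cx (a0 := y0) (m := m) (by omega) w).2] at this

end DT.TM

end

section

/-!
# T2: normalisation
-/

namespace DT.TM

theorem force_eq (n : ℕ) (f : ℕ → Bool) : force n f = f n := by cases n <;> rfl

theorem T2_D (x : ℤ) :
    |x| ≤ ((if 0 ≤ x then x.toNat else (-x - 1).toNat : ℕ) : ℤ) + 1 := by
  split_ifs with h
  · rw [abs_of_nonneg h, Int.toNat_of_nonneg h]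
    omega
  · push Not at h
    rw [abs_of_neg h, Int.toNat_of_nonneg (by omega)]
    omega

theorem T2_Dlt (x : ℤ) (h : -2 ^ 57 ≤ x ∧ x < 2 ^ 57) :
    (if 0 ≤ x then x.toNat else (-x - 1).toNat : ℕ) < 2 ^ 58 := by
  obtain ⟨h1, h2⟩ := h
  split_ifs with h3
  · omega
  · omega

theorem T2_f1 : E.filter (fun m => dg m ≤ 1) = insert (0, 0, 0) (E.filter (fun m => dg m = 1)) := by
  decide

theorem T2_f2 : E.filter (fun m => dg m ≤ 2) =
    (E.filter (fun m => dg m ≤ 1)) ∪ (E.filter (fun m => dg m = 2)) := by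
  decide

theorem T2_f3 : E = (E.filter (fun m => dg m ≤ 2)) ∪ (E.filter (fun m => dg m = 3)) := by
  decide

theorem nrm_sound {N e : ℕ} {k : T → Bool} {f : ℝ × ℝ × ℝ → ℝ} (z : ℕ × ℕ × ℕ → ℤ)
    (hz : ∀ m ∈ E, -2 ^ 57 ≤ z m ∧ z m < 2 ^ 57) (hN : (N : ℤ) = pk z)
    (hf : ∀ u ∈ Cube, |f u * 2 ^ 38 - ev z u| ≤ (e : ℝ)) (h : nrm N e k = true) :
    ∃ t, Enc t f ∧ k t = true := by
  unfold nrm at h
  simp only [force_eq] at h
  rw [abs_digits z hz N hN] at h
  set D : ℕ × ℕ × ℕ → ℕ := fun m => if 0 ≤ z m then (z m).toNat else (-z m - 1).toNat with hDdef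
  have hD : ∀ m ∈ E, D m < 2 ^ 58 := fun m hm => T2_Dlt _ (hz m hm)
  have hDz : ∀ m, |z m| ≤ (D m : ℤ) + 1 := fun m => T2_D _
  obtain ⟨s0, s1, s2, s3⟩ := digit_sums D hD
  change k ⟨N, e, ((∑ m ∈ E, D m * 2 ^ (96 * ps m)) % R18 % RM - (∑ m ∈ E, D m * 2 ^ (96 * ps m)) % R) + 3,
    ((∑ m ∈ E, D m * 2 ^ (96 * ps m)) % R35 % RM - (∑ m ∈ E, D m * 2 ^ (96 * ps m)) % R18 % RM) + 6,
    ((∑ m ∈ E, D m * 2 ^ (96 * ps m)) % RM - (∑ m ∈ E, D m * 2 ^ (96 * ps m)) % R35 % RM) + 10,
    (∑ m ∈ E, D m * 2 ^ (96 * ps m)) % RM + 20⟩ = true at h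
  rw [s0, s1, s2, s3] at h
  have e1 : ∑ m ∈ E.filter (fun m => dg m ≤ 1), D m =
      D (0, 0, 0) + ∑ m ∈ E.filter (fun m => dg m = 1), D m := by
    rw [T2_f1, Finset.sum_insert (by decide)]
  have e2 : ∑ m ∈ E.filter (fun m => dg m ≤ 2), D m =
      ∑ m ∈ E.filter (fun m => dg m ≤ 1), D m + ∑ m ∈ E.filter (fun m => dg m = 2), D m := by
    rw [T2_f2, Finset.sum_union (by decide)]
  have e3 : ∑ m ∈ E, D m =
      ∑ m ∈ E.filter (fun m => dg m ≤ 2), D m + ∑ m ∈ E.filter (fun m => dg m = 3), D m := by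
    conv_lhs => rw [T2_f3]
    rw [Finset.sum_union (by decide)]
  have key : ∀ s : Finset (ℕ × ℕ × ℕ), ∑ m ∈ s, |z m| ≤ (((∑ m ∈ s, D m : ℕ)) : ℤ) + s.card := by
    intro s
    calc ∑ m ∈ s, |z m| ≤ ∑ m ∈ s, ((D m : ℤ) + 1) := Finset.sum_le_sum fun m _ => hDz m
      _ = _ := by
        rw [Finset.sum_add_distrib, Finset.sum_const, nsmul_eq_mul, mul_one]
        push_cast
        rfl
  refine ⟨_, ⟨z, hz, hN, ?_, ?_, ?_, ?_, hf⟩, h⟩
  · refine (key _).trans ?_
    have hc : (E.filter (fun m => dg m = 1)).card = 3 := by decide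
    rw [hc, e1, Nat.add_sub_cancel_left]
    push_cast
    rfl
  · refine (key _).trans ?_
    have hc : (E.filter (fun m => dg m = 2)).card = 6 := by decide
    rw [hc, e2, Nat.add_sub_cancel_left]
    push_cast
    rfl
  · refine (key _).trans ?_
    have hc : (E.filter (fun m => dg m = 3)).card = 10 := by decide
    rw [hc, e3, Nat.add_sub_cancel_left]
    push_cast
    rfl
  · refine (key _).trans ?_
    have hc : E.card = 20 := by decide
    rw [hc]
    push_cast
    rfl

end DT.TM

end

section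

/-!
# T8: the positivity test
-/

namespace DT.TM

theorem T8_force (n : ℕ) (f : ℕ → Bool) : force n f = f n := by cases n <;> rfl

theorem T8_quad (G Hh : ℝ) (hH : 0 ≤ Hh) (g : ℝ) (h1 : |G| ≤ g + 1) (q : ℝ)
    (hq : (g + 1) ^ 2 ≤ 4 * Hh * q) (hq0 : 0 ≤ q) (u : ℝ) : -q ≤ G * u + Hh * u ^ 2 := by
  rcases hH.eq_or_lt with h0 | h0
  · rw [← h0] at hq
    have h2 : g + 1 = 0 := by
      have : (g + 1) ^ 2 ≤ 0 := by linarith
      nlinarith [sq_nonneg (g + 1)]
    have h3 : G = 0 := by
      rw [h2] at h1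
      exact abs_nonpos_iff.1 h1
    rw [h3, ← h0]
    linarith
  · have h2 : G ^ 2 ≤ 4 * Hh * q := by
      have : G ^ 2 ≤ (g + 1) ^ 2 := by
        rw [← sq_abs G]
        exact pow_le_pow_left₀ (abs_nonneg _) h1 2
      linarith
    have h3 : 0 ≤ (2 * Hh * u + G) ^ 2 := sq_nonneg _
    have h4 : 0 ≤ 4 * Hh * (G * u + Hh * u ^ 2 + q) := by nlinarith
    have h5 := nonneg_of_mul_nonneg_right h4 (by linarith : (0 : ℝ) < 4 * Hh)
    linarith

theorem T8_triv (G Hh u : ℝ) (hu : |u| ≤ 1) : -|G| - |Hh| ≤ G * u + Hh * u ^ 2 := by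
  have h1 : |G * u| ≤ |G| := by
    rw [abs_mul]
    exact mul_le_of_le_one_right (abs_nonneg _) hu
  have h2 : |Hh * u ^ 2| ≤ |Hh| := by
    rw [abs_mul, abs_pow]
    exact mul_le_of_le_one_right (abs_nonneg _) (pow_le_one₀ (abs_nonneg _) hu)
  have h3 := neg_abs_le (G * u)
  have h4 := neg_abs_le (Hh * u ^ 2)
  linarith

theorem T8_lin (G Hh u : ℝ) (hH : 0 ≤ Hh) (h : 2 * Hh ≤ |G|) (hu : |u| ≤ 1) :
    -|G| - |Hh| + 2 * Hh ≤ G * u + Hh * u ^ 2 := by
  rw [abs_of_nonneg hH]
  have h1 : -(|G| * |u|) ≤ G * u := by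
    rw [← abs_mul]
    exact neg_abs_le _
  have h2 : u ^ 2 = |u| ^ 2 := (sq_abs u).symm
  rw [h2]
  have h3 : 0 ≤ (1 - |u|) * (|G| - Hh * (1 + |u|)) := by
    apply mul_nonneg
    · linarith
    · nlinarith [abs_nonneg u]
  nlinarith

theorem T8_imp {ge ab p1 p2 : ℕ} {k : ℕ → Bool} (G Hh : ℤ) (h : imp ge ab p1 p2 k = true)
    (h1 : (ge >>> p2) % 2 = if 0 ≤ Hh then 1 else 0)
    (h2 : (ab >>> p2) % R = if 0 ≤ Hh then Hh.toNat else (-Hh - 1).toNat)
    (h3 : (ab >>> p1) % R = if 0 ≤ G then G.toNat else (-G - 1).toNat) :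
    ∃ i : ℕ, k i = true ∧
      ∀ u : ℝ, |u| ≤ 1 → -|(G : ℝ)| - |(Hh : ℝ)| + i ≤ G * u + Hh * u ^ 2 := by
  have hg : ∃ g : ℕ, (ab >>> p1) % R = g ∧ (g : ℝ) ≤ |(G : ℝ)| ∧ |(G : ℝ)| ≤ g + 1 := by
    refine ⟨_, rfl, ?_⟩
    rw [h3]
    split_ifs with h0
    · have e1 : ((G.toNat : ℕ) : ℝ) = (G : ℝ) := by
        have := Int.toNat_of_nonneg h0
        exact_mod_cast this
      have e2 : (0 : ℝ) ≤ G := by exact_mod_cast h0
      rw [e1, abs_of_nonneg e2]
      exact ⟨le_rfl, by linarith⟩
    · push Not at h0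
      have e1 : (((-G - 1).toNat : ℕ) : ℝ) = -(G : ℝ) - 1 := by
        have := Int.toNat_of_nonneg (a := -G - 1) (by omega)
        exact_mod_cast this
      have e2 : (G : ℝ) < 0 := by exact_mod_cast h0
      rw [e1, abs_of_neg e2]
      exact ⟨by linarith, by linarith⟩
  obtain ⟨g, hg0, hg1, hg2⟩ := hg
  unfold imp at h
  simp only [T8_force] at h
  change (bif Nat.beq ((ge >>> p2) % 2) 1 then
    bif Nat.ble (2 * ((ab >>> p2) % R)) ((ab >>> p1) % R) then k (2 * ((ab >>> p2) % R))
    else k (((ab >>> p1) % R + (ab >>> p2) % R) -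
      (((ab >>> p1) % R + 1) * ((ab >>> p1) % R + 1)) / (4 * ((ab >>> p2) % R)) - 1)
    else k 0) = true at h
  rw [h1, h2, hg0] at h
  by_cases h0 : 0 ≤ Hh
  · rw [if_pos h0, if_pos h0] at h
    set hh := Hh.toNat with hhdef
    have e1 : (hh : ℝ) = (Hh : ℝ) := by
      have := Int.toNat_of_nonneg h0
      exact_mod_cast this
    have e2 : (0 : ℝ) ≤ Hh := by exact_mod_cast h0
    by_cases h4 : 2 * hh ≤ g
    · have h5 : Nat.ble (2 * hh) g = true := Nat.ble_eq_true_of_le h4
      rw [h5] at h
      refine ⟨2 * hh, h, fun u hu => ?_⟩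
      have h6 : 2 * (Hh : ℝ) ≤ |(G : ℝ)| := by
        rw [← e1]
        have : ((2 * hh : ℕ) : ℝ) ≤ g := by exact_mod_cast h4
        push_cast at this
        linarith
      have h7 := T8_lin (G : ℝ) (Hh : ℝ) u e2 h6 hu
      push_cast
      rw [e1]
      exact h7
    · have h5 : Nat.ble (2 * hh) g = false := by
        rw [Bool.eq_false_iff]
        intro h6
        exact h4 (Nat.le_of_ble_eq_true h6)
      rw [h5] at h
      change k (g + hh - (g + 1) * (g + 1) / (4 * hh) - 1) = true at h
      refine ⟨_, h, fun u hu => ?_⟩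
      set q := (g + 1) * (g + 1) / (4 * hh) with hq
      rcases le_or_gt (g + hh) (q + 1) with h6 | h6
      · have h7 : g + hh - q - 1 = 0 := by omega
        rw [h7]
        have := T8_triv (G : ℝ) (Hh : ℝ) u hu
        push_cast
        linarith
      · have h7 : ((g + hh - q - 1 : ℕ) : ℝ) = (g : ℝ) + hh - q - 1 := by
          rw [Nat.cast_sub (by omega), Nat.cast_sub (by omega)]
          push_cast
          ring
        have h8 : ((g : ℝ) + 1) ^ 2 ≤ 4 * Hh * (q + 1) := by
          have h9 : (g + 1) * (g + 1) < 4 * hh * (q + 1) := by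
            rw [hq]
            exact Nat.lt_mul_div_succ _ (by omega)
          have h10 : (((g + 1) * (g + 1) : ℕ) : ℝ) ≤ ((4 * hh * (q + 1) : ℕ) : ℝ) := by
            exact_mod_cast h9.le
          push_cast at h10
          rw [e1] at h10
          nlinarith
        have h9 := T8_quad (G : ℝ) (Hh : ℝ) e2 g hg2 (q + 1) h8 (by positivity) u
        rw [h7, abs_of_nonneg e2, e1]
        linarith
  · rw [if_neg h0] at h
    refine ⟨0, h, fun u hu => ?_⟩
    have := T8_triv (G : ℝ) (Hh : ℝ) u hu
    push_cast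
    linarith

theorem T8_mon {u : ℝ × ℝ × ℝ} (hu : u ∈ Cube) (m : ℕ × ℕ × ℕ) : |mon u m| ≤ 1 := by
  obtain ⟨h1, h2, h3⟩ := hu
  unfold mon
  rw [abs_mul, abs_mul, abs_pow, abs_pow, abs_pow]
  have g1 := pow_le_one₀ (n := m.1) (abs_nonneg _) h1
  have g2 := pow_le_one₀ (n := m.2.1) (abs_nonneg _) h2
  have g3 := pow_le_one₀ (n := m.2.2) (abs_nonneg _) h3
  calc _ ≤ (1 : ℝ) * 1 * 1 := by gcongr
    _ = 1 := by norm_num

theorem T8_bd {u : ℝ × ℝ × ℝ} (hu : u ∈ Cube) (z : ℕ × ℕ × ℕ → ℤ) (m : ℕ × ℕ × ℕ) :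
    -((|z m| : ℤ) : ℝ) ≤ (z m : ℝ) * mon u m := by
  have h1 : |(z m : ℝ) * mon u m| ≤ |(z m : ℝ)| := by
    rw [abs_mul]
    exact mul_le_of_le_one_right (abs_nonneg _) (T8_mon hu m)
  have h2 := neg_abs_le ((z m : ℝ) * mon u m)
  push_cast
  linarith

theorem T8_E : E = {(0, 0, 0)} ∪ (E.filter (fun m => dg m = 1) ∪ (E.filter (fun m => dg m = 2) ∪
    E.filter (fun m => dg m = 3))) := by
  decide

theorem T8_E1 : E.filter (fun m => dg m = 1) = {(1, 0, 0), (0, 1, 0), (0, 0, 1)} := by
  decide

theorem T8_E2 : E.filter (fun m => dg m = 2) =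
    {(2, 0, 0), (0, 2, 0), (0, 0, 2), (1, 1, 0), (1, 0, 1), (0, 1, 1)} := by
  decide

theorem T8_sum {α : Type} [AddCommMonoid α] (F : ℕ × ℕ × ℕ → α) :
    ∑ m ∈ E, F m = F (0, 0, 0) + (∑ m ∈ E.filter (fun m => dg m = 1), F m +
      (∑ m ∈ E.filter (fun m => dg m = 2), F m + ∑ m ∈ E.filter (fun m => dg m = 3), F m)) := by
  conv_lhs => rw [T8_E]
  rw [Finset.sum_union (by decide), Finset.sum_union (by decide), Finset.sum_union (by decide),
    Finset.sum_singleton]

theorem T8_sum1 {α : Type} [AddCommMonoid α] (F : ℕ × ℕ × ℕ → α) :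
    ∑ m ∈ E.filter (fun m => dg m = 1), F m = F (1, 0, 0) + (F (0, 1, 0) + F (0, 0, 1)) := by
  rw [T8_E1, Finset.sum_insert (by decide), Finset.sum_insert (by decide), Finset.sum_singleton]

theorem T8_sum2 {α : Type} [AddCommMonoid α] (F : ℕ × ℕ × ℕ → α) :
    ∑ m ∈ E.filter (fun m => dg m = 2), F m = F (2, 0, 0) + (F (0, 2, 0) + (F (0, 0, 2) +
      (F (1, 1, 0) + (F (1, 0, 1) + F (0, 1, 1))))) := by
  rw [T8_E2, Finset.sum_insert (by decide), Finset.sum_insert (by decide),
    Finset.sum_insert (by decide), Finset.sum_insert (by decide), Finset.sum_insert (by decide),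
    Finset.sum_singleton]

theorem pos_sound {t : T} {f : ℝ × ℝ × ℝ → ℝ} (ht : Enc t f) (h : pos t = true) :
    ∀ u ∈ Cube, 0 ≤ f u := by
  obtain ⟨z, hz, hN, hn1, hn2, hn3, -, hf⟩ := ht
  unfold pos at h
  simp only [T8_force] at h
  rw [abs_digits z hz t.N hN, sign_digits z hz t.N hN] at h
  set Dg : ℕ × ℕ × ℕ → ℕ := fun m => if 0 ≤ z m then 1 else 0 with hDg
  set Da : ℕ × ℕ × ℕ → ℕ := fun m => if 0 ≤ z m then (z m).toNat else (-z m - 1).toNat with hDa
  have bDg : ∀ m ∈ E, Dg m < 2 ^ 96 := by
    intro m _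
    simp only [hDg]
    split_ifs <;> norm_num
  have bDa : ∀ m ∈ E, Da m < 2 ^ 96 := by
    intro m hm
    obtain ⟨h1, h2⟩ := hz m hm
    simp only [hDa]
    split_ifs
    · omega
    · omega
  have hR : R = 2 ^ 96 := by decide +kernel
  have gg : ∀ m ∈ E, (∑ m ∈ E, Dg m * 2 ^ (96 * ps m)) >>> (96 * ps m) % 2 = Dg m := by
    intro m hm
    have h1 := digit_get Dg bDg m hm
    have h2 : (2 : ℕ) ∣ 2 ^ 96 := by norm_num
    rw [← Nat.mod_mod_of_dvd _ h2, h1]
    simp only [hDg]
    split_ifs <;> rfl
  have ga : ∀ m ∈ E, (∑ m ∈ E, Da m * 2 ^ (96 * ps m)) >>> (96 * ps m) % R = Da m := by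
    intro m hm
    rw [hR]
    exact digit_get Da bDa m hm
  obtain ⟨i1, h, hi1⟩ := T8_imp (z (1, 0, 0)) (z (2, 0, 0)) h (gg (2, 0, 0) (by decide))
    (ga (2, 0, 0) (by decide)) (ga (1, 0, 0) (by decide))
  obtain ⟨i2, h, hi2⟩ := T8_imp (z (0, 1, 0)) (z (0, 2, 0)) h (gg (0, 2, 0) (by decide))
    (ga (0, 2, 0) (by decide)) (ga (0, 1, 0) (by decide))
  obtain ⟨i3, h, hi3⟩ := T8_imp (z (0, 0, 1)) (z (0, 0, 2)) h (gg (0, 0, 2) (by decide))
    (ga (0, 0, 2) (by decide)) (ga (0, 0, 1) (by decide))
  have h4 : H + (t.e + (t.n1 + (t.n2 + t.n3))) ≤ t.N % R + (i1 + (i2 + i3)) := Nat.le_of_ble_eq_true h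
  -- the constant coefficient
  have h5 : ((t.N % R : ℕ) : ℤ) = z (0, 0, 0) + 2 ^ 57 := by
    set Dz : ℕ × ℕ × ℕ → ℕ := fun m => (z m + 2 ^ 57).toNat with hDz
    have c1 : ∀ m ∈ E, ((Dz m : ℕ) : ℤ) = z m + 2 ^ 57 := by
      intro m hm
      have := (hz m hm).1
      simp only [hDz]
      rw [Int.toNat_of_nonneg (by omega)]
    have c2 : ∀ m ∈ E, Dz m < 2 ^ 96 := by
      intro m hm
      have c3 := c1 m hm
      have := (hz m hm).2
      have c4 : ((Dz m : ℕ) : ℤ) < 2 ^ 96 := by
        rw [c3]
        omega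
      exact_mod_cast c4
    have c3 : t.N = ∑ m ∈ E, Dz m * 2 ^ (96 * ps m) := by
      have c4 : (t.N : ℤ) = ((∑ m ∈ E, Dz m * 2 ^ (96 * ps m) : ℕ) : ℤ) := by
        rw [hN]
        unfold pk
        push_cast
        refine Finset.sum_congr rfl fun m hm => ?_
        rw [c1 m hm]
        norm_num
      exact_mod_cast c4
    have c4 := digit_get Dz c2 (0, 0, 0) (by decide)
    have c5 : 96 * ps (0, 0, 0) = 0 := by decide
    rw [← c3, c5, Nat.shiftRight_zero] at c4
    rw [hR, c4, c1 _ (by decide)]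
  have h6 : ((2 : ℤ) ^ 57 + (t.e + (t.n1 + (t.n2 + t.n3)))) ≤
      z (0, 0, 0) + 2 ^ 57 + (i1 + (i2 + i3)) := by
    rw [← h5]
    have h7 : H = 2 ^ 57 := by decide +kernel
    rw [h7] at h4
    exact_mod_cast h4
  have h7 : ((t.e : ℝ) + (t.n1 + (t.n2 + t.n3))) ≤ z (0, 0, 0) + (i1 + (i2 + i3)) := by
    have h8 : ((t.e : ℤ) + (t.n1 + (t.n2 + t.n3))) ≤ z (0, 0, 0) + (i1 + (i2 + i3)) := by
      linarith
    exact_mod_cast h8
  intro u hu
  have hu' := hu
  obtain ⟨u1, u2, u3⟩ := u
  obtain ⟨w1, w2, w3⟩ := hu'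
  have b1 := hi1 u1 w1
  have b2 := hi2 u2 w2
  have b3 := hi3 u3 w3
  have k1 : ((∑ m ∈ E.filter (fun m => dg m = 1), |z m| : ℤ) : ℝ) ≤ t.n1 := by exact_mod_cast hn1
  have k2 : ((∑ m ∈ E.filter (fun m => dg m = 2), |z m| : ℤ) : ℝ) ≤ t.n2 := by exact_mod_cast hn2
  have k3 : ((∑ m ∈ E.filter (fun m => dg m = 3), |z m| : ℤ) : ℝ) ≤ t.n3 := by exact_mod_cast hn3
  rw [T8_sum1] at k1
  rw [T8_sum2] at k2
  have k4 : -((∑ m ∈ E.filter (fun m => dg m = 3), |z m| : ℤ) : ℝ) ≤
      ∑ m ∈ E.filter (fun m => dg m = 3), (z m : ℝ) * mon (u1, u2, u3) m := by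
    rw [Int.cast_sum, ← Finset.sum_neg_distrib]
    exact Finset.sum_le_sum fun m _ => T8_bd hu z m
  have k5 := T8_bd hu z (1, 1, 0)
  have k6 := T8_bd hu z (1, 0, 1)
  have k7 := T8_bd hu z (0, 1, 1)
  have k8 := (abs_le.1 (hf (u1, u2, u3) hu)).1
  have k9 : ev z (u1, u2, u3) = z (0, 0, 0) + ((z (1, 0, 0) * u1 + (z (0, 1, 0) * u2 + z (0, 0, 1) * u3)) +
      ((z (2, 0, 0) * u1 ^ 2 + (z (0, 2, 0) * u2 ^ 2 + (z (0, 0, 2) * u3 ^ 2 +
        (z (1, 1, 0) * mon (u1, u2, u3) (1, 1, 0) + (z (1, 0, 1) * mon (u1, u2, u3) (1, 0, 1) +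
          z (0, 1, 1) * mon (u1, u2, u3) (0, 1, 1)))))) +
      ∑ m ∈ E.filter (fun m => dg m = 3), (z m : ℝ) * mon (u1, u2, u3) m)) := by
    unfold ev
    rw [T8_sum, T8_sum1, T8_sum2]
    have e0 : mon (u1, u2, u3) (0, 0, 0) = 1 := by simp [mon]
    have e1 : mon (u1, u2, u3) (1, 0, 0) = u1 := by simp [mon]
    have e2 : mon (u1, u2, u3) (0, 1, 0) = u2 := by simp [mon]
    have e3 : mon (u1, u2, u3) (0, 0, 1) = u3 := by simp [mon]
    have e4 : mon (u1, u2, u3) (2, 0, 0) = u1 ^ 2 := by simp [mon]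
    have e5 : mon (u1, u2, u3) (0, 2, 0) = u2 ^ 2 := by simp [mon]
    have e6 : mon (u1, u2, u3) (0, 0, 2) = u3 ^ 2 := by simp [mon]
    rw [e0, e1, e2, e3, e4, e5, e6, mul_one]
  have k10 : 0 ≤ f (u1, u2, u3) * 2 ^ 38 := by
    push_cast at k1 k2 k5 k6 k7
    linarith
  exact nonneg_of_mul_nonneg_left k10 (by positivity)

end DT.TM

end
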