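import Pool.Agent.Work.MP_74021c_co.Bd.B09
import Pool.Agent.Work.MP_74021c_co.Bd.B05
import Pool.Agent.Work.MP_74021c_co.Bd.B06
import Pool.Agent.Work.MP_74021c_co.Bd.B01
import Pool.Agent.Work.MP_74021c_co.T1b
import Pool.Agent.Work.MP_74021c_co.G9b
import Pool.Agent.Work.MP_74021c_co.G7b
import Pool.Agent.Work.MP_74021c_co.TMSpec
import Pool.Agent.Work.MP_74021c_co.T7a

/-! Bundle of small proof modules (one section per former module). -/

section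

/-!
# All cells of the certificate
-/

namespace DT.TM

theorem ex_a {f : ℕ → ℕ → ℕ → ℕ → ℕ → ℕ → Bool} {a0 ah x0 hx y0 hy a1 a2 h : ℕ}
    (h1 : ∃ t, run f t a1 h x0 hx y0 hy = true) (h2 : ∃ t, run f t a2 h x0 hx y0 hy = true)
    (e : ah = 2 * h ∧ a0 = a1 + h ∧ a2 = a0 + h) :
    ∃ t, run f t a0 ah x0 hx y0 hy = true := by
  obtain ⟨t1, h1⟩ := h1
  obtain ⟨t2, h2⟩ := h2
  exact ⟨Tr.a t1 t2, run_a h1 h2 e⟩

theorem ex_b {f : ℕ → ℕ → ℕ → ℕ → ℕ → ℕ → Bool} {a0 ah x0 hx y0 hy a1 a2 h : ℕ}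
    (h1 : ∃ t, run f t a0 ah a1 h y0 hy = true) (h2 : ∃ t, run f t a0 ah a2 h y0 hy = true)
    (e : hx = 2 * h ∧ x0 = a1 + h ∧ a2 = x0 + h) :
    ∃ t, run f t a0 ah x0 hx y0 hy = true := by
  obtain ⟨t1, h1⟩ := h1
  obtain ⟨t2, h2⟩ := h2
  exact ⟨Tr.b t1 t2, run_b h1 h2 e⟩

theorem ex_c {f : ℕ → ℕ → ℕ → ℕ → ℕ → ℕ → Bool} {a0 ah x0 hx y0 hy a1 a2 h : ℕ}
    (h1 : ∃ t, run f t a0 ah x0 hx a1 h = true) (h2 : ∃ t, run f t a0 ah x0 hx a2 h = true)
    (e : hy = 2 * h ∧ y0 = a1 + h ∧ a2 = y0 + h) :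
    ∃ t, run f t a0 ah x0 hx y0 hy = true := by
  obtain ⟨t1, h1⟩ := h1
  obtain ⟨t2, h2⟩ := h2
  exact ⟨Tr.c t1 t2, run_c h1 h2 e⟩

theorem nC_1 : ∃ t, run evalC t 8589934592 8589934592 68719476736 68719476736 34359738368 34359738368 = true :=
  ex_b ⟨_, runC01⟩ ⟨_, runC02⟩ (by norm_num)

theorem nC_2 : ∃ t, run evalC t 8589934592 8589934592 68719476736 68719476736 68719476736 68719476736 = true :=
  ex_c nC_1 ⟨_, runC03⟩ (by norm_num)

theorem nC_3 : ∃ t, run evalC t 4294967296 4294967296 34359738368 34359738368 171798691840 34359738368 = true :=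
  ex_b ⟨_, runC04⟩ ⟨_, runC05⟩ (by norm_num)

theorem nC_4 : ∃ t, run evalC t 8589934592 8589934592 34359738368 34359738368 171798691840 34359738368 = true :=
  ex_a nC_3 ⟨_, runC06⟩ (by norm_num)

theorem nC_5 : ∃ t, run evalC t 8589934592 8589934592 68719476736 68719476736 171798691840 34359738368 = true :=
  ex_b nC_4 ⟨_, runC07⟩ (by norm_num)

theorem nC_6 : ∃ t, run evalC t 4294967296 4294967296 103079215104 34359738368 240518168576 34359738368 = true :=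
  ex_c ⟨_, runC09⟩ ⟨_, runC10⟩ (by norm_num)

theorem nC_7 : ∃ t, run evalC t 8589934592 8589934592 103079215104 34359738368 240518168576 34359738368 = true :=
  ex_a nC_6 ⟨_, runC11⟩ (by norm_num)

theorem nC_8 : ∃ t, run evalC t 8589934592 8589934592 68719476736 68719476736 240518168576 34359738368 = true :=
  ex_b ⟨_, runC08⟩ nC_7 (by norm_num)

theorem nC_9 : ∃ t, run evalC t 8589934592 8589934592 68719476736 68719476736 206158430208 68719476736 = true :=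
  ex_c nC_5 nC_8 (by norm_num)

theorem nC_10 : ∃ t, run evalC t 8589934592 8589934592 68719476736 68719476736 137438953472 137438953472 = true :=
  ex_c nC_2 nC_9 (by norm_num)

theorem nC_11 : ∃ t, run evalC t 4294967296 4294967296 171798691840 34359738368 34359738368 34359738368 = true :=
  ex_c ⟨_, runC12⟩ ⟨_, runC13⟩ (by norm_num)

theorem nC_12 : ∃ t, run evalC t 8589934592 8589934592 171798691840 34359738368 34359738368 34359738368 = true :=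
  ex_a nC_11 ⟨_, runC14⟩ (by norm_num)

theorem nC_13 : ∃ t, run evalC t 8589934592 8589934592 206158430208 68719476736 34359738368 34359738368 = true :=
  ex_b nC_12 ⟨_, runC15⟩ (by norm_num)

theorem nC_14 : ∃ t, run evalC t 4294967296 4294967296 240518168576 34359738368 103079215104 34359738368 = true :=
  ex_b ⟨_, runC17⟩ ⟨_, runC18⟩ (by norm_num)

theorem nC_15 : ∃ t, run evalC t 8589934592 8589934592 240518168576 34359738368 103079215104 34359738368 = true :=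
  ex_a nC_14 ⟨_, runC19⟩ (by norm_num)

theorem nC_16 : ∃ t, run evalC t 8589934592 8589934592 206158430208 68719476736 103079215104 34359738368 = true :=
  ex_b ⟨_, runC16⟩ nC_15 (by norm_num)

theorem nC_17 : ∃ t, run evalC t 8589934592 8589934592 206158430208 68719476736 68719476736 68719476736 = true :=
  ex_c nC_13 nC_16 (by norm_num)

theorem nC_18 : ∃ t, run evalC t 8589934592 8589934592 240518168576 34359738368 206158430208 68719476736 = true :=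
  ex_c ⟨_, runC21⟩ ⟨_, runC22⟩ (by norm_num)

theorem nC_19 : ∃ t, run evalC t 8589934592 8589934592 206158430208 68719476736 206158430208 68719476736 = true :=
  ex_b ⟨_, runC20⟩ nC_18 (by norm_num)

theorem nC_20 : ∃ t, run evalC t 8589934592 8589934592 206158430208 68719476736 137438953472 137438953472 = true :=
  ex_c nC_17 nC_19 (by norm_num)

theorem nC_21 : ∃ t, run evalC t 8589934592 8589934592 137438953472 137438953472 137438953472 137438953472 = true :=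
  ex_b nC_10 nC_20 (by norm_num)

theorem nC_22 : ∃ t, run evalC t 25769803776 8589934592 68719476736 68719476736 137438953472 137438953472 = true :=
  ex_c ⟨_, runC23⟩ ⟨_, runC24⟩ (by norm_num)

theorem nC_23 : ∃ t, run evalC t 25769803776 8589934592 206158430208 68719476736 137438953472 137438953472 = true :=
  ex_c ⟨_, runC25⟩ ⟨_, runC26⟩ (by norm_num)

theorem nC_24 : ∃ t, run evalC t 25769803776 8589934592 137438953472 137438953472 137438953472 137438953472 = true :=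
  ex_b nC_22 nC_23 (by norm_num)

theorem nC_25 : ∃ t, run evalC t 17179869184 17179869184 137438953472 137438953472 137438953472 137438953472 = true :=
  ex_a nC_21 nC_24 (by norm_num)

theorem nC_26 : ∃ t, run evalC t 42949672960 8589934592 68719476736 68719476736 68719476736 68719476736 = true :=
  ex_b ⟨_, runC27⟩ ⟨_, runC28⟩ (by norm_num)

theorem nC_27 : ∃ t, run evalC t 42949672960 8589934592 68719476736 68719476736 137438953472 137438953472 = true :=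
  ex_c nC_26 ⟨_, runC29⟩ (by norm_num)

theorem nC_28 : ∃ t, run evalC t 42949672960 8589934592 206158430208 68719476736 206158430208 68719476736 = true :=
  ex_b ⟨_, runC31⟩ ⟨_, runC32⟩ (by norm_num)

theorem nC_29 : ∃ t, run evalC t 42949672960 8589934592 206158430208 68719476736 137438953472 137438953472 = true :=
  ex_c ⟨_, runC30⟩ nC_28 (by norm_num)

theorem nC_30 : ∃ t, run evalC t 42949672960 8589934592 137438953472 137438953472 137438953472 137438953472 = true :=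
  ex_b nC_27 nC_29 (by norm_num)

theorem nC_31 : ∃ t, run evalC t 60129542144 8589934592 34359738368 34359738368 68719476736 68719476736 = true :=
  ex_a ⟨_, runC33⟩ ⟨_, runC34⟩ (by norm_num)

theorem nC_32 : ∃ t, run evalC t 60129542144 8589934592 34359738368 34359738368 137438953472 137438953472 = true :=
  ex_c nC_31 ⟨_, runC35⟩ (by norm_num)

theorem nC_33 : ∃ t, run evalC t 60129542144 8589934592 68719476736 68719476736 137438953472 137438953472 = true :=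
  ex_b nC_32 ⟨_, runC36⟩ (by norm_num)

theorem nC_34 : ∃ t, run evalC t 60129542144 8589934592 240518168576 34359738368 206158430208 68719476736 = true :=
  ex_a ⟨_, runC39⟩ ⟨_, runC40⟩ (by norm_num)

theorem nC_35 : ∃ t, run evalC t 60129542144 8589934592 240518168576 34359738368 137438953472 137438953472 = true :=
  ex_c ⟨_, runC38⟩ nC_34 (by norm_num)

theorem nC_36 : ∃ t, run evalC t 60129542144 8589934592 206158430208 68719476736 137438953472 137438953472 = true :=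
  ex_b ⟨_, runC37⟩ nC_35 (by norm_num)

theorem nC_37 : ∃ t, run evalC t 60129542144 8589934592 137438953472 137438953472 137438953472 137438953472 = true :=
  ex_b nC_33 nC_36 (by norm_num)

theorem nC_38 : ∃ t, run evalC t 51539607552 17179869184 137438953472 137438953472 137438953472 137438953472 = true :=
  ex_a nC_30 nC_37 (by norm_num)

theorem nC_39 : ∃ t, run evalC t 34359738368 34359738368 137438953472 137438953472 137438953472 137438953472 = true :=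
  ex_a nC_25 nC_38 (by norm_num)

theorem allC : ∃ t, run evalC t 34359738368 34359738368 137438953472 137438953472 137438953472 137438953472 = true :=
  nC_39

theorem nA_1 : ∃ t, run evalA t 34359738368 34359738368 137438953472 137438953472 137438953472 137438953472 = true :=
  ex_a ⟨_, runA01⟩ ⟨_, runA02⟩ (by norm_num)

theorem allA : ∃ t, run evalA t 34359738368 34359738368 137438953472 137438953472 137438953472 137438953472 = true :=
  nA_1

theorem allB : ∃ t, run evalB t 34359738368 34359738368 137438953472 137438953472 137438953472 137438953472 = true :=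
  ⟨_, runB01⟩

end DT.TM

end

section

/-!
# MP_74021c_co, T3: from the scale 2^76 to the scale 2^38 (helper85)
-/

namespace DT.TM

theorem T3_I : ∑ m ∈ E, (2 ^ 96 - 1) * 2 ^ (96 * ps m) < 2 ^ (96 * 52) := by decide +kernel

theorem T3_card : E.card = 20 := by decide +kernel

theorem T3_mon {u : ℝ × ℝ × ℝ} (hu : u ∈ Cube) (m : ℕ × ℕ × ℕ) : |mon u m| ≤ 1 := by
  obtain ⟨h1, h2, h3⟩ := hu
  unfold mon
  rw [abs_mul, abs_mul, abs_pow, abs_pow, abs_pow]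
  have k1 := pow_le_one₀ (n := m.1) (abs_nonneg _) h1
  have k2 := pow_le_one₀ (n := m.2.1) (abs_nonneg _) h2
  have k3 := pow_le_one₀ (n := m.2.2) (abs_nonneg _) h3
  exact mul_le_one₀ (mul_le_one₀ k1 (by positivity) k2) (by positivity) k3

theorem fin_sound {raw err : ℕ} {k : T → Bool} {f : ℝ × ℝ × ℝ → ℝ} (Z : ℕ × ℕ × ℕ → ℤ) (K : ℤ)
    (hZ : ∀ m ∈ E, |Z m| < 2 ^ 95)
    (hraw : (raw : ℤ) = (∑ m ∈ E, (Z m + 2 ^ 95) * 2 ^ (96 * ps m)) + 2 ^ (96 * 52) * K)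
    (hf : ∀ u ∈ Cube, |f u * 2 ^ 76 - ev Z u| ≤ (err : ℝ)) (h : fin raw err k = true) :
    ∃ t, Enc t f ∧ k t = true := by
  unfold fin at h
  rw [force_eq, force_eq] at h
  set D : ℕ × ℕ × ℕ → ℕ := fun m => (Z m + 2 ^ 95).toNat with hD
  have hDZ : ∀ m ∈ E, (D m : ℤ) = Z m + 2 ^ 95 := by
    intro m hm
    have := abs_lt.1 (hZ m hm)
    simp only [hD]
    rw [Int.toNat_of_nonneg (by linarith [this.1])]
  have hD96 : ∀ m ∈ E, D m < 2 ^ 96 := by
    intro m hm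
    have h1 := abs_lt.1 (hZ m hm)
    have h2 := hDZ m hm
    have h3 : (D m : ℤ) < 2 ^ 96 := by
      rw [h2]; linarith [h1.2]
    exact_mod_cast h3
  have hsum : (∑ m ∈ E, (Z m + 2 ^ 95) * 2 ^ (96 * ps m)) =
      ((∑ m ∈ E, D m * 2 ^ (96 * ps m) : ℕ) : ℤ) := by
    rw [Nat.cast_sum]
    exact Finset.sum_congr rfl fun m hm => by rw [Nat.cast_mul, hDZ m hm, Nat.cast_pow]; rfl
  have hlt : ∑ m ∈ E, D m * 2 ^ (96 * ps m) < 2 ^ (96 * 52) := by
    refine lt_of_le_of_lt (Finset.sum_le_sum fun m hm => ?_) T3_I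
    exact Nat.mul_le_mul_right _ (Nat.le_pred_of_lt (hD96 m hm))
  have hK : 0 ≤ K := by
    by_contra hneg
    have hK1 : K ≤ -1 := by omega
    have h0 : (0 : ℤ) ≤ raw := Int.natCast_nonneg _
    have h1 : ((∑ m ∈ E, D m * 2 ^ (96 * ps m) : ℕ) : ℤ) < 2 ^ (96 * 52) := by
      exact_mod_cast hlt
    rw [hraw, hsum] at h0
    have h2 : (2 : ℤ) ^ (96 * 52) * K ≤ 2 ^ (96 * 52) * (-1) :=
      mul_le_mul_of_nonneg_left hK1 (by positivity)
    linarith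
  have hrawN : raw = (∑ m ∈ E, D m * 2 ^ (96 * ps m)) + 2 ^ (96 * 52) * K.toNat := by
    have : (raw : ℤ) = (((∑ m ∈ E, D m * 2 ^ (96 * ps m)) + 2 ^ (96 * 52) * K.toNat : ℕ) : ℤ) := by
      rw [hraw, hsum]
      push_cast
      rw [Int.toNat_of_nonneg hK]
    exact_mod_cast this
  have hNe := shift_mask D hD96 K.toNat
  rw [← hrawN] at hNe
  rw [hNe] at h
  set z : ℕ × ℕ × ℕ → ℤ := fun m => ((D m / 2 ^ 38 : ℕ) : ℤ) - 2 ^ 57 with hz
  refine nrm_sound z ?_ ?_ ?_ h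
  · intro m hm
    have h1 : D m / 2 ^ 38 < 2 ^ 58 := by
      rw [Nat.div_lt_iff_lt_mul (by positivity)]
      exact (hD96 m hm).trans_le (by norm_num)
    have h2 : ((D m / 2 ^ 38 : ℕ) : ℤ) < 2 ^ 58 := by exact_mod_cast h1
    have h3 : (0 : ℤ) ≤ ((D m / 2 ^ 38 : ℕ) : ℤ) := Int.natCast_nonneg _
    simp only [hz]
    constructor <;> linarith
  · unfold pk
    push_cast
    refine Finset.sum_congr rfl fun m _ => ?_
    simp only [hz]
    push_cast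
    ring
  · intro u hu
    have hfu := hf u hu
    have hd : |ev Z u - 2 ^ 38 * ev z u| ≤ 20 * 2 ^ 38 := by
      have he : ev Z u - 2 ^ 38 * ev z u = ∑ m ∈ E, ((Z m : ℝ) - 2 ^ 38 * (z m : ℝ)) * mon u m := by
        unfold ev
        rw [Finset.mul_sum, ← Finset.sum_sub_distrib]
        exact Finset.sum_congr rfl fun m _ => by ring
      rw [he]
      refine (Finset.abs_sum_le_sum_abs _ _).trans ?_
      have hb : ∀ m ∈ E, |((Z m : ℝ) - 2 ^ 38 * (z m : ℝ)) * mon u m| ≤ 2 ^ 38 := by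
        intro m hm
        rw [abs_mul]
        have k1 : |(Z m : ℝ) - 2 ^ 38 * (z m : ℝ)| ≤ 2 ^ 38 := by
          obtain ⟨q, hq⟩ : ∃ q : ℕ, q = D m % 2 ^ 38 := ⟨_, rfl⟩
          obtain ⟨p, hp⟩ : ∃ p : ℕ, p = D m / 2 ^ 38 := ⟨_, rfl⟩
          have q0 : D m = 2 ^ 38 * p + q := by
            rw [hq, hp]; exact (Nat.div_add_mod (D m) (2 ^ 38)).symm
          have q1 : (D m : ℝ) = 2 ^ 38 * (p : ℝ) + q := by rw [q0]; push_cast; ring
          have q2 : (D m : ℝ) = Z m + 2 ^ 95 := by exact_mod_cast hDZ m hm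
          have q3 : (z m : ℝ) = p - 2 ^ 57 := by
            simp only [hz]
            rw [← hp]
            push_cast
            ring
          have e2 : (Z m : ℝ) - 2 ^ 38 * (z m : ℝ) = (q : ℝ) := by
            rw [q3]; linarith
          rw [e2, abs_of_nonneg (Nat.cast_nonneg _)]
          have q4 : q < 2 ^ 38 := by rw [hq]; exact Nat.mod_lt (D m) (show 0 < 2 ^ 38 by norm_num)
          exact_mod_cast q4.le
        calc _ ≤ 2 ^ 38 * 1 := mul_le_mul k1 (T3_mon hu m) (abs_nonneg _) (by positivity)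
          _ = 2 ^ 38 := by ring
      refine (Finset.sum_le_card_nsmul _ _ _ hb).trans ?_
      rw [T3_card]
      simp
    have he2 : (err : ℝ) ≤ 2 ^ 38 * (((Nat.div err S : ℕ) : ℝ) + 1) := by
      have q1 := Nat.div_add_mod err (2 ^ 38)
      have q2 := Nat.mod_lt err (show 0 < 2 ^ 38 by norm_num)
      have q3 : err ≤ 2 ^ 38 * (err / 2 ^ 38 + 1) := by
        rw [Nat.mul_add]; omega
      have q4 : Nat.div err S = err / 2 ^ 38 := rfl
      rw [q4]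
      exact_mod_cast q3
    have hg : ((Nat.add (Nat.div err S) 21 : ℕ) : ℝ) = ((Nat.div err S : ℕ) : ℝ) + 21 := by
      change ((Nat.div err S + 21 : ℕ) : ℝ) = _
      push_cast
      rfl
    rw [hg]
    have hh : |(f u * 2 ^ 38 - ev z u) * 2 ^ 38| ≤ (((Nat.div err S : ℕ) : ℝ) + 21) * 2 ^ 38 := by
      have e3 : (f u * 2 ^ 38 - ev z u) * 2 ^ 38 =
          (f u * 2 ^ 76 - ev Z u) + (ev Z u - 2 ^ 38 * ev z u) := by ring
      rw [e3]
      refine (abs_add_le _ _).trans ?_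
      linarith
    rw [abs_mul, abs_of_pos (show (0 : ℝ) < 2 ^ 38 by positivity)] at hh
    exact le_of_mul_le_mul_right hh (by positivity)

end DT.TM

end

section

/-!
# The three certified inequalities from the soundness of the evaluations
-/

open Real Set

namespace DT.TM

/-- the root cell is the unit cube -/
theorem root_point {F : ℝ → ℝ → ℝ → Prop}
    (h : CellOK F 34359738368 34359738368 137438953472 137438953472 137438953472 137438953472)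
    {s x y : ℝ} (hs : s ∈ Icc (0 : ℝ) 1) (hx : x ∈ Icc (0 : ℝ) 1) (hy : y ∈ Icc (0 : ℝ) 1) :
    F s x y := by
  have k := h (2 * s - 1, 2 * x - 1, 2 * y - 1)
    ⟨abs_le.2 ⟨by dsimp only; linarith [hs.1], by dsimp only; linarith [hs.2]⟩,
     abs_le.2 ⟨by dsimp only; linarith [hx.1], by dsimp only; linarith [hx.2]⟩,
     abs_le.2 ⟨by dsimp only; linarith [hy.1], by dsimp only; linarith [hy.2]⟩⟩
  have e1 : cs 34359738368 34359738368 (2 * s - 1) = s := by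
    unfold cs; push_cast; ring
  have e2 : ∀ z : ℝ, cx 137438953472 137438953472 (2 * z - 1) = z := by
    intro z; unfold cx; push_cast; ring
  dsimp only at k
  rwa [e1, e2, e2] at k

theorem root_cell :
    Cell 34359738368 34359738368 137438953472 137438953472 137438953472 137438953472 := by
  refine ⟨le_rfl, ?_, le_rfl, ?_, le_rfl, ?_⟩ <;> norm_num

/-- soundness of the three evaluations -/
structure Sound : Prop where
  C : ∀ a0 ah x0 hx y0 hy : ℕ, Cell a0 ah x0 hx y0 hy → evalC a0 ah x0 hx y0 hy = true →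
    CellOK (fun s x y => 0 ≤ FC 2 s x y ∧ 0 ≤ FC (-2) s x y) a0 ah x0 hx y0 hy
  A : ∀ a0 ah x0 hx y0 hy : ℕ, Cell a0 ah x0 hx y0 hy → evalA a0 ah x0 hx y0 hy = true →
    CellOK (fun s x y => 0 ≤ FA s x y) a0 ah x0 hx y0 hy
  B : ∀ a0 ah x0 hx y0 hy : ℕ, Cell a0 ah x0 hx y0 hy → evalB a0 ah x0 hx y0 hy = true →
    CellOK (fun s x y => 0 ≤ FB s x y) a0 ah x0 hx y0 hy

theorem certC_of (h : Sound) : Cand.CertC := by
  obtain ⟨t, ht⟩ := allC
  have H := run_sound h.C t root_cell ht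
  intro s x y ε hs hx hy hε w ω κ hw hω hκ
  have k := root_point H hs hx hy
  subst hw hω hκ
  rcases hε with rfl | rfl
  · exact k.1
  · exact k.2

theorem certA_of (h : Sound) : Cand.CertA := by
  obtain ⟨t, ht⟩ := allA
  have H := run_sound h.A t root_cell ht
  intro s x y hs hx hy w ω κ hw hω hκ
  have k := root_point H hs hx hy
  subst hw hω hκ
  exact k

theorem certB_of (h : Sound) : Cand.CertB := by
  obtain ⟨t, ht⟩ := allB
  have H := run_sound h.B t root_cell ht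
  intro s x y hs hx hy w ω κ hw hω hκ
  have k := root_point H hs hx hy
  subst hw hω hκ
  exact k

end DT.TM

end

section

/-!
# G10a: general position
-/

open Set

namespace DT

/-- `cr = 0` means collinear -/
theorem collinear_of_cr {a b c : Plane} (hab : a ≠ b) (h : cr (eC a) (eC b) (eC c) = 0) :
    Collinear ℝ ({a, b, c} : Set Plane) := by
  have hne : eC b - eC a ≠ 0 := by
    rw [sub_ne_zero]
    intro h1
    exact hab (eC.injective h1).symm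
  -- `eC c - eC a = r (eC b - eC a)`
  obtain ⟨r, hr⟩ : ∃ r : ℝ, eC c - eC a = (r : ℂ) * (eC b - eC a) := by
    unfold cr at h
    by_cases hre : (eC b - eC a).re = 0
    · have him : (eC b - eC a).im ≠ 0 := by
        intro h2
        exact hne (Complex.ext hre h2)
      refine ⟨(eC c - eC a).im / (eC b - eC a).im, ?_⟩
      apply Complex.ext
      · rw [Complex.re_ofReal_mul, hre, mul_zero]
        rw [hre, zero_mul, zero_sub, neg_eq_zero] at h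
        exact (mul_eq_zero.1 h).resolve_left him
      · rw [Complex.im_ofReal_mul]
        field_simp
    · refine ⟨(eC c - eC a).re / (eC b - eC a).re, ?_⟩
      apply Complex.ext
      · rw [Complex.re_ofReal_mul]
        field_simp
      · rw [Complex.im_ofReal_mul]
        field_simp
        linarith
  have hr' : c = r • (b - a) + a := by
    apply eC.injective
    rw [map_add, map_smul, map_sub, Complex.real_smul, ← hr]
    ring
  rw [collinear_iff_of_mem (p₀ := a) (by simp)]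
  refine ⟨b - a, fun p hp => ?_⟩
  simp only [Set.mem_insert_iff, Set.mem_singleton_iff] at hp
  rcases hp with rfl | rfl | rfl
  · exact ⟨0, by simp⟩
  · exact ⟨1, by simp⟩
  · exact ⟨r, by rw [vadd_eq_add]; exact hr'⟩

theorem spanner_general {t : ℝ} (P : Pot t) (S : Finset Plane) (h : GeneralPosition S) :
    IsSpanner t S (emptyCircleGraph S) := by
  have hD := DSys.of_general (imC S) (by
    intro a ha b hb c hc hab hac hbc hcr
    rw [mem_imC] at ha hb hc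
    refine h.1 _ ha _ hb _ hc (fun h1 => hab (eC.symm.injective h1))
      (fun h1 => hac (eC.symm.injective h1)) (fun h1 => hbc (eC.symm.injective h1)) ?_
    refine collinear_of_cr (fun h1 => hab (eC.symm.injective h1)) ?_
    rw [eC.apply_symm_apply, eC.apply_symm_apply, eC.apply_symm_apply]
    exact hcr)
  refine spanner_of_reach (Adj := fun a b => a ≠ b ∧ a ∈ imC S ∧ b ∈ imC S ∧
        ∃ (o : ℂ) (r : ℝ), dist o a = r ∧ dist o b = r ∧ ∀ s ∈ imC S, r ≤ dist o s) ?_ ?_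
  · rintro a b ⟨hab, ha, hb, o, r, h1, h2, h3⟩
    refine ⟨fun h4 => hab (eC.symm.injective h4), mem_imC.1 ha, mem_imC.1 hb, eC.symm o, r, ?_,
      ?_, ?_⟩
    · rw [eC_symm_dist, dist_comm]; exact h1
    · rw [eC_symm_dist, dist_comm]; exact h2
    · intro s hs
      have h4 := h3 (eC s) (mem_imC' hs)
      have h5 : dist s (eC.symm o) = dist o (eC s) := by
        rw [← eC_dist s, eC.apply_symm_apply, dist_comm]
      rw [h5]
      exact h4
  · intro p hp q hq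
    refine walk P hD ?_ hp hq
    rintro a b ⟨hab, ha, hb, o, r, h1, h2, h3⟩
    exact ⟨hab.symm, hb, ha, o, r, h2, h1, h3⟩

end DT

end

section

/-!
# G10b: triangulations
-/

open Set

namespace DT

theorem spanner_triangulation {t : ℝ} (P : Pot t) (S : Finset Plane) (T : Finset (Finset Plane))
    (h : IsDelaunayTriangulation S T) : IsSpanner t S (triangleGraph T) := by
  have hD := DSys.of_complex (imC S) (imT T) (G10b_h1 h) (G10b_h2 h) (G10b_h3 h) (G10b_h4 h)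
  refine spanner_triangulation_of S T fun p hp q hq => walk P hD ?_ hp hq
  rintro a b ⟨hab, t', ht', ha, hb⟩
  exact ⟨hab.symm, t', ht', hb, ha⟩

end DT

end

section

/-!
# T4: products
-/

namespace DT.TM

/-- pairs of exponents whose sum has degree `≤ 3` -/
noncomputable def T4P : Finset ((ℕ × ℕ × ℕ) × (ℕ × ℕ × ℕ)) := (E ×ˢ E).filter (fun p => p.1 + p.2 ∈ E)
/-- the other pairs -/
noncomputable def T4N : Finset ((ℕ × ℕ × ℕ) × (ℕ × ℕ × ℕ)) := (E ×ˢ E).filter (fun p => ¬ p.1 + p.2 ∈ E)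

/-- coefficients of the product -/
noncomputable def T4Z (za zb : ℕ × ℕ × ℕ → ℤ) (m : ℕ × ℕ × ℕ) : ℤ :=
  ∑ p ∈ T4P with p.1 + p.2 = m, za p.1 * zb p.2

theorem T4_conv {A : Type} [CommRing A] (za zb : ℕ × ℕ × ℕ → ℤ) (w : ℕ × ℕ × ℕ → A)
    (hw : ∀ m m', w (m + m') = w m * w m') :
    (∑ m ∈ E, (za m : A) * w m) * (∑ m ∈ E, (zb m : A) * w m) =
      ∑ m ∈ E, (T4Z za zb m : A) * w m +
        ∑ p ∈ T4N, ((za p.1 : A) * zb p.2) * (w p.1 * w p.2) := by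
  have h1 : ∑ m ∈ E, (T4Z za zb m : A) * w m =
      ∑ p ∈ T4P, ((za p.1 : A) * zb p.2) * (w p.1 * w p.2) := by
    rw [← Finset.sum_fiberwise_of_maps_to (s := T4P) (t := E) (g := fun p => p.1 + p.2)
      (fun p hp => (Finset.mem_filter.1 hp).2)]
    refine Finset.sum_congr rfl fun m _ => ?_
    unfold T4Z
    rw [Int.cast_sum, Finset.sum_mul]
    refine Finset.sum_congr rfl fun p hp => ?_
    rw [← (Finset.mem_filter.1 hp).2, hw]
    push_cast
    ring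
  rw [h1, Finset.sum_mul_sum, ← Finset.sum_product']
  unfold T4P T4N
  rw [Finset.sum_filter_add_sum_filter_not]
  refine Finset.sum_congr rfl fun p _ => ?_
  ring

theorem T4_absZ (za zb : ℕ × ℕ × ℕ → ℤ) (m : ℕ × ℕ × ℕ) :
    |T4Z za zb m| ≤ (∑ m ∈ E, |za m|) * (∑ m ∈ E, |zb m|) := by
  unfold T4Z
  refine (Finset.abs_sum_le_sum_abs _ _).trans ?_
  rw [Finset.sum_mul_sum, ← Finset.sum_product']
  calc ∑ p ∈ T4P with p.1 + p.2 = m, |za p.1 * zb p.2|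
      ≤ ∑ p ∈ E ×ˢ E, |za p.1 * zb p.2| := by
        refine Finset.sum_le_sum_of_subset_of_nonneg ?_ (fun _ _ _ => abs_nonneg _)
        exact (Finset.filter_subset _ _).trans (Finset.filter_subset _ _)
    _ = _ := Finset.sum_congr rfl fun p _ => abs_mul _ _

theorem T4_memE (m : ℕ × ℕ × ℕ) : m ∈ E ↔ dg m ≤ 3 := by
  unfold E dg
  simp only [Finset.mem_filter, Finset.mem_product, Finset.mem_range]
  omega

theorem T4_memN (p : (ℕ × ℕ × ℕ) × (ℕ × ℕ × ℕ)) :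
    p ∈ T4N ↔ dg p.1 ≤ 3 ∧ dg p.2 ≤ 3 ∧ 4 ≤ dg p.1 + dg p.2 := by
  unfold T4N
  simp only [Finset.mem_filter, Finset.mem_product, T4_memE]
  have : dg (p.1 + p.2) = dg p.1 + dg p.2 := by
    simp only [dg, Prod.fst_add, Prod.snd_add]
    ring
  rw [this]
  omega

theorem T4_N : T4N = (E.filter (fun m => dg m = 3) ×ˢ (E.filter (fun m => dg m = 1) ∪
      (E.filter (fun m => dg m = 2) ∪ E.filter (fun m => dg m = 3)))) ∪
    ((E.filter (fun m => dg m = 2) ×ˢ (E.filter (fun m => dg m = 2) ∪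
      E.filter (fun m => dg m = 3))) ∪
      (E.filter (fun m => dg m = 1) ×ˢ E.filter (fun m => dg m = 3))) := by
  ext p
  rw [T4_memN]
  simp only [Finset.mem_union, Finset.mem_product, Finset.mem_filter, T4_memE]
  omega

theorem T4_Nps : ∀ p ∈ T4N, 52 ≤ ps p.1 + ps p.2 := by
  intro p hp
  rw [T4_memN] at hp
  obtain ⟨-, -, h⟩ := hp
  unfold dg at h
  unfold ps
  omega

theorem T4_disj (i j : ℕ) (hij : i ≠ j) :
    Disjoint (E.filter (fun m => dg m = i)) (E.filter (fun m => dg m = j)) := by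
  rw [Finset.disjoint_left]
  intro m h1 h2
  rw [Finset.mem_filter] at h1 h2
  omega

theorem T4_sumN (F G : ℕ × ℕ × ℕ → ℤ) : ∑ p ∈ T4N, F p.1 * G p.2 =
    (∑ m ∈ E.filter (fun m => dg m = 3), F m) * (∑ m ∈ E.filter (fun m => dg m = 1), G m +
      (∑ m ∈ E.filter (fun m => dg m = 2), G m + ∑ m ∈ E.filter (fun m => dg m = 3), G m)) +
    ((∑ m ∈ E.filter (fun m => dg m = 2), F m) * (∑ m ∈ E.filter (fun m => dg m = 2), G m +
      ∑ m ∈ E.filter (fun m => dg m = 3), G m) +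
    (∑ m ∈ E.filter (fun m => dg m = 1), F m) * ∑ m ∈ E.filter (fun m => dg m = 3), G m) := by
  have d23 := T4_disj 2 3 (by norm_num)
  have d13 := T4_disj 1 3 (by norm_num)
  have d12 := T4_disj 1 2 (by norm_num)
  rw [T4_N, Finset.sum_union, Finset.sum_union, Finset.sum_product, Finset.sum_product,
    Finset.sum_product]
  · simp only [← Finset.mul_sum, ← Finset.sum_mul]
    rw [Finset.sum_union (Finset.disjoint_union_right.2 ⟨d12, d13⟩), Finset.sum_union d23]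
  · rw [Finset.disjoint_left]
    intro p h1 h2
    simp only [Finset.mem_union, Finset.mem_product, Finset.mem_filter] at h1 h2
    omega
  · rw [Finset.disjoint_left]
    intro p h1 h2
    simp only [Finset.mem_union, Finset.mem_product, Finset.mem_filter] at h1 h2
    omega

theorem T4_mon {u : ℝ × ℝ × ℝ} (hu : u ∈ Cube) (m : ℕ × ℕ × ℕ) : |mon u m| ≤ 1 := by
  obtain ⟨h1, h2, h3⟩ := hu
  unfold mon
  rw [abs_mul, abs_mul, abs_pow, abs_pow, abs_pow]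
  have g1 := pow_le_one₀ (n := m.1) (abs_nonneg _) h1
  have g2 := pow_le_one₀ (n := m.2.1) (abs_nonneg _) h2
  have g3 := pow_le_one₀ (n := m.2.2) (abs_nonneg _) h3
  calc _ ≤ (1 : ℝ) * 1 * 1 := by gcongr
    _ = 1 := by norm_num

theorem T4_ev {u : ℝ × ℝ × ℝ} (hu : u ∈ Cube) (z : ℕ × ℕ × ℕ → ℤ) :
    |ev z u| ≤ ((∑ m ∈ E, |z m| : ℤ) : ℝ) := by
  unfold ev
  refine (Finset.abs_sum_le_sum_abs _ _).trans ?_
  rw [Int.cast_sum]
  refine Finset.sum_le_sum fun m _ => ?_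
  rw [abs_mul, Int.cast_abs]
  exact mul_le_of_le_one_right (abs_nonneg _) (T4_mon hu m)

theorem T4_pk (z : ℕ × ℕ × ℕ → ℤ) : pk z = ∑ m ∈ E, z m * 2 ^ (96 * ps m) + (HI : ℤ) := by
  rw [HI_eq, I_eq]
  unfold pk
  push_cast
  rw [Finset.mul_sum, ← Finset.sum_add_distrib]
  refine Finset.sum_congr rfl fun m _ => ?_
  ring

theorem T4_lt {z : ℕ × ℕ × ℕ → ℤ} (hz : ∀ m ∈ E, -2 ^ 57 ≤ z m ∧ z m < 2 ^ 57) :
    |∑ m ∈ E, z m * 2 ^ (96 * ps m)| ≤ (2 : ℤ) ^ (96 * 52) := by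
  calc |∑ m ∈ E, z m * 2 ^ (96 * ps m)| ≤ ∑ m ∈ E, |z m * 2 ^ (96 * ps m)| :=
        Finset.abs_sum_le_sum_abs _ _
    _ ≤ ∑ m ∈ E, (2 : ℤ) ^ 57 * 2 ^ (96 * ps m) := by
        refine Finset.sum_le_sum fun m hm => ?_
        rw [abs_mul, abs_of_nonneg (by positivity : (0 : ℤ) ≤ 2 ^ (96 * ps m))]
        refine mul_le_mul_of_nonneg_right ?_ (by positivity)
        rw [abs_le]
        exact ⟨(hz m hm).1, (hz m hm).2.le⟩
    _ = (HI : ℤ) := by
        rw [HI_eq, I_eq]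
        push_cast
        rw [Finset.mul_sum]
    _ ≤ _ := by
        have : HI ≤ 2 ^ (96 * 52) := by decide +kernel
        exact_mod_cast this

theorem T4_int {A B off W : ℤ} (hW : 0 ≤ W) (hA : |A| ≤ W) (hB : |B| ≤ W) (hoff : 0 ≤ off)
    {aN bN c1 hi : ℕ} (hNa : (aN : ℤ) = A + hi) (hNb : (bN : ℤ) = B + hi)
    (hc : (c1 : ℤ) = (hi : ℤ) ^ 2 + off + W * W) :
    ((Nat.sub (Nat.add (Nat.mul aN bN) c1) (Nat.mul hi (Nat.add aN bN)) : ℕ) : ℤ) =
      A * B + off + W * W := by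
  show ((aN * bN + c1 - hi * (aN + bN) : ℕ) : ℤ) = A * B + off + W * W
  have h2 : |A * B| ≤ W * W := by
    rw [abs_mul]
    exact mul_le_mul hA hB (abs_nonneg _) hW
  have h3 := (abs_le.1 h2).1
  have e : ((aN * bN + c1 : ℕ) : ℤ) - ((hi * (aN + bN) : ℕ) : ℤ) = A * B + off + W * W := by
    push_cast
    rw [hNa, hNb, hc]
    ring
  have hnn : hi * (aN + bN) ≤ aN * bN + c1 := by
    have : ((hi * (aN + bN) : ℕ) : ℤ) ≤ ((aN * bN + c1 : ℕ) : ℤ) := by linarith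
    exact_mod_cast this
  rw [Nat.cast_sub hnn, e]

theorem T4_W : (2 : ℤ) ^ (96 * 104) = 2 ^ (96 * 52) * 2 ^ (96 * 52) := by
  rw [← pow_add]

theorem T4_C1 : (C1 : ℤ) = (HI : ℤ) ^ 2 + (OFF : ℤ) + 2 ^ (96 * 52) * 2 ^ (96 * 52) := by
  rw [← T4_W]
  have h := congrArg (fun n : ℕ => (n : ℤ)) C1_eq
  simp only [Nat.cast_add, Nat.cast_pow, Nat.cast_ofNat] at h
  exact h

theorem T4_off (Z : ℕ × ℕ × ℕ → ℤ) : ∑ m ∈ E, (Z m + 2 ^ 95) * 2 ^ (96 * ps m) =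
    ∑ m ∈ E, Z m * 2 ^ (96 * ps m) + (OFF : ℤ) := by
  rw [OFF_eq, I_eq]
  push_cast
  rw [Finset.mul_sum, ← Finset.sum_add_distrib]
  refine Finset.sum_congr rfl fun m _ => ?_
  ring

theorem T4_high (za zb : ℕ × ℕ × ℕ → ℤ) : ∑ p ∈ T4N, (za p.1 * zb p.2) *
    (2 ^ (96 * ps p.1) * 2 ^ (96 * ps p.2)) = (2 : ℤ) ^ (96 * 52) *
      ∑ p ∈ T4N, (za p.1 * zb p.2) * 2 ^ (96 * (ps p.1 + ps p.2 - 52)) := by
  rw [Finset.mul_sum]
  refine Finset.sum_congr rfl fun p hp => ?_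
  have h1 := T4_Nps p hp
  have h2 : (2 : ℤ) ^ (96 * ps p.1) * 2 ^ (96 * ps p.2) =
      2 ^ (96 * 52) * 2 ^ (96 * (ps p.1 + ps p.2 - 52)) := by
    rw [← pow_add, ← pow_add]
    congr 1
    omega
  rw [h2]
  generalize (2 : ℤ) ^ (96 * 52) = W
  ring

theorem T4_convZ (za zb : ℕ × ℕ × ℕ → ℤ) :
    (∑ m ∈ E, za m * 2 ^ (96 * ps m)) * (∑ m ∈ E, zb m * 2 ^ (96 * ps m)) =
      ∑ m ∈ E, T4Z za zb m * 2 ^ (96 * ps m) + (2 : ℤ) ^ (96 * 52) *
      ∑ p ∈ T4N, (za p.1 * zb p.2) * 2 ^ (96 * (ps p.1 + ps p.2 - 52)) := by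
  have hconv := T4_conv (A := ℤ) za zb (fun m => 2 ^ (96 * ps m)) (fun m m' => by
    rw [← pow_add]
    congr 1
    simp only [ps, Prod.fst_add, Prod.snd_add]
    ring)
  simp only [Int.cast_id] at hconv
  rw [hconv, T4_high]

theorem T4_real (za zb : ℕ × ℕ × ℕ → ℤ) (an1 an2 an3 ant ae bn1 bn2 bn3 bnt be : ℕ)
    (ha1 : (∑ m ∈ E.filter (fun m => dg m = 1), |za m|) ≤ (an1 : ℤ))
    (ha2 : (∑ m ∈ E.filter (fun m => dg m = 2), |za m|) ≤ (an2 : ℤ))
    (ha3 : (∑ m ∈ E.filter (fun m => dg m = 3), |za m|) ≤ (an3 : ℤ))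
    (hat : (∑ m ∈ E, |za m|) ≤ (ant : ℤ))
    (hb1 : (∑ m ∈ E.filter (fun m => dg m = 1), |zb m|) ≤ (bn1 : ℤ))
    (hb2 : (∑ m ∈ E.filter (fun m => dg m = 2), |zb m|) ≤ (bn2 : ℤ))
    (hb3 : (∑ m ∈ E.filter (fun m => dg m = 3), |zb m|) ≤ (bn3 : ℤ))
    (hbt : (∑ m ∈ E, |zb m|) ≤ (bnt : ℤ)) (u : ℝ × ℝ × ℝ) (hu : u ∈ Cube) (x y : ℝ)
    (k6 : |x * 2 ^ 38 - ev za u| ≤ (ae : ℝ)) (k7 : |y * 2 ^ 38 - ev zb u| ≤ (be : ℝ)) :
    |x * y * 2 ^ 76 - ev (T4Z za zb) u| ≤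
      ((Nat.add (Nat.add (Nat.add (Nat.mul an3 (Nat.add bn1 (Nat.add bn2 bn3)))
        (Nat.mul an2 (Nat.add bn2 bn3))) (Nat.mul an1 bn3))
        (Nat.add (Nat.mul ant be) (Nat.mul (Nat.add bnt be) ae)) : ℕ) : ℝ) := by
  show _ ≤ (((an3 * (bn1 + (bn2 + bn3)) + an2 * (bn2 + bn3) + an1 * bn3) +
      (ant * be + (bnt + be) * ae) : ℕ) : ℝ)
  have hconvR := T4_conv (A := ℝ) za zb (mon u) (fun m m' => by
    simp only [mon, Prod.fst_add, Prod.snd_add, pow_add]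
    ring)
  have hEa : ∑ m ∈ E, (za m : ℝ) * mon u m = ev za u := rfl
  have hEb : ∑ m ∈ E, (zb m : ℝ) * mon u m = ev zb u := rfl
  have hEZ : ∑ m ∈ E, (T4Z za zb m : ℝ) * mon u m = ev (T4Z za zb) u := rfl
  rw [hEa, hEb, hEZ] at hconvR
  have k1 : |∑ p ∈ T4N, ((za p.1 : ℝ) * zb p.2) * (mon u p.1 * mon u p.2)| ≤
      ((∑ p ∈ T4N, |za p.1| * |zb p.2| : ℤ) : ℝ) := by
    refine (Finset.abs_sum_le_sum_abs _ _).trans ?_
    rw [Int.cast_sum]
    refine Finset.sum_le_sum fun p _ => ?_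
    rw [abs_mul, abs_mul]
    push_cast
    refine mul_le_of_le_one_right (by positivity) ?_
    rw [abs_mul]
    exact mul_le_one₀ (T4_mon hu _) (abs_nonneg _) (T4_mon hu _)
  have k2 : (∑ p ∈ T4N, |za p.1| * |zb p.2| : ℤ) ≤
      ((an3 * (bn1 + (bn2 + bn3)) + an2 * (bn2 + bn3) + an1 * bn3 : ℕ) : ℤ) := by
    rw [T4_sumN (fun m => |za m|) (fun m => |zb m|)]
    push_cast
    have s1 : (0 : ℤ) ≤ ∑ m ∈ E.filter (fun m => dg m = 1), |zb m| :=
      Finset.sum_nonneg fun _ _ => abs_nonneg _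
    have s2 : (0 : ℤ) ≤ ∑ m ∈ E.filter (fun m => dg m = 2), |zb m| :=
      Finset.sum_nonneg fun _ _ => abs_nonneg _
    have s3 : (0 : ℤ) ≤ ∑ m ∈ E.filter (fun m => dg m = 3), |zb m| :=
      Finset.sum_nonneg fun _ _ => abs_nonneg _
    have r1 := mul_le_mul ha3 (add_le_add hb1 (add_le_add hb2 hb3)) (by positivity)
      (Int.natCast_nonneg _)
    have r2 := mul_le_mul ha2 (add_le_add hb2 hb3) (by positivity) (Int.natCast_nonneg _)
    have r3 := mul_le_mul ha1 hb3 (by positivity) (Int.natCast_nonneg _)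
    linarith
  have k3 : |∑ p ∈ T4N, ((za p.1 : ℝ) * zb p.2) * (mon u p.1 * mon u p.2)| ≤
      ((an3 * (bn1 + (bn2 + bn3)) + an2 * (bn2 + bn3) + an1 * bn3 : ℕ) : ℝ) := by
    refine k1.trans ?_
    exact_mod_cast k2
  have k4 : |ev za u| ≤ (ant : ℝ) := (T4_ev hu za).trans (by exact_mod_cast hat)
  have k5 : |ev zb u| ≤ (bnt : ℝ) := (T4_ev hu zb).trans (by exact_mod_cast hbt)
  have e1 : x * y * 2 ^ 76 - ev (T4Z za zb) u =
      (ev za u * (y * 2 ^ 38 - ev zb u) + (y * 2 ^ 38) * (x * 2 ^ 38 - ev za u)) +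
      ∑ p ∈ T4N, ((za p.1 : ℝ) * zb p.2) * (mon u p.1 * mon u p.2) := by
    linear_combination hconvR
  have k8 : |y * 2 ^ 38| ≤ (bnt : ℝ) + be := by
    have e2 : y * 2 ^ 38 = ev zb u + (y * 2 ^ 38 - ev zb u) := by ring
    rw [e2]
    exact (abs_add_le _ _).trans (add_le_add k5 k7)
  have k9 : |ev za u * (y * 2 ^ 38 - ev zb u)| ≤ (ant : ℝ) * be := by
    rw [abs_mul]
    exact mul_le_mul k4 k7 (abs_nonneg _) (Nat.cast_nonneg _)
  have k10 : |(y * 2 ^ 38) * (x * 2 ^ 38 - ev za u)| ≤ ((bnt : ℝ) + be) * ae := by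
    rw [abs_mul]
    exact mul_le_mul k8 k6 (abs_nonneg _) (by positivity)
  rw [e1]
  refine (abs_add_le _ _).trans ?_
  have k11 := (abs_add_le (ev za u * (y * 2 ^ 38 - ev zb u))
    ((y * 2 ^ 38) * (x * 2 ^ 38 - ev za u))).trans (add_le_add k9 k10)
  push_cast
  push_cast at k3
  linarith

theorem mul_sound {a b : T} {fa fb : ℝ × ℝ × ℝ → ℝ} {k : T → Bool} (ha : Enc a fa) (hb : Enc b fb)
    (h : mul a b k = true) : ∃ t, Enc t (fun u => fa u * fb u) ∧ k t = true := by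
  obtain ⟨za, hza, hNa, ha1, ha2, ha3, hat, hfa⟩ := ha
  obtain ⟨zb, hzb, hNb, hb1, hb2, hb3, hbt, hfb⟩ := hb
  unfold mul at h
  cases hc : Nat.blt (Nat.mul a.nt b.nt) P95
  · rw [hc] at h
    exact absurd h (by simp)
  rw [hc, cond_true] at h
  have hc' : a.nt * b.nt < P95 := Nat.le_of_ble_eq_true hc
  have hP : P95 = 2 ^ 95 := by decide +kernel
  rw [hP] at hc'
  rw [T4_pk] at hNa hNb
  have hA2 := T4_lt hza
  have hB2 := T4_lt hzb
  refine fin_sound (T4Z za zb)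
    (∑ p ∈ T4N, (za p.1 * zb p.2) * 2 ^ (96 * (ps p.1 + ps p.2 - 52)) + 2 ^ (96 * 52)) ?_ ?_ ?_ h
  · intro m _
    refine (T4_absZ za zb m).trans_lt ?_
    have h1 : (∑ m ∈ E, |za m|) * (∑ m ∈ E, |zb m|) ≤ (a.nt : ℤ) * b.nt :=
      mul_le_mul hat hbt (Finset.sum_nonneg fun _ _ => abs_nonneg _) (Int.natCast_nonneg _)
    have h2 : (a.nt : ℤ) * b.nt < 2 ^ 95 := by exact_mod_cast hc'
    exact h1.trans_lt h2
  · rw [T4_int (pow_nonneg (by norm_num) _) hA2 hB2 (Int.natCast_nonneg OFF) hNa hNb T4_C1,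
      T4_convZ, T4_off]
    generalize (2 : ℤ) ^ (96 * 52) = W
    ring
  · intro u hu
    exact T4_real za zb _ _ _ _ _ _ _ _ _ _ ha1 ha2 ha3 hat hb1 hb2 hb3 hbt u hu _ _ (hfa u hu)
      (hfb u hu)

end DT.TM

end

section

/-!
# Taylor models: sums, differences, multiples (item T5, helper61)
-/

set_option autoImplicit false

namespace DT.TM

open Finset

theorem T5_HIn : HI = ∑ m ∈ E, 2 ^ 57 * 2 ^ (96 * ps m) := by decide +kernel

theorem T5_OFFn : OFF = ∑ m ∈ E, 2 ^ 95 * 2 ^ (96 * ps m) := by decide +kernel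

theorem T5_HI : (HI : ℤ) = ∑ m ∈ E, (2 : ℤ) ^ 57 * 2 ^ (96 * ps m) := by
  rw [T5_HIn]; push_cast; rfl

theorem T5_OFF : (OFF : ℤ) = ∑ m ∈ E, (2 : ℤ) ^ 95 * 2 ^ (96 * ps m) := by
  rw [T5_OFFn]; push_cast; rfl

theorem T5_mem0 : ((0, 0, 0) : ℕ × ℕ × ℕ) ∈ E := by decide

theorem T5_mon0 (u : ℝ × ℝ × ℝ) : mon u (0, 0, 0) = 1 := by simp [mon]

theorem T5_mon {u : ℝ × ℝ × ℝ} (hu : u ∈ Cube) (m : ℕ × ℕ × ℕ) : |mon u m| ≤ 1 := by
  obtain ⟨h1, h2, h3⟩ := hu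
  unfold mon
  rw [abs_mul, abs_mul, abs_pow, abs_pow, abs_pow]
  exact mul_le_one₀ (mul_le_one₀ (pow_le_one₀ (abs_nonneg _) h1) (by positivity)
    (pow_le_one₀ (abs_nonneg _) h2)) (by positivity) (pow_le_one₀ (abs_nonneg _) h3)

theorem T5_ev {u : ℝ × ℝ × ℝ} (hu : u ∈ Cube) (z : ℕ × ℕ × ℕ → ℤ) {n : ℕ}
    (h : (∑ m ∈ E, |z m|) ≤ (n : ℤ)) : |ev z u| ≤ (n : ℝ) := by
  unfold ev
  calc |∑ m ∈ E, (z m : ℝ) * mon u m| ≤ ∑ m ∈ E, |(z m : ℝ) * mon u m| := abs_sum_le_sum_abs _ _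
    _ ≤ ∑ m ∈ E, |(z m : ℝ)| := by
      apply sum_le_sum
      intro m _
      rw [abs_mul]
      exact mul_le_of_le_one_right (abs_nonneg _) (T5_mon hu m)
    _ = ((∑ m ∈ E, |z m| : ℤ) : ℝ) := by push_cast; rfl
    _ ≤ (n : ℝ) := by exact_mod_cast h

/-- packed number minus the offsets -/
theorem T5_pk (z : ℕ × ℕ × ℕ → ℤ) : pk z - HI = ∑ m ∈ E, z m * 2 ^ (96 * ps m) := by
  unfold pk
  rw [T5_HI, ← sum_sub_distrib]
  exact sum_congr rfl fun m _ => by ring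

theorem T5_pk0 {z : ℕ × ℕ × ℕ → ℤ} (hz : ∀ m ∈ E, -2 ^ 57 ≤ z m ∧ z m < 2 ^ 57) : 0 ≤ pk z := by
  unfold pk
  exact sum_nonneg fun m hm => mul_nonneg (by linarith [(hz m hm).1]) (by positivity)

theorem T5_rng {z : ℕ × ℕ × ℕ → ℤ} {n : ℕ} (hn : n < H) (h : (∑ m ∈ E, |z m|) ≤ (n : ℤ)) :
    ∀ m ∈ E, -2 ^ 57 ≤ z m ∧ z m < 2 ^ 57 := by
  intro m hm
  have h1 : |z m| ≤ ∑ m ∈ E, |z m| := single_le_sum (f := fun m => |z m|)
    (fun i _ => abs_nonneg _) hm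
  have h2 : (n : ℤ) < 2 ^ 57 := by
    have : (n : ℤ) < (H : ℤ) := by exact_mod_cast hn
    have h3 : (H : ℤ) = 2 ^ 57 := by norm_num [H]
    rwa [h3] at this
  have h3 := abs_le.1 (le_trans h1 h)
  constructor <;> linarith [h3.1, h3.2]

theorem T5_natSub {x y : ℕ} {V : ℤ} (h : (x : ℤ) - y = V) (hV : 0 ≤ V) :
    ((Nat.sub x y : ℕ) : ℤ) = V := by
  have h1 : y ≤ x := by
    have : (y : ℤ) ≤ x := by linarith
    exact_mod_cast this
  have h2 : Nat.sub x y = x - y := rfl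
  rw [h2, Nat.cast_sub h1, h]

theorem T5_bif {b : Bool} {x : Bool} (h : (bif b then x else false) = true) :
    b = true ∧ x = true := by
  cases b <;> simp_all

theorem T5_blt {x y : ℕ} (h : Nat.blt x y = true) : x < y := by
  simpa [Nat.blt_eq] using h

theorem T5_sumAbs (za zb z : ℕ × ℕ × ℕ → ℤ) (h : ∀ m, |z m| ≤ |za m| + |zb m|)
    {s : Finset (ℕ × ℕ × ℕ)} {x y : ℤ} (ha : (∑ m ∈ s, |za m|) ≤ x)
    (hb : (∑ m ∈ s, |zb m|) ≤ y) : (∑ m ∈ s, |z m|) ≤ x + y := by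
  calc ∑ m ∈ s, |z m| ≤ ∑ m ∈ s, (|za m| + |zb m|) := sum_le_sum fun m _ => h m
    _ = (∑ m ∈ s, |za m|) + ∑ m ∈ s, |zb m| := sum_add_distrib
    _ ≤ x + y := add_le_add ha hb

theorem add_sound {a b : T} {fa fb : ℝ × ℝ × ℝ → ℝ} {k : T → Bool} (ha : Enc a fa) (hb : Enc b fb)
    (h : add a b k = true) : ∃ t, Enc t (fun u => fa u + fb u) ∧ k t = true := by
  obtain ⟨za, hza, hNa, -, -, -, hta, hfa⟩ := ha
  obtain ⟨zb, hzb, hNb, -, -, -, htb, hfb⟩ := hb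
  unfold add at h
  obtain ⟨hlt, h⟩ := T5_bif h
  rw [force_eq, force_eq] at h
  have hlt' := T5_blt hlt
  have hs : (∑ m ∈ E, |za m + zb m|) ≤ ((a.nt + b.nt : ℕ) : ℤ) := by
    push_cast
    exact T5_sumAbs za zb _ (fun m => abs_add_le _ _) hta htb
  have hr := T5_rng hlt' hs
  refine nrm_sound (fun m => za m + zb m) hr ?_ ?_ h
  · apply T5_natSub _ (T5_pk0 hr)
    have e1 := T5_pk za
    have e2 := T5_pk zb
    have e3 := T5_pk (fun m => za m + zb m)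
    have e4 : ∑ m ∈ E, (za m + zb m) * 2 ^ (96 * ps m) =
        (∑ m ∈ E, za m * 2 ^ (96 * ps m)) + ∑ m ∈ E, zb m * 2 ^ (96 * ps m) := by
      rw [← sum_add_distrib]; exact sum_congr rfl fun m _ => by ring
    have e5 : ((Nat.add a.N b.N : ℕ) : ℤ) = a.N + b.N := by
      change ((a.N + b.N : ℕ) : ℤ) = _
      push_cast; ring
    rw [e5, hNa, hNb]
    linarith
  · intro u hu
    have e1 : ev (fun m => za m + zb m) u = ev za u + ev zb u := by
      unfold ev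
      rw [← sum_add_distrib]; exact sum_congr rfl fun m _ => by push_cast; ring
    have e2 : ((Nat.add a.e b.e : ℕ) : ℝ) = a.e + b.e := by
      change ((a.e + b.e : ℕ) : ℝ) = _
      push_cast; ring
    rw [e1, e2]
    have e3 : (fa u + fb u) * 2 ^ 38 - (ev za u + ev zb u) =
        (fa u * 2 ^ 38 - ev za u) + (fb u * 2 ^ 38 - ev zb u) := by ring
    rw [e3]
    exact (abs_add_le _ _).trans (add_le_add (hfa u hu) (hfb u hu))

theorem sub_sound {a b : T} {fa fb : ℝ × ℝ × ℝ → ℝ} {k : T → Bool} (ha : Enc a fa) (hb : Enc b fb)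
    (h : sub a b k = true) : ∃ t, Enc t (fun u => fa u - fb u) ∧ k t = true := by
  obtain ⟨za, hza, hNa, -, -, -, hta, hfa⟩ := ha
  obtain ⟨zb, hzb, hNb, -, -, -, htb, hfb⟩ := hb
  unfold sub at h
  obtain ⟨hlt, h⟩ := T5_bif h
  rw [force_eq, force_eq] at h
  have hlt' := T5_blt hlt
  have hs : (∑ m ∈ E, |za m - zb m|) ≤ ((a.nt + b.nt : ℕ) : ℤ) := by
    push_cast
    exact T5_sumAbs za zb _ (fun m => abs_sub _ _) hta htb
  have hr := T5_rng hlt' hs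
  refine nrm_sound (fun m => za m - zb m) hr ?_ ?_ h
  · apply T5_natSub _ (T5_pk0 hr)
    have e1 := T5_pk za
    have e2 := T5_pk zb
    have e3 := T5_pk (fun m => za m - zb m)
    have e4 : ∑ m ∈ E, (za m - zb m) * 2 ^ (96 * ps m) =
        (∑ m ∈ E, za m * 2 ^ (96 * ps m)) - ∑ m ∈ E, zb m * 2 ^ (96 * ps m) := by
      rw [← sum_sub_distrib]; exact sum_congr rfl fun m _ => by ring
    have e5 : ((Nat.add a.N HI : ℕ) : ℤ) = a.N + HI := by
      change ((a.N + HI : ℕ) : ℤ) = _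
      push_cast; ring
    rw [e5, hNa, hNb]
    linarith
  · intro u hu
    have e1 : ev (fun m => za m - zb m) u = ev za u - ev zb u := by
      unfold ev
      rw [← sum_sub_distrib]; exact sum_congr rfl fun m _ => by push_cast; ring
    have e2 : ((Nat.add a.e b.e : ℕ) : ℝ) = a.e + b.e := by
      change ((a.e + b.e : ℕ) : ℝ) = _
      push_cast; ring
    rw [e1, e2]
    have e3 : (fa u - fb u) * 2 ^ 38 - (ev za u - ev zb u) =
        (fa u * 2 ^ 38 - ev za u) - (fb u * 2 ^ 38 - ev zb u) := by ring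
    rw [e3]
    exact (abs_sub _ _).trans (add_le_add (hfa u hu) (hfb u hu))

theorem smul_sound {m : ℕ} {a : T} {fa : ℝ × ℝ × ℝ → ℝ} {k : T → Bool} (ha : Enc a fa)
    (h : smul m a k = true) : ∃ t, Enc t (fun u => (m + 1) * fa u) ∧ k t = true := by
  obtain ⟨za, hza, hNa, h1, h2, h3, hta, hfa⟩ := ha
  unfold smul at h
  obtain ⟨hlt, h⟩ := T5_bif h
  rw [force_eq] at h
  have hlt' : (m + 1) * a.nt < H := T5_blt hlt
  have habs : ∀ s : Finset (ℕ × ℕ × ℕ), ∀ x : ℕ, (∑ i ∈ s, |za i|) ≤ (x : ℤ) →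
      (∑ i ∈ s, |((m : ℤ) + 1) * za i|) ≤ (((m + 1) * x : ℕ) : ℤ) := by
    intro s x hx
    have e : ∑ i ∈ s, |((m : ℤ) + 1) * za i| = ((m : ℤ) + 1) * ∑ i ∈ s, |za i| := by
      rw [mul_sum]
      refine sum_congr rfl fun i _ => ?_
      rw [abs_mul, abs_of_nonneg (by positivity : (0 : ℤ) ≤ (m : ℤ) + 1)]
    rw [e]
    push_cast
    exact mul_le_mul_of_nonneg_left hx (by positivity)
  have hr := T5_rng hlt' (habs E a.nt hta)
  refine ⟨_, ⟨fun i => ((m : ℤ) + 1) * za i, hr, ?_, ?_, ?_, ?_, ?_, ?_⟩, h⟩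
  · apply T5_natSub _ (T5_pk0 hr)
    have e1 := T5_pk za
    have e3 := T5_pk (fun i => ((m : ℤ) + 1) * za i)
    have e4 : ∑ i ∈ E, (((m : ℤ) + 1) * za i) * 2 ^ (96 * ps i) =
        ((m : ℤ) + 1) * ∑ i ∈ E, za i * 2 ^ (96 * ps i) := by
      rw [mul_sum]; exact sum_congr rfl fun i _ => by ring
    have e5 : ((Nat.mul (Nat.succ m) a.N : ℕ) : ℤ) = (m + 1) * a.N := by
      change (((m + 1) * a.N : ℕ) : ℤ) = _
      push_cast; ring
    have e6 : ((Nat.mul m HI : ℕ) : ℤ) = m * HI := by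
      change ((m * HI : ℕ) : ℤ) = _
      push_cast; ring
    rw [e5, e6, hNa]
    rw [e4, ← e1] at e3
    linarith
  · exact habs _ _ h1
  · exact habs _ _ h2
  · exact habs _ _ h3
  · exact habs _ _ hta
  · intro u hu
    have e1 : ev (fun i => ((m : ℤ) + 1) * za i) u = (m + 1) * ev za u := by
      unfold ev
      rw [mul_sum]; exact sum_congr rfl fun i _ => by push_cast; ring
    have e2 : ((Nat.mul (Nat.succ m) a.e : ℕ) : ℝ) = (m + 1) * a.e := by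
      change (((m + 1) * a.e : ℕ) : ℝ) = _
      push_cast; ring
    rw [e1]
    change _ ≤ ((Nat.mul (Nat.succ m) a.e : ℕ) : ℝ)
    rw [e2]
    have e3 : (m + 1) * fa u * 2 ^ 38 - (m + 1) * ev za u =
        (m + 1) * (fa u * 2 ^ 38 - ev za u) := by ring
    rw [e3, abs_mul, abs_of_nonneg (by positivity : (0 : ℝ) ≤ (m : ℝ) + 1)]
    exact mul_le_mul_of_nonneg_left (hfa u hu) (by positivity)

theorem cmul_sound {c : ℕ} {γ : ℝ} (hγ : |γ * 2 ^ 38 - c| ≤ 1) {a : T} {fa : ℝ × ℝ × ℝ → ℝ}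
    {k : T → Bool} (ha : Enc a fa) (h : cmul c a k = true) :
    ∃ t, Enc t (fun u => γ * fa u) ∧ k t = true := by
  obtain ⟨za, hza, hNa, -, -, -, hta, hfa⟩ := ha
  unfold cmul at h
  obtain ⟨hlt, h⟩ := T5_bif h
  have hlt' : (c + 1) * (a.nt + a.e) < P95 := T5_blt hlt
  have hP : (P95 : ℤ) = 2 ^ 95 := by norm_num [P95]
  have hZ : ∀ m ∈ E, |(c : ℤ) * za m| < 2 ^ 95 := by
    intro m hm
    have h1 : |za m| ≤ ∑ m ∈ E, |za m| := single_le_sum (f := fun m => |za m|)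
      (fun i _ => abs_nonneg _) hm
    have h2 : |za m| ≤ (a.nt : ℤ) := h1.trans hta
    have h3 : (((c + 1) * (a.nt + a.e) : ℕ) : ℤ) < (P95 : ℤ) := by exact_mod_cast hlt'
    rw [hP] at h3
    push_cast at h3
    rw [abs_mul, abs_of_nonneg (by positivity : (0 : ℤ) ≤ (c : ℤ))]
    have h4 : (c : ℤ) * |za m| ≤ c * a.nt := mul_le_mul_of_nonneg_left h2 (by positivity)
    have h5 : (0 : ℤ) ≤ (c : ℤ) * a.e := by positivity
    have h6 : (0 : ℤ) ≤ (a.nt : ℤ) := by positivity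
    have h7 : (0 : ℤ) ≤ (a.e : ℤ) := by positivity
    nlinarith
  refine fin_sound (fun m => (c : ℤ) * za m) 0 hZ ?_ ?_ h
  · rw [mul_zero, add_zero]
    apply T5_natSub
    · have e1 := T5_pk za
      have e4 : ∑ i ∈ E, ((c : ℤ) * za i + 2 ^ 95) * 2 ^ (96 * ps i) =
          (c : ℤ) * (∑ i ∈ E, za i * 2 ^ (96 * ps i)) + OFF := by
        rw [T5_OFF, mul_sum, ← sum_add_distrib]; exact sum_congr rfl fun i _ => by ring
      have e5 : ((Nat.add OFF (Nat.mul c a.N) : ℕ) : ℤ) = OFF + c * a.N := by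
        change ((OFF + c * a.N : ℕ) : ℤ) = _
        push_cast; ring
      have e6 : ((Nat.mul c HI : ℕ) : ℤ) = c * HI := by
        change ((c * HI : ℕ) : ℤ) = _
        push_cast; ring
      rw [e5, e6, hNa, e4, ← e1]
      ring
    · exact sum_nonneg fun m hm => mul_nonneg (by linarith [(abs_lt.1 (hZ m hm)).1]) (by positivity)
  · intro u hu
    have e1 : ev (fun i => (c : ℤ) * za i) u = c * ev za u := by
      unfold ev
      rw [mul_sum]; exact sum_congr rfl fun i _ => by push_cast; ring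
    have e2 : ((Nat.add (Nat.mul (Nat.succ c) a.e) a.nt : ℕ) : ℝ) = (c + 1) * a.e + a.nt := by
      change (((c + 1) * a.e + a.nt : ℕ) : ℝ) = _
      push_cast; ring
    rw [e1, e2]
    have e3 : γ * fa u * 2 ^ 76 - c * ev za u = (γ * 2 ^ 38) * (fa u * 2 ^ 38 - ev za u) +
        (γ * 2 ^ 38 - c) * ev za u := by ring
    rw [e3]
    have h5 : |γ * 2 ^ 38| ≤ (c : ℝ) + 1 := by
      have := abs_sub_abs_le_abs_sub (γ * 2 ^ 38) (c : ℝ)
      have h6 : |(c : ℝ)| = c := abs_of_nonneg (by positivity)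
      rw [h6] at this
      linarith
    have h7 := T5_ev hu za hta
    calc |(γ * 2 ^ 38) * (fa u * 2 ^ 38 - ev za u) + (γ * 2 ^ 38 - c) * ev za u| ≤
        |(γ * 2 ^ 38) * (fa u * 2 ^ 38 - ev za u)| + |(γ * 2 ^ 38 - c) * ev za u| :=
          abs_add_le _ _
      _ = |γ * 2 ^ 38| * |fa u * 2 ^ 38 - ev za u| + |γ * 2 ^ 38 - c| * |ev za u| := by
          rw [abs_mul, abs_mul (γ * 2 ^ 38 - c)]
      _ ≤ (c + 1) * a.e + 1 * a.nt := by
          have := hfa u hu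
          gcongr
      _ = (c + 1) * a.e + a.nt := by ring

theorem addc_sound {c : ℕ} {a : T} {fa : ℝ × ℝ × ℝ → ℝ} {k : T → Bool} (ha : Enc a fa)
    (h : addc c a k = true) :
    ∃ t, Enc t (fun u => fa u + ((c : ℝ) - 2 ^ 60) / 2 ^ 38) ∧ k t = true := by
  obtain ⟨za, hza, hNa, h1, h2, h3, hta, hfa⟩ := ha
  unfold addc at h
  rw [force_eq] at h
  obtain ⟨hlt, h⟩ := T5_bif h
  rw [force_eq] at h
  have hO : (O : ℤ) = 2 ^ 60 := by norm_num [O]
  have hm : ((Nat.add (Nat.sub c O) (Nat.sub O c) : ℕ) : ℤ) = |(c : ℤ) - 2 ^ 60| := by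
    change ((c - O + (O - c) : ℕ) : ℤ) = _
    rw [← hO]
    rcases le_total c O with hc | hc
    · rw [Nat.sub_eq_zero_of_le hc, zero_add, Nat.cast_sub hc, abs_of_nonpos (by
        have : (c : ℤ) ≤ O := by exact_mod_cast hc
        linarith)]
      ring
    · rw [Nat.sub_eq_zero_of_le hc, add_zero, Nat.cast_sub hc, abs_of_nonneg (by
        have : (O : ℤ) ≤ c := by exact_mod_cast hc
        linarith)]
  set m : ℕ := Nat.add (Nat.sub c O) (Nat.sub O c) with hmdef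
  have hlt' : a.nt + m < H := T5_blt hlt
  set d : ℕ × ℕ × ℕ → ℤ := fun i => if i = (0, 0, 0) then (c : ℤ) - 2 ^ 60 else 0 with hd
  have hdE : ∑ i ∈ E, |d i| = |(c : ℤ) - 2 ^ 60| := by
    rw [sum_eq_single_of_mem (0, 0, 0) T5_mem0]
    · simp [hd]
    · intro i _ hi
      simp [hd, hi]
  have hdk : ∀ j : ℕ, j ≠ 0 → ∑ i ∈ E.filter (fun i => dg i = j), |d i| = 0 := by
    intro j hj
    apply sum_eq_zero
    intro i hi
    have : i ≠ (0, 0, 0) := by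
      rintro rfl
      exact hj (mem_filter.1 hi).2.symm
    simp [hd, this]
  have hs : (∑ i ∈ E, |za i + d i|) ≤ ((a.nt + m : ℕ) : ℤ) := by
    push_cast
    exact T5_sumAbs za d _ (fun m => abs_add_le _ _) hta (by rw [hdE, hm])
  have hsk : ∀ j : ℕ, j ≠ 0 → ∀ x : ℤ, (∑ i ∈ E.filter (fun i => dg i = j), |za i|) ≤ x →
      (∑ i ∈ E.filter (fun i => dg i = j), |za i + d i|) ≤ x := by
    intro j hj x hx
    have := T5_sumAbs za d (fun i => za i + d i) (fun m => abs_add_le _ _) hx (hdk j hj).le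
    simpa using this
  have hr := T5_rng hlt' hs
  refine ⟨⟨Nat.sub (Nat.add a.N c) O, a.e, a.n1, a.n2, a.n3, Nat.add a.nt m⟩,
    ⟨fun i => za i + d i, hr, ?_, hsk 1 one_ne_zero _ h1, hsk 2 two_ne_zero _ h2,
    hsk 3 three_ne_zero _ h3, hs, ?_⟩, h⟩
  · apply T5_natSub _ (T5_pk0 hr)
    have e1 := T5_pk za
    have e3 := T5_pk (fun i => za i + d i)
    have e4 : ∑ i ∈ E, (za i + d i) * 2 ^ (96 * ps i) =
        (∑ i ∈ E, za i * 2 ^ (96 * ps i)) + ((c : ℤ) - 2 ^ 60) := by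
      have e6 : ∑ i ∈ E, d i * 2 ^ (96 * ps i) = (c : ℤ) - 2 ^ 60 := by
        rw [sum_eq_single_of_mem (0, 0, 0) T5_mem0]
        · simp [hd, ps]
        · intro i _ hi
          simp [hd, hi]
      rw [← e6, ← sum_add_distrib]; exact sum_congr rfl fun i _ => by ring
    have e5 : ((Nat.add a.N c : ℕ) : ℤ) = a.N + c := by
      change ((a.N + c : ℕ) : ℤ) = _
      push_cast; ring
    rw [e5, hO, hNa]
    linarith
  · intro u hu
    have e1 : ev (fun i => za i + d i) u = ev za u + ((c : ℝ) - 2 ^ 60) := by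
      unfold ev
      have e6 : ∑ i ∈ E, (d i : ℝ) * mon u i = (c : ℝ) - 2 ^ 60 := by
        rw [sum_eq_single_of_mem (0, 0, 0) T5_mem0]
        · rw [T5_mon0, mul_one]
          simp only [hd, if_true]
          push_cast
          ring
        · intro i _ hi
          simp [hd, hi]
      rw [← e6, ← sum_add_distrib]; exact sum_congr rfl fun i _ => by push_cast; ring
    rw [e1]
    have e3 : (fa u + ((c : ℝ) - 2 ^ 60) / 2 ^ 38) * 2 ^ 38 - (ev za u + ((c : ℝ) - 2 ^ 60)) =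
        fa u * 2 ^ 38 - ev za u := by ring
    rw [e3]
    exact hfa u hu

end DT.TM

end

section

/-!
# Taylor models: sine and cosine (T7b), given the product and the table
-/

set_option maxRecDepth 20000

open Real

namespace DT.TM

/-! ### auxiliary facts -/

theorem SC_J : ((I : ℕ) : ℤ) = ∑ m ∈ E, (2 : ℤ) ^ (96 * ps m) := by decide +kernel
theorem SC_HI : HI = 2 ^ 57 * I := by decide +kernel
theorem SC_OFF : OFF = 2 ^ 95 * I := by decide +kernel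

theorem SC_mon_le {u : ℝ × ℝ × ℝ} (hu : u ∈ Cube) (m : ℕ × ℕ × ℕ) : |mon u m| ≤ 1 := by
  obtain ⟨h1, h2, h3⟩ := hu
  unfold mon
  rw [abs_mul, abs_mul, abs_pow, abs_pow, abs_pow]
  have a1 := pow_le_one₀ (n := m.1) (abs_nonneg _) h1
  have a2 := pow_le_one₀ (n := m.2.1) (abs_nonneg _) h2
  have a3 := pow_le_one₀ (n := m.2.2) (abs_nonneg _) h3
  have b1 : 0 ≤ |u.1| ^ m.1 := by positivity
  have b2 : 0 ≤ |u.2.1| ^ m.2.1 := by positivity
  have b3 : 0 ≤ |u.2.2| ^ m.2.2 := by positivity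
  have := mul_le_one₀ (mul_le_one₀ a1 b2 a2) b3 a3
  exact this

theorem SC_ev_le {t : T} {z : ℕ × ℕ × ℕ → ℤ} (hz : (∑ m ∈ E, |z m|) ≤ (t.nt : ℤ))
    {u : ℝ × ℝ × ℝ} (hu : u ∈ Cube) : |ev z u| ≤ (t.nt : ℝ) := by
  have h1 : |ev z u| ≤ ∑ m ∈ E, |(z m : ℝ)| := by
    unfold ev
    refine (Finset.abs_sum_le_sum_abs _ _).trans (Finset.sum_le_sum fun m _ => ?_)
    rw [abs_mul]
    exact mul_le_of_le_one_right (abs_nonneg _) (SC_mon_le hu m)
  refine h1.trans ?_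
  have : ((∑ m ∈ E, |z m| : ℤ) : ℝ) ≤ ((t.nt : ℤ) : ℝ) := by exact_mod_cast hz
  push_cast at this
  exact this

theorem SC_zero_mem : ((0, 0, 0) : ℕ × ℕ × ℕ) ∈ E := by decide

theorem SC_coef_le {t : T} {z : ℕ × ℕ × ℕ → ℤ} (hz : (∑ m ∈ E, |z m|) ≤ (t.nt : ℤ))
    {m : ℕ × ℕ × ℕ} (hm : m ∈ E) : |z m| ≤ (t.nt : ℤ) :=
  (Finset.single_le_sum (f := fun m => |z m|) (fun _ _ => abs_nonneg _) hm).trans hz

theorem SC_pk (z : ℕ × ℕ × ℕ → ℤ) :
    pk z = (∑ m ∈ E, z m * 2 ^ (96 * ps m)) + 2 ^ 57 * I := by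
  unfold pk
  rw [SC_J, Finset.mul_sum, ← Finset.sum_add_distrib]
  refine Finset.sum_congr rfl fun m _ => ?_
  ring

/-- the linear combination -/
theorem lin4_sound {k0 k1 k2 k3 : ℕ} {d d2 d3 : T} {rem : ℕ} {k : T → Bool}
    {f1 f2 f3 F : ℝ × ℝ × ℝ → ℝ} {γ0 γ1 γ2 γ3 : ℝ}
    (h1 : Enc d f1) (h2 : Enc d2 f2) (h3 : Enc d3 f3)
    (g0 : |γ0 * 2 ^ 38 - ((k0 : ℝ) - 2 ^ 39)| ≤ 2) (g1 : |γ1 * 2 ^ 38 - ((k1 : ℝ) - 2 ^ 39)| ≤ 2)
    (g2 : |γ2 * 2 ^ 38 - ((k2 : ℝ) - 2 ^ 39)| ≤ 2) (g3 : |γ3 * 2 ^ 38 - ((k3 : ℝ) - 2 ^ 39)| ≤ 2)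
    (b0 : |γ0| ≤ 1) (b1 : |γ1| ≤ 1) (b2 : |γ2| ≤ 1 / 2) (b3 : |γ3| ≤ 1 / 6)
    (hb : 2 ^ 39 * ((d.nt + (d2.nt + d3.nt)) + 2 ^ 38) < 2 ^ 95)
    (hF : ∀ u ∈ Cube, |F u - (γ0 + γ1 * f1 u + γ2 * f2 u + γ3 * f3 u)| * 2 ^ 38 ≤ (rem : ℝ))
    (h : lin4 k0 k1 k2 k3 d d2 d3 rem k = true) : ∃ t, Enc t F ∧ k t = true := by
  obtain ⟨z1, zb1, N1, -, -, -, nt1, e1⟩ := h1
  obtain ⟨z2, zb2, N2, -, -, -, nt2, e2⟩ := h2
  obtain ⟨z3, zb3, N3, -, -, -, nt3, e3⟩ := h3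
  -- the coefficients
  have hk : ∀ {γ : ℝ} {n : ℕ}, |γ * 2 ^ 38 - ((n : ℝ) - 2 ^ 39)| ≤ 2 → |γ| ≤ 1 →
      |(n : ℤ) - 2 ^ 39| ≤ 2 ^ 39 := by
    intro γ n g b
    have : |(n : ℝ) - 2 ^ 39| ≤ 2 ^ 39 := by
      rw [abs_le] at g b ⊢
      constructor <;> linarith [g.1, g.2, b.1, b.2]
    exact_mod_cast this
  have c0 := hk g0 b0
  have c1 := hk g1 b1
  have c2 := hk g2 (b2.trans (by norm_num))
  have c3 := hk g3 (b3.trans (by norm_num))
  set κ0 : ℤ := (k0 : ℤ) - 2 ^ 39 with hκ0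
  set κ1 : ℤ := (k1 : ℤ) - 2 ^ 39 with hκ1
  set κ2 : ℤ := (k2 : ℤ) - 2 ^ 39 with hκ2
  set κ3 : ℤ := (k3 : ℤ) - 2 ^ 39 with hκ3
  set Z : ℕ × ℕ × ℕ → ℤ := fun m => (if m = (0, 0, 0) then κ0 * 2 ^ 38 else 0) + κ1 * z1 m +
    κ2 * z2 m + κ3 * z3 m with hZd
  have hZ : ∀ m ∈ E, |Z m| < 2 ^ 95 := by
    intro m hm
    have w1 := SC_coef_le nt1 hm
    have w2 := SC_coef_le nt2 hm
    have w3 := SC_coef_le nt3 hm
    have v0 : |(if m = (0, 0, 0) then κ0 * 2 ^ 38 else 0 : ℤ)| ≤ 2 ^ 39 * 2 ^ 38 := by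
      split_ifs
      · rw [abs_mul]
        have : |(2 : ℤ) ^ 38| = 2 ^ 38 := by norm_num
        rw [this]
        exact mul_le_mul_of_nonneg_right c0 (by norm_num)
      · norm_num
    have v1 : |κ1 * z1 m| ≤ 2 ^ 39 * d.nt := by
      rw [abs_mul]; exact mul_le_mul c1 w1 (abs_nonneg _) (by norm_num)
    have v2 : |κ2 * z2 m| ≤ 2 ^ 39 * d2.nt := by
      rw [abs_mul]; exact mul_le_mul c2 w2 (abs_nonneg _) (by norm_num)
    have v3 : |κ3 * z3 m| ≤ 2 ^ 39 * d3.nt := by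
      rw [abs_mul]; exact mul_le_mul c3 w3 (abs_nonneg _) (by norm_num)
    have hb' : (2 : ℤ) ^ 39 * ((d.nt + (d2.nt + d3.nt)) + 2 ^ 38) < 2 ^ 95 := by exact_mod_cast hb
    simp only [hZd]
    refine lt_of_le_of_lt (abs_add_le _ _) ?_
    have t1 := abs_add_le ((if m = (0, 0, 0) then κ0 * 2 ^ 38 else 0 : ℤ) + κ1 * z1 m) (κ2 * z2 m)
    have t2 := abs_add_le (if m = (0, 0, 0) then κ0 * 2 ^ 38 else 0 : ℤ) (κ1 * z1 m)
    linarith
  have hsum : (∑ m ∈ E, (Z m + 2 ^ 95) * 2 ^ (96 * ps m)) =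
      κ0 * 2 ^ 38 + κ1 * (∑ m ∈ E, z1 m * 2 ^ (96 * ps m)) + κ2 * (∑ m ∈ E, z2 m * 2 ^ (96 * ps m)) +
        κ3 * (∑ m ∈ E, z3 m * 2 ^ (96 * ps m)) + 2 ^ 95 * I := by
    have h0 : κ0 * 2 ^ 38 = ∑ m ∈ E, (if m = (0, 0, 0) then κ0 * 2 ^ 38 else 0) * 2 ^ (96 * ps m) := by
      simp only [ite_mul, zero_mul]
      rw [Finset.sum_ite_eq' E ((0, 0, 0) : ℕ × ℕ × ℕ), if_pos SC_zero_mem]
      simp [ps]
    rw [h0, SC_J, Finset.mul_sum, Finset.mul_sum, Finset.mul_sum, Finset.mul_sum,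
      ← Finset.sum_add_distrib, ← Finset.sum_add_distrib, ← Finset.sum_add_distrib,
      ← Finset.sum_add_distrib]
    refine Finset.sum_congr rfl fun m _ => ?_
    simp only [hZd]
    ring
  unfold lin4 at h
  refine fin_sound Z 0 hZ ?_ ?_ h
  · have hpos : 0 ≤ ∑ m ∈ E, (Z m + 2 ^ 95) * 2 ^ (96 * ps m) := by
      refine Finset.sum_nonneg fun m hm => mul_nonneg ?_ (by positivity)
      have := (abs_lt.1 (hZ m hm)).1
      linarith
    rw [SC_pk] at N1 N2 N3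
    have key : ((Nat.add (Nat.add OFF (Nat.mul k0 S)) (Nat.add (Nat.mul 3 (Nat.mul O9 HI))
      (Nat.add (Nat.mul k1 d.N) (Nat.add (Nat.mul k2 d2.N) (Nat.mul k3 d3.N)))) : ℕ) : ℤ) =
      (∑ m ∈ E, (Z m + 2 ^ 95) * 2 ^ (96 * ps m)) +
      ((Nat.add (Nat.mul O9 (Nat.add S (Nat.add d.N (Nat.add d2.N d3.N))))
      (Nat.mul HI (Nat.add k1 (Nat.add k2 k3))) : ℕ) : ℤ) := by
      rw [hsum]
      simp only [Nat.add_eq, Nat.mul_eq]
      rw [SC_OFF, SC_HI]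
      have hS : S = 2 ^ 38 := by norm_num [S]
      have hO : O9 = 2 ^ 39 := by norm_num [O9]
      rw [hS, hO]
      push_cast
      rw [N1, N2, N3, hκ0, hκ1, hκ2, hκ3]
      ring
    rw [mul_zero, add_zero]
    have hle : (Nat.add (Nat.mul O9 (Nat.add S (Nat.add d.N (Nat.add d2.N d3.N))))
      (Nat.mul HI (Nat.add k1 (Nat.add k2 k3)))) ≤ (Nat.add (Nat.add OFF (Nat.mul k0 S)) (Nat.add (Nat.mul 3 (Nat.mul O9 HI))
      (Nat.add (Nat.mul k1 d.N) (Nat.add (Nat.mul k2 d2.N) (Nat.mul k3 d3.N))))) := by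
      have : ((Nat.add (Nat.mul O9 (Nat.add S (Nat.add d.N (Nat.add d2.N d3.N))))
        (Nat.mul HI (Nat.add k1 (Nat.add k2 k3))) : ℕ) : ℤ) ≤ ((Nat.add (Nat.add OFF (Nat.mul k0 S)) (Nat.add (Nat.mul 3 (Nat.mul O9 HI))
        (Nat.add (Nat.mul k1 d.N) (Nat.add (Nat.mul k2 d2.N) (Nat.mul k3 d3.N)))) : ℕ) : ℤ) := by
        rw [key]; linarith
      exact_mod_cast this
    rw [Nat.sub_eq, Nat.cast_sub hle, key]
    ring
  · intro u hu
    have hev : ev Z u = κ0 * 2 ^ 38 + κ1 * ev z1 u + κ2 * ev z2 u + κ3 * ev z3 u := by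
      have h0 : ((κ0 : ℝ) * 2 ^ 38) = ∑ m ∈ E, (if m = (0, 0, 0) then (κ0 : ℝ) * 2 ^ 38 else 0) * mon u m := by
        simp only [ite_mul, zero_mul]
        rw [Finset.sum_ite_eq' E ((0, 0, 0) : ℕ × ℕ × ℕ), if_pos SC_zero_mem]
        simp [mon]
      unfold ev
      rw [h0, Finset.mul_sum, Finset.mul_sum, Finset.mul_sum, ← Finset.sum_add_distrib,
        ← Finset.sum_add_distrib, ← Finset.sum_add_distrib]
      refine Finset.sum_congr rfl fun m _ => ?_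
      simp only [hZd]
      push_cast
      ring
    have E1 := e1 u hu
    have E2 := e2 u hu
    have E3 := e3 u hu
    have M1 := SC_ev_le nt1 hu
    have M2 := SC_ev_le nt2 hu
    have M3 := SC_ev_le nt3 hu
    have HF := hF u hu
    have r0 : (κ0 : ℝ) = (k0 : ℝ) - 2 ^ 39 := by rw [hκ0]; push_cast; ring
    have r1 : (κ1 : ℝ) = (k1 : ℝ) - 2 ^ 39 := by rw [hκ1]; push_cast; ring
    have r2 : (κ2 : ℝ) = (k2 : ℝ) - 2 ^ 39 := by rw [hκ2]; push_cast; ring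
    have r3 : (κ3 : ℝ) = (k3 : ℝ) - 2 ^ 39 := by rw [hκ3]; push_cast; ring
    rw [← r0] at g0
    rw [← r1] at g1
    rw [← r2] at g2
    rw [← r3] at g3
    have dec : F u * 2 ^ 76 - ev Z u =
        (F u - (γ0 + γ1 * f1 u + γ2 * f2 u + γ3 * f3 u)) * 2 ^ 38 * 2 ^ 38 +
        (γ0 * 2 ^ 38 - κ0) * 2 ^ 38 +
        (γ1 * 2 ^ 38 * (f1 u * 2 ^ 38 - ev z1 u) + (γ1 * 2 ^ 38 - κ1) * ev z1 u) +
        (γ2 * 2 ^ 38 * (f2 u * 2 ^ 38 - ev z2 u) + (γ2 * 2 ^ 38 - κ2) * ev z2 u) +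
        (γ3 * 2 ^ 38 * (f3 u * 2 ^ 38 - ev z3 u) + (γ3 * 2 ^ 38 - κ3) * ev z3 u) := by
      rw [hev]; ring
    have A0 : |(F u - (γ0 + γ1 * f1 u + γ2 * f2 u + γ3 * f3 u)) * 2 ^ 38 * 2 ^ 38| ≤ (rem : ℝ) * 2 ^ 38 := by
      rw [abs_mul, abs_mul, abs_of_pos (by positivity : (0 : ℝ) < 2 ^ 38)]
      exact mul_le_mul_of_nonneg_right HF (by positivity)
    have A1 : |(γ0 * 2 ^ 38 - κ0) * 2 ^ 38| ≤ 2 * 2 ^ 38 := by
      rw [abs_mul, abs_of_pos (by positivity : (0 : ℝ) < 2 ^ 38)]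
      exact mul_le_mul_of_nonneg_right g0 (by positivity)
    have A2 : |γ1 * 2 ^ 38 * (f1 u * 2 ^ 38 - ev z1 u)| ≤ 1 * 2 ^ 38 * (d.e : ℝ) := by
      rw [abs_mul, abs_mul, abs_of_pos (by positivity : (0 : ℝ) < 2 ^ 38)]
      exact mul_le_mul (mul_le_mul_of_nonneg_right b1 (by positivity)) E1 (abs_nonneg _) (by positivity)
    have A3 : |γ2 * 2 ^ 38 * (f2 u * 2 ^ 38 - ev z2 u)| ≤ 1 / 2 * 2 ^ 38 * (d2.e : ℝ) := by
      rw [abs_mul, abs_mul, abs_of_pos (by positivity : (0 : ℝ) < 2 ^ 38)]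
      exact mul_le_mul (mul_le_mul_of_nonneg_right b2 (by positivity)) E2 (abs_nonneg _) (by positivity)
    have A4 : |γ3 * 2 ^ 38 * (f3 u * 2 ^ 38 - ev z3 u)| ≤ 1 / 6 * 2 ^ 38 * (d3.e : ℝ) := by
      rw [abs_mul, abs_mul, abs_of_pos (by positivity : (0 : ℝ) < 2 ^ 38)]
      exact mul_le_mul (mul_le_mul_of_nonneg_right b3 (by positivity)) E3 (abs_nonneg _) (by positivity)
    have A5 : |(γ1 * 2 ^ 38 - κ1) * ev z1 u| ≤ 2 * (d.nt : ℝ) := by
      rw [abs_mul]; exact mul_le_mul g1 M1 (abs_nonneg _) (by norm_num)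
    have A6 : |(γ2 * 2 ^ 38 - κ2) * ev z2 u| ≤ 2 * (d2.nt : ℝ) := by
      rw [abs_mul]; exact mul_le_mul g2 M2 (abs_nonneg _) (by norm_num)
    have A7 : |(γ3 * 2 ^ 38 - κ3) * ev z3 u| ≤ 2 * (d3.nt : ℝ) := by
      rw [abs_mul]; exact mul_le_mul g3 M3 (abs_nonneg _) (by norm_num)
    have p1 : (0 : ℝ) ≤ d.e := Nat.cast_nonneg _
    have p2 : (0 : ℝ) ≤ d2.e := Nat.cast_nonneg _
    have p3 : (0 : ℝ) ≤ d3.e := Nat.cast_nonneg _
    have goal' : |F u * 2 ^ 76 - ev Z u| ≤ (((2 : ℝ) ^ 38 * (d.e : ℝ) + (137438953472 * (d2.e : ℝ) + 45812984490 * (d3.e : ℝ))) +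
        (2 * (((d.nt : ℝ) + ((d2.nt : ℝ) + (d3.nt : ℝ))) + 2 ^ 38) +
          (3 * ((d.e : ℝ) + ((d2.e : ℝ) + (d3.e : ℝ))) + (rem : ℝ) * 2 ^ 38))) := by
      rw [dec]
      rw [abs_le] at A0 A1 A2 A3 A4 A5 A6 A7 ⊢
      constructor
      · linarith [A0.1, A1.1, A2.1, A3.1, A4.1, A5.1, A6.1, A7.1]
      · linarith [A0.2, A1.2, A2.2, A3.2, A4.2, A5.2, A6.2, A7.2]
    refine goal'.trans (le_of_eq ?_)
    simp only [Nat.add_eq, Nat.mul_eq]
    have hS : S = 2 ^ 38 := by norm_num [S]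
    rw [hS]
    push_cast
    ring

/-! ### the pieces of `SC` -/

theorem SC_bif {b x : Bool} (h : (bif b then x else false) = true) : b = true ∧ x = true := by
  cases b
  · exact absurd h (by simp)
  · exact ⟨rfl, h⟩

theorem SC_div_le (x : ℕ) {y : ℕ} (hy : 0 < y) : (x : ℝ) / y ≤ (Nat.succ (Nat.div x y) : ℕ) := by
  have h : x < y * (x / y + 1) := Nat.lt_mul_div_succ x hy
  have h' : (x : ℝ) < (y : ℝ) * ((x / y + 1 : ℕ) : ℝ) := by exact_mod_cast h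
  have hy' : (0 : ℝ) < y := by exact_mod_cast hy
  rw [div_le_iff₀ hy']
  have : (Nat.succ (Nat.div x y) : ℕ) = x / y + 1 := rfl
  rw [this]
  linarith

theorem SC_rem {tt q2 rem : ℕ} {δ : ℝ} (hδ : |δ| * 2 ^ 38 ≤ (tt : ℝ))
    (hq : q2 = Nat.succ (Nat.div (Nat.mul tt tt) S))
    (hr : rem = Nat.succ (Nat.div (Nat.mul (Nat.succ (Nat.div (Nat.mul q2 q2) S)) 5) 64)) :
    |δ| ^ 4 * (5 / 64) * 2 ^ 38 ≤ (rem : ℝ) := by
  have hS : S = 2 ^ 38 := by norm_num [S]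
  have hS0 : 0 < S := by rw [hS]; norm_num
  have e1 := SC_div_le (Nat.mul tt tt) hS0
  rw [← hq] at e1
  have e2 := SC_div_le (Nat.mul q2 q2) hS0
  have e3 := SC_div_le (Nat.mul (Nat.succ (Nat.div (Nat.mul q2 q2) S)) 5) (show 0 < 64 by norm_num)
  rw [← hr] at e3
  generalize hw : Nat.succ (Nat.div (Nat.mul q2 q2) S) = w at e2 e3
  simp only [Nat.mul_eq] at e1 e2 e3
  rw [hS] at e1 e2
  push_cast at e1 e2 e3
  have hδ0 : 0 ≤ |δ| := abs_nonneg δ
  have a1 : (|δ| * 2 ^ 38) ^ 2 ≤ (tt : ℝ) * tt := by nlinarith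
  have a2 : |δ| ^ 2 * 2 ^ 38 ≤ (q2 : ℝ) := by
    refine le_trans ?_ e1
    rw [le_div_iff₀ (by positivity)]
    nlinarith
  have a3 : (|δ| ^ 2 * 2 ^ 38) ^ 2 ≤ (q2 : ℝ) * q2 := by
    have : 0 ≤ |δ| ^ 2 * 2 ^ 38 := by positivity
    nlinarith
  have a4 : |δ| ^ 4 * 2 ^ 38 ≤ (w : ℝ) := by
    refine le_trans ?_ e2
    rw [le_div_iff₀ (by positivity)]
    nlinarith
  linarith

theorem SC_split (z : ℕ × ℕ × ℕ → ℤ) :
    pk z = (z (0, 0, 0) + 2 ^ 57) +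
      2 ^ 96 * ∑ m ∈ E.erase (0, 0, 0), (z m + 2 ^ 57) * 2 ^ (96 * (ps m - 1)) := by
  unfold pk
  rw [← Finset.add_sum_erase E _ SC_zero_mem, Finset.mul_sum]
  congr 1
  · simp [ps]
  · refine Finset.sum_congr rfl fun m hm => ?_
    have h1 : ∀ m ∈ E.erase (0, 0, 0), 1 ≤ ps m := by decide
    have h2 : 96 * ps m = 96 * (ps m - 1) + 96 := by have := h1 m hm; omega
    rw [h2, pow_add]
    ring

theorem SC_upd (z : ℕ × ℕ × ℕ → ℤ) (v : ℤ) :
    pk (Function.update z (0, 0, 0) (z (0, 0, 0) + v)) = pk z + v := by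
  rw [SC_split, SC_split z, Function.update_self]
  have : ∑ m ∈ E.erase (0, 0, 0), (Function.update z (0, 0, 0) (z (0, 0, 0) + v) m + 2 ^ 57) *
      2 ^ (96 * (ps m - 1)) = ∑ m ∈ E.erase (0, 0, 0), (z m + 2 ^ 57) * 2 ^ (96 * (ps m - 1)) := by
    refine Finset.sum_congr rfl fun m hm => ?_
    rw [Function.update_of_ne (Finset.ne_of_mem_erase hm)]
  rw [this]
  ring

theorem SC_ev_upd (z : ℕ × ℕ × ℕ → ℤ) (v : ℤ) (u : ℝ × ℝ × ℝ) :
    ev (Function.update z (0, 0, 0) (z (0, 0, 0) + v)) u = ev z u + v := by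
  unfold ev
  rw [← Finset.add_sum_erase E _ SC_zero_mem, ← Finset.add_sum_erase E _ SC_zero_mem,
    Function.update_self]
  have : ∑ m ∈ E.erase (0, 0, 0), (Function.update z (0, 0, 0) (z (0, 0, 0) + v) m : ℝ) * mon u m =
      ∑ m ∈ E.erase (0, 0, 0), (z m : ℝ) * mon u m := by
    refine Finset.sum_congr rfl fun m hm => ?_
    rw [Function.update_of_ne (Finset.ne_of_mem_erase hm)]
  rw [this]
  have h0 : mon u (0, 0, 0) = 1 := by simp [mon]
  rw [h0]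
  push_cast
  ring

/-- the two Taylor estimates -/
theorem SC_trig {x c0 δ : ℝ} (hx : x = c0 + δ) (hδ : |δ| ≤ 1) {R : ℝ}
    (hR : |δ| ^ 4 * (5 / 64) * 2 ^ 38 ≤ R) :
    |sin x - (sin c0 + cos c0 * δ + (-(sin c0) / 2) * (δ * δ) + (-(cos c0) / 6) * (δ * δ * δ))| *
      2 ^ 38 ≤ R ∧
    |cos x - (cos c0 + (-sin c0) * δ + (-(cos c0) / 2) * (δ * δ) + (sin c0 / 6) * (δ * δ * δ))| *
      2 ^ 38 ≤ R := by
  have hs : |sin δ - (δ - δ ^ 3 / 6)| ≤ |δ| ^ 4 * (5 / 96) := by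
    refine (Real.sin_bound hδ).trans ?_
    have h5 : |δ| ^ 5 ≤ |δ| ^ 4 := pow_le_pow_of_le_one (abs_nonneg _) hδ (by norm_num)
    have h4 : 0 ≤ |δ| ^ 4 := by positivity
    linarith
  have hc := Real.cos_bound hδ
  have h1 : |sin c0| + |cos c0| ≤ 3 / 2 := by
    have h := Real.sin_sq_add_cos_sq c0
    have e1 : |sin c0| ^ 2 = sin c0 ^ 2 := sq_abs _
    have e2 : |cos c0| ^ 2 = cos c0 ^ 2 := sq_abs _
    nlinarith [sq_nonneg (|sin c0| - |cos c0|), abs_nonneg (sin c0), abs_nonneg (cos c0)]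
  have hρ : 0 ≤ |δ| ^ 4 * (5 / 96) := by positivity
  have key : ∀ A B : ℝ, |A| + |B| ≤ 3 / 2 →
      |A * (cos δ - (1 - δ ^ 2 / 2)) + B * (sin δ - (δ - δ ^ 3 / 6))| * 2 ^ 38 ≤ R := by
    intro A B hAB
    have h2 : |A * (cos δ - (1 - δ ^ 2 / 2)) + B * (sin δ - (δ - δ ^ 3 / 6))| ≤
        (|A| + |B|) * (|δ| ^ 4 * (5 / 96)) := by
      refine (abs_add_le _ _).trans ?_
      rw [abs_mul, abs_mul, add_mul]
      exact add_le_add (mul_le_mul_of_nonneg_left hc (abs_nonneg _))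
        (mul_le_mul_of_nonneg_left hs (abs_nonneg _))
    have h3 : (|A| + |B|) * (|δ| ^ 4 * (5 / 96)) ≤ 3 / 2 * (|δ| ^ 4 * (5 / 96)) :=
      mul_le_mul_of_nonneg_right hAB hρ
    linarith
  constructor
  · have := key (sin c0) (cos c0) h1
    rw [hx, Real.sin_add]
    have e : sin c0 * cos δ + cos c0 * sin δ - (sin c0 + cos c0 * δ + (-(sin c0) / 2) * (δ * δ) +
        (-(cos c0) / 6) * (δ * δ * δ)) = sin c0 * (cos δ - (1 - δ ^ 2 / 2)) +
          cos c0 * (sin δ - (δ - δ ^ 3 / 6)) := by ring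
    rw [e]
    exact this
  · have := key (cos c0) (-sin c0) (by rw [abs_neg]; linarith)
    rw [hx, Real.cos_add]
    have e : cos c0 * cos δ - sin c0 * sin δ - (cos c0 + (-sin c0) * δ + (-(cos c0) / 2) * (δ * δ) +
        (sin c0 / 6) * (δ * δ * δ)) = cos c0 * (cos δ - (1 - δ ^ 2 / 2)) +
          (-sin c0) * (sin δ - (δ - δ ^ 3 / 6)) := by ring
    rw [e]
    exact this

theorem SC_dv {A s x n : ℕ} (hn : 0 < n) (h : s ≤ A) (hx : Nat.div (Nat.sub A s) n = x) :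
    (n : ℝ) * x + s ≤ A ∧ (A : ℝ) < n * x + s + n := by
  have hx' : (A - s) / n = x := hx
  have g1 : n * x ≤ A - s := by rw [← hx']; exact Nat.mul_div_le _ _
  have g2 : A - s < n * (x + 1) := by rw [← hx']; exact Nat.lt_mul_div_succ _ hn
  have g3 : n * x + s ≤ A := by omega
  have g4 : A < n * (x + 1) + s := by omega
  have g3' : (n : ℝ) * x + s ≤ A := by exact_mod_cast g3
  have g4' : (A : ℝ) < n * (x + 1) + s := by exact_mod_cast g4
  exact ⟨g3', by linarith⟩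

theorem SC_sound_of
    (hmul : ∀ {a b : T} {fa fb : ℝ × ℝ × ℝ → ℝ} {k : T → Bool}, Enc a fa → Enc b fb →
      mul a b k = true → ∃ t, Enc t (fun u => fa u * fb u) ∧ k t = true)
    (htab : ∀ j : ℕ, j < 800 →
      |sin ((j : ℝ) / 128 - 2) * 2 ^ 38 + 2 ^ 39 - ((TS >>> (48 * j)) % 2 ^ 48 : ℕ)| ≤ 1 ∧
      |cos ((j : ℝ) / 128 - 2) * 2 ^ 38 + 2 ^ 39 - ((TC >>> (48 * j)) % 2 ^ 48 : ℕ)| ≤ 1)
    {a : T} {fa : ℝ × ℝ × ℝ → ℝ} {k : T → T → Bool} (ha : Enc a fa)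
    (h : SC a k = true) :
    ∃ s c, Enc s (fun u => sin (fa u)) ∧ Enc c (fun u => cos (fa u)) ∧ k s c = true := by
  obtain ⟨z, zb, hN, -, -, -, nta, ea⟩ := ha
  unfold SC at h
  rw [force_eq] at h
  obtain ⟨hA, h⟩ := SC_bif h
  rw [force_eq] at h
  generalize hj : Nat.shiftRight (Nat.sub (Nat.add (Nat.mod a.N R) 550829555712) H) 31 = j at h
  obtain ⟨hj8, h⟩ := SC_bif h
  rw [force_eq] at h
  rw [Nat.blt_eq] at hj8
  rw [Nat.ble_eq] at hA
  -- the constant coefficient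
  have z0 := zb _ SC_zero_mem
  set W : ℤ := ∑ m ∈ E.erase (0, 0, 0), (z m + 2 ^ 57) * 2 ^ (96 * (ps m - 1)) with hW
  have hW0 : 0 ≤ W := by
    refine Finset.sum_nonneg fun m hm => mul_nonneg ?_ (by positivity)
    have := (zb m (Finset.mem_of_mem_erase hm)).1
    linarith
  have hN' : (a.N : ℤ) = (z (0, 0, 0) + 2 ^ 57) + 2 ^ 96 * W := by rw [hN, SC_split]
  have hR : R = 2 ^ 96 := by norm_num [R]
  have hmod : ((Nat.mod a.N R : ℕ) : ℤ) = z (0, 0, 0) + 2 ^ 57 := by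
    have : (Nat.mod a.N R : ℕ) = a.N % R := rfl
    have e96 : ((2 ^ 96 : ℕ) : ℤ) = 2 ^ 96 := by norm_num
    rw [this, hR, Int.natCast_mod, e96, hN', Int.add_mul_emod_self_left]
    refine Int.emod_eq_of_lt (by linarith [z0.1]) ?_
    have : (2 : ℤ) ^ 57 + 2 ^ 57 < 2 ^ 96 := by norm_num
    linarith [z0.2]
  have hH : H = 2 ^ 57 := by norm_num [H]
  have hA' : (2 : ℤ) ^ 57 ≤ z (0, 0, 0) + 2 ^ 57 + 550829555712 := by
    have : ((H : ℕ) : ℤ) ≤ ((Nat.add (Nat.mod a.N R) 550829555712 : ℕ) : ℤ) := by exact_mod_cast hA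
    simp only [Nat.add_eq] at this
    rw [hH] at this
    push_cast at this hmod
    rw [hmod] at this
    exact this
  have hj' : (j : ℤ) = (z (0, 0, 0) + 550829555712) / 2 ^ 31 := by
    rw [← hj]
    have e1 : ((Nat.sub (Nat.add (Nat.mod a.N R) 550829555712) H : ℕ) : ℤ) =
        z (0, 0, 0) + 550829555712 := by
      rw [Nat.sub_eq, Nat.cast_sub hA, hH]
      simp only [Nat.add_eq]
      push_cast at hmod ⊢
      rw [hmod]
      ring
    have e2 : ∀ x : ℕ, Nat.shiftRight x 31 = x / 2 ^ 31 := fun x => Nat.shiftRight_eq_div_pow x 31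
    rw [e2]
    push_cast
    rw [← e1]
  have hj1 : (j : ℤ) * 2 ^ 31 ≤ z (0, 0, 0) + 550829555712 := by
    rw [hj']; exact Int.ediv_mul_le _ (by norm_num)
  have hj2 : z (0, 0, 0) + 550829555712 < ((j : ℤ) + 1) * 2 ^ 31 := by
    rw [hj']; exact Int.lt_ediv_add_one_mul_self _ (by norm_num)
  set c0 : ℝ := (j : ℝ) / 128 - 2 with hc0
  have hO : O9 = 2 ^ 39 := by norm_num [O9]
  have hsl : ∀ x : ℕ, Nat.shiftLeft x 31 = x * 2 ^ 31 := fun x => Nat.shiftLeft_eq x 31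
  -- the model of the difference
  obtain ⟨d, hd, h⟩ := nrm_sound (f := fun u => fa u - c0)
    (Function.update z (0, 0, 0) (z (0, 0, 0) + (2 ^ 39 - (j : ℤ) * 2 ^ 31)))
    (by
      intro m hm
      by_cases hm0 : m = (0, 0, 0)
      · rw [hm0, Function.update_self]
        constructor
        · linarith
        · linarith
      · rw [Function.update_of_ne hm0]
        exact zb m hm)
    (by
      rw [SC_upd, ← hN, Nat.sub_eq, hsl, hO]
      have hle : j * 2 ^ 31 ≤ Nat.add a.N (2 ^ 39) := by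
        have : ((j * 2 ^ 31 : ℕ) : ℤ) ≤ ((Nat.add a.N (2 ^ 39) : ℕ) : ℤ) := by
          simp only [Nat.add_eq]
          push_cast
          rw [hN']
          have hW' : 0 ≤ 2 ^ 96 * W := by positivity
          linarith [z0.1]
        exact_mod_cast this
      rw [Nat.cast_sub hle]
      simp only [Nat.add_eq]
      push_cast
      ring)
    (by
      intro u hu
      rw [SC_ev_upd]
      have := ea u hu
      have e : (fa u - c0) * 2 ^ 38 - (ev z u + ((2 ^ 39 - (j : ℤ) * 2 ^ 31 : ℤ) : ℝ)) =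
          fa u * 2 ^ 38 - ev z u := by
        rw [hc0]; push_cast; ring
      rw [e]
      exact this) h
  obtain ⟨d2, hd2, h⟩ := hmul hd hd h
  obtain ⟨d3, hd3, h⟩ := hmul hd2 hd h
  rw [force_eq] at h
  obtain ⟨htt, h⟩ := SC_bif h
  obtain ⟨hb, h⟩ := SC_bif h
  rw [force_eq, force_eq, force_eq, force_eq] at h
  rw [Nat.ble_eq] at htt
  rw [Nat.blt_eq] at hb
  generalize htt' : Nat.add d.nt d.e = tt at h htt
  generalize hq2 : Nat.succ (Nat.div (Nat.mul tt tt) S) = q2 at h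
  generalize hrem : Nat.succ (Nat.div (Nat.mul (Nat.succ (Nat.div (Nat.mul q2 q2) S)) 5) 64) = rem at h
  generalize hs : Nat.mod (Nat.shiftRight TS (Nat.mul 48 j)) 281474976710656 = s at h
  generalize hc : Nat.mod (Nat.shiftRight TC (Nat.mul 48 j)) 281474976710656 = c at h
  have hS : S = 2 ^ 38 := by norm_num [S]
  have hP : P95 = 2 ^ 95 := by norm_num [P95]
  -- the size of the difference
  have hδ : ∀ u ∈ Cube, |fa u - c0| * 2 ^ 38 ≤ (tt : ℝ) := by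
    intro u hu
    obtain ⟨zd, -, -, -, -, -, ntd, ed⟩ := hd
    have h1 := ed u hu
    have h2 := SC_ev_le ntd hu
    have h3 : ((tt : ℕ) : ℝ) = (d.nt : ℝ) + (d.e : ℝ) := by
      rw [← htt']; simp only [Nat.add_eq]; push_cast; ring
    rw [h3, ← abs_of_pos (show (0 : ℝ) < 2 ^ 38 by positivity), ← abs_mul]
    rw [abs_le] at h1 h2 ⊢
    constructor
    · linarith [h1.1, h2.1]
    · linarith [h1.2, h2.2]
  have hδ1 : ∀ u ∈ Cube, |fa u - c0| ≤ 1 := by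
    intro u hu
    have h1 := hδ u hu
    have h2 : (tt : ℝ) ≤ 2 ^ 38 := by rw [hS] at htt; exact_mod_cast htt
    linarith
  have trig : ∀ u ∈ Cube, _ := fun u hu => SC_trig (x := fa u) (c0 := c0) (δ := fa u - c0)
    (by ring) (hδ1 u hu) (SC_rem (hδ u hu) hq2.symm hrem.symm)
  -- the table
  have tab := htab j hj8
  have hs' : (TS >>> (48 * j)) % 2 ^ 48 = s := by rw [← hs]; norm_num; rfl
  have hc' : (TC >>> (48 * j)) % 2 ^ 48 = c := by rw [← hc]; norm_num; rfl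
  rw [hs', hc', ← hc0] at tab
  obtain ⟨ts, tc⟩ := tab
  have bs := Real.abs_sin_le_one c0
  have bc := Real.abs_cos_le_one c0
  rw [abs_le] at ts tc bs bc
  have bs1 : (s : ℝ) ≤ 2 ^ 38 + 2 ^ 39 + 1 := by linarith [ts.1, bs.2]
  have bc1 : (c : ℝ) ≤ 2 ^ 38 + 2 ^ 39 + 1 := by linarith [tc.1, bc.2]
  have bs2 : s ≤ 2 ^ 38 + 2 ^ 39 + 1 := by exact_mod_cast bs1
  have bc2 : c ≤ 2 ^ 38 + 2 ^ 39 + 1 := by exact_mod_cast bc1
  have hb' : 2 ^ 39 * ((d.nt + (d2.nt + d3.nt)) + 2 ^ 38) < 2 ^ 95 := by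
    rw [hO, hS, hP] at hb
    exact hb
  rw [hO] at h
  -- the two linear combinations
  obtain ⟨sn, hsn, h⟩ := lin4_sound (F := fun u => sin (fa u)) (γ0 := sin c0) (γ1 := cos c0)
    (γ2 := -(sin c0) / 2) (γ3 := -(cos c0) / 6) hd hd2 hd3
    (by rw [abs_le]; constructor <;> linarith [ts.1, ts.2])
    (by rw [abs_le]; constructor <;> linarith [tc.1, tc.2])
    (by
      generalize hx : Nat.div (Nat.sub (Nat.mul 3 (2 ^ 39)) s) 2 = x
      obtain ⟨g1, g2⟩ := SC_dv (by norm_num) (bs2.trans (by simp only [Nat.mul_eq]; norm_num)) hx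
      simp only [Nat.mul_eq] at g1 g2
      push_cast at g1 g2
      rw [abs_le]; constructor <;> linarith [ts.1, ts.2])
    (by
      generalize hx : Nat.div (Nat.sub (Nat.mul 7 (2 ^ 39)) c) 6 = x
      obtain ⟨g1, g2⟩ := SC_dv (by norm_num) (bc2.trans (by simp only [Nat.mul_eq]; norm_num)) hx
      simp only [Nat.mul_eq] at g1 g2
      push_cast at g1 g2
      rw [abs_le]; constructor <;> linarith [tc.1, tc.2])
    (abs_le.2 bs) (abs_le.2 bc)
    (by rw [abs_le]; constructor <;> linarith [bs.1, bs.2])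
    (by rw [abs_le]; constructor <;> linarith [bc.1, bc.2])
    hb' (fun u hu => (trig u hu).1) h
  obtain ⟨cs', hcs, h⟩ := lin4_sound (F := fun u => cos (fa u)) (γ0 := cos c0) (γ1 := -sin c0)
    (γ2 := -(cos c0) / 2) (γ3 := sin c0 / 6) hd hd2 hd3
    (by rw [abs_le]; constructor <;> linarith [tc.1, tc.2])
    (by
      have hle : s ≤ Nat.mul 2 (2 ^ 39) := bs2.trans (by simp only [Nat.mul_eq]; norm_num)
      rw [Nat.sub_eq, Nat.cast_sub hle]
      simp only [Nat.mul_eq]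
      push_cast
      rw [abs_le]; constructor <;> linarith [ts.1, ts.2])
    (by
      generalize hx : Nat.div (Nat.sub (Nat.mul 3 (2 ^ 39)) c) 2 = x
      obtain ⟨g1, g2⟩ := SC_dv (by norm_num) (bc2.trans (by simp only [Nat.mul_eq]; norm_num)) hx
      simp only [Nat.mul_eq] at g1 g2
      push_cast at g1 g2
      rw [abs_le]; constructor <;> linarith [tc.1, tc.2])
    (by
      generalize hx : Nat.div (Nat.add s (Nat.mul 5 (2 ^ 39))) 6 = x
      obtain ⟨g1, g2⟩ := SC_dv (A := Nat.add s (Nat.mul 5 (2 ^ 39))) (s := 0) (by norm_num)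
        (Nat.zero_le _) hx
      simp only [Nat.add_eq, Nat.mul_eq] at g1 g2
      push_cast at g1 g2
      rw [abs_le]; constructor <;> linarith [ts.1, ts.2])
    (abs_le.2 bc) (by rw [abs_neg]; exact abs_le.2 bs)
    (by rw [abs_le]; constructor <;> linarith [bc.1, bc.2])
    (by rw [abs_le]; constructor <;> linarith [bs.1, bs.2])
    hb' (fun u hu => (trig u hu).2) h
  exact ⟨sn, cs', hsn, hcs, h⟩

end DT.TM

end

section

/-!
# Taylor models: linear combinations of nine or five models (item T6, helper61)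
-/

set_option autoImplicit false

namespace DT.TM

open Finset

theorem T6_ad (c : ℕ) : ((ad c : ℕ) : ℤ) = |(c : ℤ) - 2 ^ 60| := by
  have hO : (O : ℤ) = 2 ^ 60 := by norm_num [O]
  change ((c - O + (O - c) : ℕ) : ℤ) = _
  rw [← hO]
  rcases le_total c O with hc | hc
  · rw [Nat.sub_eq_zero_of_le hc, zero_add, Nat.cast_sub hc, abs_of_nonpos (by
      have : (c : ℤ) ≤ O := by exact_mod_cast hc
      linarith)]
    ring
  · rw [Nat.sub_eq_zero_of_le hc, add_zero, Nat.cast_sub hc, abs_of_nonneg (by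
      have : (O : ℤ) ≤ c := by exact_mod_cast hc
      linarith)]

/-- General linear combination. -/
theorem T6_gen {n : ℕ} (c0 : ℕ) (c : Fin n → ℕ) (t : Fin n → T) (f : Fin n → ℝ × ℝ × ℝ → ℝ)
    (hE : ∀ i, Enc (t i) (f i)) (A : ℕ) (hA0 : |(c0 : ℤ) - 2 ^ 60| ≤ (A : ℤ))
    (hA : ∀ i, |(c i : ℤ) - 2 ^ 60| ≤ (A : ℤ)) (hb : A * ((∑ i, (t i).nt) + S) < P95)
    (x y err : ℕ) (hraw : (x : ℤ) - y = OFF + ((c0 : ℤ) - 2 ^ 60) * 2 ^ 38 +
      ∑ i, ((c i : ℤ) - 2 ^ 60) * (((t i).N : ℤ) - HI))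
    (herr : (err : ℤ) = ∑ i, |(c i : ℤ) - 2 ^ 60| * ((t i).e : ℤ)) {k : T → Bool}
    (h : fin (Nat.sub x y) err k = true) :
    ∃ t', Enc t' (fun u => ((c0 : ℝ) - 2 ^ 60) / 2 ^ 38 +
      ∑ i, ((c i : ℝ) - 2 ^ 60) / 2 ^ 38 * f i u) ∧ k t' = true := by
  choose z hz hN h1 h2 h3 ht hf using hE
  set d : ℕ × ℕ × ℕ → ℤ := fun m => if m = (0, 0, 0) then ((c0 : ℤ) - 2 ^ 60) * 2 ^ 38 else 0
    with hd
  set Z : ℕ × ℕ × ℕ → ℤ := fun m => d m + ∑ i, ((c i : ℤ) - 2 ^ 60) * z i m with hZdef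
  have hP : (P95 : ℤ) = 2 ^ 95 := by norm_num [P95]
  have hS : (S : ℤ) = 2 ^ 38 := by norm_num [S]
  have hZ : ∀ m ∈ E, |Z m| < 2 ^ 95 := by
    intro m hm
    have e1 : |d m| ≤ (A : ℤ) * 2 ^ 38 := by
      by_cases h0 : m = (0, 0, 0)
      · simp only [hd, h0, if_true]
        rw [abs_mul, abs_of_nonneg (by positivity : (0 : ℤ) ≤ 2 ^ 38)]
        exact mul_le_mul_of_nonneg_right hA0 (by positivity)
      · simp only [hd, h0, if_false, abs_zero]
        positivity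
    have e2 : |∑ i, ((c i : ℤ) - 2 ^ 60) * z i m| ≤ (A : ℤ) * ∑ i, ((t i).nt : ℤ) := by
      refine (abs_sum_le_sum_abs _ _).trans ?_
      rw [mul_sum]
      apply sum_le_sum
      intro i _
      rw [abs_mul]
      have h5 : |z i m| ≤ ∑ m ∈ E, |z i m| := single_le_sum (f := fun m => |z i m|)
        (fun i _ => abs_nonneg _) hm
      exact mul_le_mul (hA i) (h5.trans (ht i)) (abs_nonneg _) (by positivity)
    have e3 : ((A * ((∑ i, (t i).nt) + S) : ℕ) : ℤ) < (P95 : ℤ) := by exact_mod_cast hb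
    rw [hP] at e3
    push_cast at e3
    rw [hS] at e3
    calc |Z m| ≤ |d m| + |∑ i, ((c i : ℤ) - 2 ^ 60) * z i m| := abs_add_le _ _
      _ ≤ (A : ℤ) * 2 ^ 38 + (A : ℤ) * ∑ i, ((t i).nt : ℤ) := add_le_add e1 e2
      _ = (A : ℤ) * ((∑ i, ((t i).nt : ℤ)) + 2 ^ 38) := by ring
      _ < 2 ^ 95 := e3
  refine fin_sound Z 0 hZ ?_ ?_ h
  · rw [mul_zero, add_zero]
    apply T5_natSub
    · rw [hraw]
      have e6 : ∑ m ∈ E, d m * 2 ^ (96 * ps m) = ((c0 : ℤ) - 2 ^ 60) * 2 ^ 38 := by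
        rw [sum_eq_single_of_mem (0, 0, 0) T5_mem0]
        · simp [hd, ps]
        · intro i _ hi
          simp [hd, hi]
      have e7 : ∑ i, ((c i : ℤ) - 2 ^ 60) * (((t i).N : ℤ) - HI) =
          ∑ m ∈ E, (∑ i, ((c i : ℤ) - 2 ^ 60) * z i m) * 2 ^ (96 * ps m) := by
        have e8 : ∀ i, ((c i : ℤ) - 2 ^ 60) * (((t i).N : ℤ) - HI) =
            ∑ m ∈ E, ((c i : ℤ) - 2 ^ 60) * z i m * 2 ^ (96 * ps m) := by
          intro i
          rw [hN i, T5_pk, mul_sum]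
          exact sum_congr rfl fun m _ => by ring
        simp only [e8]
        rw [sum_comm]
        exact sum_congr rfl fun m _ => by rw [sum_mul]
      rw [e7, ← e6, T5_OFF, ← sum_add_distrib, ← sum_add_distrib]
      exact sum_congr rfl fun m _ => by simp only [hZdef]; ring
    · exact sum_nonneg fun m hm => mul_nonneg (by linarith [(abs_lt.1 (hZ m hm)).1]) (by positivity)
  · intro u hu
    have e1 : ev Z u = ((c0 : ℝ) - 2 ^ 60) * 2 ^ 38 + ∑ i, ((c i : ℝ) - 2 ^ 60) * ev (z i) u := by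
      have e6 : ∑ m ∈ E, (d m : ℝ) * mon u m = ((c0 : ℝ) - 2 ^ 60) * 2 ^ 38 := by
        rw [sum_eq_single_of_mem (0, 0, 0) T5_mem0]
        · rw [T5_mon0, mul_one]
          simp only [hd, if_true]
          push_cast
          ring
        · intro i _ hi
          simp [hd, hi]
      have e7 : ∑ i, ((c i : ℝ) - 2 ^ 60) * ev (z i) u =
          ∑ m ∈ E, (∑ i, ((c i : ℝ) - 2 ^ 60) * z i m) * mon u m := by
        unfold ev
        simp only [mul_sum, sum_mul]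
        rw [sum_comm]
        exact sum_congr rfl fun m _ => sum_congr rfl fun i _ => by ring
      rw [e7, ← e6, ← sum_add_distrib]
      unfold ev
      exact sum_congr rfl fun m _ => by simp only [hZdef]; push_cast; ring_nf
    have e2 : (((c0 : ℝ) - 2 ^ 60) / 2 ^ 38 + ∑ i, ((c i : ℝ) - 2 ^ 60) / 2 ^ 38 * f i u) * 2 ^ 76 -
        ev Z u = ∑ i, ((c i : ℝ) - 2 ^ 60) * (f i u * 2 ^ 38 - ev (z i) u) := by
      rw [e1]
      have e8 : ∑ i, ((c i : ℝ) - 2 ^ 60) * (f i u * 2 ^ 38 - ev (z i) u) =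
          (∑ i, ((c i : ℝ) - 2 ^ 60) / 2 ^ 38 * f i u) * 2 ^ 76 -
          ∑ i, ((c i : ℝ) - 2 ^ 60) * ev (z i) u := by
        rw [sum_mul, ← sum_sub_distrib]
        exact sum_congr rfl fun i _ => by ring
      rw [e8]
      ring
    rw [e2]
    have e3 : ((err : ℕ) : ℝ) = ∑ i, |(c i : ℝ) - 2 ^ 60| * ((t i).e : ℝ) := by
      have h7 := congrArg (fun x : ℤ => (x : ℝ)) herr
      simp only [Int.cast_sum, Int.cast_mul, Int.cast_abs, Int.cast_sub, Int.cast_pow,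
        Int.cast_ofNat, Int.cast_natCast] at h7
      exact h7
    rw [e3]
    refine (abs_sum_le_sum_abs _ _).trans (sum_le_sum fun i _ => ?_)
    rw [abs_mul]
    exact mul_le_mul_of_nonneg_left (hf i u hu) (abs_nonneg _)

theorem poly9_sound {c : K9} (hc : c.ok) {t1 t2 t3 t4 t5 t6 t7 t8 t9 : T}
    {f1 f2 f3 f4 f5 f6 f7 f8 f9 : ℝ × ℝ × ℝ → ℝ} (h1 : Enc t1 f1) (h2 : Enc t2 f2) (h3 : Enc t3 f3)
    (h4 : Enc t4 f4) (h5 : Enc t5 f5) (h6 : Enc t6 f6) (h7 : Enc t7 f7) (h8 : Enc t8 f8)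
    (h9 : Enc t9 f9) {k : T → Bool}
    (h : poly9 c ⟨t1, t2, t3, t4, t5, t6, t7, t8, t9,
      t1.N + (t2.N + (t3.N + (t4.N + (t5.N + (t6.N + (t7.N + (t8.N + t9.N))))))),
      t1.nt + (t2.nt + (t3.nt + (t4.nt + (t5.nt + (t6.nt + (t7.nt + (t8.nt + t9.nt)))))))⟩ k = true) :
    ∃ t, Enc t (fun u => c.val 0 + c.val 1 * f1 u + c.val 2 * f2 u + c.val 3 * f3 u +
      c.val 4 * f4 u + c.val 5 * f5 u + c.val 6 * f6 u + c.val 7 * f7 u + c.val 8 * f8 u +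
      c.val 9 * f9 u) ∧ k t = true := by
  obtain ⟨hSc, hA⟩ := hc
  unfold poly9 at h
  obtain ⟨hlt, h⟩ := T5_bif h
  have hlt' := T5_blt hlt
  have hS : (S : ℤ) = 2 ^ 38 := by norm_num [S]
  have hO : (O : ℤ) = 2 ^ 60 := by norm_num [O]
  have key := T6_gen (n := 9) c.c0 ![c.c1, c.c2, c.c3, c.c4, c.c5, c.c6, c.c7, c.c8, c.c9]
    ![t1, t2, t3, t4, t5, t6, t7, t8, t9] ![f1, f2, f3, f4, f5, f6, f7, f8, f9] ?_ c.A ?_ ?_ ?_
    _ _ _ ?_ ?_ h
  · obtain ⟨t, ht, hk⟩ := key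
    refine ⟨t, ?_, hk⟩
    convert! ht using 1
    funext u
    simp only [Fin.sum_univ_succ, Fin.sum_univ_zero, K9.val, K9.c, Matrix.cons_val_zero,
      Matrix.cons_val_succ, Matrix.cons_val]
    ring
  · intro i
    fin_cases i <;> assumption
  · exact hA 0
  · intro i
    fin_cases i
    · exact hA 1
    · exact hA 2
    · exact hA 3
    · exact hA 4
    · exact hA 5
    · exact hA 6
    · exact hA 7
    · exact hA 8
    · exact hA 9
  · refine lt_of_eq_of_lt ?_ hlt'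
    simp only [Fin.sum_univ_succ, Fin.sum_univ_zero, Matrix.cons_val_zero,
      Matrix.cons_val_succ, Nat.mul_eq, Nat.add_eq]
    ring
  · simp only [Fin.sum_univ_succ, Fin.sum_univ_zero, Matrix.cons_val_zero,
      Matrix.cons_val_succ, Nat.mul_eq, Nat.add_eq]
    rw [hSc, ← hS, ← hO]
    push_cast
    ring
  · simp only [Fin.sum_univ_succ, Fin.sum_univ_zero, Matrix.cons_val_zero,
      Matrix.cons_val_succ, Nat.mul_eq, Nat.add_eq]
    simp only [Nat.cast_add, Nat.cast_mul, T6_ad, add_zero]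

theorem poly5_sound {c : K5} (hc : c.ok) {t1 t2 t3 t4 t5 : T}
    {f1 f2 f3 f4 f5 : ℝ × ℝ × ℝ → ℝ} (h1 : Enc t1 f1) (h2 : Enc t2 f2) (h3 : Enc t3 f3)
    (h4 : Enc t4 f4) (h5 : Enc t5 f5) {k : T → Bool}
    (h : poly5 c ⟨t1, t2, t3, t4, t5, t1.N + (t2.N + (t3.N + (t4.N + t5.N))),
      t1.nt + (t2.nt + (t3.nt + (t4.nt + t5.nt)))⟩ k = true) :
    ∃ t, Enc t (fun u => c.val 0 + c.val 1 * f1 u + c.val 2 * f2 u + c.val 3 * f3 u +
      c.val 4 * f4 u + c.val 5 * f5 u) ∧ k t = true := by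
  obtain ⟨hSc, hA⟩ := hc
  unfold poly5 at h
  obtain ⟨hlt, h⟩ := T5_bif h
  have hlt' := T5_blt hlt
  have hS : (S : ℤ) = 2 ^ 38 := by norm_num [S]
  have hO : (O : ℤ) = 2 ^ 60 := by norm_num [O]
  have key := T6_gen (n := 5) c.c0 ![c.c1, c.c2, c.c3, c.c4, c.c5]
    ![t1, t2, t3, t4, t5] ![f1, f2, f3, f4, f5] ?_ c.A ?_ ?_ ?_ _ _ _ ?_ ?_ h
  · obtain ⟨t, ht, hk⟩ := key
    refine ⟨t, ?_, hk⟩
    convert! ht using 1
    funext u
    simp only [Fin.sum_univ_succ, Fin.sum_univ_zero, K5.val, K5.c, Matrix.cons_val_zero,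
      Matrix.cons_val_succ, Matrix.cons_val]
    ring
  · intro i
    fin_cases i <;> assumption
  · exact hA 0
  · intro i
    fin_cases i
    · exact hA 1
    · exact hA 2
    · exact hA 3
    · exact hA 4
    · exact hA 5
  · refine lt_of_eq_of_lt ?_ hlt'
    simp only [Fin.sum_univ_succ, Fin.sum_univ_zero, Matrix.cons_val_zero,
      Matrix.cons_val_succ, Nat.mul_eq, Nat.add_eq]
    ring
  · simp only [Fin.sum_univ_succ, Fin.sum_univ_zero, Matrix.cons_val_zero,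
      Matrix.cons_val_succ, Nat.mul_eq, Nat.add_eq]
    rw [hSc, ← hS, ← hO]
    push_cast
    ring
  · simp only [Fin.sum_univ_succ, Fin.sum_univ_zero, Matrix.cons_val_zero,
      Matrix.cons_val_succ, Nat.mul_eq, Nat.add_eq]
    simp only [Nat.cast_add, Nat.cast_mul, T6_ad, add_zero]

end DT.TM

end

section

/-!
# Taylor models: sine and cosine (T7b)
-/

open Real

namespace DT.TM

theorem SC_sound {a : T} {fa : ℝ × ℝ × ℝ → ℝ} {k : T → T → Bool} (ha : Enc a fa)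
    (h : SC a k = true) :
    ∃ s c, Enc s (fun u => sin (fa u)) ∧ Enc c (fun u => cos (fa u)) ∧ k s c = true :=
  SC_sound_of mul_sound table ha h

end DT.TM

end

section

/-!
# MP_74021c_co, T9a: the inputs (helper85)
-/

open Real

namespace DT.TM

/-- sums of functions supported on the degrees 0 and 1 -/
theorem T9a_sum {M : Type} [AddCommMonoid M] (F : ℕ × ℕ × ℕ → M)
    (hF : ∀ m ∈ E, m ≠ (0, 0, 0) → m ≠ (1, 0, 0) → m ≠ (0, 1, 0) → m ≠ (0, 0, 1) → F m = 0) :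
    ∑ m ∈ E, F m = F (0, 0, 0) + (F (1, 0, 0) + (F (0, 1, 0) + F (0, 0, 1))) := by
  have hs : ({(0, 0, 0), (1, 0, 0), (0, 1, 0), (0, 0, 1)} : Finset (ℕ × ℕ × ℕ)) ⊆ E := by
    decide +kernel
  rw [← Finset.sum_subset hs]
  · rw [Finset.sum_insert (by decide), Finset.sum_insert (by decide),
      Finset.sum_insert (by decide), Finset.sum_singleton]
  · intro m hm hn
    simp only [Finset.mem_insert, Finset.mem_singleton, not_or] at hn
    exact hF m hm hn.1 hn.2.1 hn.2.2.1 hn.2.2.2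

/-- coefficients of an affine function -/
def T9a_z (c0 c1 c2 c3 : ℤ) (m : ℕ × ℕ × ℕ) : ℤ :=
  if m = (0, 0, 0) then c0 else if m = (1, 0, 0) then c1 else if m = (0, 1, 0) then c2
  else if m = (0, 0, 1) then c3 else 0

theorem T9a_z0 (c0 c1 c2 c3 : ℤ) : T9a_z c0 c1 c2 c3 (0, 0, 0) = c0 := rfl
theorem T9a_z1 (c0 c1 c2 c3 : ℤ) : T9a_z c0 c1 c2 c3 (1, 0, 0) = c1 := rfl
theorem T9a_z2 (c0 c1 c2 c3 : ℤ) : T9a_z c0 c1 c2 c3 (0, 1, 0) = c2 := rfl
theorem T9a_z3 (c0 c1 c2 c3 : ℤ) : T9a_z c0 c1 c2 c3 (0, 0, 1) = c3 := rfl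
theorem T9a_z4 (c0 c1 c2 c3 : ℤ) {m : ℕ × ℕ × ℕ} (h0 : m ≠ (0, 0, 0)) (h1 : m ≠ (1, 0, 0))
    (h2 : m ≠ (0, 1, 0)) (h3 : m ≠ (0, 0, 1)) : T9a_z c0 c1 c2 c3 m = 0 := by
  unfold T9a_z
  rw [if_neg h0, if_neg h1, if_neg h2, if_neg h3]

theorem T9a_R13 : R13 = 2 ^ (96 * 13) := by decide +kernel
theorem T9a_R14 : R14 = 2 ^ (96 * 14) := by decide +kernel
theorem T9a_R17 : R17 = 2 ^ (96 * 17) := by decide +kernel

theorem T9a_lin {N n1 nt : ℕ} (c0 c1 c2 c3 : ℤ)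
    (hN : (N : ℤ) = HI + c0 + c1 * R13 + c2 * R14 + c3 * R17)
    (h0 : |c0| < 2 ^ 57) (h1 : |c1| < 2 ^ 57) (h2 : |c2| < 2 ^ 57) (h3 : |c3| < 2 ^ 57)
    (hn1 : |c1| + |c2| + |c3| ≤ n1) (hnt : |c0| + |c1| + |c2| + |c3| ≤ nt)
    {f : ℝ × ℝ × ℝ → ℝ}
    (hf : ∀ u, f u * 2 ^ 38 = c0 + c1 * u.1 + c2 * u.2.1 + c3 * u.2.2) :
    Enc ⟨N, 0, n1, 0, 0, nt⟩ f := by
  have hz0 : ∀ m ∈ E, m ≠ (0, 0, 0) → m ≠ (1, 0, 0) → m ≠ (0, 1, 0) → m ≠ (0, 0, 1) →
      T9a_z c0 c1 c2 c3 m = 0 := fun m _ a b c d => T9a_z4 _ _ _ _ a b c d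
  refine ⟨T9a_z c0 c1 c2 c3, ?_, ?_, ?_, ?_, ?_, ?_, ?_⟩
  · intro m _
    have e0 := abs_lt.1 h0
    have e1 := abs_lt.1 h1
    have e2 := abs_lt.1 h2
    have e3 := abs_lt.1 h3
    unfold T9a_z
    split_ifs
    · exact ⟨e0.1.le, e0.2⟩
    · exact ⟨e1.1.le, e1.2⟩
    · exact ⟨e2.1.le, e2.2⟩
    · exact ⟨e3.1.le, e3.2⟩
    · norm_num
  · unfold pk
    simp only [add_mul, Finset.sum_add_distrib]
    rw [T9a_sum (fun m => T9a_z c0 c1 c2 c3 m * 2 ^ (96 * ps m))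
      (fun m hm a b c d => by simp only [hz0 m hm a b c d, zero_mul]), ← Finset.mul_sum]
    have hI : ((2 : ℤ) ^ 57 * ∑ m ∈ E, 2 ^ (96 * ps m)) = (HI : ℤ) := by
      rw [HI_eq, I_eq]
      push_cast
      rfl
    rw [hI, T9a_z0, T9a_z1, T9a_z2, T9a_z3]
    have p0 : ps (0, 0, 0) = 0 := rfl
    have p1 : ps (1, 0, 0) = 13 := rfl
    have p2 : ps (0, 1, 0) = 14 := rfl
    have p3 : ps (0, 0, 1) = 17 := rfl
    rw [p0, p1, p2, p3]
    change (N : ℤ) = _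
    rw [hN, T9a_R13, T9a_R14, T9a_R17, Nat.cast_pow, Nat.cast_pow, Nat.cast_pow, Nat.cast_ofNat,
      Nat.mul_zero, pow_zero]
    ring
  · have hs : (∑ m ∈ E.filter (fun m => dg m = 1), |T9a_z c0 c1 c2 c3 m|) = |c1| + (|c2| + |c3|) := by
      rw [Finset.sum_filter, T9a_sum]
      · rw [T9a_z0, T9a_z1, T9a_z2, T9a_z3, if_neg (by decide), if_pos (by decide),
          if_pos (by decide), if_pos (by decide), zero_add]
      · intro m hm a b c d
        rw [hz0 m hm a b c d]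
        simp
    rw [hs]
    linarith
  · refine le_of_eq (Finset.sum_eq_zero fun m hm => ?_)
    have hm := Finset.mem_filter.1 hm
    rw [hz0 m hm.1, abs_zero] <;> (rintro rfl; exact absurd hm.2 (by decide))
  · refine le_of_eq (Finset.sum_eq_zero fun m hm => ?_)
    have hm := Finset.mem_filter.1 hm
    rw [hz0 m hm.1, abs_zero] <;> (rintro rfl; exact absurd hm.2 (by decide))
  · rw [T9a_sum]
    · rw [T9a_z0, T9a_z1, T9a_z2, T9a_z3]
      change _ ≤ (nt : ℤ)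
      linarith
    · intro m hm a b c d
      rw [hz0 m hm a b c d, abs_zero]
  · intro u _
    have he : ev (T9a_z c0 c1 c2 c3) u = c0 + c1 * u.1 + c2 * u.2.1 + c3 * u.2.2 := by
      unfold ev
      rw [T9a_sum]
      · rw [T9a_z0, T9a_z1, T9a_z2, T9a_z3]
        simp only [mon]
        ring
      · intro m hm a b c d
        rw [hz0 m hm a b c d]
        simp
    rw [hf u, he, sub_self, abs_zero]
    exact Nat.cast_nonneg _

theorem T9a_HI : 2 ^ 57 * (1 + R13 + R14 + R17) ≤ HI := by decide +kernel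

theorem T9a_pi : |π / 2 * 2 ^ 38 - ((431777206545 : ℕ) : ℝ)| ≤ 1 := by
  have h1 := Real.pi_gt_d20
  have h2 := Real.pi_lt_d20
  rw [abs_le]
  constructor
  · norm_num at h1 h2 ⊢
    linarith
  · norm_num at h1 h2 ⊢
    linarith

theorem inputs_sound {a0 ah x0 hx y0 hy : ℕ} (h0 : ah ≤ a0) (h1 : a0 + ah ≤ 2 ^ 36)
    (h2 : hx ≤ x0) (h3 : x0 + hx ≤ 2 ^ 38) (h4 : hy ≤ y0) (h5 : y0 + hy ≤ 2 ^ 38)
    {k : T → T → T → T → T → Bool} (h : inputs a0 ah x0 hx y0 hy k = true) :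
    ∃ s w s1 om ka, Enc s (fun u => cs a0 ah u.1) ∧ Enc w (fun u => 5 / 4 * cs a0 ah u.1) ∧
      Enc s1 (fun u => 1 - cs a0 ah u.1) ∧
      Enc om (fun u => π / 2 * (cx x0 hx u.2.1 + cx y0 hy u.2.2) +
        5 / 4 * cs a0 ah u.1 * (cx x0 hx u.2.1 - cx y0 hy u.2.2)) ∧
      Enc ka (fun u => 5 / 4 * cs a0 ah u.1 * (1 - (cx x0 hx u.2.1 + cx y0 hy u.2.2)) -
        π / 2 * (cx x0 hx u.2.1 - cx y0 hy u.2.2)) ∧
      k s w s1 om ka = true := by
  unfold inputs at h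
  simp only [force_eq, Nat.add_eq, Nat.mul_eq, Nat.sub_eq] at h
  have hHI := T9a_HI
  have b1 : 4 * ah * R13 ≤ 2 ^ 57 * R13 := Nat.mul_le_mul_right _ (by omega)
  have b2 : hx * R14 ≤ 2 ^ 57 * R14 := Nat.mul_le_mul_right _ (by omega)
  have b3 : hy * R17 ≤ 2 ^ 57 * R17 := Nat.mul_le_mul_right _ (by omega)
  have c1 : (4 * (ah : ℤ)) < 2 ^ 57 := by norm_num; omega
  have c2 : (4 * (a0 : ℤ)) < 2 ^ 57 := by norm_num; omega
  have c3 : (5 * (ah : ℤ)) < 2 ^ 57 := by norm_num; omega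
  have c4 : (5 * (a0 : ℤ)) < 2 ^ 57 := by norm_num; omega
  have c5 : ((hx : ℤ)) < 2 ^ 57 := by norm_num; omega
  have c6 : ((hy : ℤ)) < 2 ^ 57 := by norm_num; omega
  have c7 : ((x0 : ℤ)) + y0 < 2 ^ 57 := by norm_num; omega
  have hS : S = 2 ^ 38 := rfl
  have M1 : Enc ⟨HI + (4 * a0 + 4 * ah * R13), 0, 4 * ah, 0, 0, 4 * a0 + 4 * ah⟩
      (fun u => cs a0 ah u.1) := by
    refine T9a_lin (4 * a0) (4 * ah) 0 0 (by push_cast; ring) ?_ ?_ (by norm_num) (by norm_num)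
      ?_ ?_ ?_
    · rw [abs_of_nonneg (by positivity)]; exact c2
    · rw [abs_of_nonneg (by positivity)]; exact c1
    · rw [abs_of_nonneg (by positivity)]; push_cast; simp
    · rw [abs_of_nonneg (by positivity), abs_of_nonneg (by positivity)]; push_cast; simp
    · intro u
      unfold cs
      push_cast
      ring
  have M2 : Enc ⟨HI + (5 * a0 + 5 * ah * R13), 0, 5 * ah, 0, 0, 5 * a0 + 5 * ah⟩
      (fun u => 5 / 4 * cs a0 ah u.1) := by
    refine T9a_lin (5 * a0) (5 * ah) 0 0 (by push_cast; ring) ?_ ?_ (by norm_num) (by norm_num)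
      ?_ ?_ ?_
    · rw [abs_of_nonneg (by positivity)]; exact c4
    · rw [abs_of_nonneg (by positivity)]; exact c3
    · rw [abs_of_nonneg (by positivity)]; push_cast; simp
    · rw [abs_of_nonneg (by positivity), abs_of_nonneg (by positivity)]; push_cast; simp
    · intro u
      unfold cs
      push_cast
      ring
  have M3 : Enc ⟨HI + S - (4 * a0 + 4 * ah * R13), 0, 4 * ah, 0, 0, 4 * a0 + (4 * ah + S)⟩
      (fun u => 1 - cs a0 ah u.1) := by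
    refine T9a_lin (2 ^ 38 - 4 * a0) (-(4 * ah)) 0 0 ?_ ?_ ?_ (by norm_num) (by norm_num)
      ?_ ?_ ?_
    · rw [Nat.cast_sub (by omega), hS]
      push_cast
      ring
    · rw [abs_lt]
      constructor <;> (norm_num; omega)
    · rw [abs_neg, abs_of_nonneg (by positivity)]; exact c1
    · rw [abs_neg, abs_of_nonneg (by positivity)]; push_cast; simp
    · rw [abs_neg, abs_of_nonneg (show (0 : ℤ) ≤ 4 * ah by positivity), hS]
      have : |(2 : ℤ) ^ 38 - 4 * (a0 : ℤ)| ≤ 2 ^ 38 + 4 * (a0 : ℤ) := by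
        refine (abs_sub _ _).trans ?_
        rw [abs_of_nonneg (by positivity), abs_of_nonneg (by positivity)]
      push_cast
      norm_num at this ⊢
      linarith
    · intro u
      unfold cs
      push_cast
      ring
  have M4 : Enc ⟨HI + (x0 + y0) + (hx * R14 + hy * R17), 0, hx + hy, 0, 0, x0 + y0 + (hx + hy)⟩
      (fun u => cx x0 hx u.2.1 + cx y0 hy u.2.2) := by
    refine T9a_lin (x0 + y0) 0 hx hy (by push_cast; ring) ?_ (by norm_num) ?_ ?_ ?_ ?_ ?_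
    · rw [abs_of_nonneg (by positivity)]; exact c7
    · rw [abs_of_nonneg (by positivity)]; exact c5
    · rw [abs_of_nonneg (by positivity)]; exact c6
    · rw [abs_of_nonneg (show (0 : ℤ) ≤ hx by positivity),
        abs_of_nonneg (show (0 : ℤ) ≤ hy by positivity)]
      push_cast
      simp
    · rw [abs_of_nonneg (show (0 : ℤ) ≤ hx by positivity),
        abs_of_nonneg (show (0 : ℤ) ≤ hy by positivity),
        abs_of_nonneg (show (0 : ℤ) ≤ x0 + y0 by positivity)]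
      push_cast
      simp only [abs_zero, add_zero]
      linarith
    · intro u
      unfold cx
      push_cast
      ring
  have M5 : Enc ⟨HI + x0 + hx * R14 - (y0 + hy * R17), 0, hx + hy, 0, 0, x0 + y0 + (hx + hy)⟩
      (fun u => cx x0 hx u.2.1 - cx y0 hy u.2.2) := by
    refine T9a_lin (x0 - y0) 0 hx (-hy) ?_ ?_ (by norm_num) ?_ ?_ ?_ ?_ ?_
    · rw [Nat.cast_sub (by omega)]
      push_cast
      ring
    · rw [abs_lt]
      constructor <;> (norm_num; omega)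
    · rw [abs_of_nonneg (by positivity)]; exact c5
    · rw [abs_neg, abs_of_nonneg (by positivity)]; exact c6
    · rw [abs_neg, abs_of_nonneg (show (0 : ℤ) ≤ hx by positivity),
        abs_of_nonneg (show (0 : ℤ) ≤ hy by positivity)]
      push_cast
      simp
    · rw [abs_neg, abs_of_nonneg (show (0 : ℤ) ≤ hx by positivity),
        abs_of_nonneg (show (0 : ℤ) ≤ hy by positivity)]
      have : |(x0 : ℤ) - y0| ≤ x0 + y0 := by
        refine (abs_sub _ _).trans ?_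
        rw [abs_of_nonneg (by positivity), abs_of_nonneg (by positivity)]
      push_cast
      simp only [abs_zero, add_zero]
      linarith
    · intro u
      unfold cx
      push_cast
      ring
  have M6 : Enc ⟨HI + S - (x0 + y0 + (hx * R14 + hy * R17)), 0, hx + hy, 0, 0,
      x0 + y0 + (hx + hy) + S⟩ (fun u => 1 - (cx x0 hx u.2.1 + cx y0 hy u.2.2)) := by
    refine T9a_lin (2 ^ 38 - (x0 + y0)) 0 (-hx) (-hy) ?_ ?_ (by norm_num) ?_ ?_ ?_ ?_ ?_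
    · rw [Nat.cast_sub (by omega), hS]
      push_cast
      ring
    · rw [abs_lt]
      constructor <;> (norm_num; omega)
    · rw [abs_neg, abs_of_nonneg (by positivity)]; exact c5
    · rw [abs_neg, abs_of_nonneg (by positivity)]; exact c6
    · rw [abs_neg, abs_neg, abs_of_nonneg (show (0 : ℤ) ≤ hx by positivity),
        abs_of_nonneg (show (0 : ℤ) ≤ hy by positivity)]
      push_cast
      simp
    · rw [abs_neg, abs_neg, abs_of_nonneg (show (0 : ℤ) ≤ hx by positivity),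
        abs_of_nonneg (show (0 : ℤ) ≤ hy by positivity), hS]
      have : |(2 : ℤ) ^ 38 - ((x0 : ℤ) + y0)| ≤ 2 ^ 38 + ((x0 : ℤ) + y0) := by
        refine (abs_sub _ _).trans ?_
        rw [abs_of_nonneg (by positivity), abs_of_nonneg (by positivity)]
      push_cast
      norm_num at this ⊢
      linarith
    · intro u
      unfold cx
      push_cast
      ring
  obtain ⟨pX, hpX, h⟩ := cmul_sound T9a_pi M4 h
  obtain ⟨pY, hpY, h⟩ := cmul_sound T9a_pi M5 h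
  obtain ⟨wY, hwY, h⟩ := mul_sound M2 M5 h
  obtain ⟨wO, hwO, h⟩ := mul_sound M2 M6 h
  obtain ⟨om, hom, h⟩ := add_sound hpX hwY h
  obtain ⟨ka, hka, h⟩ := sub_sound hwO hpY h
  exact ⟨_, _, _, om, ka, M1, M2, M3, hom, hka, h⟩

end DT.TM

end

section

/-!
# T9b: soundness of `evalH`, `evalL'`, `evalSL`
-/

open Real Set

namespace DT.TM

theorem t9b_force_eq (n : ℕ) (f : ℕ → Bool) : force n f = f n := by cases n <;> rfl

theorem Enc.congr9b {t : T} {f g : ℝ × ℝ × ℝ → ℝ} (h : Enc t f) (hfg : ∀ u, f u = g u) :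
    Enc t g := by
  have : f = g := funext hfg
  rw [← this]; exact h

theorem t9b_pk_zero : pk (fun _ => 0) = (HI : ℤ) := by
  decide +kernel

theorem t9b_enc_zero : Enc ⟨HI, 0, 0, 0, 0, 0⟩ (fun _ => 0) := by
  refine ⟨fun _ => 0, ?_, ?_, ?_, ?_, ?_, ?_, ?_⟩
  · intro m _; constructor <;> norm_num
  · exact t9b_pk_zero.symm
  · simp
  · simp
  · simp
  · simp
  · intro u _; simp [ev]

theorem t9b_cst_sound {c : ℕ} {k : T → Bool} (h : cst c k = true) :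
    ∃ t, Enc t (fun _ => ((c : ℝ) - 2 ^ 60) / 2 ^ 38) ∧ k t = true := by
  obtain ⟨t, ht, hk⟩ := addc_sound t9b_enc_zero h
  exact ⟨t, ht.congr9b (fun u => by ring), hk⟩

theorem mk9_sound {t1 t2 t3 t4 t5 t6 t7 t8 t9 : T} {k : T9 → Bool}
    (h : mk9 t1 t2 t3 t4 t5 t6 t7 t8 t9 k = true) :
    k ⟨t1, t2, t3, t4, t5, t6, t7, t8, t9,
      t1.N + (t2.N + (t3.N + (t4.N + (t5.N + (t6.N + (t7.N + (t8.N + t9.N))))))),
      t1.nt + (t2.nt + (t3.nt + (t4.nt + (t5.nt + (t6.nt + (t7.nt + (t8.nt + t9.nt)))))))⟩ = true := by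
  unfold mk9 at h
  rw [t9b_force_eq, t9b_force_eq] at h
  exact h

theorem mk5_sound {t1 t2 t3 t4 t5 : T} {k : T5 → Bool} (h : mk5 t1 t2 t3 t4 t5 k = true) :
    k ⟨t1, t2, t3, t4, t5, t1.N + (t2.N + (t3.N + (t4.N + t5.N))),
      t1.nt + (t2.nt + (t3.nt + (t4.nt + t5.nt)))⟩ = true := by
  unfold mk5 at h
  rw [t9b_force_eq, t9b_force_eq] at h
  exact h

theorem horner5_sound {s t0 t1 t2 t3 t4 : T} {fs f0 f1 f2 f3 f4 : ℝ × ℝ × ℝ → ℝ}
    (hs : Enc s fs) (h0 : Enc t0 f0) (h1 : Enc t1 f1) (h2 : Enc t2 f2) (h3 : Enc t3 f3)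
    (h4 : Enc t4 f4) {k : T → Bool} (h : horner5 s t0 t1 t2 t3 t4 k = true) :
    ∃ t, Enc t (fun u => f0 u + fs u * (f1 u + fs u * (f2 u + fs u * (f3 u + fs u * f4 u)))) ∧
      k t = true := by
  unfold horner5 at h
  obtain ⟨a, ha, h⟩ := mul_sound hs h4 h
  obtain ⟨b, hb, h⟩ := add_sound ha h3 h
  obtain ⟨c, hc, h⟩ := mul_sound hs hb h
  obtain ⟨d, hd, h⟩ := add_sound hc h2 h
  obtain ⟨e, he, h⟩ := mul_sound hs hd h
  obtain ⟨f, hf, h⟩ := add_sound he h1 h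
  obtain ⟨g, hg, h⟩ := mul_sound hs hf h
  obtain ⟨i, hi, h⟩ := add_sound hg h0 h
  exact ⟨i, hi.congr9b (fun u => by ring), h⟩

theorem horner4_sound {s t0 t1 t2 t3 : T} {fs f0 f1 f2 f3 : ℝ × ℝ × ℝ → ℝ}
    (hs : Enc s fs) (h0 : Enc t0 f0) (h1 : Enc t1 f1) (h2 : Enc t2 f2) (h3 : Enc t3 f3)
    {k : T → Bool} (h : horner4 s t0 t1 t2 t3 k = true) :
    ∃ t, Enc t (fun u => f0 u + fs u * (f1 u + fs u * (f2 u + fs u * f3 u))) ∧
      k t = true := by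
  unfold horner4 at h
  obtain ⟨c, hc, h⟩ := mul_sound hs h3 h
  obtain ⟨d, hd, h⟩ := add_sound hc h2 h
  obtain ⟨e, he, h⟩ := mul_sound hs hd h
  obtain ⟨f, hf, h⟩ := add_sound he h1 h
  obtain ⟨g, hg, h⟩ := mul_sound hs hf h
  obtain ⟨i, hi, h⟩ := add_sound hg h0 h
  exact ⟨i, hi.congr9b (fun u => by ring), h⟩

/-- a decidable form of `K9.ok` -/
def okb9 (c : K9) : Bool :=
  decide (c.Sc = c.c1 + c.c2 + c.c3 + c.c4 + c.c5 + c.c6 + c.c7 + c.c8 + c.c9) &&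
  decide (∀ i : Fin 10, |(c.c i : ℤ) - 2 ^ 60| ≤ (c.A : ℤ))

def okb5 (c : K5) : Bool :=
  decide (c.Sc = c.c1 + c.c2 + c.c3 + c.c4 + c.c5) &&
  decide (∀ i : Fin 6, |(c.c i : ℤ) - 2 ^ 60| ≤ (c.A : ℤ))

theorem okb9_ok {c : K9} (h : okb9 c = true) : c.ok := by
  unfold okb9 at h
  rw [Bool.and_eq_true, decide_eq_true_eq, decide_eq_true_eq] at h
  exact h

theorem okb5_ok {c : K5} (h : okb5 c = true) : c.ok := by
  unfold okb5 at h
  rw [Bool.and_eq_true, decide_eq_true_eq, decide_eq_true_eq] at h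
  exact h

theorem kH0_ok : kH0.ok := okb9_ok (by decide +kernel)
theorem kH1_ok : kH1.ok := okb9_ok (by decide +kernel)
theorem kH2_ok : kH2.ok := okb9_ok (by decide +kernel)
theorem kH3_ok : kH3.ok := okb9_ok (by decide +kernel)
theorem kH4_ok : kH4.ok := okb9_ok (by decide +kernel)
theorem kO0_ok : kO0.ok := okb5_ok (by decide +kernel)
theorem kO1_ok : kO1.ok := okb5_ok (by decide +kernel)
theorem kO2_ok : kO2.ok := okb5_ok (by decide +kernel)
theorem kO3_ok : kO3.ok := okb5_ok (by decide +kernel)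
theorem kO4_ok : kO4.ok := okb5_ok (by decide +kernel)
theorem kM0_ok : kM0.ok := okb5_ok (by decide +kernel)
theorem kM1_ok : kM1.ok := okb5_ok (by decide +kernel)
theorem kM2_ok : kM2.ok := okb5_ok (by decide +kernel)
theorem kM3_ok : kM3.ok := okb5_ok (by decide +kernel)
theorem kM4_ok : kM4.ok := okb5_ok (by decide +kernel)
theorem kP0_ok : kP0.ok := okb5_ok (by decide +kernel)
theorem kP1_ok : kP1.ok := okb5_ok (by decide +kernel)
theorem kP2_ok : kP2.ok := okb5_ok (by decide +kernel)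
theorem kP3_ok : kP3.ok := okb5_ok (by decide +kernel)
theorem kP4_ok : kP4.ok := okb5_ok (by decide +kernel)

/-- the coefficients of a `K9` from integers with denominator `2^26` -/
theorem K9.val_of {c : K9} {z : Fin 10 → ℤ} (h : ∀ i, (c.c i : ℤ) = 2 ^ 60 + 4096 * z i)
    (i : Fin 10) : c.val i = (z i : ℝ) / 67108864 := by
  unfold K9.val
  have h1 : ((c.c i : ℤ) : ℝ) = ((2 ^ 60 + 4096 * z i : ℤ) : ℝ) := by rw [h i]
  push_cast at h1
  rw [h1]
  ring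

theorem K5.val_of {c : K5} {z : Fin 6 → ℤ} (h : ∀ i, (c.c i : ℤ) = 2 ^ 60 + 4096 * z i)
    (i : Fin 6) : c.val i = (z i : ℝ) / 67108864 := by
  unfold K5.val
  have h1 : ((c.c i : ℤ) : ℝ) = ((2 ^ 60 + 4096 * z i : ℤ) : ℝ) := by rw [h i]
  push_cast at h1
  rw [h1]
  ring

theorem kH0_c : ∀ i, (kH0.c i : ℤ) = 2 ^ 60 + 4096 * Cand.C 0 i := by decide +kernel
theorem kH1_c : ∀ i, (kH1.c i : ℤ) = 2 ^ 60 + 4096 * Cand.C 1 i := by decide +kernel
theorem kH2_c : ∀ i, (kH2.c i : ℤ) = 2 ^ 60 + 4096 * Cand.C 2 i := by decide +kernel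
theorem kH3_c : ∀ i, (kH3.c i : ℤ) = 2 ^ 60 + 4096 * Cand.C 3 i := by decide +kernel
theorem kH4_c : ∀ i, (kH4.c i : ℤ) = 2 ^ 60 + 4096 * Cand.C 4 i := by decide +kernel

/-- the coefficients of `Hco` in the order `1, κ, κ^2, ω, ωκ, ω^2` -/
def oC (a : Fin 5) : Fin 6 → ℤ :=
  ![Cand.C a 4, Cand.C a 5, Cand.C a 6, 2 * Cand.C a 7, 2 * Cand.C a 8, 3 * Cand.C a 9]

theorem kO0_c : ∀ i, (kO0.c i : ℤ) = 2 ^ 60 + 4096 * oC 0 i := by decide +kernel
theorem kO1_c : ∀ i, (kO1.c i : ℤ) = 2 ^ 60 + 4096 * oC 1 i := by decide +kernel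
theorem kO2_c : ∀ i, (kO2.c i : ℤ) = 2 ^ 60 + 4096 * oC 2 i := by decide +kernel
theorem kO3_c : ∀ i, (kO3.c i : ℤ) = 2 ^ 60 + 4096 * oC 3 i := by decide +kernel
theorem kO4_c : ∀ i, (kO4.c i : ℤ) = 2 ^ 60 + 4096 * oC 4 i := by decide +kernel

/-- `poly9` computes `Hc` -/
theorem poly9_Hc {c : K9} (hc : c.ok) {C : Fin 10 → ℤ}
    (hC : ∀ i, (c.c i : ℤ) = 2 ^ 60 + 4096 * C i) {t1 t2 t3 t4 t5 t6 t7 t8 t9 : T}
    {fo fk : ℝ × ℝ × ℝ → ℝ}
    (h1 : Enc t1 fk) (h2 : Enc t2 (fun u => fk u * fk u))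
    (h3 : Enc t3 (fun u => fk u * fk u * fk u)) (h4 : Enc t4 fo)
    (h5 : Enc t5 (fun u => fo u * fk u)) (h6 : Enc t6 (fun u => fo u * (fk u * fk u)))
    (h7 : Enc t7 (fun u => fo u * fo u)) (h8 : Enc t8 (fun u => fo u * fo u * fk u))
    (h9 : Enc t9 (fun u => fo u * fo u * fo u)) {k : T → Bool}
    (h : poly9 c ⟨t1, t2, t3, t4, t5, t6, t7, t8, t9,
      t1.N + (t2.N + (t3.N + (t4.N + (t5.N + (t6.N + (t7.N + (t8.N + t9.N))))))),
      t1.nt + (t2.nt + (t3.nt + (t4.nt + (t5.nt + (t6.nt + (t7.nt + (t8.nt + t9.nt)))))))⟩ k = true) :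
    ∃ t, Enc t (fun u => Cand.Hc C (fo u) (fk u)) ∧ k t = true := by
  obtain ⟨t, ht, hk⟩ := poly9_sound hc h1 h2 h3 h4 h5 h6 h7 h8 h9 h
  refine ⟨t, ht.congr9b (fun u => ?_), hk⟩
  simp only [K9.val_of hC, Cand.Hc]
  ring

/-- `poly5` with the monomials `1, κ, κ^2, ω, ωκ, ω^2` -/
theorem poly5_gen {c : K5} (hc : c.ok) {C : Fin 6 → ℤ}
    (hC : ∀ i, (c.c i : ℤ) = 2 ^ 60 + 4096 * C i) {t1 t2 t3 t4 t5 : T}
    {fo fk : ℝ × ℝ × ℝ → ℝ}
    (h1 : Enc t1 fk) (h2 : Enc t2 (fun u => fk u * fk u)) (h3 : Enc t3 fo)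
    (h4 : Enc t4 (fun u => fo u * fk u)) (h5 : Enc t5 (fun u => fo u * fo u)) {k : T → Bool}
    (h : poly5 c ⟨t1, t2, t3, t4, t5, t1.N + (t2.N + (t3.N + (t4.N + t5.N))),
      t1.nt + (t2.nt + (t3.nt + (t4.nt + t5.nt)))⟩ k = true) :
    ∃ t, Enc t (fun u => (C 0 + C 1 * fk u + C 2 * fk u ^ 2 + C 3 * fo u + C 4 * (fo u * fk u) +
      C 5 * fo u ^ 2) / 67108864) ∧ k t = true := by
  obtain ⟨t, ht, hk⟩ := poly5_sound hc h1 h2 h3 h4 h5 h
  refine ⟨t, ht.congr9b (fun u => ?_), hk⟩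
  simp only [K5.val_of hC]
  ring

theorem poly5_Hco {c : K5} (hc : c.ok) {a : Fin 5}
    (hC : ∀ i, (c.c i : ℤ) = 2 ^ 60 + 4096 * oC a i) {t1 t2 t3 t4 t5 : T}
    {fo fk : ℝ × ℝ × ℝ → ℝ}
    (h1 : Enc t1 fk) (h2 : Enc t2 (fun u => fk u * fk u)) (h3 : Enc t3 fo)
    (h4 : Enc t4 (fun u => fo u * fk u)) (h5 : Enc t5 (fun u => fo u * fo u)) {k : T → Bool}
    (h : poly5 c ⟨t1, t2, t3, t4, t5, t1.N + (t2.N + (t3.N + (t4.N + t5.N))),
      t1.nt + (t2.nt + (t3.nt + (t4.nt + t5.nt)))⟩ k = true) :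
    ∃ t, Enc t (fun u => Cand.Hco (Cand.C a) (fo u) (fk u)) ∧ k t = true := by
  obtain ⟨t, ht, hk⟩ := poly5_gen hc hC h1 h2 h3 h4 h5 h
  refine ⟨t, ht.congr9b (fun u => ?_), hk⟩
  have e0 : oC a 0 = Cand.C a 4 := rfl
  have e1 : oC a 1 = Cand.C a 5 := rfl
  have e2 : oC a 2 = Cand.C a 6 := rfl
  have e3 : oC a 3 = 2 * Cand.C a 7 := rfl
  have e4 : oC a 4 = 2 * Cand.C a 8 := rfl
  have e5 : oC a 5 = 3 * Cand.C a 9 := rfl
  simp only [Cand.Hco, e0, e1, e2, e3, e4, e5]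
  push_cast
  ring

theorem evalH_sound {s om ka : T} {fs fo fk : ℝ × ℝ × ℝ → ℝ} (hs : Enc s fs) (ho : Enc om fo)
    (hk : Enc ka fk) {k : T → T → T → Bool} (h : evalH s om ka k = true) :
    ∃ tH tO tS, Enc tH (fun u => Cand.H (fs u) (fo u) (fk u)) ∧
      Enc tO (fun u => Cand.Ho (fs u) (fo u) (fk u)) ∧
      Enc tS (fun u => Cand.Hs (fs u) (fo u) (fk u)) ∧ k tH tO tS = true := by
  unfold evalH at h
  obtain ⟨k2, hk2, h⟩ := mul_sound hk hk h
  obtain ⟨k3, hk3, h⟩ := mul_sound hk2 hk h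
  obtain ⟨ok, hok, h⟩ := mul_sound ho hk h
  obtain ⟨ok2, hok2, h⟩ := mul_sound ho hk2 h
  obtain ⟨o2, ho2, h⟩ := mul_sound ho ho h
  obtain ⟨o2k, ho2k, h⟩ := mul_sound ho2 hk h
  obtain ⟨o3, ho3, h⟩ := mul_sound ho2 ho h
  have h := mk9_sound h
  have h := mk5_sound h
  obtain ⟨c0, hc0, h⟩ := poly9_Hc kH0_ok kH0_c hk hk2 hk3 ho hok hok2 ho2 ho2k ho3 h
  obtain ⟨c1, hc1, h⟩ := poly9_Hc kH1_ok kH1_c hk hk2 hk3 ho hok hok2 ho2 ho2k ho3 h
  obtain ⟨c2, hc2, h⟩ := poly9_Hc kH2_ok kH2_c hk hk2 hk3 ho hok hok2 ho2 ho2k ho3 h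
  obtain ⟨c3, hc3, h⟩ := poly9_Hc kH3_ok kH3_c hk hk2 hk3 ho hok hok2 ho2 ho2k ho3 h
  obtain ⟨c4, hc4, h⟩ := poly9_Hc kH4_ok kH4_c hk hk2 hk3 ho hok hok2 ho2 ho2k ho3 h
  obtain ⟨tH, htH, h⟩ := horner5_sound hs hc0 hc1 hc2 hc3 hc4 h
  obtain ⟨d2, hd2, h⟩ := smul_sound hc2 h
  obtain ⟨d3, hd3, h⟩ := smul_sound hc3 h
  obtain ⟨d4, hd4, h⟩ := smul_sound hc4 h
  obtain ⟨tS, htS, h⟩ := horner4_sound hs hc1 hd2 hd3 hd4 h
  obtain ⟨e0, he0, h⟩ := poly5_Hco kO0_ok kO0_c hk hk2 ho hok ho2 h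
  obtain ⟨e1, he1, h⟩ := poly5_Hco kO1_ok kO1_c hk hk2 ho hok ho2 h
  obtain ⟨e2, he2, h⟩ := poly5_Hco kO2_ok kO2_c hk hk2 ho hok ho2 h
  obtain ⟨e3, he3, h⟩ := poly5_Hco kO3_ok kO3_c hk hk2 ho hok ho2 h
  obtain ⟨e4, he4, h⟩ := poly5_Hco kO4_ok kO4_c hk hk2 ho hok ho2 h
  obtain ⟨tO, htO, h⟩ := horner5_sound hs he0 he1 he2 he3 he4 h
  refine ⟨tH, tO, tS, htH.congr9b (fun u => rfl), htO.congr9b (fun u => rfl),
    htS.congr9b (fun u => ?_), h⟩
  simp only [Cand.Hs]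
  push_cast
  ring

theorem evalL'_sound {s : T} {fs : ℝ × ℝ × ℝ → ℝ} (hs : Enc s fs) {k : T → Bool}
    (h : evalL' s k = true) : ∃ t, Enc t (fun u => Cand.lamS' (fs u)) ∧ k t = true := by
  unfold evalL' at h
  obtain ⟨a, ha, h⟩ := t9b_cst_sound h
  obtain ⟨a, ha, h⟩ := mul_sound hs ha h
  obtain ⟨a, ha, h⟩ := addc_sound ha h
  obtain ⟨a, ha, h⟩ := mul_sound hs ha h
  obtain ⟨a, ha, h⟩ := addc_sound ha h
  obtain ⟨a, ha, h⟩ := mul_sound hs ha h
  obtain ⟨a, ha, h⟩ := addc_sound ha h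
  obtain ⟨a, ha, h⟩ := mul_sound hs ha h
  obtain ⟨a, ha, h⟩ := addc_sound ha h
  refine ⟨a, ha.congr9b (fun u => ?_), h⟩
  have e0 : Cand.L 0 = -25467869 := rfl
  have e1 : Cand.L 1 = -76953169 := rfl
  have e2 : Cand.L 2 = 118644794 := rfl
  have e3 : Cand.L 3 = -47858182 := rfl
  simp only [Cand.lamS', Cand.l, Cand.l', e0, e1, e2, e3]
  push_cast
  ring

theorem evalSL_sound {s : T} {fs : ℝ × ℝ × ℝ → ℝ} (hs : Enc s fs) {k : T → Bool}
    (h : evalSL s k = true) : ∃ t, Enc t (fun u => 2 * (fs u * Cand.l (fs u))) ∧ k t = true := by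
  unfold evalSL at h
  obtain ⟨a, ha, h⟩ := t9b_cst_sound h
  obtain ⟨a, ha, h⟩ := mul_sound hs ha h
  obtain ⟨a, ha, h⟩ := addc_sound ha h
  obtain ⟨a, ha, h⟩ := mul_sound hs ha h
  obtain ⟨a, ha, h⟩ := addc_sound ha h
  obtain ⟨a, ha, h⟩ := mul_sound hs ha h
  obtain ⟨a, ha, h⟩ := addc_sound ha h
  obtain ⟨a, ha, h⟩ := mul_sound hs ha h
  obtain ⟨a, ha, h⟩ := smul_sound ha h
  refine ⟨a, ha.congr9b (fun u => ?_), h⟩
  have e0 : Cand.L 0 = -25467869 := rfl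
  have e1 : Cand.L 1 = -76953169 := rfl
  have e2 : Cand.L 2 = 118644794 := rfl
  have e3 : Cand.L 3 = -47858182 := rfl
  simp only [Cand.l, e0, e1, e2, e3]
  push_cast
  ring

end DT.TM

end

section

/-!
# Soundness of the evaluation of the three inequalities on a cell
-/

open Real Set

namespace DT.TM

theorem T9c_congr {t : T} {f f' : ℝ × ℝ × ℝ → ℝ} (h : Enc t f) (hf : ∀ u, f u = f' u) :
    Enc t f' := by
  have e : f = f' := funext hf
  rwa [← e]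

theorem T9c_horner5 {s t0 t1 t2 t3 t4 : T} {fs f0 f1 f2 f3 f4 : ℝ × ℝ × ℝ → ℝ} (hs : Enc s fs)
    (h0 : Enc t0 f0) (h1 : Enc t1 f1) (h2 : Enc t2 f2) (h3 : Enc t3 f3) (h4 : Enc t4 f4)
    {k : T → Bool} (h : horner5 s t0 t1 t2 t3 t4 k = true) :
    ∃ t, Enc t (fun u => f0 u + fs u * (f1 u + fs u * (f2 u + fs u * (f3 u + fs u * f4 u)))) ∧
      k t = true := by
  unfold horner5 at h
  obtain ⟨a, ha, h⟩ := mul_sound hs h4 h
  obtain ⟨a, ha, h⟩ := add_sound ha h3 h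
  obtain ⟨a, ha, h⟩ := mul_sound hs ha h
  obtain ⟨a, ha, h⟩ := add_sound ha h2 h
  obtain ⟨a, ha, h⟩ := mul_sound hs ha h
  obtain ⟨a, ha, h⟩ := add_sound ha h1 h
  obtain ⟨a, ha, h⟩ := mul_sound hs ha h
  obtain ⟨a, ha, h⟩ := add_sound ha h0 h
  refine ⟨a, T9c_congr ha fun u => ?_, h⟩
  ring

theorem T9c_kM0 : kM0.ok := by
  refine ⟨by decide +kernel, ?_⟩
  decide +kernel
theorem T9c_kM1 : kM1.ok := by
  refine ⟨by decide +kernel, ?_⟩
  decide +kernel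
theorem T9c_kM2 : kM2.ok := by
  refine ⟨by decide +kernel, ?_⟩
  decide +kernel
theorem T9c_kM3 : kM3.ok := by
  refine ⟨by decide +kernel, ?_⟩
  decide +kernel
theorem T9c_kM4 : kM4.ok := by
  refine ⟨by decide +kernel, ?_⟩
  decide +kernel
theorem T9c_kP0 : kP0.ok := by
  refine ⟨by decide +kernel, ?_⟩
  decide +kernel
theorem T9c_kP1 : kP1.ok := by
  refine ⟨by decide +kernel, ?_⟩
  decide +kernel
theorem T9c_kP2 : kP2.ok := by
  refine ⟨by decide +kernel, ?_⟩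
  decide +kernel
theorem T9c_kP3 : kP3.ok := by
  refine ⟨by decide +kernel, ?_⟩
  decide +kernel
theorem T9c_kP4 : kP4.ok := by
  refine ⟨by decide +kernel, ?_⟩
  decide +kernel

theorem T9c_cell {a0 ah x0 hx y0 hy : ℕ} (hc : Cell a0 ah x0 hx y0 hy) :
    ah ≤ a0 ∧ a0 + ah ≤ 2 ^ 36 ∧ hx ≤ x0 ∧ x0 + hx ≤ 2 ^ 38 ∧ hy ≤ y0 ∧ y0 + hy ≤ 2 ^ 38 := hc

theorem evalA_sound {a0 ah x0 hx y0 hy : ℕ} (hc : Cell a0 ah x0 hx y0 hy)
    (h : evalA a0 ah x0 hx y0 hy = true) :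
    CellOK (fun s x y => 0 ≤ FA s x y) a0 ah x0 hx y0 hy := by
  obtain ⟨q1, q2, q3, q4, q5, q6⟩ := T9c_cell hc
  unfold evalA at h
  obtain ⟨s, w, s1, om, ka, hs, hw, hs1, ho, hk, h⟩ := inputs_sound q1 q2 q3 q4 q5 q6 h
  obtain ⟨k2, hk2, h⟩ := mul_sound hk hk h
  obtain ⟨ok, hok, h⟩ := mul_sound ho hk h
  obtain ⟨o2, ho2, h⟩ := mul_sound ho ho h
  rw [mk5, force_eq, force_eq] at h
  obtain ⟨c0, hc0, h⟩ := poly5_sound T9c_kM0 hk hk2 ho hok ho2 h
  obtain ⟨c1, hc1, h⟩ := poly5_sound T9c_kM1 hk hk2 ho hok ho2 h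
  obtain ⟨c2, hc2, h⟩ := poly5_sound T9c_kM2 hk hk2 ho hok ho2 h
  obtain ⟨c3, hc3, h⟩ := poly5_sound T9c_kM3 hk hk2 ho hok ho2 h
  obtain ⟨c4, hc4, h⟩ := poly5_sound T9c_kM4 hk hk2 ho hok ho2 h
  obtain ⟨H, hH, h⟩ := T9c_horner5 hs hc0 hc1 hc2 hc3 hc4 h
  obtain ⟨sl, hsl, h⟩ := evalSL_sound hs h
  obtain ⟨H, hH, h⟩ := sub_sound hH hsl h
  obtain ⟨H, hH, h⟩ := addc_sound hH h
  intro u hu
  have hp := pos_sound hH h u hu
  refine hp.trans_eq ?_
  simp only [FA, Cand.Ho, Cand.Hk, Cand.Hco, Cand.Hck, Cand.C, K5.val, K5.c, kM0, kM1, kM2, kM3,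
    kM4]
  generalize cs a0 ah u.1 = S
  generalize π / 2 * (cx x0 hx u.2.1 + cx y0 hy u.2.2) + 5 / 4 * S * (cx x0 hx u.2.1 - cx y0 hy u.2.2) = W
  generalize 5 / 4 * S * (1 - (cx x0 hx u.2.1 + cx y0 hy u.2.2)) - π / 2 * (cx x0 hx u.2.1 - cx y0 hy u.2.2) = K
  simp
  ring

theorem evalB_sound {a0 ah x0 hx y0 hy : ℕ} (hc : Cell a0 ah x0 hx y0 hy)
    (h : evalB a0 ah x0 hx y0 hy = true) :
    CellOK (fun s x y => 0 ≤ FB s x y) a0 ah x0 hx y0 hy := by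
  obtain ⟨q1, q2, q3, q4, q5, q6⟩ := T9c_cell hc
  unfold evalB at h
  obtain ⟨s, w, s1, om, ka, hs, hw, hs1, ho, hk, h⟩ := inputs_sound q1 q2 q3 q4 q5 q6 h
  obtain ⟨k2, hk2, h⟩ := mul_sound hk hk h
  obtain ⟨ok, hok, h⟩ := mul_sound ho hk h
  obtain ⟨o2, ho2, h⟩ := mul_sound ho ho h
  rw [mk5, force_eq, force_eq] at h
  obtain ⟨c0, hc0, h⟩ := poly5_sound T9c_kP0 hk hk2 ho hok ho2 h
  obtain ⟨c1, hc1, h⟩ := poly5_sound T9c_kP1 hk hk2 ho hok ho2 h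
  obtain ⟨c2, hc2, h⟩ := poly5_sound T9c_kP2 hk hk2 ho hok ho2 h
  obtain ⟨c3, hc3, h⟩ := poly5_sound T9c_kP3 hk hk2 ho hok ho2 h
  obtain ⟨c4, hc4, h⟩ := poly5_sound T9c_kP4 hk hk2 ho hok ho2 h
  obtain ⟨H, hH, h⟩ := T9c_horner5 hs hc0 hc1 hc2 hc3 hc4 h
  obtain ⟨sl, hsl, h⟩ := evalSL_sound hs h
  obtain ⟨H, hH, h⟩ := add_sound hH hsl h
  obtain ⟨H, hH, h⟩ := addc_sound hH h
  obtain ⟨H, hH, h⟩ := mul_sound hs1 hH h
  obtain ⟨H, hH, h⟩ := addc_sound hH h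
  intro u hu
  have hp := pos_sound hH h u hu
  refine hp.trans_eq ?_
  simp only [FB, Cand.Ho, Cand.Hk, Cand.Hco, Cand.Hck, Cand.C, Cand.Bh, K5.val, K5.c, kP0, kP1,
    kP2, kP3, kP4]
  generalize cs a0 ah u.1 = S
  generalize π / 2 * (cx x0 hx u.2.1 + cx y0 hy u.2.2) +
    5 / 4 * S * (cx x0 hx u.2.1 - cx y0 hy u.2.2) = W
  generalize 5 / 4 * S * (1 - (cx x0 hx u.2.1 + cx y0 hy u.2.2)) -
    π / 2 * (cx x0 hx u.2.1 - cx y0 hy u.2.2) = K
  simp
  ring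

theorem T9c_g {s1 om ka H Ho Hs : T} {f1 fo fk fH fHo fHs : ℝ × ℝ × ℝ → ℝ} (hs1 : Enc s1 f1)
    (ho : Enc om fo) (hk : Enc ka fk) (hH : Enc H fH) (hHo : Enc Ho fHo) (hHs : Enc Hs fHs)
    {k : T → T → T → Bool}
    (h : (add om ka fun b => cmul 431500283904 b fun b => mul s1 H fun g => add b g fun g =>
      addc 1152920965488225280 g fun g =>
      mul s1 Ho fun go => addc 1152921936107130880 go fun go =>
      mul s1 Hs fun gw => sub gw H fun gw => cmul 219902325555 gw fun gw => k g go gw) = true) :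
    ∃ g go gw, Enc g (fun u => Cand.A0 + Cand.Bh * (fo u - 5 / 4 + fk u) + f1 u * fH u) ∧
      Enc go (fun u => Cand.Bh + f1 u * fHo u) ∧
      Enc gw (fun u => 4 / 5 * (-fH u + f1 u * fHs u)) ∧ k g go gw = true := by
  obtain ⟨b, hb, h⟩ := add_sound ho hk h
  obtain ⟨b, hb, h⟩ := cmul_sound (γ := Cand.Bh) (by norm_num [Cand.Bh]) hb h
  obtain ⟨g, hg, h⟩ := mul_sound hs1 hH h
  obtain ⟨g, hg, h⟩ := add_sound hb hg h
  obtain ⟨g, hg, h⟩ := addc_sound hg h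
  obtain ⟨go, hgo, h⟩ := mul_sound hs1 hHo h
  obtain ⟨go, hgo, h⟩ := addc_sound hgo h
  obtain ⟨gw, hgw, h⟩ := mul_sound hs1 hHs h
  obtain ⟨gw, hgw, h⟩ := sub_sound hgw hH h
  obtain ⟨gw, hgw, h⟩ := cmul_sound (γ := 4 / 5) (by norm_num [abs_le]) hgw h
  refine ⟨g, go, gw, T9c_congr hg fun u => ?_, T9c_congr hgo fun u => ?_,
    T9c_congr hgw fun u => ?_, h⟩
  · simp only [Cand.A0, Cand.Bh]
    push_cast
    ring
  · simp only [Cand.Bh]
    push_cast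
    ring
  · ring

theorem T9c_tail1 {g go so co sk ck sw cw : T} {fg fgo fso fco fsk fck fsw fcw :
    ℝ × ℝ × ℝ → ℝ} (hg : Enc g fg) (hgo : Enc go fgo)
    (hso : Enc so fso) (hco : Enc co fco) (hsk : Enc sk fsk) (hck : Enc ck fck)
    (hsw : Enc sw fsw) (hcw : Enc cw fcw) {k : T → T → Bool}
    (h : (mul co sw fun D => sub D sk fun D =>
      mul g co fun E => mul go so fun E' => sub E E' fun E =>
      mul cw ck fun cd => mul sw sk fun cd' => add cd cd' fun cd =>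
      sub cd co fun cd => cmul 439804651110 cd fun cd => mul cw E fun E => add cd E fun G =>
      k D G) = true) :
    ∃ D G, Enc D (fun u => fco u * fsw u - fsk u) ∧
      Enc G (fun u => 8 / 5 * (fcw u * fck u + fsw u * fsk u - fco u) +
        fcw u * (fg u * fco u - fgo u * fso u)) ∧ k D G = true := by
  obtain ⟨D, hD, h⟩ := mul_sound hco hsw h
  obtain ⟨D, hD, h⟩ := sub_sound hD hsk h
  obtain ⟨E, hE, h⟩ := mul_sound hg hco h
  obtain ⟨E', hE', h⟩ := mul_sound hgo hso h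
  obtain ⟨E, hE, h⟩ := sub_sound hE hE' h
  obtain ⟨cd, hcd, h⟩ := mul_sound hcw hck h
  obtain ⟨cd', hcd', h⟩ := mul_sound hsw hsk h
  obtain ⟨cd, hcd, h⟩ := add_sound hcd hcd' h
  obtain ⟨cd, hcd, h⟩ := sub_sound hcd hco h
  obtain ⟨cd, hcd, h⟩ := cmul_sound (γ := 8 / 5) (by norm_num [abs_le]) hcd h
  obtain ⟨E, hE, h⟩ := mul_sound hcw hE h
  obtain ⟨G, hG, h⟩ := add_sound hcd hE h
  exact ⟨D, G, hD, hG, h⟩

theorem T9c_bif {G1 : T} {b : Bool} (h : (bif pos G1 then b else false) = true) :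
    pos G1 = true ∧ b = true := by
  cases hp : pos G1
  · rw [hp] at h
    exact absurd h (by simp)
  · rw [hp] at h
    exact ⟨rfl, h⟩

theorem T9c_tail2 {D G gw lp so : T} {fD fG fgw fl fso : ℝ × ℝ × ℝ → ℝ} (hD : Enc D fD)
    (hG : Enc G fG) (hgw : Enc gw fgw) (hlp : Enc lp fl) (hso : Enc so fso)
    (h : (mul gw D fun gD => sub G gD fun G =>
      mul so D fun D => mul lp D fun D => cmul 439804651110 D fun D =>
      sub G D fun G1 => bif pos G1 then add G D fun G2 => pos G2 else false) = true) :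
    ∃ G1 G2, Enc G1 (fun u => fG u - (fgw u + 2 * (4 / 5 * fl u) * fso u) * fD u) ∧
      Enc G2 (fun u => fG u - (fgw u + -2 * (4 / 5 * fl u) * fso u) * fD u) ∧
      pos G1 = true ∧ pos G2 = true := by
  obtain ⟨gD, hgD, h⟩ := mul_sound hgw hD h
  obtain ⟨G, hG, h⟩ := sub_sound hG hgD h
  obtain ⟨D, hD, h⟩ := mul_sound hso hD h
  obtain ⟨D, hD, h⟩ := mul_sound hlp hD h
  obtain ⟨D, hD, h⟩ := cmul_sound (γ := 8 / 5) (by norm_num [abs_le]) hD h
  obtain ⟨G1, hG1, h⟩ := sub_sound hG hD h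
  obtain ⟨hpG, h⟩ := T9c_bif h
  obtain ⟨G2, hG2, h⟩ := add_sound hG hD h
  refine ⟨G1, G2, T9c_congr hG1 fun u => ?_, T9c_congr hG2 fun u => ?_, hpG, h⟩
  · ring
  · ring

theorem evalC_sound_of (hSC : ∀ {a : T} {fa : ℝ × ℝ × ℝ → ℝ} {k : T → T → Bool}, Enc a fa →
    SC a k = true → ∃ s c, Enc s (fun u => sin (fa u)) ∧ Enc c (fun u => cos (fa u)) ∧
    k s c = true) {a0 ah x0 hx y0 hy : ℕ} (hc : Cell a0 ah x0 hx y0 hy)
    (h : evalC a0 ah x0 hx y0 hy = true) :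
    CellOK (fun s x y => 0 ≤ FC 2 s x y ∧ 0 ≤ FC (-2) s x y) a0 ah x0 hx y0 hy := by
  obtain ⟨q1, q2, q3, q4, q5, q6⟩ := T9c_cell hc
  unfold evalC at h
  obtain ⟨s, w, s1, om, ka, hs, hw, hs1, ho, hk, h⟩ := inputs_sound q1 q2 q3 q4 q5 q6 h
  obtain ⟨H, Ho, Hs, hH, hHo, hHs, h⟩ := evalH_sound hs ho hk h
  obtain ⟨g, go, gw, hg, hgo, hgw, h⟩ := T9c_g hs1 ho hk hH hHo hHs h
  obtain ⟨lp, hlp, h⟩ := evalL'_sound hs h
  obtain ⟨so, co, hso, hco, h⟩ := hSC ho h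
  obtain ⟨sk, ck, hsk, hck, h⟩ := hSC hk h
  obtain ⟨sw, cw, hsw, hcw, h⟩ := hSC hw h
  obtain ⟨D, G, hD, hG, h⟩ := T9c_tail1 hg hgo hso hco hsk hck hsw hcw h
  obtain ⟨G1, G2, hG1, hG2, e1, e2⟩ := T9c_tail2 hD hG hgw hlp hso h
  intro u hu
  have hp1 := pos_sound hG1 e1 u hu
  have hp2 := pos_sound hG2 e2 u hu
  simp only [FC, Cand.g, Cand.go, Cand.gw]
  rw [cos_sub (5 / 4 * cs a0 ah u.1)]
  exact ⟨hp1, hp2⟩

end DT.TM

end

section

/-!
# T9c: soundness of `evalC`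
-/

namespace DT.TM

theorem evalC_sound {a0 ah x0 hx y0 hy : ℕ} (hc : Cell a0 ah x0 hx y0 hy)
    (h : evalC a0 ah x0 hx y0 hy = true) :
    CellOK (fun s x y => 0 ≤ FC 2 s x y ∧ 0 ≤ FC (-2) s x y) a0 ah x0 hx y0 hy :=
  evalC_sound_of (fun ha hk => SC_sound ha hk) hc h

end DT.TM

end
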