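import Pool.Agent.Work.MP_74021c_co.Low.Sound
import Pool.Agent.Work.MP_74021c_co.FDefs

/-! Bundle of small proof modules (one section per former module). -/

section

set_option autoImplicit false

namespace DLow

/-- From a checked data list to a point set in general position. -/
theorem final (d : List (ℕ × ℕ × ℕ × List ℕ)) (num den : ℕ) (hnum : 0 < num) (hden : 0 < den)
    (p q : ℕ)
    (hcheck : ∀ i j : ℕ, i < j → ∀ (u v : Vt × List ℕ), (d.map toV)[i]? = some u →
      (d.map toV)[j]? = some v → OK (d.map toV) u.1 v.1)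
    (he : endT d p q num den = true) :
    ∃ (S : Finset ℂ) (p q : ℂ), GenPos S ∧ p ∈ S ∧ q ∈ S ∧ p ≠ q ∧ (Del S).Reachable p q ∧
      ∀ w : (Del S).Walk p q, (num : ℝ) / den * dist p q < wlen w := by
  classical
  set all := d.map toV with hall
  have hform : ∀ w ∈ all, w.1.q = w.1.x * w.1.x + w.1.y * w.1.y ∧ w.1.s = w.1.f * w.1.f := by
    intro w hw
    rw [hall, List.mem_map] at hw
    obtain ⟨e, -, rfl⟩ := hw
    exact ⟨rfl, rfl⟩
  -- the ends
  unfold endT at he
  rcases hp : d[p]? with _ | ⟨xp, yp, fp, lp⟩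
  · rw [hp] at he
    simp at he
  rcases hq : d[q]? with _ | ⟨xq, yq, fq, lq⟩
  · rw [hp, hq] at he
    simp at he
  rw [hp, hq] at he
  simp only [Bool.and_eq_true, blt_iff] at he
  obtain ⟨hf, he⟩ := he
  have hpl : p < all.length := by
    rw [hall, List.length_map]
    exact (List.getElem?_eq_some_iff.1 hp).1
  have hql : q < all.length := by
    rw [hall, List.length_map]
    exact (List.getElem?_eq_some_iff.1 hq).1
  have hpv : all[p] = toV (xp, yp, fp, lp) := by
    have h1 : all[p]? = some (toV (xp, yp, fp, lp)) := by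
      rw [hall, List.getElem?_map, hp]
      rfl
    exact (List.getElem?_eq_some_iff.1 h1).2
  have hqv : all[q] = toV (xq, yq, fq, lq) := by
    have h1 : all[q]? = some (toV (xq, yq, fq, lq)) := by
      rw [hall, List.getElem?_map, hq]
      rfl
    exact (List.getElem?_eq_some_iff.1 h1).2
  have hden' : (0 : ℝ) < den := by exact_mod_cast hden
  have hnum' : (0 : ℝ) < num := by exact_mod_cast hnum
  refine perturb (n := all.length) (fun i => pos (all[i]).1) (fun i => ((all[i]).1.f : ℝ))
    ((num : ℝ) / den) (div_pos hnum' hden') ⟨p, hpl⟩ ⟨q, hql⟩ ?_ ?_ ?_ ?_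
  · intro i j hij
    have hi : all[(i : ℕ)]? = some all[i] := List.getElem?_eq_getElem i.2
    have hj : all[(j : ℕ)]? = some all[j] := List.getElem?_eq_getElem j.2
    have hu := hform _ (List.getElem_mem i.2)
    have hv := hform _ (List.getElem_mem j.2)
    rcases hcheck i j hij _ _ hi hj with h | ⟨a, ha, b, hb, h⟩
    · exact Or.inl (lip_real _ _ hu.1 hv.1 hu.2 hv.2 h)
    · obtain ⟨ia, hia, rfl⟩ := List.getElem_of_mem ha
      obtain ⟨ib, hib, rfl⟩ := List.getElem_of_mem hb
      exact Or.inr ⟨⟨ia, hia⟩, ⟨ib, hib⟩, cone_real _ _ _ _ hu.1 hv.1 (hform _ ha).1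
        (hform _ hb).1 h⟩
  · intro h
    have h1 : p = q := by simpa using h
    subst h1
    rw [hp] at hq
    simp only [Option.some.injEq, Prod.mk.injEq] at hq
    omega
  · simp only [hpv, hqv, toV, Fin.getElem_fin]
    exact_mod_cast hf
  · simp only [hpv, hqv, toV, Fin.getElem_fin]
    rw [Complex.normSq_apply]
    simp only [pos, Complex.sub_re, Complex.sub_im]
    have h1 := (Nat.cast_lt (α := ℝ)).2 he
    push_cast at h1
    rw [div_pow, div_mul_eq_mul_div, div_lt_iff₀ (by positivity)]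
    nlinarith

end DLow

end

section

set_option autoImplicit false

namespace DLow

open _root_.DT in
/-- from `ℂ` to the Euclidean plane -/
theorem transfer (c : ℝ) (h : ∃ (S : Finset ℂ) (p q : ℂ), GenPos S ∧ p ∈ S ∧ q ∈ S ∧ p ≠ q ∧
      (Del S).Reachable p q ∧ ∀ w : (Del S).Walk p q, c * dist p q < wlen w) :
    ∃ (S : Finset Plane) (p q : Plane), GeneralPosition S ∧ p ∈ S ∧ q ∈ S ∧ p ≠ q ∧
      (emptyCircleGraph S).Reachable p q ∧
      ∀ W : (emptyCircleGraph S).Walk p q, c * dist p q < walkLength W := by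
  classical
  obtain ⟨S, p, q, hG, hp, hq, hpq, hr, hw⟩ := h
  set e : ℂ ≃ₗᵢ[ℝ] Plane := Complex.orthonormalBasisOneI.repr with he
  set S' : Finset Plane := S.image e with hS'
  have hmem : ∀ z, e z ∈ S' ↔ z ∈ S := by
    intro z
    rw [hS', Finset.mem_image]
    constructor
    · rintro ⟨w, hw, hwz⟩
      rwa [← e.injective hwz]
    · intro hz
      exact ⟨z, hz, rfl⟩
  have hmem' : ∀ z ∈ S', e.symm z ∈ S := by
    intro z hz
    rw [← hmem, LinearIsometryEquiv.apply_symm_apply]
    exact hz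
  have hd : ∀ z w : Plane, dist (e.symm z) (e.symm w) = dist z w := fun z w =>
    e.symm.dist_map z w
  have hadj : ∀ u v : Plane, (emptyCircleGraph S').Adj u v →
      (Del S).Adj (e.symm u) (e.symm v) := by
    rintro u v ⟨h1, hu, hv, o, r, ho1, ho2, ho3⟩
    refine ⟨fun h => h1 (e.symm.injective h), hmem' u hu, hmem' v hv, e.symm o, r, ?_, ?_, ?_⟩
    · rw [hd, ho1]
    · rw [hd, ho2]
    · intro w hw
      have h2 := ho3 (e w) ((hmem w).2 hw)
      rw [← hd, LinearIsometryEquiv.symm_apply_apply] at h2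
      exact h2
  have hadj' : ∀ u v : ℂ, (Del S).Adj u v → (emptyCircleGraph S').Adj (e u) (e v) := by
    rintro u v ⟨h1, hu, hv, o, r, ho1, ho2, ho3⟩
    refine ⟨fun h => h1 (e.injective h), (hmem u).2 hu, (hmem v).2 hv, e o, r, ?_, ?_, ?_⟩
    · rw [e.dist_map, ho1]
    · rw [e.dist_map, ho2]
    · intro w hw
      have h2 := ho3 _ (hmem' w hw)
      rw [← e.dist_map, LinearIsometryEquiv.apply_symm_apply] at h2
      exact h2
  have hwalk : ∀ (u v : Plane) (W : (emptyCircleGraph S').Walk u v),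
      ∃ W0 : (Del S).Walk (e.symm u) (e.symm v), wlen W0 = walkLength W := by
    intro u v W
    induction W with
    | nil => exact ⟨SimpleGraph.Walk.nil, by simp [wlen, walkLength]⟩
    | @cons u v w h W ih =>
      obtain ⟨W0, hW0⟩ := ih
      refine ⟨SimpleGraph.Walk.cons (hadj u v h) W0, ?_⟩
      have h3 : wlen (SimpleGraph.Walk.cons (hadj u v h) W0) =
          dist (e.symm u) (e.symm v) + wlen W0 := by
        simp [wlen]
      rw [h3, hW0, hd, walkLength]
  refine ⟨S', e p, e q, ⟨?_, ?_⟩, (hmem p).2 hp, (hmem q).2 hq, fun h => hpq (e.injective h),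
    ?_, ?_⟩
  · intro a ha b hb c' hc' hab hac hbc hcol
    refine hG.line _ (hmem' a ha) _ (hmem' b hb) _ (hmem' c' hc')
      (fun h => hab (e.symm.injective h)) (fun h => hac (e.symm.injective h))
      (fun h => hbc (e.symm.injective h)) ?_
    rw [collinear_iff_of_mem (p₀ := a) (by simp)] at hcol
    rw [collinear_iff_of_mem (p₀ := e.symm a) (by simp)]
    obtain ⟨v, hv⟩ := hcol
    refine ⟨e.symm v, ?_⟩
    intro z hz
    have hz' : ∃ z' ∈ ({a, b, c'} : Set Plane), e.symm z' = z := by
      simp only [Set.mem_insert_iff, Set.mem_singleton_iff] at hz ⊢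
      rcases hz with h | h | h
      · exact ⟨a, Or.inl rfl, h.symm⟩
      · exact ⟨b, Or.inr (Or.inl rfl), h.symm⟩
      · exact ⟨c', Or.inr (Or.inr rfl), h.symm⟩
    obtain ⟨z', hz', rfl⟩ := hz'
    obtain ⟨r, hr⟩ := hv z' hz'
    refine ⟨r, ?_⟩
    rw [hr, vadd_eq_add, vadd_eq_add, map_add, map_smul]
  · intro a ha b hb c' hc' d hd' hab hac had hbc hbd hcd hcirc
    obtain ⟨o, r, h1, h2, h3, h4⟩ := hcirc
    refine hG.circle _ (hmem' a ha) _ (hmem' b hb) _ (hmem' c' hc') _ (hmem' d hd')
      (fun h => hab (e.symm.injective h)) (fun h => hac (e.symm.injective h))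
      (fun h => had (e.symm.injective h)) (fun h => hbc (e.symm.injective h))
      (fun h => hbd (e.symm.injective h)) (fun h => hcd (e.symm.injective h))
      ⟨e.symm o, r, ?_, ?_, ?_, ?_⟩ <;> rw [hd] <;> assumption
  · let f : Del S →g emptyCircleGraph S' := ⟨e, fun {u v} h => hadj' u v h⟩
    exact hr.map f
  · intro W
    obtain ⟨W0, hW0⟩ := hwalk _ _ W
    have key : ∀ (a b : ℂ), a = p → b = q → ∀ W0 : (Del S).Walk a b,
        c * dist p q < wlen W0 := by
      rintro a b rfl rfl W0
      exact hw W0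
    have h1 := key _ _ (e.symm_apply_apply p) (e.symm_apply_apply q) W0
    rw [hW0] at h1
    rwa [e.dist_map]

end DLow

end
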